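import Pool.Agent.H48.OM.Defs
import Pool.Agent.H67.VS.Cov

/-!
[H48 OM COV3]  The third moment as a sum over primes.

Proof.  As `cov_one`, `cov_split` in `Pool/Agent/H67/VS/Cov.lean`.  Fix `h ∈ [1,H]` and put
`b(n) = ∑_{i ≤ H} bb ρ L Q n (i-h)`; `gH ρ L Q H x = b(x+h)` (`cov_bb_shift`), `|b| ≤ H L^2 |Q|`
(`cov_bb_le`).  `∑_{x ∈ (A,B]} w(x) pl(x+h) b(x+h)^2 = ∑_{n ∈ (A,B+h]} w(n-h) pl(n) b(n)^2`
(`w` vanishes at `n - h ≤ A`, `h ≤ H ≤ A`), and `w(n) = 0` for `n > B`, so the difference to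
`∑_{n ∈ (A,B]} w(n) pl(n) b(n)^2` is at most
`∑_{n ∈ (A,B+h]} |w(n-h) - w(n)| log(B+H) (H L^2 |Q|)^2 ≤ 3 h log(B+H) H^2 L^4 |Q|^2` (`cov_tv`).
Sum over `h ≤ H`: `≤ 3 H^4 L^4 |Q|^2 log(B+H)`.
`b(n)^2 = ∑_{q,q'} ∑_{i,j} (bq q n (i-h) F(n+i-h)) (bq q' n (j-h) F(n+j-h))`, so
`∑_n w pl b^2 = ∑_{q,q',i,j} TT(q,q',i-h,j-h)`.
`mean_sum` is the same argument without the factor `b^2`: for each `h`
`|∑ w(x) pl(x+h) - Θ| ≤ 3 h log(B+H)`.
-/

namespace Pool.Agent.H48.OM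

open Finset Pool.Agent.H21.MT Pool.Agent.H67.VS

private theorem cov3_shift {A B H : ℕ} {w : ℕ → ℝ} (hw : Wt A B w) (hHA : H ≤ A)
    (h : ℕ) (hh : h ∈ Icc 1 H) (F : ℕ → ℝ) {M : ℝ} (hF : ∀ n, |F n| ≤ M) :
    |∑ x ∈ Ioc A B, w x * (pl (x + h) * F (x + h)) - ∑ n ∈ Ioc A B, w n * pl n * F n| ≤
      3 * H * (Real.log (B + H) * M) := by
  rw [mem_Icc] at hh
  have hM : 0 ≤ M := (abs_nonneg _).trans (hF 0)
  have hS : ∑ x ∈ Ioc A B, w x * (pl (x + h) * F (x + h)) =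
      ∑ n ∈ Ioc A (B + h), w (n - h) * (pl n * F n) := by
    have e1 : ∑ x ∈ Ioc A B, w x * (pl (x + h) * F (x + h)) =
        ∑ n ∈ Ioc (A + h) (B + h), w (n - h) * (pl n * F n) := by
      refine Finset.sum_nbij' (fun n => n + h) (fun k => k - h) ?_ ?_ ?_ ?_ ?_
      · intro n hn
        rw [mem_Ioc] at hn ⊢
        omega
      · intro n hn
        rw [mem_Ioc] at hn ⊢
        omega
      · intro n hn
        rw [mem_Ioc] at hn
        omega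
      · intro n hn
        rw [mem_Ioc] at hn
        omega
      · intro n hn
        rw [Nat.add_sub_cancel]
    rw [e1]
    refine Finset.sum_subset ?_ ?_
    · intro n hn
      rw [mem_Ioc] at hn ⊢
      omega
    · intro n hn hn'
      rw [mem_Ioc] at hn hn'
      rw [hw.zero (n - h) (by rw [mem_Ioc]; omega), zero_mul]
  have hT : ∑ n ∈ Ioc A B, w n * pl n * F n =
      ∑ n ∈ Ioc A (B + h), w n * (pl n * F n) := by
    rw [← Finset.sum_subset (s₁ := Ioc A B) (s₂ := Ioc A (B + h))]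
    · exact Finset.sum_congr rfl (fun n _ => mul_assoc _ _ _)
    · intro n hn
      rw [mem_Ioc] at hn ⊢
      omega
    · intro n hn hn'
      rw [hw.zero n hn', zero_mul]
  rw [hS, hT, ← Finset.sum_sub_distrib]
  have hBH : (1 : ℝ) ≤ (B : ℝ) + H := by
    have : 1 ≤ B + H := by omega
    exact_mod_cast this
  have hlog : 0 ≤ Real.log ((B : ℝ) + H) := Real.log_nonneg hBH
  have hC : 0 ≤ Real.log ((B : ℝ) + H) * M := by positivity
  refine (Finset.abs_sum_le_sum_abs _ _).trans ?_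
  calc ∑ n ∈ Ioc A (B + h), |w (n - h) * (pl n * F n) - w n * (pl n * F n)|
      ≤ ∑ n ∈ Ioc A (B + h), |w (n - h) - w n| * (Real.log ((B : ℝ) + H) * M) := by
        refine Finset.sum_le_sum (fun n hn => ?_)
        rw [mem_Ioc] at hn
        rw [← sub_mul, abs_mul, abs_mul, abs_of_nonneg (cov_pl_nonneg n)]
        apply mul_le_mul_of_nonneg_left _ (abs_nonneg _)
        apply mul_le_mul
        · apply cov_pl_le _ hBH
          have : n ≤ B + H := by omega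
          exact_mod_cast this
        · exact hF n
        · exact abs_nonneg _
        · exact hlog
    _ = (∑ n ∈ Ioc A (B + h), |w (n - h) - w n|) * (Real.log ((B : ℝ) + H) * M) := by
        rw [Finset.sum_mul]
    _ ≤ 3 * H * (Real.log ((B : ℝ) + H) * M) := by
        apply mul_le_mul_of_nonneg_right _ hC
        refine (cov_tv hw (B + h) h (by omega)).trans ?_
        have : (h : ℝ) ≤ H := by exact_mod_cast hh.2
        linarith

private theorem cov3_swap {α β γ δ ε : Type} (a : Finset α) (b : Finset β) (c : Finset γ)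
    (d : Finset δ) (e : Finset ε) (f : ε → α → β → γ → δ → ℝ) :
    ∑ n ∈ e, ∑ q ∈ a, ∑ q' ∈ b, ∑ i ∈ c, ∑ j ∈ d, f n q q' i j =
      ∑ q ∈ a, ∑ q' ∈ b, ∑ i ∈ c, ∑ j ∈ d, ∑ n ∈ e, f n q q' i j := by
  rw [Finset.sum_comm]
  refine Finset.sum_congr rfl fun q _ => ?_
  rw [Finset.sum_comm]
  refine Finset.sum_congr rfl fun q' _ => ?_
  rw [Finset.sum_comm]
  refine Finset.sum_congr rfl fun i _ => ?_
  rw [Finset.sum_comm]

theorem cov3 {A B L H : ℕ} {w ρ : ℕ → ℝ} {Q : Finset ℕ} (hw : Wt A B w)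
    (hρ : SW L ρ) (hHA : H ≤ A) (hH : 1 ≤ H) (hQ : ∀ q ∈ Q, q.Prime) :
    |T3 A B w ρ L Q H - ∑ h ∈ Icc 1 H, ∑ q ∈ Q, ∑ q' ∈ Q, ∑ i ∈ Icc 1 H, ∑ j ∈ Icc 1 H,
      TT A B w ρ L q q' ((i : ℤ) - h) ((j : ℤ) - h)| ≤
      3 * (H : ℝ) ^ 4 * (L : ℝ) ^ 4 * (Q.card : ℝ) ^ 2 * Real.log (B + H) := by
  classical
  set b : ℕ → ℕ → ℝ := fun h n => ∑ i ∈ Icc 1 H, bb ρ L Q n ((i : ℤ) - h) with hb
  have hbg : ∀ h x : ℕ, gH ρ L Q H x = b h (x + h) := by
    intro h x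
    simp only [hb, gH]
    exact Finset.sum_congr rfl fun i _ => cov_bb_shift ρ L Q x h (i : ℤ)
  have hb1 : ∀ h n : ℕ, |b h n| ≤ H * ((L : ℝ) ^ 2 * Q.card) := by
    intro h n
    refine (Finset.abs_sum_le_sum_abs _ _).trans ?_
    refine (Finset.sum_le_card_nsmul _ _ ((L : ℝ) ^ 2 * Q.card) fun i _ =>
      cov_bb_le hρ hQ _ _).trans ?_
    rw [Nat.card_Icc, nsmul_eq_mul, Nat.add_sub_cancel]
  have hb2 : ∀ h n : ℕ, |b h n ^ 2| ≤ (H * ((L : ℝ) ^ 2 * Q.card)) ^ 2 := by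
    intro h n
    rw [abs_pow]
    exact pow_le_pow_left₀ (abs_nonneg _) (hb1 h n) 2
  have hS : T3 A B w ρ L Q H =
      ∑ h ∈ Icc 1 H, ∑ x ∈ Ioc A B, w x * (pl (x + h) * b h (x + h) ^ 2) := by
    unfold T3 PH
    rw [Finset.sum_comm]
    refine Finset.sum_congr rfl fun x _ => ?_
    rw [Finset.sum_mul, Finset.mul_sum]
    exact Finset.sum_congr rfl fun h _ => by rw [hbg h x]
  have hsq : ∀ h n : ℕ, b h n ^ 2 = ∑ q ∈ Q, ∑ q' ∈ Q, ∑ i ∈ Icc 1 H, ∑ j ∈ Icc 1 H,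
      ((bq q n ((i : ℤ) - h) * FF ρ L n ((i : ℤ) - h)) *
        (bq q' n ((j : ℤ) - h) * FF ρ L n ((j : ℤ) - h))) := by
    intro h n
    have e1 : b h n = ∑ q ∈ Q, ∑ i ∈ Icc 1 H,
        bq q n ((i : ℤ) - h) * FF ρ L n ((i : ℤ) - h) := by
      simp only [hb, bb, GG]
      rw [Finset.sum_comm]
      refine Finset.sum_congr rfl fun i _ => ?_
      rw [Finset.mul_sum]
      refine Finset.sum_congr rfl fun q _ => ?_
      unfold bq
      ring
    rw [pow_two, e1, Finset.sum_mul_sum]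
    refine Finset.sum_congr rfl fun q _ => ?_
    refine Finset.sum_congr rfl fun q' _ => ?_
    rw [Finset.sum_mul_sum]
  have hT : ∀ h : ℕ, ∑ q ∈ Q, ∑ q' ∈ Q, ∑ i ∈ Icc 1 H, ∑ j ∈ Icc 1 H,
      TT A B w ρ L q q' ((i : ℤ) - h) ((j : ℤ) - h) =
      ∑ n ∈ Ioc A B, w n * pl n * b h n ^ 2 := by
    intro h
    unfold TT
    rw [← cov3_swap]
    refine Finset.sum_congr rfl fun n _ => ?_
    rw [hsq h n]
    simp only [Finset.mul_sum]
  rw [hS, Finset.sum_congr rfl fun h _ => hT h, ← Finset.sum_sub_distrib]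
  refine (Finset.abs_sum_le_sum_abs _ _).trans ?_
  refine (Finset.sum_le_card_nsmul _ _ (3 * H * (Real.log (B + H) *
    (H * ((L : ℝ) ^ 2 * Q.card)) ^ 2)) ?_).trans ?_
  · intro h hh
    exact cov3_shift hw hHA h hh (fun n => b h n ^ 2) (hb2 h)
  · rw [Nat.card_Icc, nsmul_eq_mul, Nat.add_sub_cancel]
    apply le_of_eq
    ring

theorem mean_sum {A B H : ℕ} {w : ℕ → ℝ} (hw : Wt A B w) (hHA : H ≤ A) (hH : 1 ≤ H) :
    |∑ x ∈ Ioc A B, w x * PH H x - H * theta A B w| ≤ 3 * (H : ℝ) ^ 2 * Real.log (B + H) := by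
  classical
  have hS : ∑ x ∈ Ioc A B, w x * PH H x =
      ∑ h ∈ Icc 1 H, ∑ x ∈ Ioc A B, w x * (pl (x + h) * 1) := by
    unfold PH
    rw [Finset.sum_comm]
    refine Finset.sum_congr rfl fun x _ => ?_
    rw [Finset.mul_sum]
    exact Finset.sum_congr rfl fun h _ => by rw [mul_one]
  have hT : H * theta A B w = ∑ h ∈ Icc 1 H, ∑ n ∈ Ioc A B, w n * pl n * 1 := by
    unfold theta
    rw [Finset.sum_const, Nat.card_Icc, nsmul_eq_mul, Nat.add_sub_cancel]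
    simp only [mul_one]
  rw [hS, hT, ← Finset.sum_sub_distrib]
  refine (Finset.abs_sum_le_sum_abs _ _).trans ?_
  refine (Finset.sum_le_card_nsmul _ _ (3 * H * (Real.log (B + H) * 1)) ?_).trans ?_
  · intro h hh
    exact cov3_shift hw hHA h hh (fun _ => 1) (fun _ => by simp)
  · rw [Nat.card_Icc, nsmul_eq_mul, Nat.add_sub_cancel]
    apply le_of_eq
    ring

end Pool.Agent.H48.OM
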