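import Pool.Agent.H48.OM.Defs
import Pool.Agent.H67.VS.Cov
import Pool.Agent.H67.VS.Split
import Pool.Agent.H67.VS.CharS

/-!
[H48 OM CROSS]  The cross moment.

Proof.  `cov_split`, `split_bound`, `char_sum` (with this `Y`; `L q ≤ L^2 q q ≤ R, A`), and
`‖KC H (kap H d) χ‖ ≤ ∑_{k < H} (H-k) ≤ H^2`:
`9 H^3 L^2 |Q| log(B+H) + H^2 L^2 Θ S2 + 2 L (2/Y) L H^2 C`.
-/

namespace Pool.Agent.H48.OM

open Finset Pool.Agent.H21.MT Pool.Agent.H67.VS

private theorem cross_KC {H d q : ℕ} (χ : DirichletCharacter ℂ q) :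
    ‖KC H (kap H d) χ‖ ≤ (H : ℝ) ^ 2 := by
  unfold KC
  refine (norm_sum_le _ _).trans ?_
  refine (Finset.sum_le_card_nsmul _ _ (H : ℝ) ?_).trans ?_
  · intro k hk
    rw [mem_Ico] at hk
    have hk1 : (1 : ℝ) ≤ k := by exact_mod_cast hk.1
    have hk2 : (k : ℝ) ≤ H := by exact_mod_cast hk.2.le
    rw [norm_mul, Complex.norm_real, Real.norm_eq_abs]
    have h1 : |kap H d k| ≤ H := by
      unfold kap
      split_ifs
      · rw [abs_of_nonneg (by linarith)]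
        linarith
      · rw [abs_zero]
        exact Nat.cast_nonneg _
    have h2 : ‖χ (k : ZMod q)‖ ≤ 1 := DirichletCharacter.norm_le_one χ _
    calc |kap H d k| * ‖χ (k : ZMod q)‖ ≤ H * 1 :=
          mul_le_mul h1 h2 (norm_nonneg _) (Nat.cast_nonneg _)
      _ = H := mul_one _
  · rw [Nat.card_Ico, nsmul_eq_mul, sq]
    refine mul_le_mul_of_nonneg_right ?_ (Nat.cast_nonneg _)
    exact_mod_cast Nat.sub_le H 1

theorem cross_raw {A B L H R : ℕ} {w ρ : ℕ → ℝ} {Q : Finset ℕ} {Y : ℝ} (hP : Par A B L H R Q Y)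
    (hw : Wt A B w) (hρ : SW L ρ) :
    |∑ x ∈ Ioc A B, w x * (PH H x * gH ρ L Q H x) - H * Sq Q * theta A B w| ≤
      9 * (H : ℝ) ^ 3 * (L : ℝ) ^ 2 * Q.card * Real.log (B + H) +
      (H : ℝ) ^ 2 * (L : ℝ) ^ 2 * S2 Q * theta A B w +
      4 * (H : ℝ) ^ 2 * (L : ℝ) ^ 2 / Y * CS A B w R := by
  have hCS : 0 ≤ CS A B w R := by
    unfold CS
    exact Finset.sum_nonneg fun _ _ => norm_nonneg _
  have hY : 0 < Y := lt_of_lt_of_le one_pos hP.hY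
  rcases Q.eq_empty_or_nonempty with h0 | ⟨q₀, hq₀⟩
  · subst h0
    have e1 : ∑ x ∈ Ioc A B, w x * (PH H x * gH ρ L ∅ H x) = 0 := by
      refine Finset.sum_eq_zero fun x _ => ?_
      simp [gH, bb, GG]
    rw [e1]
    simp only [Sq, S2, Finset.sum_empty, mul_zero, zero_mul, sub_zero, abs_zero, Finset.card_empty,
      Nat.cast_zero, zero_add]
    positivity
  have hLpos : 1 ≤ L := le_trans one_le_two hP.hL
  have hL2 : L ≤ L ^ 2 := Nat.le_self_pow (by norm_num) L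
  have hLq : ∀ q ∈ Q, L < q := fun q hq => lt_of_le_of_lt hL2 (hP.hLq q hq)
  have hLqq : ∀ q ∈ Q, L * q ≤ q * q * L ^ 2 := by
    intro q hq
    have hq1 : 1 ≤ q := (hP.prime q hq).one_lt.le
    calc L * q = 1 * q * L := by ring
      _ ≤ q * q * L ^ 2 := Nat.mul_le_mul (Nat.mul_le_mul hq1 le_rfl) hL2
  have hqA : ∀ q ∈ Q, q ≤ A := by
    intro q hq
    refine le_trans ?_ ((hLqq q hq).trans (hP.hA q hq q hq))
    exact Nat.le_mul_of_pos_left q hLpos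
  have hLA : L ≤ A := (hLq q₀ hq₀).le.trans (hqA q₀ hq₀)
  have h1 := cov_split (H := H) hw hP.hAB hρ hLA hP.hHA hLpos
    (fun q hq => ⟨hP.prime q hq, hLq q hq, hqA q hq⟩)
  have h2 := split_bound (H := H) (Q := Q) hw hρ (fun q hq => ⟨hP.prime q hq, hLq q hq⟩)
  have h3 := char_sum (w := w) (B := B) (A := A) (L := L) (R := R) (H := H) (Q := Q) Y hY
    (fun q hq => ⟨hP.prime q hq, hLq q hq, (hP.hHq q hq).le,
      (hLqq q hq).trans (hP.hR q hq q hq), (hLqq q hq).trans (hP.hA q hq q hq), hP.hYq q hq⟩)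
  have h4 : ∑ d ∈ Icc 1 L, ∑ c ∈ PC R, ‖ThC A B w c.2‖ * ‖KC H (kap H d) c.2‖ ≤
      L * (CS A B w R * (H : ℝ) ^ 2) := by
    refine (Finset.sum_le_card_nsmul _ _ (CS A B w R * (H : ℝ) ^ 2) ?_).trans ?_
    · intro d _
      unfold CS
      rw [Finset.sum_mul]
      refine Finset.sum_le_sum fun c _ => ?_
      exact mul_le_mul_of_nonneg_left (cross_KC c.2) (norm_nonneg _)
    · rw [Nat.card_Icc, nsmul_eq_mul, Nat.add_sub_cancel]
  have h5 : 2 * (L : ℝ) * ∑ q ∈ Q, ∑ d ∈ Icc 1 L,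
      |∑ p ∈ offd H, EE A B w d q ((p.2 : ℤ) - (p.1 : ℤ))| ≤
      4 * (H : ℝ) ^ 2 * (L : ℝ) ^ 2 / Y * CS A B w R := by
    calc 2 * (L : ℝ) * ∑ q ∈ Q, ∑ d ∈ Icc 1 L,
          |∑ p ∈ offd H, EE A B w d q ((p.2 : ℤ) - (p.1 : ℤ))|
        ≤ 2 * (L : ℝ) * (2 / Y * (L * (CS A B w R * (H : ℝ) ^ 2))) := by
          refine mul_le_mul_of_nonneg_left ?_ (by positivity)
          exact h3.trans (mul_le_mul_of_nonneg_left h4 (by positivity))
      _ = 4 * (H : ℝ) ^ 2 * (L : ℝ) ^ 2 / Y * CS A B w R := by ring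
  have e : ∑ x ∈ Ioc A B, w x * (PH H x * gH ρ L Q H x) - H * Sq Q * theta A B w =
      (∑ x ∈ Ioc A B, w x * (PH H x * gH ρ L Q H x) -
      (H * Sq Q * theta A B w +
        ∑ p ∈ offd H, ∑ n ∈ Ioc A B, w n * pl n * bb ρ L Q n ((p.2 : ℤ) - (p.1 : ℤ)))) +
      ∑ p ∈ offd H, ∑ n ∈ Ioc A B, w n * pl n * bb ρ L Q n ((p.2 : ℤ) - (p.1 : ℤ)) := by ring
  rw [e]
  refine (abs_add_le _ _).trans ?_
  have h6 : (H : ℝ) ^ 2 * (L : ℝ) ^ 2 * theta A B w * ∑ q ∈ Q, 1 / ((q : ℝ) - 1) ^ 2 =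
      (H : ℝ) ^ 2 * (L : ℝ) ^ 2 * S2 Q * theta A B w := by
    unfold S2
    ring
  rw [h6] at h2
  linarith

end Pool.Agent.H48.OM
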