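import Pool.Agent.H48.OM.Defs
import Pool.Agent.H67.VS.Ap

/-!
[H48 OM PERB]  The test function over a full period.

Proof.  `D = lcm d e`, `q` prime not dividing `D` (in particular coprime to `D`).
`cong2 d e hd he a b` (`Pool/Agent/H67/VS/Ap.lean`): either no `r` satisfies `d ∣ r + a` and
`e ∣ r + b` (then the sum is `0`), or this is equivalent to `D ∣ r + c` for some `c : ℤ`.
`|bq q r b| ≤ 1` if `q ∣ r + b` (value `(1-q)/(q-1) = -1`) and `= 1/(q-1)` otherwise.  In
`range (D q)` there are exactly `q` elements `r` with `D ∣ r + c`, exactly one of them with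
`q ∣ r + b` (Chinese remainder theorem), so the sum is `1 + (q-1)/(q-1) = 2`.
(Counting: `Nat.count_modEq_card`, `Nat.card_multiples`, `Int.Ico_filter_dvd_card`, or the bijection
`ZMod (D q) ≃ ZMod D × ZMod q`; an inequality `≤ q`, `≤ 1` for the counts is enough:
`∑ ≤ (number with q ∣ r + b) * 1 + (number of all) * (1/(q-1)) - (...)`, careful: use
`|bq| = 1/(q-1) + [q ∣ r+b] (1 - 1/(q-1))`, so `∑ = N1/(q-1) + N2 (q-2)/(q-1)`, `N1 ≤ q`, `N2 ≤ 1`.)
-/

namespace Pool.Agent.H48.OM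

open Finset Pool.Agent.H21.MT Pool.Agent.H67.VS

/-- at most `k` elements of `range (m k)` in a class modulo `m` -/
theorem perB_card (m k : ℕ) (hm : 0 < m) (c : ℤ) :
    ((range (m * k)).filter (fun r : ℕ => (m : ℤ) ∣ (r : ℤ) + c)).card ≤ k := by
  have h1 : ((range (m * k)).filter (fun r : ℕ => (m : ℤ) ∣ (r : ℤ) + c)).card ≤
      (range k).card := by
    refine Finset.card_le_card_of_injOn (fun r => r / m) ?_ ?_
    · intro r hr
      rw [Finset.mem_coe, Finset.mem_filter, Finset.mem_range] at hr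
      rw [Finset.mem_coe, Finset.mem_range]
      exact Nat.div_lt_of_lt_mul hr.1
    · intro r hr r' hr' hrr
      rw [Finset.mem_coe, Finset.mem_filter] at hr hr'
      have hrr' : r / m = r' / m := hrr
      have h2 : (m : ℤ) ∣ (r : ℤ) - r' := by
        have := dvd_sub hr.2 hr'.2
        have e : (r : ℤ) + c - (r' + c) = r - r' := by ring
        rwa [e] at this
      have h3 : r % m = r' % m := by
        have h4 : ((r' : ℤ) ≡ (r : ℤ) [ZMOD (m : ℤ)]) := (Int.modEq_iff_dvd).2 h2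
        have h5 : r' ≡ r [MOD m] := (Int.natCast_modEq_iff).1 h4
        exact h5.symm
      rw [← Nat.div_add_mod r m, ← Nat.div_add_mod r' m, hrr', h3]
  rwa [Finset.card_range] at h1

theorem per_b (q d e : ℕ) (hd : 1 ≤ d) (he : 1 ≤ e) (hq : q.Prime) (hqD : ¬ q ∣ Nat.lcm d e)
    (a b : ℤ) :
    ∑ r ∈ range (Nat.lcm d e * q), |(if (d : ℤ) ∣ (r : ℤ) + a then (1 : ℝ) else 0) *
      (if (e : ℤ) ∣ (r : ℤ) + b then (1 : ℝ) else 0) * bq q r b| ≤ 2 := by
  have hD : 0 < Nat.lcm d e := Nat.lcm_pos hd he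
  have hq2 : (2 : ℝ) ≤ q := by exact_mod_cast hq.two_le
  have hq1 : (0 : ℝ) < (q : ℝ) - 1 := by linarith
  rcases cong2 d e hd he a b with h | ⟨c, hc⟩
  · rw [Finset.sum_eq_zero]
    · norm_num
    · intro r _
      rw [abs_eq_zero]
      by_cases h1 : (d : ℤ) ∣ (r : ℤ) + a
      · by_cases h2 : (e : ℤ) ∣ (r : ℤ) + b
        · exact absurd ⟨h1, h2⟩ (h r)
        · rw [if_neg h2]
          ring
      · rw [if_neg h1]
        ring
  · have hterm : ∀ r ∈ range (Nat.lcm d e * q), |(if (d : ℤ) ∣ (r : ℤ) + a then (1 : ℝ) else 0) *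
        (if (e : ℤ) ∣ (r : ℤ) + b then (1 : ℝ) else 0) * bq q r b| ≤
        (if ((Nat.lcm d e : ℕ) : ℤ) ∣ (r : ℤ) + c then 1 / ((q : ℝ) - 1) else 0) +
        (if ((Nat.lcm d e : ℕ) : ℤ) ∣ (r : ℤ) + c ∧ (q : ℤ) ∣ (r : ℤ) + b then
          1 - 1 / ((q : ℝ) - 1) else 0) := by
      intro r _
      have hinv : 1 / ((q : ℝ) - 1) ≤ 1 := by
        rw [div_le_one hq1]
        linarith
      have hinv0 : 0 < 1 / ((q : ℝ) - 1) := by positivity
      by_cases h1 : ((Nat.lcm d e : ℕ) : ℤ) ∣ (r : ℤ) + c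
      · obtain ⟨h2, h3⟩ := (hc r).2 h1
        rw [if_pos h2, if_pos h3, if_pos h1, one_mul, one_mul]
        by_cases h4 : (q : ℤ) ∣ (r : ℤ) + b
        · rw [if_pos ⟨h1, h4⟩]
          have e1 : bq q r b = -1 := by
            unfold bq
            rw [if_pos h4]
            field_simp
            ring
          rw [e1]
          norm_num
        · have e1 : bq q r b = 1 / ((q : ℝ) - 1) := by
            unfold bq
            rw [if_neg h4, sub_zero]
          rw [e1, abs_of_pos hinv0]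
          have : (0 : ℝ) ≤ (if ((Nat.lcm d e : ℕ) : ℤ) ∣ (r : ℤ) + c ∧ (q : ℤ) ∣ (r : ℤ) + b then
              1 - 1 / ((q : ℝ) - 1) else 0) := by
            split_ifs
            · linarith
            · exact le_rfl
          linarith
      · have h0 : (if (d : ℤ) ∣ (r : ℤ) + a then (1 : ℝ) else 0) *
            (if (e : ℤ) ∣ (r : ℤ) + b then (1 : ℝ) else 0) = 0 := by
          by_cases h2 : (d : ℤ) ∣ (r : ℤ) + a
          · by_cases h3 : (e : ℤ) ∣ (r : ℤ) + b
            · exact absurd ((hc r).1 ⟨h2, h3⟩) h1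
            · rw [if_neg h3]
              ring
          · rw [if_neg h2]
            ring
        rw [h0, zero_mul, abs_zero, if_neg h1]
        have : (0 : ℝ) ≤ (if ((Nat.lcm d e : ℕ) : ℤ) ∣ (r : ℤ) + c ∧ (q : ℤ) ∣ (r : ℤ) + b then
            1 - 1 / ((q : ℝ) - 1) else 0) := by
          split_ifs
          · linarith
          · exact le_rfl
        linarith
    refine (Finset.sum_le_sum hterm).trans ?_
    rw [Finset.sum_add_distrib, ← Finset.sum_filter, ← Finset.sum_filter, Finset.sum_const,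
      Finset.sum_const, nsmul_eq_mul, nsmul_eq_mul]
    have hN1 := perB_card (Nat.lcm d e) q hD c
    have hN2 : ((range (Nat.lcm d e * q)).filter (fun r : ℕ =>
        ((Nat.lcm d e : ℕ) : ℤ) ∣ (r : ℤ) + c ∧ (q : ℤ) ∣ (r : ℤ) + b)).card ≤ 1 := by
      rcases ((range (Nat.lcm d e * q)).filter (fun r : ℕ =>
        ((Nat.lcm d e : ℕ) : ℤ) ∣ (r : ℤ) + c ∧ (q : ℤ) ∣ (r : ℤ) + b)).eq_empty_or_nonempty
        with h0 | ⟨r0, hr0⟩
      · rw [h0, Finset.card_empty]
        exact Nat.zero_le _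
      · rw [Finset.mem_filter] at hr0
        have h1 := perB_card (Nat.lcm d e * q) 1 (Nat.mul_pos hD hq.pos) (-(r0 : ℤ))
        rw [mul_one] at h1
        refine le_trans (Finset.card_le_card ?_) h1
        intro r hr
        rw [Finset.mem_filter] at hr ⊢
        refine ⟨hr.1, ?_⟩
        have h2 : ((Nat.lcm d e : ℕ) : ℤ) ∣ (r : ℤ) + -(r0 : ℤ) := by
          have := dvd_sub hr.2.1 hr0.2.1
          have e : (r : ℤ) + c - (r0 + c) = r + -(r0 : ℤ) := by ring
          rwa [e] at this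
        have h3 : ((q : ℕ) : ℤ) ∣ (r : ℤ) + -(r0 : ℤ) := by
          have := dvd_sub hr.2.2 hr0.2.2
          have e : (r : ℤ) + b - (r0 + b) = r + -(r0 : ℤ) := by ring
          rwa [e] at this
        have hco : IsCoprime ((Nat.lcm d e : ℕ) : ℤ) ((q : ℕ) : ℤ) := by
          rw [Nat.isCoprime_iff_coprime]
          exact ((Nat.Prime.coprime_iff_not_dvd hq).2 hqD).symm
        push_cast
        exact hco.mul_dvd h2 h3
    have hN1' : ((((range (Nat.lcm d e * q)).filter (fun r : ℕ =>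
        ((Nat.lcm d e : ℕ) : ℤ) ∣ (r : ℤ) + c)).card : ℕ) : ℝ) ≤ q := by exact_mod_cast hN1
    have hN2' : ((((range (Nat.lcm d e * q)).filter (fun r : ℕ =>
        ((Nat.lcm d e : ℕ) : ℤ) ∣ (r : ℤ) + c ∧ (q : ℤ) ∣ (r : ℤ) + b)).card : ℕ) : ℝ) ≤ 1 := by
      exact_mod_cast hN2
    have hinv : 1 / ((q : ℝ) - 1) ≤ 1 := by
      rw [div_le_one hq1]
      linarith
    have hinv0 : 0 < 1 / ((q : ℝ) - 1) := by positivity
    have h5 := mul_le_mul_of_nonneg_right hN1' hinv0.le
    have h6 := mul_le_mul_of_nonneg_right hN2' (by linarith : 0 ≤ 1 - 1 / ((q : ℝ) - 1))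
    refine (add_le_add h5 h6).trans (le_of_eq ?_)
    field_simp
    ring

theorem per_one (D : ℕ) (hD : 1 ≤ D) (a : ℤ) :
    ∑ r ∈ range D, |if (D : ℤ) ∣ (r : ℤ) + a then (1 : ℝ) else 0| ≤ 1 := by
  have h1 := perB_card D 1 hD a
  rw [mul_one] at h1
  have e1 : ∑ r ∈ range D, |if (D : ℤ) ∣ (r : ℤ) + a then (1 : ℝ) else 0| =
      (((range D).filter (fun r : ℕ => (D : ℤ) ∣ (r : ℤ) + a)).card : ℝ) := by
    rw [Finset.card_filter]
    push_cast
    refine Finset.sum_congr rfl (fun r _ => ?_)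
    split_ifs <;> simp
  rw [e1]
  exact_mod_cast h1

end Pool.Agent.H48.OM
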