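import Pool.Agent.H48.OM.Defs

/-!
[H48 OM SUMPAIR]  Sum of the characters over pairs of primes.

Proof.  Exchange the sums: it is enough to show for each `c ∈ PC R` (`m = c.md ≥ 2`, `‖ThC‖ ≥ 0`)
`∑_{q ∈ Q} ∑_{q' ∈ Q, q' ≠ q} 1/((q-1)(q'-1)) [m ∣ D q' q, q ∣ m] ≤ Sq Q/Y`.
Let `P = {p ∈ Q : p ∣ m}`.  If the bracket is `1` then `q ∈ P` and `P ⊆ {q,q'}` (a prime of `Q`
dividing `D q' q` does not divide `D`, so it is `q'` or `q`).
* If `P = {p}` : only `q = p`, the sum is `≤ 1/(p-1) ∑_{q'} 1/(q'-1) ≤ Sq Q/Y`.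
* If `P` has at least two elements: for each `q ∈ P` the only possible `q'` is the other element
  (`P = {q,q'}`), so the sum is `≤ ∑_{q ∈ P} 1/(q-1) * (1/Y) ≤ Sq Q/Y`.
* If `P` is empty the sum is `0`.
-/

namespace Pool.Agent.H48.OM

open Finset Pool.Agent.H21.MT Pool.Agent.H67.VS

theorem sumpair_inv {q : ℕ} {Y : ℝ} (hY : 1 ≤ Y) (h : Y ≤ (q : ℝ) - 1) :
    0 < 1 / ((q : ℝ) - 1) ∧ 1 / ((q : ℝ) - 1) ≤ 1 / Y := by
  have h0 : (0 : ℝ) < (q : ℝ) - 1 := by linarith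
  exact ⟨by positivity, one_div_le_one_div_of_le (by linarith) h⟩

theorem sumpair_mem {Q : Finset ℕ} (hQ : ∀ q ∈ Q, q.Prime) {D m q q' p : ℕ}
    (hDQ : ∀ q ∈ Q, ¬ q ∣ D) (hq : q ∈ Q) (hq' : q' ∈ Q) (hp : p ∈ Q) (hpm : p ∣ m)
    (hm : m ∣ D * q' * q) : p = q' ∨ p = q := by
  have h1 : p ∣ D * q' * q := hpm.trans hm
  rcases ((hQ p hp).dvd_mul).mp h1 with h2 | h2
  · rcases ((hQ p hp).dvd_mul).mp h2 with h3 | h3
    · exact absurd h3 (hDQ p hp)
    · left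
      exact (Nat.prime_dvd_prime_iff_eq (hQ p hp) (hQ q' hq')).mp h3
  · right
    exact (Nat.prime_dvd_prime_iff_eq (hQ p hp) (hQ q hq)).mp h2

theorem sumpair_W (Q : Finset ℕ) (Y : ℝ) (hY : 1 ≤ Y)
    (hQ : ∀ q ∈ Q, q.Prime ∧ Y ≤ (q : ℝ) - 1) (D m : ℕ) (hDQ : ∀ q ∈ Q, ¬ q ∣ D) :
    ∑ q ∈ Q, ∑ q' ∈ Q.erase q, (if m ∣ D * q' * q ∧ q ∣ m then
      1 / (((q : ℝ) - 1) * ((q' : ℝ) - 1)) else 0) ≤ Sq Q / Y := by
  have hY0 : 0 < Y := by linarith
  have hQp : ∀ q ∈ Q, q.Prime := fun q hq => (hQ q hq).1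
  have hpos : ∀ q ∈ Q, 0 < 1 / ((q : ℝ) - 1) ∧ 1 / ((q : ℝ) - 1) ≤ 1 / Y := fun q hq =>
    sumpair_inv hY (hQ q hq).2
  have hSq0 : 0 ≤ Sq Q := Finset.sum_nonneg fun q hq => (hpos q hq).1.le
  have hmul : ∀ q q' : ℕ, 1 / (((q : ℝ) - 1) * ((q' : ℝ) - 1)) =
      (1 / ((q : ℝ) - 1)) * (1 / ((q' : ℝ) - 1)) := fun q q' => by
    rw [one_div_mul_one_div]
  by_cases hcard : (Q.filter (fun p => p ∣ m)).card ≤ 1
  · -- at most one prime
    have h1 : ∀ q ∈ Q, ∑ q' ∈ Q.erase q, (if m ∣ D * q' * q ∧ q ∣ m then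
        1 / (((q : ℝ) - 1) * ((q' : ℝ) - 1)) else 0) ≤
        if q ∣ m then (1 / Y) * Sq Q else 0 := by
      intro q hq
      by_cases hqm : q ∣ m
      · rw [if_pos hqm]
        calc ∑ q' ∈ Q.erase q, (if m ∣ D * q' * q ∧ q ∣ m then
            1 / (((q : ℝ) - 1) * ((q' : ℝ) - 1)) else 0)
            ≤ ∑ q' ∈ Q.erase q, (1 / ((q : ℝ) - 1)) * (1 / ((q' : ℝ) - 1)) := by
              refine Finset.sum_le_sum fun q' hq' => ?_
              have hq'Q := Finset.mem_of_mem_erase hq'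
              split_ifs
              · exact (hmul q q').le
              · exact (mul_pos (hpos q hq).1 (hpos q' hq'Q).1).le
          _ ≤ ∑ q' ∈ Q, (1 / ((q : ℝ) - 1)) * (1 / ((q' : ℝ) - 1)) :=
              Finset.sum_le_sum_of_subset_of_nonneg (Finset.erase_subset _ _)
                (fun q' hq' _ => (mul_pos (hpos q hq).1 (hpos q' hq').1).le)
          _ = (1 / ((q : ℝ) - 1)) * Sq Q := by
              unfold Sq
              rw [Finset.mul_sum]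
          _ ≤ (1 / Y) * Sq Q := mul_le_mul_of_nonneg_right (hpos q hq).2 hSq0
      · rw [if_neg hqm]
        refine (Finset.sum_eq_zero fun q' _ => ?_).le
        rw [if_neg]
        exact fun h => hqm h.2
    refine (Finset.sum_le_sum h1).trans ?_
    rw [← Finset.sum_filter, Finset.sum_const, nsmul_eq_mul]
    have h2 : (((Q.filter (fun p => p ∣ m)).card : ℕ) : ℝ) ≤ 1 := by exact_mod_cast hcard
    have h3 : 0 ≤ (1 / Y) * Sq Q := by positivity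
    calc (((Q.filter (fun p => p ∣ m)).card : ℕ) : ℝ) * ((1 / Y) * Sq Q)
        ≤ 1 * ((1 / Y) * Sq Q) := mul_le_mul_of_nonneg_right h2 h3
      _ = Sq Q / Y := by ring
  · -- at least two primes
    push Not at hcard
    have h1 : ∀ q ∈ Q, ∑ q' ∈ Q.erase q, (if m ∣ D * q' * q ∧ q ∣ m then
        1 / (((q : ℝ) - 1) * ((q' : ℝ) - 1)) else 0) ≤ (1 / ((q : ℝ) - 1)) * (1 / Y) := by
      intro q hq
      have hb : 0 ≤ (1 / ((q : ℝ) - 1)) * (1 / Y) := mul_nonneg (hpos q hq).1.le (by positivity)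
      by_cases hqm : q ∣ m
      · obtain ⟨p, hp, hpq⟩ : ∃ p ∈ Q.filter (fun p => p ∣ m), p ≠ q :=
          Finset.exists_mem_ne hcard q
        rw [Finset.mem_filter] at hp
        have h2 : ∀ q' ∈ Q.erase q, (if m ∣ D * q' * q ∧ q ∣ m then
            1 / (((q : ℝ) - 1) * ((q' : ℝ) - 1)) else 0) ≤
            if q' = p then (1 / ((q : ℝ) - 1)) * (1 / Y) else 0 := by
          intro q' hq'
          have hq'Q := Finset.mem_of_mem_erase hq'
          by_cases hc : m ∣ D * q' * q ∧ q ∣ m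
          · have hpq' : p = q' := by
              rcases sumpair_mem hQp hDQ hq hq'Q hp.1 hp.2 hc.1 with h3 | h3
              · exact h3
              · exact absurd h3 hpq
            rw [if_pos hc, if_pos hpq'.symm, hmul]
            exact mul_le_mul_of_nonneg_left (hpos q' hq'Q).2 (hpos q hq).1.le
          · rw [if_neg hc]
            split_ifs
            · exact hb
            · exact le_rfl
        refine (Finset.sum_le_sum h2).trans ?_
        rw [Finset.sum_ite_eq']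
        split_ifs
        · exact le_rfl
        · exact hb
      · refine le_trans (Finset.sum_eq_zero fun q' _ => ?_).le hb
        rw [if_neg]
        exact fun h => hqm h.2
    refine (Finset.sum_le_sum h1).trans ?_
    rw [← Finset.sum_mul]
    unfold Sq
    exact (le_of_eq (by ring))

open Classical in
theorem sumpair_CSq {A B R : ℕ} {w : ℕ → ℝ} (N q : ℕ) :
    CSq A B w R N q = ∑ c ∈ PC R, ‖ThC A B w c.2‖ * (if c.md ∣ N ∧ q ∣ c.md then 1 else 0) := by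
  unfold CSq PCq
  rw [Finset.sum_filter]
  refine Finset.sum_congr rfl fun c _ => ?_
  split_ifs <;> simp

theorem sum_pair {A B R : ℕ} {w : ℕ → ℝ} (Q : Finset ℕ) (Y : ℝ) (hY : 1 ≤ Y)
    (hQ : ∀ q ∈ Q, q.Prime ∧ Y ≤ (q : ℝ) - 1) (D : ℕ) (hDQ : ∀ q ∈ Q, ¬ q ∣ D) :
    ∑ q ∈ Q, ∑ q' ∈ Q.erase q, 1 / (((q : ℝ) - 1) * ((q' : ℝ) - 1)) *
      CSq A B w R (D * q' * q) q ≤ Sq Q / Y * CS A B w R := by
  classical
  have h1 : ∑ q ∈ Q, ∑ q' ∈ Q.erase q, 1 / (((q : ℝ) - 1) * ((q' : ℝ) - 1)) *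
      CSq A B w R (D * q' * q) q =
      ∑ c ∈ PC R, ‖ThC A B w c.2‖ * ∑ q ∈ Q, ∑ q' ∈ Q.erase q,
        (if c.md ∣ D * q' * q ∧ q ∣ c.md then 1 / (((q : ℝ) - 1) * ((q' : ℝ) - 1)) else 0) := by
    have h2 : ∀ q ∈ Q, ∀ q' ∈ Q.erase q, 1 / (((q : ℝ) - 1) * ((q' : ℝ) - 1)) *
        CSq A B w R (D * q' * q) q = ∑ c ∈ PC R, ‖ThC A B w c.2‖ *
        (if c.md ∣ D * q' * q ∧ q ∣ c.md then 1 / (((q : ℝ) - 1) * ((q' : ℝ) - 1)) else 0) := by
      intro q _ q' _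
      rw [sumpair_CSq, Finset.mul_sum]
      refine Finset.sum_congr rfl fun c _ => ?_
      split_ifs <;> ring
    rw [Finset.sum_congr rfl fun q hq => Finset.sum_congr rfl fun q' hq' => h2 q hq q' hq']
    simp only [Finset.mul_sum]
    rw [Finset.sum_congr rfl fun q _ => Finset.sum_comm]
    rw [Finset.sum_comm]
  rw [h1]
  unfold CS
  rw [Finset.mul_sum]
  refine Finset.sum_le_sum fun c _ => ?_
  rw [mul_comm]
  exact mul_le_mul_of_nonneg_right (sumpair_W Q Y hY hQ D c.md hDQ) (norm_nonneg _)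

theorem sum_one {A B R : ℕ} {w : ℕ → ℝ} (Q : Finset ℕ) (hQ : ∀ q ∈ Q, q.Prime) (D : ℕ)
    (hDQ : ∀ q ∈ Q, ¬ q ∣ D) :
    ∑ q ∈ Q, CSq A B w R (D * q) q ≤ CS A B w R := by
  classical
  have h1 : ∑ q ∈ Q, CSq A B w R (D * q) q =
      ∑ c ∈ PC R, ‖ThC A B w c.2‖ * ∑ q ∈ Q, (if c.md ∣ D * q ∧ q ∣ c.md then (1 : ℝ) else 0) := by
    rw [Finset.sum_congr rfl fun q _ => sumpair_CSq (A := A) (B := B) (R := R) (w := w) (D * q) q]
    rw [Finset.sum_comm]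
    exact Finset.sum_congr rfl fun c _ => by rw [Finset.mul_sum]
  rw [h1]
  unfold CS
  refine Finset.sum_le_sum fun c _ => ?_
  have h2 : ∑ q ∈ Q, (if c.md ∣ D * q ∧ q ∣ c.md then (1 : ℝ) else 0) ≤ 1 := by
    rw [← Finset.sum_filter, Finset.sum_const, nsmul_eq_mul, mul_one]
    have h3 : (Q.filter (fun q => c.md ∣ D * q ∧ q ∣ c.md)).card ≤ 1 := by
      rw [Finset.card_le_one]
      intro a ha b hb
      rw [Finset.mem_filter] at ha hb
      have h4 : a ∣ D * b := ha.2.2.trans hb.2.1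
      rcases ((hQ a ha.1).dvd_mul).mp h4 with h5 | h5
      · exact absurd h5 (hDQ a ha.1)
      · exact (Nat.prime_dvd_prime_iff_eq (hQ a ha.1) (hQ b hb.1)).mp h5
    exact_mod_cast h3
  calc ‖ThC A B w c.2‖ * ∑ q ∈ Q, (if c.md ∣ D * q ∧ q ∣ c.md then (1 : ℝ) else 0)
      ≤ ‖ThC A B w c.2‖ * 1 := mul_le_mul_of_nonneg_left h2 (norm_nonneg _)
    _ = _ := mul_one _

end Pool.Agent.H48.OM
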