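import Pool.Agent.H48.OM.CharOne
import Pool.Agent.H48.OM.PerB
import Pool.Agent.H48.OM.SumPair
import Pool.Agent.H67.VS.Cov
import Pool.Agent.H67.VS.GsqA

/-!
[H48 OM DIAGQ]  The same prime and the same shift.

Proof.  `a ≠ 0`, `|a| < H < q`, so `q ∤ a`.  Pointwise `bq q n a ^ 2 = s_q + t_q eq1 q n a` with
`s_q = (q^2-q-1)/(q-1)^3`, `t_q = (q^2-2q)/(q-1)^2 ∈ [0,1]` (two cases).
`|s_q - 1/(q-1)| = (q-2)/(q-1)^3 ≤ 1/(q-1)^2`, `0 ≤ F^2 ≤ L^4` (`cov_FF_le`), so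
`|∑_q s_q ∑ w pl F^2 - Sq ∑ w pl F^2| ≤ S2 L^4 Θ`.
`∑ w pl F(n+a)^2 eq1 q n a = ∑_{d,e} ρ_d ρ_e ∑ w pl [D ∣ n+a] eq1 q n a`, `D = lcm d e`
(`gsqA_sq_expand`), `char_one` with `M = D` (`q ∤ D`, `D q ≤ L^2 q ≤ R, A`), `b = 1`
(`per_one`): `≤ 1/φ(D q) CSq (D q) q ≤ 1/Y CSq (D q) q` (`φ(D q) ≥ q - 1 ≥ Y`);
`sum_one` over `q`, `∑_{d,e} |ρ_d ρ_e| ≤ L^4` (`gsqA_rho_sum`): total `≤ L^4/Y CS`.
`a = 0`: for primes `n > A ≥ q`: `bq q n 0 = 1/(q-1)`, `F(n) = ρ_1 = 1`, so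
`∑_q TT = S2 Θ`, `Sq ∑ w pl F^2 = Sq Θ`; the difference is `≤ S2 Θ + Sq Θ`.
-/

namespace Pool.Agent.H48.OM

open Finset Pool.Agent.H21.MT Pool.Agent.H67.VS

theorem diagq_sq (q n : ℕ) (hq : 2 ≤ q) (a : ℤ) :
    bq q n a ^ 2 = ((q : ℝ) ^ 2 - q - 1) / ((q : ℝ) - 1) ^ 3 +
      ((q : ℝ) ^ 2 - 2 * q) / ((q : ℝ) - 1) ^ 2 * eq1 q n a := by
  have h1 : ((q : ℝ) - 1) ≠ 0 := by
    have : (2 : ℝ) ≤ q := by exact_mod_cast hq
    linarith
  unfold bq eq1
  by_cases h : (q : ℤ) ∣ (n : ℤ) + a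
  · rw [if_pos h, if_pos h]
    field_simp
    ring
  · rw [if_neg h, if_neg h]
    field_simp
    ring

theorem diagq_pl_nonneg (n : ℕ) : 0 ≤ pl n := by
  unfold pl
  split_ifs with h
  · exact Real.log_nonneg (by exact_mod_cast h.one_lt.le)
  · exact le_rfl

/-- prime values at shift zero -/
theorem diagq_prime_vals {A B L H R : ℕ} {ρ : ℕ → ℝ} {Q : Finset ℕ} {Y : ℝ} (hP : Par A B L H R Q Y)
    (hρ : SW L ρ) (q : ℕ) (hq : q ∈ Q) (n : ℕ) (hn : n ∈ Ioc A B) (hp : n.Prime) :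
    bq q n 0 = 1 / ((q : ℝ) - 1) ∧ FF ρ L n 0 = 1 := by
  rw [Finset.mem_Ioc] at hn
  have hpq := hP.prime q hq
  have hL := hP.hL
  have hLq := hP.hLq q hq
  have hqA : q ≤ A := by
    have h1 := hP.hA q hq q hq
    have h2 : 1 ≤ q := hpq.one_lt.le
    have h3 : 1 ≤ L ^ 2 := Nat.one_le_pow _ _ (by omega)
    calc q = q * 1 * 1 := by ring
      _ ≤ q * q * L ^ 2 := by gcongr
      _ ≤ A := h1
  have hLA : L ≤ A := by nlinarith
  constructor
  · unfold bq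
    have h1 : ¬ (q : ℤ) ∣ (n : ℤ) + 0 := by
      rw [add_zero, Int.natCast_dvd_natCast]
      intro h
      have h2 := (Nat.prime_dvd_prime_iff_eq hpq hp).1 h
      omega
    rw [if_neg h1, sub_zero]
  · unfold FF
    rw [Finset.sum_eq_single 1]
    · rw [if_pos (by simp)]
      exact hρ.one
    · intro d hd hd1
      rw [Finset.mem_Icc] at hd
      have h1 : ¬ (d : ℤ) ∣ (n : ℤ) + 0 := by
        rw [add_zero, Int.natCast_dvd_natCast]
        intro h
        rcases (Nat.dvd_prime hp).1 h with h2 | h2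
        · exact hd1 h2
        · omega
      rw [if_neg h1]
    · intro h
      exact absurd (Finset.mem_Icc.2 ⟨le_rfl, by omega⟩) h

/-- the sum with the discrepancy for one prime -/
theorem diagq_one {A B L H R : ℕ} {w ρ : ℕ → ℝ} {Q : Finset ℕ} {Y : ℝ} (hP : Par A B L H R Q Y)
    (q : ℕ) (hq : q ∈ Q) (a : ℤ) (ha : ¬ (q : ℤ) ∣ a) :
    |∑ n ∈ Ioc A B, w n * pl n * (FF ρ L n a ^ 2 * eq1 q n a)| ≤
      ∑ d ∈ Icc 1 L, ∑ e ∈ Icc 1 L, |ρ d| * |ρ e| * (1 / Y * CSq A B w R (Nat.lcm d e * q) q) := by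
  have hpq := hP.prime q hq
  have hLq : L < q := by
    have h1 := hP.hLq q hq
    have h2 := hP.hL
    nlinarith
  have e1 : ∑ n ∈ Ioc A B, w n * pl n * (FF ρ L n a ^ 2 * eq1 q n a) =
      ∑ d ∈ Icc 1 L, ∑ e ∈ Icc 1 L, ρ d * ρ e * ∑ n ∈ Ioc A B,
        w n * pl n * ((if ((Nat.lcm d e : ℕ) : ℤ) ∣ (n : ℤ) + a then (1 : ℝ) else 0) * eq1 q n a) := by
    simp only [Finset.mul_sum]
    have hs : ∀ d ∈ Icc 1 L, ∑ e ∈ Icc 1 L, ∑ n ∈ Ioc A B, ρ d * ρ e *
        (w n * pl n * ((if ((Nat.lcm d e : ℕ) : ℤ) ∣ (n : ℤ) + a then (1 : ℝ) else 0) * eq1 q n a)) =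
        ∑ n ∈ Ioc A B, ∑ e ∈ Icc 1 L, ρ d * ρ e *
        (w n * pl n * ((if ((Nat.lcm d e : ℕ) : ℤ) ∣ (n : ℤ) + a then (1 : ℝ) else 0) * eq1 q n a)) :=
      fun d _ => Finset.sum_comm
    rw [Finset.sum_congr rfl hs, Finset.sum_comm]
    refine Finset.sum_congr rfl fun n _ => ?_
    have e2 : w n * pl n * (FF ρ L n a ^ 2 * eq1 q n a) =
        FF ρ L n a ^ 2 * (w n * pl n * eq1 q n a) := by ring
    rw [e2, gsqA_sq_expand, Finset.sum_mul]
    refine Finset.sum_congr rfl fun d _ => ?_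
    rw [Finset.sum_mul]
    refine Finset.sum_congr rfl fun e _ => ?_
    split_ifs <;> ring
  rw [e1]
  refine (Finset.abs_sum_le_sum_abs _ _).trans (Finset.sum_le_sum fun d hd => ?_)
  refine (Finset.abs_sum_le_sum_abs _ _).trans (Finset.sum_le_sum fun e he => ?_)
  rw [abs_mul, abs_mul]
  refine mul_le_mul_of_nonneg_left ?_ (mul_nonneg (abs_nonneg _) (abs_nonneg _))
  have hcq : q.Coprime (Nat.lcm d e) := gsqA_coprime hpq hLq hd he
  rw [Finset.mem_Icc] at hd he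
  have hD1 : 1 ≤ Nat.lcm d e := Nat.lcm_pos (by omega) (by omega)
  have hDL : Nat.lcm d e ≤ L ^ 2 := by
    have h1 : Nat.lcm d e ≤ d * e := Nat.lcm_le_mul (by omega) (by omega)
    nlinarith
  have hsz : Nat.lcm d e * q ≤ q * q * L ^ 2 := by
    have h1 : 1 ≤ q := hpq.one_lt.le
    calc Nat.lcm d e * q ≤ L ^ 2 * q := by gcongr
      _ = 1 * q * L ^ 2 := by ring
      _ ≤ q * q * L ^ 2 := by gcongr
  have h := char_one (A := A) (B := B) (w := w) (Nat.lcm d e) q R hD1 hpq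
    ((Nat.Prime.coprime_iff_not_dvd hpq).1 hcq)
    (hsz.trans (hP.hR q hq q hq)) (hsz.trans (hP.hA q hq q hq))
    (fun n => if ((Nat.lcm d e : ℕ) : ℤ) ∣ (n : ℤ) + a then (1 : ℝ) else 0) (by
      intro n
      have h3 : (((Nat.lcm d e : ℕ) : ℤ) ∣ ((n + Nat.lcm d e : ℕ) : ℤ) + a) ↔
          (((Nat.lcm d e : ℕ) : ℤ) ∣ (n : ℤ) + a) := by
        have e3 : ((n + Nat.lcm d e : ℕ) : ℤ) + a = ((n : ℤ) + a) + ((Nat.lcm d e : ℕ) : ℤ) := by
          push_cast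
          ring
        rw [e3]
        exact dvd_add_left (dvd_refl _)
      simp only [h3]) 1 (per_one (Nat.lcm d e) hD1 a) a ha
  refine h.trans ?_
  have hCS : 0 ≤ CSq A B w R (Nat.lcm d e * q) q := Finset.sum_nonneg fun _ _ => norm_nonneg _
  refine mul_le_mul_of_nonneg_right ?_ hCS
  refine div_le_div_of_nonneg_left (by norm_num) (by linarith [hP.hY]) ?_
  have htot : (Nat.lcm d e * q).totient = (Nat.lcm d e).totient * (q - 1) := by
    rw [Nat.totient_mul hcq.symm, Nat.totient_prime hpq]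
  rw [htot]
  have hφ1 : 1 ≤ (Nat.lcm d e).totient := Nat.totient_pos.2 hD1
  have e4 : (((Nat.lcm d e).totient * (q - 1) : ℕ) : ℝ) =
      ((Nat.lcm d e).totient : ℝ) * ((q : ℝ) - 1) := by
    rw [Nat.cast_mul, Nat.cast_sub hpq.one_lt.le]
    push_cast
    ring
  rw [e4]
  have hφ2 : (1 : ℝ) ≤ ((Nat.lcm d e).totient : ℝ) := by exact_mod_cast hφ1
  have h5 := hP.hYq q hq
  have h6 := hP.hY
  calc Y ≤ 1 * ((q : ℝ) - 1) := by linarith
    _ ≤ ((Nat.lcm d e).totient : ℝ) * ((q : ℝ) - 1) :=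
        mul_le_mul_of_nonneg_right hφ2 (by linarith)

theorem diag_q {A B L H R : ℕ} {w ρ : ℕ → ℝ} {Q : Finset ℕ} {Y : ℝ} (hP : Par A B L H R Q Y)
    (hw : Wt A B w) (hρ : SW L ρ) (a : ℤ) (ha : |a| < H) :
    |∑ q ∈ Q, TT A B w ρ L q q a a -
      Sq Q * ∑ n ∈ Ioc A B, w n * pl n * FF ρ L n a ^ 2| ≤
      (L : ℝ) ^ 4 * S2 Q * theta A B w + (L : ℝ) ^ 4 / Y * CS A B w R +
        (if a = 0 then Sq Q * theta A B w else 0) := by
  have hpos : ∀ q ∈ Q, 0 < (q : ℝ) - 1 := by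
    intro q hq
    have h2 : (2 : ℝ) ≤ q := by exact_mod_cast (hP.prime q hq).two_le
    linarith
  have hΘ : 0 ≤ theta A B w :=
    Finset.sum_nonneg fun n _ => mul_nonneg (hw.nonneg n) (diagq_pl_nonneg n)
  have hC : 0 ≤ CS A B w R := Finset.sum_nonneg fun _ _ => norm_nonneg _
  have hS : 0 ≤ Sq Q := Finset.sum_nonneg fun q hq => by have := hpos q hq; positivity
  have hS2 : 0 ≤ S2 Q := Finset.sum_nonneg fun q hq => by have := hpos q hq; positivity
  have hY0 : 0 < Y := by linarith [hP.hY]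
  have hL1 : (1 : ℝ) ≤ (L : ℝ) ^ 4 := by
    have : (1 : ℝ) ≤ L := by exact_mod_cast (by have := hP.hL; omega : 1 ≤ L)
    exact one_le_pow₀ this
  by_cases ha0 : a = 0
  · -- shift zero
    subst ha0
    rw [if_pos rfl]
    have h1 : ∀ q ∈ Q, TT A B w ρ L q q 0 0 = 1 / ((q : ℝ) - 1) ^ 2 * theta A B w := by
      intro q hq
      unfold TT theta
      rw [Finset.mul_sum]
      refine Finset.sum_congr rfl fun n hn => ?_
      by_cases hp : n.Prime
      · obtain ⟨h3, h4⟩ := diagq_prime_vals hP hρ q hq n hn hp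
        have h5 := (hpos q hq).ne'
        rw [h3, h4]
        field_simp
      · unfold pl
        rw [if_neg hp]
        ring
    have h2 : ∑ q ∈ Q, TT A B w ρ L q q 0 0 = S2 Q * theta A B w := by
      rw [Finset.sum_congr rfl h1, ← Finset.sum_mul]
      rfl
    have h3 : Sq Q * ∑ n ∈ Ioc A B, w n * pl n * FF ρ L n 0 ^ 2 = Sq Q * theta A B w ∨ Q = ∅ := by
      rcases Finset.eq_empty_or_nonempty Q with h | ⟨q, hq⟩
      · exact Or.inr h
      · left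
        congr 1
        refine Finset.sum_congr rfl fun n hn => ?_
        by_cases hp : n.Prime
        · obtain ⟨-, h4⟩ := diagq_prime_vals hP hρ q hq n hn hp
          rw [h4]
          ring
        · unfold pl
          rw [if_neg hp]
          ring
    have h4 : Sq Q * ∑ n ∈ Ioc A B, w n * pl n * FF ρ L n 0 ^ 2 = Sq Q * theta A B w := by
      rcases h3 with h | h
      · exact h
      · have h5 : Sq Q = 0 := by
          rw [h]
          rfl
        rw [h5, zero_mul, zero_mul]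
    rw [h2, h4]
    have h6 : 0 ≤ (L : ℝ) ^ 4 / Y * CS A B w R := by positivity
    have h7 : S2 Q * theta A B w ≤ (L : ℝ) ^ 4 * S2 Q * theta A B w := by
      have := mul_le_mul_of_nonneg_right hL1 (mul_nonneg hS2 hΘ)
      linarith
    rw [abs_le]
    constructor
    · have h8 : 0 ≤ S2 Q * theta A B w := mul_nonneg hS2 hΘ
      have h9 : 0 ≤ (L : ℝ) ^ 4 * S2 Q * theta A B w := by positivity
      linarith
    · have h8 : 0 ≤ Sq Q * theta A B w := mul_nonneg hS hΘ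
      linarith
  · -- shift prime to all q
    rw [if_neg ha0, add_zero]
    have hndvd : ∀ q ∈ Q, ¬ (q : ℤ) ∣ a := by
      intro q hq hd
      have h1 := hP.hHq q hq
      have h2 : |a| < q := by
        have : (H : ℤ) < q := by exact_mod_cast h1
        omega
      exact ha0 (Int.eq_zero_of_abs_lt_dvd hd h2)
    obtain ⟨V, hV⟩ : ∃ V : ℝ, V = ∑ n ∈ Ioc A B, w n * pl n * FF ρ L n a ^ 2 := ⟨_, rfl⟩
    have hV0 : 0 ≤ V := by
      rw [hV]
      exact Finset.sum_nonneg fun n _ =>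
        mul_nonneg (mul_nonneg (hw.nonneg n) (diagq_pl_nonneg n)) (sq_nonneg _)
    have hVΘ : V ≤ (L : ℝ) ^ 4 * theta A B w := by
      rw [hV]
      unfold theta
      rw [Finset.mul_sum]
      refine Finset.sum_le_sum fun n _ => ?_
      have h1 := cov_FF_le hρ n a
      have h2 : FF ρ L n a ^ 2 ≤ (L : ℝ) ^ 4 := by
        rw [← sq_abs]
        calc |FF ρ L n a| ^ 2 ≤ ((L : ℝ) ^ 2) ^ 2 := pow_le_pow_left₀ (abs_nonneg _) h1 2
          _ = (L : ℝ) ^ 4 := by ring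
      rw [mul_comm ((L : ℝ) ^ 4)]
      exact mul_le_mul_of_nonneg_left h2 (mul_nonneg (hw.nonneg n) (diagq_pl_nonneg n))
    rw [← hV]
    have hTT : ∀ q ∈ Q, TT A B w ρ L q q a a = ((q : ℝ) ^ 2 - q - 1) / ((q : ℝ) - 1) ^ 3 * V +
        ((q : ℝ) ^ 2 - 2 * q) / ((q : ℝ) - 1) ^ 2 *
          ∑ n ∈ Ioc A B, w n * pl n * (FF ρ L n a ^ 2 * eq1 q n a) := by
      intro q hq
      rw [hV, Finset.mul_sum, Finset.mul_sum, ← Finset.sum_add_distrib]
      unfold TT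
      refine Finset.sum_congr rfl fun n _ => ?_
      have e1 : w n * pl n * (bq q n a * FF ρ L n a * (bq q n a * FF ρ L n a)) =
          w n * pl n * FF ρ L n a ^ 2 * bq q n a ^ 2 := by ring
      rw [e1, diagq_sq q n (hP.prime q hq).two_le a]
      ring
    have e0 : ∑ q ∈ Q, TT A B w ρ L q q a a - Sq Q * V =
        ∑ q ∈ Q, ((((q : ℝ) ^ 2 - q - 1) / ((q : ℝ) - 1) ^ 3 - 1 / ((q : ℝ) - 1)) * V +
          ((q : ℝ) ^ 2 - 2 * q) / ((q : ℝ) - 1) ^ 2 *
          ∑ n ∈ Ioc A B, w n * pl n * (FF ρ L n a ^ 2 * eq1 q n a)) := by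
      unfold Sq
      rw [Finset.sum_mul, ← Finset.sum_sub_distrib]
      refine Finset.sum_congr rfl fun q hq => ?_
      rw [hTT q hq]
      ring
    rw [e0]
    refine (Finset.abs_sum_le_sum_abs _ _).trans ?_
    have hterm : ∀ q ∈ Q, |(((q : ℝ) ^ 2 - q - 1) / ((q : ℝ) - 1) ^ 3 - 1 / ((q : ℝ) - 1)) * V +
          ((q : ℝ) ^ 2 - 2 * q) / ((q : ℝ) - 1) ^ 2 *
          ∑ n ∈ Ioc A B, w n * pl n * (FF ρ L n a ^ 2 * eq1 q n a)| ≤
        1 / ((q : ℝ) - 1) ^ 2 * ((L : ℝ) ^ 4 * theta A B w) +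
          ∑ d ∈ Icc 1 L, ∑ e ∈ Icc 1 L, |ρ d| * |ρ e| * (1 / Y * CSq A B w R (Nat.lcm d e * q) q) := by
      intro q hq
      have hq2 : (2 : ℝ) ≤ q := by exact_mod_cast (hP.prime q hq).two_le
      have hq0 := hpos q hq
      refine (abs_add_le _ _).trans (add_le_add ?_ ?_)
      · rw [abs_mul, abs_of_nonneg hV0]
        refine mul_le_mul ?_ hVΘ hV0 (by positivity)
        have e2 : ((q : ℝ) ^ 2 - q - 1) / ((q : ℝ) - 1) ^ 3 - 1 / ((q : ℝ) - 1) =
            ((q : ℝ) - 2) / ((q : ℝ) - 1) ^ 3 := by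
          field_simp
          ring
        rw [e2, abs_of_nonneg (div_nonneg (by linarith) (by positivity)),
          div_le_div_iff₀ (by positivity) (by positivity)]
        have e3 : 1 * ((q : ℝ) - 1) ^ 3 = ((q : ℝ) - 1) * ((q : ℝ) - 1) ^ 2 := by ring
        rw [e3]
        exact mul_le_mul_of_nonneg_right (by linarith) (by positivity)
      · rw [abs_mul]
        have h3 : |((q : ℝ) ^ 2 - 2 * q) / ((q : ℝ) - 1) ^ 2| ≤ 1 := by
          rw [abs_of_nonneg (div_nonneg (by nlinarith) (by positivity)),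
            div_le_one (by positivity)]
          nlinarith
        calc |((q : ℝ) ^ 2 - 2 * q) / ((q : ℝ) - 1) ^ 2| * |∑ n ∈ Ioc A B,
              w n * pl n * (FF ρ L n a ^ 2 * eq1 q n a)| ≤
              1 * |∑ n ∈ Ioc A B, w n * pl n * (FF ρ L n a ^ 2 * eq1 q n a)| :=
              mul_le_mul_of_nonneg_right h3 (abs_nonneg _)
          _ ≤ _ := by
              rw [one_mul]
              exact diagq_one hP q hq a (hndvd q hq)
    refine (Finset.sum_le_sum hterm).trans ?_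
    rw [Finset.sum_add_distrib]
    refine add_le_add (le_of_eq ?_) ?_
    · rw [← Finset.sum_mul]
      unfold S2
      ring
    · have e4 : ∑ q ∈ Q, ∑ d ∈ Icc 1 L, ∑ e ∈ Icc 1 L, |ρ d| * |ρ e| *
          (1 / Y * CSq A B w R (Nat.lcm d e * q) q) =
          ∑ d ∈ Icc 1 L, ∑ e ∈ Icc 1 L, |ρ d| * |ρ e| *
          (1 / Y * ∑ q ∈ Q, CSq A B w R (Nat.lcm d e * q) q) := by
        rw [Finset.sum_comm]
        refine Finset.sum_congr rfl fun d _ => ?_
        rw [Finset.sum_comm]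
        refine Finset.sum_congr rfl fun e _ => ?_
        simp only [Finset.mul_sum]
      rw [e4]
      have h5 : ∑ d ∈ Icc 1 L, ∑ e ∈ Icc 1 L, |ρ d| * |ρ e| *
          (1 / Y * ∑ q ∈ Q, CSq A B w R (Nat.lcm d e * q) q) ≤
          ∑ d ∈ Icc 1 L, ∑ e ∈ Icc 1 L, |ρ d| * |ρ e| * (1 / Y * CS A B w R) := by
        refine Finset.sum_le_sum fun d hd => Finset.sum_le_sum fun e he => ?_
        refine mul_le_mul_of_nonneg_left ?_ (mul_nonneg (abs_nonneg _) (abs_nonneg _))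
        refine mul_le_mul_of_nonneg_left ?_ (by positivity)
        refine sum_one Q hP.prime (Nat.lcm d e) ?_
        intro q hq
        have hLq : L < q := by
          have h1 := hP.hLq q hq
          have h2 := hP.hL
          nlinarith
        exact (Nat.Prime.coprime_iff_not_dvd (hP.prime q hq)).1
          (gsqA_coprime (hP.prime q hq) hLq hd he)
      refine h5.trans ?_
      have e5 : ∑ d ∈ Icc 1 L, ∑ e ∈ Icc 1 L, |ρ d| * |ρ e| * (1 / Y * CS A B w R) =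
          (∑ d ∈ Icc 1 L, ∑ e ∈ Icc 1 L, |ρ d| * |ρ e|) * (1 / Y * CS A B w R) := by
        rw [Finset.sum_mul]
        refine Finset.sum_congr rfl fun d _ => ?_
        rw [Finset.sum_mul]
      rw [e5]
      calc (∑ d ∈ Icc 1 L, ∑ e ∈ Icc 1 L, |ρ d| * |ρ e|) * (1 / Y * CS A B w R)
          ≤ (L : ℝ) ^ 4 * (1 / Y * CS A B w R) :=
            mul_le_mul_of_nonneg_right (gsqA_rho_sum hρ) (by positivity)
        _ = _ := by ring

end Pool.Agent.H48.OM
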