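import Pool.Agent.H48.OM.Defs
import Pool.Agent.H67.VS.Cov

/-!
[H48 OM SAMEQ]  The same prime, different shifts.

Proof.  `|F| ≤ L^2` (`cov_FF_le`), `w, pl ≥ 0`, so `|TT| ≤ L^4 ∑ w pl |bq q n a| |bq q n b|`.
`|bq q n a| ≤ 1` if `q ∣ n + a` and `= 1/(q-1)` otherwise; both `q ∣ n + a` and `q ∣ n + b` is
impossible (`q ∤ a - b`), so `|bq q n a| |bq q n b| ≤ 1/(q-1)^2 + ([q ∣ n+a] + [q ∣ n+b])/(q-1)`.
`w ≤ 1`, `pl n ≤ log B` (`cov_pl_le`): `∑ w pl ≤ B log B`; the number of `n ∈ (A,B]` with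
`q ∣ n + a` is `≤ (B-A)/q + 1 ≤ 2B/q` (`q ≤ A ≤ B`; `Int.Ioc_filter_dvd_card` or
`Nat.count_modEq_card`), so `∑ w pl [q ∣ n+a] ≤ 2 B log B/q`.  Total
`L^4 B log B (1/(q-1)^2 + 4/(q (q-1))) ≤ 5 L^4 B log B/(q-1)^2`.
-/

namespace Pool.Agent.H48.OM

open Finset Pool.Agent.H21.MT Pool.Agent.H67.VS

theorem sameq_count (q A B : ℕ) (hq : 0 < q) (hAB : A ≤ B) (a : ℤ) :
    (((Ioc A B).filter (fun n : ℕ => (q : ℤ) ∣ (n : ℤ) + a)).card : ℝ) ≤
      ((B : ℝ) - A) / q + 1 := by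
  have hqR : (0 : ℝ) < q := by exact_mod_cast hq
  have h1 : ((Ioc A B).filter (fun n : ℕ => (q : ℤ) ∣ (n : ℤ) + a)).card ≤
      ((Ioc ((A : ℤ) + a) ((B : ℤ) + a)).filter (fun x : ℤ => (q : ℤ) ∣ x)).card := by
    apply card_le_card_of_injOn (fun n : ℕ => (n : ℤ) + a)
    · intro n hn
      simp only [coe_filter, mem_Ioc, Set.mem_ofPred_eq] at hn
      simp only [coe_filter, mem_Ioc, Set.mem_ofPred_eq]
      exact ⟨⟨by omega, by omega⟩, hn.2⟩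
    · intro n _ m _ h
      have : (n : ℤ) + a = (m : ℤ) + a := h
      omega
  have h2 := Int.Ioc_filter_dvd_card ((A : ℤ) + a) ((B : ℤ) + a) (r := (q : ℤ))
    (by exact_mod_cast hq)
  have h3 : (((Ioc ((A : ℤ) + a) ((B : ℤ) + a)).filter (fun x : ℤ => (q : ℤ) ∣ x)).card : ℚ) ≤
      ((B : ℚ) - A) / q + 1 := by
    have h4 : ((((Ioc ((A : ℤ) + a) ((B : ℤ) + a)).filter
        (fun x : ℤ => (q : ℤ) ∣ x)).card : ℤ) : ℚ) =
        ((max (⌊(((B : ℤ) + a : ℤ) : ℚ) / ((q : ℤ) : ℚ)⌋ -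
          ⌊(((A : ℤ) + a : ℤ) : ℚ) / ((q : ℤ) : ℚ)⌋) 0 : ℤ) : ℚ) := by
      exact_mod_cast h2
    have h5 : ((((Ioc ((A : ℤ) + a) ((B : ℤ) + a)).filter
        (fun x : ℤ => (q : ℤ) ∣ x)).card : ℕ) : ℚ) =
        ((((Ioc ((A : ℤ) + a) ((B : ℤ) + a)).filter
        (fun x : ℤ => (q : ℤ) ∣ x)).card : ℤ) : ℚ) := by push_cast; rfl
    rw [h5, h4, Int.cast_max]
    have hqQ : (0 : ℚ) < q := by exact_mod_cast hq
    have hABQ : (A : ℚ) ≤ B := by exact_mod_cast hAB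
    apply max_le
    · have f1 := Int.floor_le ((((B : ℤ) + a : ℤ) : ℚ) / ((q : ℤ) : ℚ))
      have f2 := Int.lt_floor_add_one ((((A : ℤ) + a : ℤ) : ℚ) / ((q : ℤ) : ℚ))
      have f3 : (((B : ℤ) + a : ℤ) : ℚ) / ((q : ℤ) : ℚ) - (((A : ℤ) + a : ℤ) : ℚ) / ((q : ℤ) : ℚ)
          = ((B : ℚ) - A) / q := by
        push_cast
        field_simp
        ring
      rw [Int.cast_sub]
      linarith
    · rw [Int.cast_zero]
      have : 0 ≤ ((B : ℚ) - A) / q := div_nonneg (by linarith) hqQ.le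
      linarith
  have h3R : ((((Ioc ((A : ℤ) + a) ((B : ℤ) + a)).filter
      (fun x : ℤ => (q : ℤ) ∣ x)).card : ℕ) : ℝ) ≤ ((B : ℝ) - A) / q + 1 := by
    have := (Rat.cast_le (K := ℝ)).2 h3
    push_cast at this
    exact this
  exact (by exact_mod_cast h1 : (((Ioc A B).filter
    (fun n : ℕ => (q : ℤ) ∣ (n : ℤ) + a)).card : ℝ) ≤ _).trans h3R

theorem sameq_bq {q : ℕ} (hq : 2 ≤ q) (n : ℕ) (a : ℤ) :
    |bq q n a| ≤ (if (q : ℤ) ∣ (n : ℤ) + a then 1 else 1 / ((q : ℝ) - 1)) := by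
  have hq2 : (2 : ℝ) ≤ q := by exact_mod_cast hq
  have hq1 : (0 : ℝ) < (q : ℝ) - 1 := by linarith
  unfold bq
  split_ifs with h
  · rw [abs_div, abs_of_pos hq1, div_le_one hq1, abs_sub_comm]
    exact le_of_eq (abs_of_pos hq1)
  · rw [sub_zero, abs_div, abs_of_pos hq1, abs_one]

theorem sameq_prod {q : ℕ} (hq : 2 ≤ q) (n : ℕ) (a b : ℤ) (hab : ¬ (q : ℤ) ∣ a - b) :
    |bq q n a| * |bq q n b| ≤ 1 / ((q : ℝ) - 1) ^ 2 +
      ((if (q : ℤ) ∣ (n : ℤ) + a then (1 : ℝ) else 0) +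
        (if (q : ℤ) ∣ (n : ℤ) + b then (1 : ℝ) else 0)) / ((q : ℝ) - 1) := by
  have hq2 : (2 : ℝ) ≤ q := by exact_mod_cast hq
  have hq1 : (0 : ℝ) < (q : ℝ) - 1 := by linarith
  have h1 := sameq_bq hq n a
  have h2 := sameq_bq hq n b
  have h3 : |bq q n a| * |bq q n b| ≤ (if (q : ℤ) ∣ (n : ℤ) + a then 1 else 1 / ((q : ℝ) - 1)) *
      (if (q : ℤ) ∣ (n : ℤ) + b then 1 else 1 / ((q : ℝ) - 1)) :=
    mul_le_mul h1 h2 (abs_nonneg _) (by split_ifs <;> positivity)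
  refine h3.trans ?_
  have h4 : 0 ≤ 1 / ((q : ℝ) - 1) ^ 2 := by positivity
  by_cases ha : (q : ℤ) ∣ (n : ℤ) + a
  · by_cases hb : (q : ℤ) ∣ (n : ℤ) + b
    · exfalso
      apply hab
      have := dvd_sub ha hb
      have e : (n : ℤ) + a - ((n : ℤ) + b) = a - b := by ring
      rwa [e] at this
    · simp only [ha, hb, if_true, if_false]
      have e : (1 + 0 : ℝ) / ((q : ℝ) - 1) = 1 / ((q : ℝ) - 1) := by ring
      rw [e, one_mul]
      linarith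
  · by_cases hb : (q : ℤ) ∣ (n : ℤ) + b
    · simp only [ha, hb, if_true, if_false]
      have e : (0 + 1 : ℝ) / ((q : ℝ) - 1) = 1 / ((q : ℝ) - 1) := by ring
      rw [e, mul_one]
      linarith
    · simp only [ha, hb, if_false]
      have e : (0 + 0 : ℝ) / ((q : ℝ) - 1) = 0 := by ring
      rw [e, add_zero]
      apply le_of_eq
      field_simp

theorem same_q {A B L H R : ℕ} {w ρ : ℕ → ℝ} {Q : Finset ℕ} {Y : ℝ} (hP : Par A B L H R Q Y)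
    (hw : Wt A B w) (hρ : SW L ρ) (q : ℕ) (hq : q ∈ Q) (a b : ℤ) (hab : ¬ (q : ℤ) ∣ a - b) :
    |TT A B w ρ L q q a b| ≤
      5 * (L : ℝ) ^ 4 * B * Real.log B * (1 / ((q : ℝ) - 1) ^ 2) := by
  have hq2 : 2 ≤ q := (hP.prime q hq).two_le
  have hq2R : (2 : ℝ) ≤ q := by exact_mod_cast hq2
  have hq1 : (0 : ℝ) < (q : ℝ) - 1 := by linarith
  have hq0 : (0 : ℝ) < q := by linarith
  have hAB := hP.hAB
  have hqA : q ≤ A := by
    have h1 := hP.hA q hq q hq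
    have hL1 : 1 ≤ L ^ 2 := Nat.one_le_pow _ _ (by have := hP.hL; omega)
    calc q = q * 1 * 1 := by ring
      _ ≤ q * q * L ^ 2 := by gcongr; omega
      _ ≤ A := h1
  have hqB : (q : ℝ) ≤ B := by exact_mod_cast hqA.trans hAB
  have hB1 : (1 : ℝ) ≤ B := by linarith
  have hlog : 0 ≤ Real.log B := Real.log_nonneg hB1
  have hterm : ∀ n ∈ Ioc A B, |w n * pl n * ((bq q n a * FF ρ L n a) * (bq q n b * FF ρ L n b))|
      ≤ (L : ℝ) ^ 4 * Real.log B * (1 / ((q : ℝ) - 1) ^ 2 +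
      ((if (q : ℤ) ∣ (n : ℤ) + a then (1 : ℝ) else 0) +
        (if (q : ℤ) ∣ (n : ℤ) + b then (1 : ℝ) else 0)) / ((q : ℝ) - 1)) := by
    intro n hn
    have hn2 := (mem_Ioc.1 hn).2
    have h1 : |w n * pl n| ≤ Real.log B := by
      rw [abs_mul, abs_of_nonneg (hw.nonneg n), abs_of_nonneg (cov_pl_nonneg n)]
      calc w n * pl n ≤ 1 * Real.log B :=
            mul_le_mul (hw.le_one n) (cov_pl_le (by exact_mod_cast hn2) hB1)
              (cov_pl_nonneg n) zero_le_one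
        _ = Real.log B := one_mul _
    have h2 : |(bq q n a * FF ρ L n a) * (bq q n b * FF ρ L n b)| ≤
        (L : ℝ) ^ 4 * (1 / ((q : ℝ) - 1) ^ 2 +
      ((if (q : ℤ) ∣ (n : ℤ) + a then (1 : ℝ) else 0) +
        (if (q : ℤ) ∣ (n : ℤ) + b then (1 : ℝ) else 0)) / ((q : ℝ) - 1)) := by
      have e : (bq q n a * FF ρ L n a) * (bq q n b * FF ρ L n b) =
          (FF ρ L n a * FF ρ L n b) * (bq q n a * bq q n b) := by ring
      rw [e, abs_mul, abs_mul, abs_mul (bq q n a)]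
      have h3 : |FF ρ L n a| * |FF ρ L n b| ≤ (L : ℝ) ^ 2 * (L : ℝ) ^ 2 :=
        mul_le_mul (cov_FF_le hρ n a) (cov_FF_le hρ n b) (abs_nonneg _) (by positivity)
      have h4 : (L : ℝ) ^ 2 * (L : ℝ) ^ 2 = (L : ℝ) ^ 4 := by ring
      rw [h4] at h3
      exact mul_le_mul h3 (sameq_prod hq2 n a b hab) (by positivity) (by positivity)
    rw [abs_mul]
    calc |w n * pl n| * |(bq q n a * FF ρ L n a) * (bq q n b * FF ρ L n b)|
        ≤ Real.log B * ((L : ℝ) ^ 4 * (1 / ((q : ℝ) - 1) ^ 2 +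
      ((if (q : ℤ) ∣ (n : ℤ) + a then (1 : ℝ) else 0) +
        (if (q : ℤ) ∣ (n : ℤ) + b then (1 : ℝ) else 0)) / ((q : ℝ) - 1))) :=
          mul_le_mul h1 h2 (abs_nonneg _) hlog
      _ = _ := by ring
  have hcnt : ∀ c : ℤ, ∑ n ∈ Ioc A B, (if (q : ℤ) ∣ (n : ℤ) + c then (1 : ℝ) else 0)
      ≤ 2 * B / ((q : ℝ) - 1) := by
    intro c
    rw [← sum_filter, sum_const, nsmul_eq_mul, mul_one]
    refine (sameq_count q A B (by omega) hAB c).trans ?_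
    have hA0 : (0 : ℝ) ≤ A := Nat.cast_nonneg A
    calc ((B : ℝ) - A) / q + 1 ≤ B / q + B / q := by
          apply add_le_add
          · exact div_le_div_of_nonneg_right (by linarith) hq0.le
          · rw [le_div_iff₀ hq0]
            linarith
      _ = 2 * B / q := by ring
      _ ≤ 2 * B / ((q : ℝ) - 1) :=
          div_le_div_of_nonneg_left (by linarith) hq1 (by linarith)
  unfold TT
  calc |∑ n ∈ Ioc A B, w n * pl n * ((bq q n a * FF ρ L n a) * (bq q n b * FF ρ L n b))|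
      ≤ ∑ n ∈ Ioc A B, |w n * pl n * ((bq q n a * FF ρ L n a) * (bq q n b * FF ρ L n b))| :=
        abs_sum_le_sum_abs _ _
    _ ≤ ∑ n ∈ Ioc A B, (L : ℝ) ^ 4 * Real.log B * (1 / ((q : ℝ) - 1) ^ 2 +
      ((if (q : ℤ) ∣ (n : ℤ) + a then (1 : ℝ) else 0) +
        (if (q : ℤ) ∣ (n : ℤ) + b then (1 : ℝ) else 0)) / ((q : ℝ) - 1)) := sum_le_sum hterm
    _ = (L : ℝ) ^ 4 * Real.log B * ((B - A : ℕ) * (1 / ((q : ℝ) - 1) ^ 2) +
      (∑ n ∈ Ioc A B, (if (q : ℤ) ∣ (n : ℤ) + a then (1 : ℝ) else 0) +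
        ∑ n ∈ Ioc A B, (if (q : ℤ) ∣ (n : ℤ) + b then (1 : ℝ) else 0)) / ((q : ℝ) - 1)) := by
        rw [← mul_sum, sum_add_distrib, sum_const, Nat.card_Ioc, nsmul_eq_mul, ← sum_div,
          sum_add_distrib]
    _ ≤ (L : ℝ) ^ 4 * Real.log B * (B * (1 / ((q : ℝ) - 1) ^ 2) +
      (2 * B / ((q : ℝ) - 1) + 2 * B / ((q : ℝ) - 1)) / ((q : ℝ) - 1)) := by
        have hBA : ((B - A : ℕ) : ℝ) ≤ B := by exact_mod_cast Nat.sub_le B A
        gcongr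
        · exact hcnt a
        · exact hcnt b
    _ = 5 * (L : ℝ) ^ 4 * B * Real.log B * (1 / ((q : ℝ) - 1) ^ 2) := by
        field_simp
        ring

end Pool.Agent.H48.OM
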