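import Pool.Agent.H48.OM.Defs
import Pool.Agent.H67.VS.Cov
import Pool.Agent.H67.VS.GsqA

/-!
[H48 OM ZSUM]  The sieve weights at distance `< H` of a prime.

Proof.  `gsqA_sq_expand`: `F(n+i-h)^2 = ∑_{d,e} ρ_d ρ_e [D ∣ n + i - h]`, `D = lcm d e`.  For fixed
`n, h, d, e` the number of `i ∈ [1,H]` with `D ∣ n + i - h` differs from `H/D` by at most `1`
(`Int.Ioc_filter_dvd_card` or similar).  So
`|∑_{i} F(n+i-h)^2 - H Δ| ≤ ∑_{d,e} |ρ_d ρ_e| ≤ L^4` (`gsqA_rho_sum`) for all `n, h`; multiply with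
`w pl ≥ 0`, sum over `n` and `h`.
-/

namespace Pool.Agent.H48.OM

open Finset Pool.Agent.H21.MT Pool.Agent.H67.VS

private theorem zsum_cnt (D : ℕ) (hD : 0 < D) (H : ℕ) (c : ℤ) :
    |∑ i ∈ Icc 1 H, (if (D : ℤ) ∣ (i : ℤ) + c then (1 : ℝ) else 0) - (H : ℝ) / D| ≤ 1 := by
  obtain ⟨r, hr⟩ := ap_res D hD c
  have h := H21.MT.ap_count 0 H D r hD
  have e1 : ∑ i ∈ Icc 1 H, (if (D : ℤ) ∣ (i : ℤ) + c then (1 : ℝ) else 0) =
      ∑ i ∈ Ioc 0 H, (if i % D = r % D then (1 : ℝ) else 0) := by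
    refine sum_congr rfl fun i _ => ?_
    simp only [hr]
  rw [e1, sum_boole]
  simpa using h

theorem z_point {L : ℕ} {ρ : ℕ → ℝ} (hρ : SW L ρ) (H n : ℕ) (k : ℤ) :
    |∑ i ∈ Icc 1 H, FF ρ L n ((i : ℤ) - k) ^ 2 - H * Dl ρ L| ≤ (L : ℝ) ^ 4 := by
  have e1 : ∑ i ∈ Icc 1 H, FF ρ L n ((i : ℤ) - k) ^ 2 - H * Dl ρ L =
      ∑ d ∈ Icc 1 L, ∑ e ∈ Icc 1 L, ρ d * ρ e *
        (∑ i ∈ Icc 1 H, (if ((Nat.lcm d e : ℕ) : ℤ) ∣ (i : ℤ) + ((n : ℤ) - k) then (1 : ℝ) else 0) -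
          (H : ℝ) / (Nat.lcm d e : ℕ)) := by
    unfold Dl
    simp only [gsqA_sq_expand, mul_sub, sum_sub_distrib, mul_sum]
    congr 1
    · rw [sum_comm]
      refine sum_congr rfl fun d _ => ?_
      rw [sum_comm]
      refine sum_congr rfl fun e _ => sum_congr rfl fun i _ => ?_
      have e2 : (n : ℤ) + ((i : ℤ) - k) = (i : ℤ) + ((n : ℤ) - k) := by ring
      rw [e2, mul_ite, mul_one, mul_zero]
    · refine sum_congr rfl fun d _ => sum_congr rfl fun e _ => ?_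
      ring
  rw [e1]
  refine (abs_sum_le_sum_abs _ _).trans (le_trans (sum_le_sum fun d hd => ?_) (gsqA_rho_sum hρ))
  refine (abs_sum_le_sum_abs _ _).trans (sum_le_sum fun e he => ?_)
  rw [mem_Icc] at hd he
  have hD : 0 < Nat.lcm d e := Nat.lcm_pos (by omega) (by omega)
  rw [abs_mul, abs_mul]
  have h1 := zsum_cnt (Nat.lcm d e) hD H ((n : ℤ) - k)
  have h2 : 0 ≤ |ρ d| * |ρ e| := by positivity
  calc |ρ d| * |ρ e| * _ ≤ |ρ d| * |ρ e| * 1 := mul_le_mul_of_nonneg_left h1 h2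
    _ = |ρ d| * |ρ e| := mul_one _

theorem z_sum {A B L : ℕ} {w ρ : ℕ → ℝ} (hw : Wt A B w) (hρ : SW L ρ) (H : ℕ) :
    |∑ h ∈ Icc 1 H, ∑ i ∈ Icc 1 H, ∑ n ∈ Ioc A B, w n * pl n * FF ρ L n ((i : ℤ) - h) ^ 2 -
      (H : ℝ) ^ 2 * Dl ρ L * theta A B w| ≤ H * (L : ℝ) ^ 4 * theta A B w := by
  have e1 : ∑ h ∈ Icc 1 H, ∑ i ∈ Icc 1 H, ∑ n ∈ Ioc A B,
      w n * pl n * FF ρ L n ((i : ℤ) - h) ^ 2 - (H : ℝ) ^ 2 * Dl ρ L * theta A B w =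
      ∑ h ∈ Icc 1 H, ∑ n ∈ Ioc A B, w n * pl n *
        (∑ i ∈ Icc 1 H, FF ρ L n ((i : ℤ) - (h : ℤ)) ^ 2 - H * Dl ρ L) := by
    have e2 : (H : ℝ) ^ 2 * Dl ρ L * theta A B w =
        ∑ h ∈ Icc 1 H, ∑ n ∈ Ioc A B, w n * pl n * (H * Dl ρ L) := by
      rw [sum_const, Nat.card_Icc, nsmul_eq_mul, ← sum_mul]
      unfold theta
      simp only [Nat.add_sub_cancel]
      ring
    rw [e2, ← sum_sub_distrib]
    refine sum_congr rfl fun h _ => ?_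
    rw [sum_comm, ← sum_sub_distrib]
    refine sum_congr rfl fun n _ => ?_
    rw [mul_sub, mul_sum]
  rw [e1]
  have e3 : (H : ℝ) * (L : ℝ) ^ 4 * theta A B w =
      ∑ h ∈ Icc 1 H, ∑ n ∈ Ioc A B, w n * pl n * (L : ℝ) ^ 4 := by
    rw [sum_const, Nat.card_Icc, nsmul_eq_mul, ← sum_mul]
    unfold theta
    simp only [Nat.add_sub_cancel]
    ring
  rw [e3]
  refine (abs_sum_le_sum_abs _ _).trans (sum_le_sum fun h _ => ?_)
  refine (abs_sum_le_sum_abs _ _).trans (sum_le_sum fun n _ => ?_)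
  have h0 : 0 ≤ w n * pl n := mul_nonneg (hw.nonneg n) (cov_pl_nonneg n)
  rw [abs_mul, abs_of_nonneg h0]
  exact mul_le_mul_of_nonneg_left (z_point hρ H n h) h0

end Pool.Agent.H48.OM
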