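import Pool.Agent.H48.OM.OffQ
import Pool.Agent.H48.OM.SameQ
import Pool.Agent.H48.OM.DiagQ
import Pool.Agent.H48.OM.ZSum
import Pool.Agent.H48.OM.Cov3

/-!
[H48 OM RAW3]  The third moment.

Proof.  `cov3`; split `∑_{q,q'}` in `q' ≠ q` (`off_q`, for each `h`) and `q' = q`; in the latter
split `∑_{i,j}` in `i ≠ j` (`same_q` with `a - b = i - j`, `0 < |i-j| < H < q`; at most `H^2` pairs,
sum over `q`: `5 L^4 B log B S2`) and `i = j` (`diag_q` with `a = i - h`; the `if` contributes for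
`i = h` only).  Then `z_sum`.  Errors, `Θ = theta`, `C = CS`, `S = Sq Q`:
`3 H^4 L^4 |Q|^2 log(B+H) + H (H^2 (4 L^4 (S/Y) C + L^4 S2 (S+K) Θ) + S^2 Θ) + 5 H^3 L^4 B log B S2
 + H^2 (L^4 S2 Θ + (L^4/Y) C) + H S Θ + S H L^4 Θ`, and `H^2 ≤ H^3`.
-/

namespace Pool.Agent.H48.OM

open Finset Pool.Agent.H21.MT Pool.Agent.H67.VS

private theorem raw3_theta_nonneg {A B : ℕ} {w : ℕ → ℝ} (hw : Wt A B w) : 0 ≤ theta A B w := by
  unfold theta
  refine sum_nonneg fun n _ => mul_nonneg (hw.nonneg n) ?_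
  unfold pl
  split_ifs
  · exact Real.log_natCast_nonneg n
  · exact le_rfl

private theorem raw3_cs_nonneg {A B R : ℕ} {w : ℕ → ℝ} : 0 ≤ CS A B w R :=
  sum_nonneg fun _ _ => norm_nonneg _

private theorem raw3_s2_nonneg (Q : Finset ℕ) : 0 ≤ S2 Q := by
  unfold S2
  exact sum_nonneg fun q _ => by positivity

private theorem raw3_split (I Q : Finset ℕ) (T : ℕ → ℕ → ℕ → ℕ → ℕ → ℝ) :
    ∑ h ∈ I, ∑ q ∈ Q, ∑ q' ∈ Q, ∑ i ∈ I, ∑ j ∈ I, T h q q' i j =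
      ∑ h ∈ I, ∑ q ∈ Q, ∑ q' ∈ Q.erase q, ∑ i ∈ I, ∑ j ∈ I, T h q q' i j +
      ∑ h ∈ I, ∑ q ∈ Q, ∑ i ∈ I, ∑ j ∈ I.erase i, T h q q i j +
      ∑ h ∈ I, ∑ i ∈ I, ∑ q ∈ Q, T h q q i i := by
  have h3 : ∀ h, ∑ i ∈ I, ∑ q ∈ Q, T h q q i i = ∑ q ∈ Q, ∑ i ∈ I, T h q q i i :=
    fun h => sum_comm
  simp_rw [h3]
  rw [← sum_add_distrib, ← sum_add_distrib]
  refine sum_congr rfl fun h _ => ?_
  rw [← sum_add_distrib, ← sum_add_distrib]
  refine sum_congr rfl fun q hq => ?_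
  rw [← sum_erase_add Q _ hq, add_assoc]
  congr 1
  rw [← sum_add_distrib]
  refine sum_congr rfl fun i hi => ?_
  rw [sum_erase_add I _ hi]

theorem raw3 {A B L H R : ℕ} {w ρ : ℕ → ℝ} {Q : Finset ℕ} {Y : ℝ} (hP : Par A B L H R Q Y)
    (hw : Wt A B w) (hρ : SW L ρ) (K : ℝ)
    (hK : ∀ m : ℕ, 1 ≤ m → m ≤ B + H → ((Q.filter (fun q => q ∣ m)).card : ℝ) ≤ K) :
    |T3 A B w ρ L Q H - (H : ℝ) ^ 2 * Sq Q * Dl ρ L * theta A B w| ≤
      3 * (H : ℝ) ^ 4 * (L : ℝ) ^ 4 * (Q.card : ℝ) ^ 2 * Real.log (B + H) +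
      (H : ℝ) ^ 3 * (L : ℝ) ^ 4 * ((4 * Sq Q + 1) / Y) * CS A B w R +
      (H : ℝ) ^ 3 * (L : ℝ) ^ 4 * S2 Q * (Sq Q + K + 1) * theta A B w +
      5 * (H : ℝ) ^ 3 * (L : ℝ) ^ 4 * S2 Q * (B * Real.log B) +
      H * (Sq Q ^ 2 + Sq Q + Sq Q * (L : ℝ) ^ 4) * theta A B w := by
  have hcov := cov3 (Q := Q) hw hρ hP.hHA hP.hH hP.prime
  have hT : 0 ≤ theta A B w := raw3_theta_nonneg hw
  have hC : 0 ≤ CS A B w R := raw3_cs_nonneg
  have hS2 : 0 ≤ S2 Q := raw3_s2_nonneg Q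
  have hY : (0 : ℝ) < Y := lt_of_lt_of_le one_pos hP.hY
  have hH1 : (1 : ℝ) ≤ H := by exact_mod_cast hP.hH
  have hq1 : ∀ q ∈ Q, (0 : ℝ) < (q : ℝ) - 1 := fun q hq => lt_of_lt_of_le hY (hP.hYq q hq)
  have hSq : 0 ≤ Sq Q := sum_nonneg fun q hq => by
    have := hq1 q hq
    positivity
  have hBl : 0 ≤ (B : ℝ) * Real.log B := mul_nonneg (Nat.cast_nonneg _) (Real.log_natCast_nonneg B)
  have hcard : ((Icc 1 H).card : ℝ) = H := by simp
  rw [raw3_split (Icc 1 H) Q (fun h q q' i j => TT A B w ρ L q q' ((i : ℤ) - h) ((j : ℤ) - h))]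
    at hcov
  generalize hX1 : ∑ h ∈ Icc 1 H, ∑ q ∈ Q, ∑ q' ∈ Q.erase q, ∑ i ∈ Icc 1 H, ∑ j ∈ Icc 1 H,
    TT A B w ρ L q q' ((i : ℤ) - h) ((j : ℤ) - h) = X1 at hcov
  generalize hX2 : ∑ h ∈ Icc 1 H, ∑ q ∈ Q, ∑ i ∈ Icc 1 H, ∑ j ∈ (Icc 1 H).erase i,
    TT A B w ρ L q q ((i : ℤ) - h) ((j : ℤ) - h) = X2 at hcov
  generalize hX3 : ∑ h ∈ Icc 1 H, ∑ i ∈ Icc 1 H, ∑ q ∈ Q,
    TT A B w ρ L q q ((i : ℤ) - h) ((i : ℤ) - h) = X3 at hcov
  have h1 : |X1| ≤ H * ((H : ℝ) ^ 2 * (4 * (L : ℝ) ^ 4 * (Sq Q / Y) * CS A B w R +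
        (L : ℝ) ^ 4 * S2 Q * (Sq Q + K) * theta A B w) + Sq Q ^ 2 * theta A B w) := by
    rw [← hX1]
    refine (abs_sum_le_sum_abs _ _).trans ?_
    have h2 : ∀ h ∈ Icc 1 H, |∑ q ∈ Q, ∑ q' ∈ Q.erase q, ∑ i ∈ Icc 1 H, ∑ j ∈ Icc 1 H,
        TT A B w ρ L q q' ((i : ℤ) - h) ((j : ℤ) - h)| ≤
        (H : ℝ) ^ 2 * (4 * (L : ℝ) ^ 4 * (Sq Q / Y) * CS A B w R +
        (L : ℝ) ^ 4 * S2 Q * (Sq Q + K) * theta A B w) + Sq Q ^ 2 * theta A B w := by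
      intro h hh
      refine le_trans ?_ (off_q hP hw hρ K hK h hh)
      refine (abs_sum_le_sum_abs _ _).trans (sum_le_sum fun q _ => ?_)
      refine (abs_sum_le_sum_abs _ _).trans (sum_le_sum fun q' _ => ?_)
      refine (abs_sum_le_sum_abs _ _).trans (sum_le_sum fun i _ => ?_)
      exact abs_sum_le_sum_abs _ _
    refine (sum_le_card_nsmul _ _ _ h2).trans (le_of_eq ?_)
    rw [nsmul_eq_mul, hcard]
  have h2 : |X2| ≤ 5 * (H : ℝ) ^ 3 * (L : ℝ) ^ 4 * S2 Q * (B * Real.log B) := by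
    rw [← hX2]
    refine (abs_sum_le_sum_abs _ _).trans ?_
    have h3 : ∀ h ∈ Icc 1 H, |∑ q ∈ Q, ∑ i ∈ Icc 1 H, ∑ j ∈ (Icc 1 H).erase i,
        TT A B w ρ L q q ((i : ℤ) - h) ((j : ℤ) - h)| ≤
        5 * (H : ℝ) ^ 2 * (L : ℝ) ^ 4 * S2 Q * (B * Real.log B) := by
      intro h _
      have h4 : ∀ q ∈ Q, |∑ i ∈ Icc 1 H, ∑ j ∈ (Icc 1 H).erase i,
          TT A B w ρ L q q ((i : ℤ) - h) ((j : ℤ) - h)| ≤
          (H : ℝ) ^ 2 * (5 * (L : ℝ) ^ 4 * B * Real.log B) * (1 / ((q : ℝ) - 1) ^ 2) := by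
        intro q hq
        have h0 : 0 ≤ 5 * (L : ℝ) ^ 4 * B * Real.log B * (1 / ((q : ℝ) - 1) ^ 2) := by
          have := hq1 q hq
          have h5 : 5 * (L : ℝ) ^ 4 * B * Real.log B = 5 * (L : ℝ) ^ 4 * (B * Real.log B) := by
            ring
          rw [h5]
          positivity
        have h5 : ∀ i ∈ Icc 1 H, |∑ j ∈ (Icc 1 H).erase i,
            TT A B w ρ L q q ((i : ℤ) - h) ((j : ℤ) - h)| ≤
            H * (5 * (L : ℝ) ^ 4 * B * Real.log B * (1 / ((q : ℝ) - 1) ^ 2)) := by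
          intro i hi
          refine (abs_sum_le_sum_abs _ _).trans ?_
          have h6 : ∀ j ∈ (Icc 1 H).erase i, |TT A B w ρ L q q ((i : ℤ) - h) ((j : ℤ) - h)| ≤
              5 * (L : ℝ) ^ 4 * B * Real.log B * (1 / ((q : ℝ) - 1) ^ 2) := by
            intro j hj
            refine same_q hP hw hρ q hq _ _ ?_
            have h7 := (mem_erase.1 hj).1
            have h8 := mem_Icc.1 (mem_erase.1 hj).2
            have h9 := mem_Icc.1 hi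
            have h10 := hP.hHq q hq
            intro hd
            have h11 : ((i : ℤ) - h) - ((j : ℤ) - h) = (i : ℤ) - j := by ring
            rw [h11] at hd
            have h12 : (i : ℤ) - j ≠ 0 := by
              intro h13
              apply h7
              omega
            have h13 := Int.le_of_dvd (abs_pos.2 h12) ((dvd_abs _ _).2 hd)
            have h14 : |(i : ℤ) - j| < q := by
              rw [abs_lt]
              constructor <;> omega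
            omega
          refine (sum_le_card_nsmul _ _ _ h6).trans ?_
          rw [nsmul_eq_mul]
          refine mul_le_mul_of_nonneg_right ?_ h0
          rw [← hcard]
          exact_mod_cast card_le_card (erase_subset _ _)
        refine (abs_sum_le_sum_abs _ _).trans ?_
        refine (sum_le_card_nsmul _ _ _ h5).trans (le_of_eq ?_)
        rw [nsmul_eq_mul, hcard]
        ring
      refine (abs_sum_le_sum_abs _ _).trans ((sum_le_sum h4).trans (le_of_eq ?_))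
      rw [← mul_sum]
      show (H : ℝ) ^ 2 * (5 * (L : ℝ) ^ 4 * B * Real.log B) * S2 Q = _
      ring
    refine (sum_le_card_nsmul _ _ _ h3).trans (le_of_eq ?_)
    rw [nsmul_eq_mul, hcard]
    ring
  have h3 : |X3 - (H : ℝ) ^ 2 * Sq Q * Dl ρ L * theta A B w| ≤
      (H : ℝ) ^ 2 * ((L : ℝ) ^ 4 * S2 Q * theta A B w + (L : ℝ) ^ 4 / Y * CS A B w R) +
      H * (Sq Q * theta A B w) + Sq Q * (H * (L : ℝ) ^ 4 * theta A B w) := by
    have hz := z_sum (A := A) (B := B) hw hρ H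
    have h4 : |X3 - Sq Q * ∑ h ∈ Icc 1 H, ∑ i ∈ Icc 1 H, ∑ n ∈ Ioc A B,
        w n * pl n * FF ρ L n ((i : ℤ) - h) ^ 2| ≤
        (H : ℝ) ^ 2 * ((L : ℝ) ^ 4 * S2 Q * theta A B w + (L : ℝ) ^ 4 / Y * CS A B w R) +
        H * (Sq Q * theta A B w) := by
      rw [← hX3, mul_sum, ← sum_sub_distrib]
      refine (abs_sum_le_sum_abs _ _).trans ?_
      have h5 : ∀ h ∈ Icc 1 H, |∑ i ∈ Icc 1 H, ∑ q ∈ Q,
          TT A B w ρ L q q ((i : ℤ) - h) ((i : ℤ) - h) -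
          Sq Q * ∑ i ∈ Icc 1 H, ∑ n ∈ Ioc A B, w n * pl n * FF ρ L n ((i : ℤ) - h) ^ 2| ≤
          H * ((L : ℝ) ^ 4 * S2 Q * theta A B w + (L : ℝ) ^ 4 / Y * CS A B w R) +
          Sq Q * theta A B w := by
        intro h hh
        rw [mul_sum, ← sum_sub_distrib]
        refine (abs_sum_le_sum_abs _ _).trans ?_
        have h6 : ∀ i ∈ Icc 1 H, |∑ q ∈ Q, TT A B w ρ L q q ((i : ℤ) - h) ((i : ℤ) - h) -
            Sq Q * ∑ n ∈ Ioc A B, w n * pl n * FF ρ L n ((i : ℤ) - h) ^ 2| ≤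
            ((L : ℝ) ^ 4 * S2 Q * theta A B w + (L : ℝ) ^ 4 / Y * CS A B w R) +
            (if i = h then Sq Q * theta A B w else 0) := by
          intro i hi
          have h7 := diag_q hP hw hρ ((i : ℤ) - h) (by
            have := mem_Icc.1 hi
            have := mem_Icc.1 hh
            rw [abs_lt]
            constructor <;> omega)
          refine h7.trans (le_of_eq ?_)
          congr 1
          by_cases hih : i = h
          · rw [if_pos hih, if_pos (by omega)]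
          · rw [if_neg hih, if_neg (by omega)]
        refine (sum_le_sum h6).trans (le_of_eq ?_)
        rw [sum_add_distrib, sum_const, nsmul_eq_mul, hcard, sum_ite_eq', if_pos hh]
      refine (sum_le_card_nsmul _ _ _ h5).trans (le_of_eq ?_)
      rw [nsmul_eq_mul, hcard]
      ring
    have h5 : |Sq Q * ∑ h ∈ Icc 1 H, ∑ i ∈ Icc 1 H, ∑ n ∈ Ioc A B,
        w n * pl n * FF ρ L n ((i : ℤ) - h) ^ 2 - (H : ℝ) ^ 2 * Sq Q * Dl ρ L * theta A B w| ≤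
        Sq Q * (H * (L : ℝ) ^ 4 * theta A B w) := by
      have h6 : Sq Q * ∑ h ∈ Icc 1 H, ∑ i ∈ Icc 1 H, ∑ n ∈ Ioc A B,
          w n * pl n * FF ρ L n ((i : ℤ) - h) ^ 2 - (H : ℝ) ^ 2 * Sq Q * Dl ρ L * theta A B w =
          Sq Q * (∑ h ∈ Icc 1 H, ∑ i ∈ Icc 1 H, ∑ n ∈ Ioc A B,
          w n * pl n * FF ρ L n ((i : ℤ) - h) ^ 2 - (H : ℝ) ^ 2 * Dl ρ L * theta A B w) := by
        ring
      rw [h6, abs_mul, abs_of_nonneg hSq]
      exact mul_le_mul_of_nonneg_left hz hSq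
    calc |X3 - (H : ℝ) ^ 2 * Sq Q * Dl ρ L * theta A B w| ≤ _ := abs_sub_le _ _ _
      _ ≤ _ := add_le_add h4 h5
  have h4 : T3 A B w ρ L Q H - (H : ℝ) ^ 2 * Sq Q * Dl ρ L * theta A B w =
      (T3 A B w ρ L Q H - (X1 + X2 + X3)) + X1 + X2 +
      (X3 - (H : ℝ) ^ 2 * Sq Q * Dl ρ L * theta A B w) := by ring
  have h5 : |T3 A B w ρ L Q H - (H : ℝ) ^ 2 * Sq Q * Dl ρ L * theta A B w| ≤
      |T3 A B w ρ L Q H - (X1 + X2 + X3)| + |X1| + |X2| +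
      |X3 - (H : ℝ) ^ 2 * Sq Q * Dl ρ L * theta A B w| := by
    rw [h4]
    refine (abs_add_le _ _).trans (add_le_add ?_ le_rfl)
    refine (abs_add_le _ _).trans (add_le_add ?_ le_rfl)
    exact abs_add_le _ _
  have h6 : (H : ℝ) ^ 2 ≤ (H : ℝ) ^ 3 := pow_le_pow_right₀ hH1 (by norm_num)
  have h7 : (H : ℝ) ^ 2 * ((L : ℝ) ^ 4 * S2 Q * theta A B w) ≤
      (H : ℝ) ^ 3 * ((L : ℝ) ^ 4 * S2 Q * theta A B w) :=
    mul_le_mul_of_nonneg_right h6 (by positivity)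
  have h8 : (H : ℝ) ^ 2 * ((L : ℝ) ^ 4 / Y * CS A B w R) ≤
      (H : ℝ) ^ 3 * ((L : ℝ) ^ 4 / Y * CS A B w R) :=
    mul_le_mul_of_nonneg_right h6 (by positivity)
  have e1 : (H : ℝ) ^ 3 * (L : ℝ) ^ 4 * ((4 * Sq Q + 1) / Y) * CS A B w R =
      H * ((H : ℝ) ^ 2 * (4 * (L : ℝ) ^ 4 * (Sq Q / Y) * CS A B w R)) +
      (H : ℝ) ^ 3 * ((L : ℝ) ^ 4 / Y * CS A B w R) := by ring
  rw [e1]
  nlinarith [h1, h2, h3, h5, h7, h8, hcov]

end Pool.Agent.H48.OM
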