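import Pool.Agent.H48.OM.Defs
import Pool.Agent.H67.VS.Cov
import Pool.Agent.H67.VS.GsqA

/-!
[H48 OM SQAS]  Two-sided asymptotic of the second moment of `g`.

Proof.  `gH = ∑_q gq q` (`gH_eq`, `Pool/Agent/H67/VS/GsqA.lean`).  `q ≠ q'`: `gq_orth`, total
`≤ 36 H^2 L^4 |Q|^2` (`hLq` gives `L < q`).
`q = q'`: `gq ρ L H q x = ∑_i F(x+i) bq q x i` (`bq` unfolds to the factor of `gq`), so
`∑_x w gq^2 = ∑_{i,j} ∑_x w bq q x i bq q x j F(x+i) F(x+j)`.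
* `i ≠ j`: `|bq q x i bq q x j| ≤ 1/(q-1)^2 + ([q ∣ x+i] + [q ∣ x+j])/(q-1)` (`H < q`),
  `∑_x w [q ∣ x+i] ≤ M0/q + 4` (`ap_wt`), `|F| ≤ L^2`: `≤ L^4 (3 M0/(q-1)^2 + 8/(q-1))`;
  sum over `i,j,q`: `≤ H^2 L^4 (3 S2 M0 + 8 Sq)`.
* `i = j`: `bq q x i^2 = 1/(q-1)^2 + (1 - 1/(q-1)^2)[q ∣ x+i]`; `F^2` by `gsqA_sq_expand`; with
  `D = lcm d e`, `[D ∣ .][q ∣ .] = [D q ∣ .]` (`gsqA_mul_iff`, coprime), `ap_wt` twice:
  `∑_x w bq^2 [D ∣ x+i] = (M0/D)(1/(q-1)^2 + (1 - 1/(q-1)^2)/q) + O(8) = (M0/D)/(q-1) + O(8)`.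
  Sum with `ρ_d ρ_e` (`gsqA_rho_sum`): `Δ M0/(q-1) + O(8 L^4)`; over `i, q`:
  `H Sq Δ M0 + O(8 H L^4 |Q|)`.
-/

namespace Pool.Agent.H48.OM

open Finset Pool.Agent.H21.MT Pool.Agent.H67.VS

theorem sqas_bq_sq {q : ℕ} (hq : q.Prime) (n : ℕ) (k : ℤ) :
    bq q n k ^ 2 = 1 / ((q : ℝ) - 1) ^ 2 +
      (1 - 1 / ((q : ℝ) - 1) ^ 2) * (if (q : ℤ) ∣ (n : ℤ) + k then 1 else 0) := by
  have h2 : (2 : ℝ) ≤ q := by exact_mod_cast hq.two_le
  have h3 : (q : ℝ) - 1 ≠ 0 := by intro h; linarith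
  unfold bq
  by_cases h : (q : ℤ) ∣ (n : ℤ) + k
  · rw [if_pos h, if_pos h]
    have : (1 - (q : ℝ)) / ((q : ℝ) - 1) = -1 := by
      rw [div_eq_iff h3]
      ring
    rw [this]
    ring
  · rw [if_neg h, if_neg h, sub_zero, div_pow, one_pow]
    ring

theorem sqas_bq_abs {q : ℕ} (hq : q.Prime) (n : ℕ) (k : ℤ) :
    |bq q n k| = if (q : ℤ) ∣ (n : ℤ) + k then 1 else 1 / ((q : ℝ) - 1) := by
  have h2 : (2 : ℝ) ≤ q := by exact_mod_cast hq.two_le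
  have h3 : (q : ℝ) - 1 ≠ 0 := by intro h; linarith
  unfold bq
  by_cases h : (q : ℤ) ∣ (n : ℤ) + k
  · rw [if_pos h, if_pos h]
    have : (1 - (q : ℝ)) / ((q : ℝ) - 1) = -1 := by
      rw [div_eq_iff h3]
      ring
    rw [this]
    norm_num
  · rw [if_neg h, if_neg h, sub_zero, abs_of_nonneg]
    exact div_nonneg zero_le_one (by linarith)

theorem sqas_prod {q H i j : ℕ} (hq : q.Prime) (hH : H < q) (hi : i ∈ Icc 1 H) (hj : j ∈ Icc 1 H)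
    (hij : i ≠ j) (x : ℕ) :
    |bq q x (i : ℤ)| * |bq q x (j : ℤ)| ≤ 1 / ((q : ℝ) - 1) ^ 2 +
      ((if (q : ℤ) ∣ (x : ℤ) + (i : ℤ) then (1 : ℝ) else 0) +
        (if (q : ℤ) ∣ (x : ℤ) + (j : ℤ) then (1 : ℝ) else 0)) * (1 / ((q : ℝ) - 1)) := by
  have h2 : (2 : ℝ) ≤ q := by exact_mod_cast hq.two_le
  have h3 : (0 : ℝ) < (q : ℝ) - 1 := by linarith
  have h4 : (0 : ℝ) < 1 / ((q : ℝ) - 1) := by positivity
  have h5 : 1 / ((q : ℝ) - 1) ^ 2 = (1 / ((q : ℝ) - 1)) ^ 2 := by rw [div_pow, one_pow]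
  rw [sqas_bq_abs hq, sqas_bq_abs hq, h5]
  rw [mem_Icc] at hi hj
  by_cases h6 : (q : ℤ) ∣ (x : ℤ) + (i : ℤ)
  · by_cases h7 : (q : ℤ) ∣ (x : ℤ) + (j : ℤ)
    · exfalso
      have h8 : (q : ℤ) ∣ (i : ℤ) - (j : ℤ) := by
        have := dvd_sub h6 h7
        have e : (x : ℤ) + (i : ℤ) - ((x : ℤ) + (j : ℤ)) = (i : ℤ) - (j : ℤ) := by ring
        rwa [e] at this
      have h9 : (i : ℤ) - (j : ℤ) = 0 := by
        apply Int.eq_zero_of_abs_lt_dvd h8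
        rw [abs_lt]
        constructor <;> omega
      omega
    · simp only [if_pos h6, if_neg h7]
      nlinarith
  · by_cases h7 : (q : ℤ) ∣ (x : ℤ) + (j : ℤ)
    · simp only [if_neg h6, if_pos h7]
      nlinarith
    · simp only [if_neg h6, if_neg h7]
      nlinarith

theorem sqas_off {A B L H q i j : ℕ} {w ρ : ℕ → ℝ} (hw : Wt A B w) (hAB : A ≤ B) (hρ : SW L ρ)
    (hq : q.Prime) (hH : H < q) (hi : i ∈ Icc 1 H) (hj : j ∈ Icc 1 H) (hij : i ≠ j) :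
    |∑ x ∈ Ioc A B, w x * ((FF ρ L x (i : ℤ) * bq q x (i : ℤ)) *
      (FF ρ L x (j : ℤ) * bq q x (j : ℤ)))| ≤
      (L : ℝ) ^ 4 * (3 * (1 / ((q : ℝ) - 1) ^ 2) * mass A B w + 8 * (1 / ((q : ℝ) - 1))) := by
  have h2 : (2 : ℝ) ≤ q := by exact_mod_cast hq.two_le
  have h3 : (0 : ℝ) < (q : ℝ) - 1 := by linarith
  have h4 : (0 : ℝ) < 1 / ((q : ℝ) - 1) := by positivity
  have hM := gsqA_mass_nonneg hw
  have hq0 : (0 : ℝ) < q := by linarith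
  have hsum : ∀ k : ℕ, ∑ x ∈ Ioc A B, w x * (if (q : ℤ) ∣ (x : ℤ) + (k : ℤ) then (1 : ℝ) else 0) ≤
      mass A B w * (1 / ((q : ℝ) - 1)) + 4 := by
    intro k
    have h5 := ap_wt hw hAB q hq.pos (k : ℤ)
    have h6 : ∑ x ∈ Ioc A B, w x * (if (q : ℤ) ∣ (x : ℤ) + (k : ℤ) then (1 : ℝ) else 0) =
        ∑ x ∈ Ioc A B, (if (q : ℤ) ∣ (x : ℤ) + (k : ℤ) then w x else 0) := by
      refine Finset.sum_congr rfl fun x _ => ?_
      split_ifs <;> simp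
    rw [h6]
    have h7 := (abs_le.mp h5).2
    have h8 : mass A B w / q ≤ mass A B w * (1 / ((q : ℝ) - 1)) := by
      rw [mul_one_div]
      exact div_le_div_of_nonneg_left hM h3 (by linarith)
    linarith
  refine (Finset.abs_sum_le_sum_abs _ _).trans ?_
  have h5 : ∀ x ∈ Ioc A B, |w x * ((FF ρ L x (i : ℤ) * bq q x (i : ℤ)) *
      (FF ρ L x (j : ℤ) * bq q x (j : ℤ)))| ≤ (L : ℝ) ^ 4 * (1 / ((q : ℝ) - 1) ^ 2 * w x +
      (1 / ((q : ℝ) - 1)) * (w x * (if (q : ℤ) ∣ (x : ℤ) + (i : ℤ) then (1 : ℝ) else 0)) +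
      (1 / ((q : ℝ) - 1)) * (w x * (if (q : ℤ) ∣ (x : ℤ) + (j : ℤ) then (1 : ℝ) else 0))) := by
    intro x _
    have hwx := hw.nonneg x
    have e1 : |w x * ((FF ρ L x (i : ℤ) * bq q x (i : ℤ)) *
      (FF ρ L x (j : ℤ) * bq q x (j : ℤ)))| = (w x * (|bq q x (i : ℤ)| * |bq q x (j : ℤ)|)) *
        (|FF ρ L x (i : ℤ)| * |FF ρ L x (j : ℤ)|) := by
      rw [abs_mul, abs_mul, abs_mul, abs_mul, abs_of_nonneg hwx]
      ring
    rw [e1]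
    have e2 : |FF ρ L x (i : ℤ)| * |FF ρ L x (j : ℤ)| ≤ (L : ℝ) ^ 2 * (L : ℝ) ^ 2 :=
      mul_le_mul (cov_FF_le hρ x _) (cov_FF_le hρ x _) (abs_nonneg _) (by positivity)
    have e3 := sqas_prod hq hH hi hj hij x
    have e4 : w x * (|bq q x (i : ℤ)| * |bq q x (j : ℤ)|) ≤ w x * (1 / ((q : ℝ) - 1) ^ 2 +
      ((if (q : ℤ) ∣ (x : ℤ) + (i : ℤ) then (1 : ℝ) else 0) +
        (if (q : ℤ) ∣ (x : ℤ) + (j : ℤ) then (1 : ℝ) else 0)) * (1 / ((q : ℝ) - 1))) :=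
      mul_le_mul_of_nonneg_left e3 hwx
    calc (w x * (|bq q x (i : ℤ)| * |bq q x (j : ℤ)|)) *
        (|FF ρ L x (i : ℤ)| * |FF ρ L x (j : ℤ)|)
        ≤ (w x * (1 / ((q : ℝ) - 1) ^ 2 +
      ((if (q : ℤ) ∣ (x : ℤ) + (i : ℤ) then (1 : ℝ) else 0) +
        (if (q : ℤ) ∣ (x : ℤ) + (j : ℤ) then (1 : ℝ) else 0)) * (1 / ((q : ℝ) - 1)))) *
          ((L : ℝ) ^ 2 * (L : ℝ) ^ 2) := by
          refine mul_le_mul e4 e2 (by positivity) ?_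
          refine mul_nonneg hwx ?_
          have : 0 ≤ (if (q : ℤ) ∣ (x : ℤ) + (i : ℤ) then (1 : ℝ) else 0) +
              (if (q : ℤ) ∣ (x : ℤ) + (j : ℤ) then (1 : ℝ) else 0) := by
            split_ifs <;> norm_num
          positivity
      _ = _ := by ring
  refine (Finset.sum_le_sum h5).trans ?_
  rw [← Finset.mul_sum, Finset.sum_add_distrib, Finset.sum_add_distrib, ← Finset.mul_sum,
    ← Finset.mul_sum, ← Finset.mul_sum]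
  refine mul_le_mul_of_nonneg_left ?_ (by positivity)
  have h6 := mul_le_mul_of_nonneg_left (hsum i) h4.le
  have h7 := mul_le_mul_of_nonneg_left (hsum j) h4.le
  have h8 : ∑ x ∈ Ioc A B, w x = mass A B w := rfl
  have h9 : 1 / ((q : ℝ) - 1) ^ 2 = (1 / ((q : ℝ) - 1)) * (1 / ((q : ℝ) - 1)) := by
    rw [one_div_mul_one_div, sq]
  rw [h8, h9]
  nlinarith

theorem sqas_diag {A B L H q : ℕ} {w ρ : ℕ → ℝ} (hw : Wt A B w) (hAB : A ≤ B) (hρ : SW L ρ)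
    (hq : q.Prime) (hLq : L < q) (i : ℤ) :
    |∑ x ∈ Ioc A B, w x * ((FF ρ L x i * bq q x i) * (FF ρ L x i * bq q x i)) -
      Dl ρ L * mass A B w * (1 / ((q : ℝ) - 1))| ≤ 8 * (L : ℝ) ^ 4 := by
  have h2 : (2 : ℝ) ≤ q := by exact_mod_cast hq.two_le
  have h3 : (0 : ℝ) < (q : ℝ) - 1 := by linarith
  have hM := gsqA_mass_nonneg hw
  have hq0 : (0 : ℝ) < q := by linarith
  set s : ℝ := 1 / ((q : ℝ) - 1) ^ 2 with hs
  have hs0 : 0 ≤ s := by positivity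
  have hs1 : s ≤ 1 := by
    rw [hs, div_le_one (by positivity)]
    nlinarith
  have hst : s + (1 - s) / q = 1 / ((q : ℝ) - 1) := by
    rw [hs]
    field_simp
    ring
  have e1 : ∑ x ∈ Ioc A B, w x * ((FF ρ L x i * bq q x i) * (FF ρ L x i * bq q x i)) =
      ∑ d ∈ Icc 1 L, ∑ e ∈ Icc 1 L, ρ d * ρ e *
        (s * ∑ x ∈ Ioc A B, (if ((Nat.lcm d e : ℕ) : ℤ) ∣ (x : ℤ) + i then w x else 0) +
        (1 - s) * ∑ x ∈ Ioc A B,
          (if ((Nat.lcm d e * q : ℕ) : ℤ) ∣ (x : ℤ) + i then w x else 0)) := by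
    have e2 : ∀ x ∈ Ioc A B, w x * ((FF ρ L x i * bq q x i) * (FF ρ L x i * bq q x i)) =
        ∑ d ∈ Icc 1 L, ∑ e ∈ Icc 1 L, ρ d * ρ e *
        (s * (if ((Nat.lcm d e : ℕ) : ℤ) ∣ (x : ℤ) + i then w x else 0) +
        (1 - s) * (if ((Nat.lcm d e * q : ℕ) : ℤ) ∣ (x : ℤ) + i then w x else 0)) := by
      intro x _
      have e3 : w x * ((FF ρ L x i * bq q x i) * (FF ρ L x i * bq q x i)) =
          (w x * bq q x i ^ 2) * FF ρ L x i ^ 2 := by ring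
      rw [e3, gsqA_sq_expand, sqas_bq_sq hq, Finset.mul_sum]
      refine Finset.sum_congr rfl fun d hd => ?_
      rw [Finset.mul_sum]
      refine Finset.sum_congr rfl fun e he => ?_
      have hcop := (gsqA_coprime hq hLq hd he).symm
      by_cases h5 : ((Nat.lcm d e : ℕ) : ℤ) ∣ (x : ℤ) + i
      · by_cases h6 : (q : ℤ) ∣ (x : ℤ) + i
        · rw [if_pos h5, if_pos h5, if_pos h6,
            if_pos ((gsqA_mul_iff _ _ hcop _).2 ⟨h5, h6⟩)]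
          ring
        · rw [if_pos h5, if_pos h5, if_neg h6,
            if_neg (fun h' => h6 ((gsqA_mul_iff _ _ hcop _).1 h').2)]
          ring
      · rw [if_neg h5, if_neg h5,
          if_neg (fun h' => h5 ((gsqA_mul_iff _ _ hcop _).1 h').1)]
        ring
    rw [Finset.sum_congr rfl e2, Finset.sum_comm]
    refine Finset.sum_congr rfl fun d _ => ?_
    rw [Finset.sum_comm]
    refine Finset.sum_congr rfl fun e _ => ?_
    rw [← Finset.mul_sum, Finset.sum_add_distrib, ← Finset.mul_sum, ← Finset.mul_sum]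
  have e4 : Dl ρ L * mass A B w * (1 / ((q : ℝ) - 1)) = ∑ d ∈ Icc 1 L, ∑ e ∈ Icc 1 L,
      ρ d * ρ e * (s * (mass A B w / (Nat.lcm d e : ℝ)) +
        (1 - s) * (mass A B w / ((Nat.lcm d e * q : ℕ) : ℝ))) := by
    unfold Dl
    rw [Finset.sum_mul, Finset.sum_mul]
    refine Finset.sum_congr rfl fun d hd => ?_
    rw [Finset.sum_mul, Finset.sum_mul]
    refine Finset.sum_congr rfl fun e he => ?_
    have hl0 : 0 < Nat.lcm d e := Nat.lcm_pos (Finset.mem_Icc.1 hd).1 (Finset.mem_Icc.1 he).1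
    have hl0' : (0 : ℝ) < (Nat.lcm d e : ℝ) := by exact_mod_cast hl0
    rw [← hst]
    push_cast
    field_simp
  rw [e1, e4, ← Finset.sum_sub_distrib]
  refine (Finset.abs_sum_le_sum_abs _ _).trans ?_
  have e5 : ∀ d ∈ Icc 1 L, |∑ e ∈ Icc 1 L, ρ d * ρ e *
        (s * ∑ x ∈ Ioc A B, (if ((Nat.lcm d e : ℕ) : ℤ) ∣ (x : ℤ) + i then w x else 0) +
        (1 - s) * ∑ x ∈ Ioc A B,
          (if ((Nat.lcm d e * q : ℕ) : ℤ) ∣ (x : ℤ) + i then w x else 0)) -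
      ∑ e ∈ Icc 1 L, ρ d * ρ e * (s * (mass A B w / (Nat.lcm d e : ℝ)) +
        (1 - s) * (mass A B w / ((Nat.lcm d e * q : ℕ) : ℝ)))| ≤
      ∑ e ∈ Icc 1 L, 4 * (|ρ d| * |ρ e|) := by
    intro d hd
    rw [← Finset.sum_sub_distrib]
    refine (Finset.abs_sum_le_sum_abs _ _).trans ?_
    refine Finset.sum_le_sum fun e he => ?_
    have hl0 : 0 < Nat.lcm d e := Nat.lcm_pos (Finset.mem_Icc.1 hd).1 (Finset.mem_Icc.1 he).1
    rw [← mul_sub, abs_mul, abs_mul]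
    have h5 := ap_wt hw hAB (Nat.lcm d e) hl0 i
    have h6 := ap_wt hw hAB (Nat.lcm d e * q) (Nat.mul_pos hl0 hq.pos) i
    generalize ∑ x ∈ Ioc A B, (if ((Nat.lcm d e : ℕ) : ℤ) ∣ (x : ℤ) + i then w x else 0) = u at *
    generalize ∑ x ∈ Ioc A B, (if ((Nat.lcm d e * q : ℕ) : ℤ) ∣ (x : ℤ) + i then w x else 0) = v
      at *
    generalize mass A B w / (Nat.lcm d e : ℝ) = u' at *
    generalize mass A B w / ((Nat.lcm d e * q : ℕ) : ℝ) = v' at *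
    have h7 : |s * u + (1 - s) * v - (s * u' + (1 - s) * v')| ≤ 4 := by
      have e6 : s * u + (1 - s) * v - (s * u' + (1 - s) * v') =
          s * (u - u') + (1 - s) * (v - v') := by ring
      rw [e6]
      refine (abs_add_le _ _).trans ?_
      rw [abs_mul, abs_mul, abs_of_nonneg hs0, abs_of_nonneg (by linarith : 0 ≤ 1 - s)]
      nlinarith
    rw [mul_comm]
    exact mul_le_mul_of_nonneg_right h7 (by positivity)
  refine (Finset.sum_le_sum e5).trans ?_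
  have h8 := gsqA_rho_sum hρ
  have h9 : ∑ d ∈ Icc 1 L, ∑ e ∈ Icc 1 L, 4 * (|ρ d| * |ρ e|) =
      4 * ∑ d ∈ Icc 1 L, ∑ e ∈ Icc 1 L, |ρ d| * |ρ e| := by
    simp only [Finset.mul_sum]
  rw [h9]
  have h10 : (0 : ℝ) ≤ (L : ℝ) ^ 4 := by positivity
  linarith

/-- the second moment of one `gq` -/
theorem sqas_one {A B L H q : ℕ} {w ρ : ℕ → ℝ} (hw : Wt A B w) (hAB : A ≤ B) (hρ : SW L ρ)
    (hq : q.Prime) (hLq : L < q) (hH : H < q) :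
    |∑ x ∈ Ioc A B, w x * (gq ρ L H q x * gq ρ L H q x) -
      H * (Dl ρ L * mass A B w * (1 / ((q : ℝ) - 1)))| ≤
      (H : ℝ) ^ 2 * ((L : ℝ) ^ 4 * (3 * (1 / ((q : ℝ) - 1) ^ 2) * mass A B w +
        8 * (1 / ((q : ℝ) - 1)))) + H * (8 * (L : ℝ) ^ 4) := by
  have h2 : (2 : ℝ) ≤ q := by exact_mod_cast hq.two_le
  have h3 : (0 : ℝ) < (q : ℝ) - 1 := by linarith
  have hM := gsqA_mass_nonneg hw
  have hb0 : 0 ≤ (L : ℝ) ^ 4 * (3 * (1 / ((q : ℝ) - 1) ^ 2) * mass A B w +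
        8 * (1 / ((q : ℝ) - 1))) := by positivity
  have e0 : ∀ x, gq ρ L H q x = ∑ h ∈ Icc 1 H, FF ρ L x (h : ℤ) * bq q x (h : ℤ) := fun x => rfl
  have e1 : ∑ x ∈ Ioc A B, w x * (gq ρ L H q x * gq ρ L H q x) =
      ∑ i ∈ Icc 1 H, ∑ j ∈ Icc 1 H, ∑ x ∈ Ioc A B, w x *
        ((FF ρ L x (i : ℤ) * bq q x (i : ℤ)) * (FF ρ L x (j : ℤ) * bq q x (j : ℤ))) := by
    have e2 : ∀ x ∈ Ioc A B, w x * (gq ρ L H q x * gq ρ L H q x) =
        ∑ i ∈ Icc 1 H, ∑ j ∈ Icc 1 H, w x *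
        ((FF ρ L x (i : ℤ) * bq q x (i : ℤ)) * (FF ρ L x (j : ℤ) * bq q x (j : ℤ))) := by
      intro x _
      rw [e0, Finset.sum_mul_sum, Finset.mul_sum]
      exact Finset.sum_congr rfl fun i _ => by rw [Finset.mul_sum]
    rw [Finset.sum_congr rfl e2, Finset.sum_comm]
    exact Finset.sum_congr rfl fun i _ => by rw [Finset.sum_comm]
  have e3 : (H : ℝ) * (Dl ρ L * mass A B w * (1 / ((q : ℝ) - 1))) =
      ∑ _i ∈ Icc 1 H, Dl ρ L * mass A B w * (1 / ((q : ℝ) - 1)) := by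
    rw [Finset.sum_const, Nat.card_Icc, nsmul_eq_mul, Nat.add_sub_cancel]
  rw [e1, e3, ← Finset.sum_sub_distrib]
  refine (Finset.abs_sum_le_sum_abs _ _).trans ?_
  have e4 : ∀ i ∈ Icc 1 H, |∑ j ∈ Icc 1 H, ∑ x ∈ Ioc A B, w x *
        ((FF ρ L x (i : ℤ) * bq q x (i : ℤ)) * (FF ρ L x (j : ℤ) * bq q x (j : ℤ))) -
      Dl ρ L * mass A B w * (1 / ((q : ℝ) - 1))| ≤
      H * ((L : ℝ) ^ 4 * (3 * (1 / ((q : ℝ) - 1) ^ 2) * mass A B w +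
        8 * (1 / ((q : ℝ) - 1)))) + 8 * (L : ℝ) ^ 4 := by
    intro i hi
    rw [← Finset.add_sum_erase _ _ hi]
    have h5 := sqas_diag hw hAB hρ hq hLq (i : ℤ) (H := H)
    have h6 : |∑ j ∈ (Icc 1 H).erase i, ∑ x ∈ Ioc A B, w x *
        ((FF ρ L x (i : ℤ) * bq q x (i : ℤ)) * (FF ρ L x (j : ℤ) * bq q x (j : ℤ)))| ≤
        H * ((L : ℝ) ^ 4 * (3 * (1 / ((q : ℝ) - 1) ^ 2) * mass A B w +
        8 * (1 / ((q : ℝ) - 1)))) := by
      refine (Finset.abs_sum_le_sum_abs _ _).trans ?_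
      refine (Finset.sum_le_card_nsmul _ _ _ (fun j hj => sqas_off hw hAB hρ hq hH hi
        (Finset.mem_of_mem_erase hj) (Finset.ne_of_mem_erase hj).symm)).trans ?_
      rw [nsmul_eq_mul]
      refine mul_le_mul_of_nonneg_right ?_ hb0
      have h7 : ((Icc 1 H).erase i).card ≤ H := by
        refine (Finset.card_le_card (Finset.erase_subset _ _)).trans ?_
        simp
      exact_mod_cast h7
    have h7 := abs_le.mp h5
    have h8 := abs_le.mp h6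
    rw [abs_le]
    constructor <;> linarith [h7.1, h7.2, h8.1, h8.2]
  refine (Finset.sum_le_sum e4).trans ?_
  rw [Finset.sum_const, Nat.card_Icc, nsmul_eq_mul, Nat.add_sub_cancel]
  exact le_of_eq (by ring)

theorem sq_asym {A B L H R : ℕ} {w ρ : ℕ → ℝ} {Q : Finset ℕ} {Y : ℝ} (hP : Par A B L H R Q Y)
    (hw : Wt A B w) (hρ : SW L ρ) :
    |∑ x ∈ Ioc A B, w x * gH ρ L Q H x ^ 2 - H * Sq Q * Dl ρ L * mass A B w| ≤
      36 * (H : ℝ) ^ 2 * (L : ℝ) ^ 4 * (Q.card : ℝ) ^ 2 +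
      (H : ℝ) ^ 2 * (L : ℝ) ^ 4 * (3 * S2 Q * mass A B w + 8 * Sq Q) +
      8 * H * (L : ℝ) ^ 4 * Q.card := by
  have hAB := hP.hAB
  have hLlt : ∀ q ∈ Q, L < q := fun q hq => by
    have h1 := hP.hLq q hq
    have h2 := hP.hL
    nlinarith
  have e1 : ∑ x ∈ Ioc A B, w x * gH ρ L Q H x ^ 2 =
      ∑ q ∈ Q, ∑ q' ∈ Q, ∑ x ∈ Ioc A B, w x * (gq ρ L H q x * gq ρ L H q' x) := by
    have e2 : ∀ x ∈ Ioc A B, w x * gH ρ L Q H x ^ 2 =
        ∑ q ∈ Q, ∑ q' ∈ Q, w x * (gq ρ L H q x * gq ρ L H q' x) := by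
      intro x _
      rw [gH_eq, sq, Finset.sum_mul_sum, Finset.mul_sum]
      exact Finset.sum_congr rfl fun i _ => by rw [Finset.mul_sum]
    rw [Finset.sum_congr rfl e2, Finset.sum_comm]
    exact Finset.sum_congr rfl fun i _ => by rw [Finset.sum_comm]
  have e3 : H * Sq Q * Dl ρ L * mass A B w =
      ∑ q ∈ Q, H * (Dl ρ L * mass A B w * (1 / ((q : ℝ) - 1))) := by
    unfold Sq
    rw [Finset.mul_sum, Finset.sum_mul, Finset.sum_mul]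
    exact Finset.sum_congr rfl fun q _ => by ring
  rw [e1, e3, ← Finset.sum_sub_distrib]
  refine (Finset.abs_sum_le_sum_abs _ _).trans ?_
  have e4 : ∀ q ∈ Q, |∑ q' ∈ Q, ∑ x ∈ Ioc A B, w x * (gq ρ L H q x * gq ρ L H q' x) -
      H * (Dl ρ L * mass A B w * (1 / ((q : ℝ) - 1)))| ≤
      (Q.card : ℝ) * (36 * (H : ℝ) ^ 2 * (L : ℝ) ^ 4) +
      ((H : ℝ) ^ 2 * ((L : ℝ) ^ 4 * (3 * (1 / ((q : ℝ) - 1) ^ 2) * mass A B w +
        8 * (1 / ((q : ℝ) - 1)))) + H * (8 * (L : ℝ) ^ 4)) := by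
    intro q hq
    rw [← Finset.add_sum_erase _ _ hq]
    have h5 := sqas_one hw hAB hρ (hP.prime q hq) (hLlt q hq) (hP.hHq q hq)
    have h6 : |∑ q' ∈ Q.erase q, ∑ x ∈ Ioc A B, w x * (gq ρ L H q x * gq ρ L H q' x)| ≤
        (Q.card : ℝ) * (36 * (H : ℝ) ^ 2 * (L : ℝ) ^ 4) := by
      refine (Finset.abs_sum_le_sum_abs _ _).trans ?_
      refine (Finset.sum_le_card_nsmul _ _ _ (fun q' hq' => gq_orth hw hAB hρ (hP.prime q hq)
        (hLlt q hq) (hP.prime q' (Finset.mem_of_mem_erase hq'))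
        (hLlt q' (Finset.mem_of_mem_erase hq')) (Finset.ne_of_mem_erase hq').symm)).trans ?_
      rw [nsmul_eq_mul]
      refine mul_le_mul_of_nonneg_right ?_ (by positivity)
      exact_mod_cast Finset.card_le_card (Finset.erase_subset _ _)
    have h7 := abs_le.mp h5
    have h8 := abs_le.mp h6
    rw [abs_le]
    constructor <;> linarith [h7.1, h7.2, h8.1, h8.2]
  refine (Finset.sum_le_sum e4).trans (le_of_eq ?_)
  unfold Sq S2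
  simp only [Finset.sum_add_distrib, Finset.sum_const, nsmul_eq_mul, mul_add, Finset.mul_sum,
    Finset.sum_mul]
  have e5 : ∀ q ∈ Q, (H : ℝ) ^ 2 * ((L : ℝ) ^ 4 * (3 * (1 / ((q : ℝ) - 1) ^ 2) * mass A B w)) =
      (H : ℝ) ^ 2 * (L : ℝ) ^ 4 * (3 * (1 / ((q : ℝ) - 1) ^ 2) * mass A B w) := fun q _ => by ring
  have e6 : ∀ q ∈ Q, (H : ℝ) ^ 2 * ((L : ℝ) ^ 4 * (8 * (1 / ((q : ℝ) - 1)))) =
      (H : ℝ) ^ 2 * (L : ℝ) ^ 4 * (8 * (1 / ((q : ℝ) - 1))) := fun q _ => by ring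
  rw [Finset.sum_congr rfl e5, Finset.sum_congr rfl e6]
  ring

end Pool.Agent.H48.OM
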