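import Mathlib

/-!
[H48 OM NUML]  The numerical conditions.

`d = 1/(400ε)`, `a = 11ε/20`, `η = 50ε`.  Take `κ = d (1 - 25ε)`.
Proof.  Put `h = 25ε ≤ 1/40`, `θ = 1 - h`, `y = h/(1-h)` (so `1/θ = 1 + y`, `h ≤ y ≤ 1/39`),
`a/d = 220 ε^2`, `ε^2 = h^2/625 ≤ y^2/625`, `a/d ≤ (352/1000) y^2`.
* At `τ = d` the fifth condition is `exp(1 - 1/θ)(1 + a/d) < θ`, i.e.
  `exp(-y)(1+y)(1+a/d) < 1`, i.e. `log(1+y) - y + log(1+a/d) < 0`; `log(1+a/d) ≤ a/d` and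
  `log(1+y) ≤ y - y^2/2 + y^3/3` for `y ≥ 0` (or with error `2 y^3` from
  `Real.abs_log_sub_add_sum_range_le`, enough as `y ≤ 1/39`), so it is
  `≤ -y^2/2 + 2 y^3 + 0.352 y^2 < 0`.  By continuity it holds for some `τ < d` close to `d`
  (e.g. `Filter.Eventually` along `𝓝[<] d`, `κ < d`).
* Sixth condition: `d (1-η)/κ = (1-2h)/(1-h) = 1 - y`; it says `(1-y) exp(y) (1+a/d) < 1`;
  `log(1-y) + y ≤ -y^2/2` so it holds (`(1-y) exp y ≤ 1 - y^2/2`: or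
  `Real.log_le_sub_one_of_pos`-type bounds; with the Mathlib bound
  `Real.abs_log_sub_add_sum_range_le` again).
* Last: `4 a d = 11/2000`, `8 a^2 ≤ 3/10^6`.
-/

namespace Pool.Agent.H48.OM

private theorem numl_exp (y : ℝ) (h0 : 0 ≤ y) (h1 : y ≤ 1) :
    1 - y + y ^ 2 / 2 - 2 / 9 * y ^ 3 ≤ Real.exp (-y) := by
  have h2 := Real.exp_bound (x := -y) (by rw [abs_neg, abs_of_nonneg h0]; exact h1)
    (n := 3) (by norm_num)
  rw [abs_neg, abs_of_nonneg h0] at h2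
  simp only [Finset.sum_range_succ, Finset.sum_range_zero, Nat.factorial] at h2
  norm_num at h2
  have h3 := (abs_le.1 h2).1
  nlinarith [h3]

private theorem numl_key1 (h : ℝ) (h0 : 0 < h) (h1 : h ≤ 1 / 40) :
    Real.exp (1 - 1 / (1 - h)) * (1 + 352 / 1000 * h ^ 2) < 1 - h := by
  have hθ : 0 < 1 - h := by linarith
  obtain ⟨y, hy⟩ : ∃ y : ℝ, y = h / (1 - h) := ⟨_, rfl⟩
  have hyθ : y * (1 - h) = h := by rw [hy]; field_simp
  have hy0 : 0 < y := by rw [hy]; positivity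
  have hyh : h ≤ y := by nlinarith
  have e1 : 1 - 1 / (1 - h) = -y := by
    rw [hy]
    field_simp
    ring
  rw [e1, Real.exp_neg, inv_mul_lt_iff₀ (Real.exp_pos y)]
  have h2 := Real.quadratic_le_exp_of_nonneg hy0.le
  have h3 : (1 + y + y ^ 2 / 2) * (1 - h) ≤ Real.exp y * (1 - h) :=
    mul_le_mul_of_nonneg_right h2 hθ.le
  have h4 : (1 + y + y ^ 2 / 2) * (1 - h) = 1 + h * y / 2 := by
    have h5 : (1 + y + y ^ 2 / 2) * (1 - h) = (1 - h) + y * (1 - h) + y * (y * (1 - h)) / 2 := by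
      ring
    rw [h5, hyθ]
    ring
  rw [h4] at h3
  nlinarith

private theorem numl_key2 (h : ℝ) (h0 : 0 < h) (h1 : h ≤ 1 / 40) :
    (1 - 2 * h) * Real.exp (1 - (1 - 2 * h) / (1 - h)) * (1 + 352 / 1000 * h ^ 2) < 1 - h := by
  have hθ : 0 < 1 - h := by linarith
  obtain ⟨y, hy⟩ : ∃ y : ℝ, y = h / (1 - h) := ⟨_, rfl⟩
  have hyθ : y * (1 - h) = h := by rw [hy]; field_simp
  have hy0 : 0 < y := by rw [hy]; positivity
  have hyh : h ≤ y := by nlinarith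
  have hy1 : y ≤ 1 / 39 := by
    rw [hy, div_le_iff₀ hθ]
    linarith
  have e1 : 1 - (1 - 2 * h) / (1 - h) = y := by
    rw [hy]
    field_simp
    ring
  rw [e1]
  have h2 := numl_exp y hy0.le (by linarith)
  have h3 : (1 - y + y ^ 2 / 2 - 2 / 9 * y ^ 3) * (1 - h) ≤ Real.exp (-y) * (1 - h) :=
    mul_le_mul_of_nonneg_right h2 hθ.le
  have h4 : (1 - y + y ^ 2 / 2 - 2 / 9 * y ^ 3) * (1 - h) =
      1 - 2 * h + h * y * (1 / 2 - 2 / 9 * y) := by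
    have h5 : (1 - y + y ^ 2 / 2 - 2 / 9 * y ^ 3) * (1 - h) =
        (1 - h) - y * (1 - h) + y * (y * (1 - h)) / 2 - 2 / 9 * y ^ 2 * (y * (1 - h)) := by
      ring
    rw [h5, hyθ]
    ring
  rw [h4] at h3
  have h6 : h * h * (49 / 100) ≤ h * y * (1 / 2 - 2 / 9 * y) := by
    refine mul_le_mul ?_ (by linarith) (by norm_num) (by positivity)
    exact mul_le_mul_of_nonneg_left hyh h0.le
  have h7 : (1 - 2 * h) * (1 + 352 / 1000 * h ^ 2) < Real.exp (-y) * (1 - h) := by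
    nlinarith [mul_pos h0 h0, mul_pos h0 (mul_pos h0 h0)]
  have h8 : (1 - 2 * h) * Real.exp y * (1 + 352 / 1000 * h ^ 2) =
      Real.exp y * ((1 - 2 * h) * (1 + 352 / 1000 * h ^ 2)) := by ring
  have h9 : Real.exp y * (Real.exp (-y) * (1 - h)) = 1 - h := by
    rw [← mul_assoc, ← Real.exp_add, add_neg_cancel, Real.exp_zero, one_mul]
  rw [h8]
  calc Real.exp y * ((1 - 2 * h) * (1 + 352 / 1000 * h ^ 2))
      < Real.exp y * (Real.exp (-y) * (1 - h)) := mul_lt_mul_of_pos_left h7 (Real.exp_pos y)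
    _ = 1 - h := h9

theorem num_l (ε : ℝ) (hε : 0 < ε) (hε1 : ε ≤ 1 / 1000) : ∃ κ τ : ℝ, 0 < κ ∧
    1 / (400 * ε) * (1 - 50 * ε) < κ ∧ κ < τ ∧ τ < 1 / (400 * ε) ∧
    Real.exp (1 - τ / κ) * (1 / (400 * ε) + 11 * ε / 20) < κ ∧
    (1 - 50 * ε) * Real.exp (1 - 1 / (400 * ε) * (1 - 50 * ε) / κ) *
      (1 / (400 * ε) + 11 * ε / 20) < κ ∧
    4 * (11 * ε / 20) * (1 / (400 * ε)) + 8 * (11 * ε / 20) ^ 2 ≤ 1 / 100 := by
  obtain ⟨d, hd⟩ : ∃ d : ℝ, d = 1 / (400 * ε) := ⟨_, rfl⟩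
  have hd0 : 0 < d := by rw [hd]; positivity
  have hθ : 0 < 1 - 25 * ε := by linarith
  have hdε : d * ε = 1 / 400 := by
    rw [hd]
    field_simp
  have hsum : d + 11 * ε / 20 = d * (1 + 352 / 1000 * (25 * ε) ^ 2) := by
    have h1 : d * (1 + 352 / 1000 * (25 * ε) ^ 2) = d + 220 * (d * ε) * ε := by ring
    rw [h1, hdε]
    ring
  rw [← hd]
  have hκ0 : 0 < d * (1 - 25 * ε) := mul_pos hd0 hθ
  have k1 := numl_key1 (25 * ε) (by positivity) (by linarith)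
  have k2 := numl_key2 (25 * ε) (by positivity) (by linarith)
  have hcont : Continuous fun τ : ℝ => Real.exp (1 - τ / (d * (1 - 25 * ε))) *
      (d + 11 * ε / 20) := by fun_prop
  have hval : Real.exp (1 - d / (d * (1 - 25 * ε))) * (d + 11 * ε / 20) <
      d * (1 - 25 * ε) := by
    have h1 : d / (d * (1 - 25 * ε)) = 1 / (1 - 25 * ε) := by
      field_simp
    rw [h1, hsum]
    have h2 := mul_lt_mul_of_pos_left k1 hd0
    refine lt_of_eq_of_lt ?_ h2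
    ring
  have hev : ∀ᶠ τ in nhds d, Real.exp (1 - τ / (d * (1 - 25 * ε))) * (d + 11 * ε / 20) <
      d * (1 - 25 * ε) := (hcont.tendsto d).eventually (gt_mem_nhds hval)
  have hκd : d * (1 - 25 * ε) < d := by nlinarith
  have hev2 : ∀ᶠ τ in nhdsWithin d (Set.Iio d), d * (1 - 25 * ε) < τ ∧ τ < d ∧
      Real.exp (1 - τ / (d * (1 - 25 * ε))) * (d + 11 * ε / 20) < d * (1 - 25 * ε) := by
    filter_upwards [mem_nhdsWithin_of_mem_nhds (lt_mem_nhds hκd), self_mem_nhdsWithin,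
      mem_nhdsWithin_of_mem_nhds hev] with τ h1 h2 h3
    exact ⟨h1, h2, h3⟩
  obtain ⟨τ, h1, h2, h3⟩ := hev2.exists
  refine ⟨d * (1 - 25 * ε), τ, hκ0, ?_, h1, h2, h3, ?_, ?_⟩
  · nlinarith
  · have h4 : d * (1 - 50 * ε) / (d * (1 - 25 * ε)) = (1 - 2 * (25 * ε)) / (1 - 25 * ε) := by
      rw [mul_div_mul_left _ _ hd0.ne']
      congr 1
      ring
    rw [h4, hsum]
    have h5 := mul_lt_mul_of_pos_left k2 hd0
    refine lt_of_eq_of_lt ?_ h5
    ring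
  · have h6 : 4 * (11 * ε / 20) * d = 44 / 20 * (d * ε) := by ring
    rw [h6, hdε]
    nlinarith

end Pool.Agent.H48.OM
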