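import Pool.Agent.H48.OM.LandL
import Pool.Agent.H48.OM.NumL

/-!
[H48 OM DYADL]  Dyadic blocks with many / few primes in `[X^(1-51ε), X]`.

Proof.  As `Pool/Agent/H48/OM/Dyad.lean` (proved), with `landau_loc` (`c = 1/4`, `a = 11ε/20`,
`d = 1/(400ε)`, `η = 50ε`, `κ, τ` from `num_l`) instead of `landau`.  Suppose for some large `X` that
`σ (θ(2Y) - θ(Y) - Y) > Y^(1-a)` for all `Y ∈ [X^(1-51ε), X]`.  Let `D(x) = σ (θ x - x)`,
`Y₀ = X^(1-51ε)`: `D(2Y) > D(Y) + Y^(1-a)` for `Y₀ ≤ Y ≤ X`.  By induction on `k` (see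
`dyad_low`; here the step is only used for `Y ≤ X`) `D(x) ≥ -C Y₀` for `Y₀ ≤ x ≤ X`, because
`|D(x)| ≤ θ(2Y₀) + 2Y₀ ≤ C Y₀` for `x ≤ 2Y₀` (`Chebyshev.theta_le...`: `θ(x) ≤ (log 4) x`).  So for
an integer `n ∈ [X^(1-50ε), X]`: `n/2 ≥ Y₀` and
`D(n) ≥ (n/2)^(1-a) - C Y₀ ≥ n^(1-a)/2 - C X^(1-51ε)`; `n^(1-a) ≥ X^((1-50ε)(1-11ε/20))` and
`(1-50ε)(1-11ε/20) > 1 - 51ε`, so `C X^(1-51ε) ≤ n^(1-a)/8` for large `X`.  With
`|ψ(n) - θ(n)| ≤ C' sqrt n ≤ n^(1-a)/8` (`Chebyshev.psi_sub_theta_le_mul_sqrt`):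
`σ (ψ(n) - n) ≥ n^(1-a)/4` for all `n ∈ [X^(1-50ε), X]`, against `landau_loc`.
-/

namespace Pool.Agent.H48.OM

open Filter

private theorem dyad_low_loc (D : ℝ → ℝ) (Y₀ X C : ℝ) (hY : 1 ≤ Y₀)
    (h : ∀ x, Y₀ ≤ x → x ≤ X → D x < D (2 * x)) (h0 : ∀ x, Y₀ ≤ x → x ≤ 2 * Y₀ → -C ≤ D x) (k : ℕ) :
    ∀ x, Y₀ ≤ x → x ≤ X → x ≤ 2 ^ (k + 1) * Y₀ → -C ≤ D x := by
  induction k with
  | zero =>
    intro x h1 _ h2
    refine h0 x h1 (by simpa using h2)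
  | succ k ih =>
    intro x h1 hX h2
    rcases le_or_gt x (2 ^ (k + 1) * Y₀) with h3 | h3
    · exact ih x h1 hX h3
    · have h4 : Y₀ ≤ x / 2 := by
        have h5 : (1 : ℝ) ≤ 2 ^ k := one_le_pow₀ (by norm_num)
        have h6 : (2 : ℝ) ^ (k + 1) * Y₀ = 2 * (2 ^ k * Y₀) := by ring
        have h7 : Y₀ ≤ 2 ^ k * Y₀ := le_mul_of_one_le_left (by linarith) h5
        linarith
      have h5 : x / 2 ≤ 2 ^ (k + 1) * Y₀ := by
        have h6 : (2 : ℝ) ^ (k + 1 + 1) * Y₀ = 2 * (2 ^ (k + 1) * Y₀) := by ring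
        linarith
      have hX2 : x / 2 ≤ X := by linarith
      have h6 := ih _ h4 hX2 h5
      have h7 := h _ h4 hX2
      have h8 : 2 * (x / 2) = x := by ring
      rw [h8] at h7
      linarith

theorem dyad_loc (ε : ℝ) (hε : 0 < ε) (hε1 : ε ≤ 1 / 1000) (σ : ℝ) (hσ : σ = 1 ∨ σ = -1) :
    ∀ᶠ X : ℝ in atTop, ∃ Y : ℝ, X ^ (1 - 51 * ε) ≤ Y ∧ Y ≤ X ∧
      σ * (Chebyshev.theta (2 * Y) - Chebyshev.theta Y - Y) ≤ Y ^ (1 - 11 * ε / 20) := by
  obtain ⟨κ, τ, k1, k2, k3, k4, k5, k6, k7⟩ := num_l ε hε hε1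
  have hl := landau_loc σ (1 / 4) (11 * ε / 20) (1 / (400 * ε)) (50 * ε) κ τ hσ (by norm_num)
    (by positivity) (by positivity) k7 (by positivity) (by linarith) k1 k2 k3 k4 k5 k6
  obtain ⟨C', hC'⟩ := Chebyshev.psi_sub_theta_le_mul_sqrt
  have t1 := (tendsto_rpow_atTop hε).eventually_ge_atTop 2
  have t2 := (tendsto_rpow_atTop (show (0 : ℝ) < 9 * ε / 20 by positivity)).eventually_ge_atTop 40
  have t3 := (tendsto_rpow_atTop (show (0 : ℝ) < 4 / 10 by norm_num)).eventually_ge_atTop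
    (8 * |C'|)
  filter_upwards [hl, t1, t2, t3, eventually_ge_atTop (1 : ℝ)] with X hX t1 t2 t3 hX1
  by_contra hcon
  push Not at hcon
  have hX0 : 0 < X := by linarith
  have hmono : ∀ a b : ℝ, a ≤ b → X ^ a ≤ X ^ b := fun a b hab =>
    Real.rpow_le_rpow_of_exponent_le hX1 hab
  set Y₀ : ℝ := X ^ (1 - 51 * ε) with hY₀
  have hY1 : 1 ≤ Y₀ := Real.one_le_rpow hX1 (by linarith)
  set D : ℝ → ℝ := fun x => σ * (Chebyshev.theta x - x) with hD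
  have hstep : ∀ x, Y₀ ≤ x → x ≤ X → D x + x ^ (1 - 11 * ε / 20) < D (2 * x) := by
    intro x hx hxX
    have := hcon x hx hxX
    simp only [hD]
    linarith
  have hs : |σ| = 1 := by rcases hσ with h | h <;> rw [h] <;> simp
  set C : ℝ := Chebyshev.theta (2 * Y₀) + 2 * Y₀ with hC
  have hbase : ∀ x, Y₀ ≤ x → x ≤ 2 * Y₀ → -C ≤ D x := by
    intro x h1 h2
    have h3 : |D x| ≤ C := by
      simp only [hD]
      rw [abs_mul, hs, one_mul]
      refine (abs_sub _ _).trans ?_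
      rw [abs_of_nonneg (Chebyshev.theta_nonneg x), abs_of_nonneg (by linarith)]
      exact add_le_add (Chebyshev.theta_mono h2) h2
    exact (abs_le.1 h3).1
  have hlow : ∀ x, Y₀ ≤ x → x ≤ X → -C ≤ D x := by
    intro x hx hxX
    obtain ⟨k, hk⟩ := pow_unbounded_of_one_lt x (one_lt_two (α := ℝ))
    refine dyad_low_loc D Y₀ X C hY1 (fun y hy hyX => ?_) hbase k x hx hxX ?_
    · have h1 := hstep y hy hyX
      have h2 : 0 ≤ y ^ (1 - 11 * ε / 20) := Real.rpow_nonneg (by linarith) _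
      linarith
    · have h1 : (2 : ℝ) ^ k ≤ 2 ^ (k + 1) := pow_le_pow_right₀ (by norm_num) (Nat.le_succ k)
      have h2 : (2 : ℝ) ^ (k + 1) ≤ 2 ^ (k + 1) * Y₀ :=
        le_mul_of_one_le_right (by positivity) hY1
      linarith
  have hC5 : C ≤ 5 * Y₀ := by
    have h1 := Chebyshev.theta_le_log4_mul_x (x := 2 * Y₀) (by linarith)
    have h2 : Real.log 4 ≤ 3 / 2 := by
      have h3 : Real.log 4 = 2 * Real.log 2 := by
        rw [show (4 : ℝ) = 2 ^ 2 by norm_num, Real.log_pow]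
        push_cast
        ring
      rw [h3]
      have := Real.log_two_lt_d9
      linarith
    have h3 : Real.log 4 * (2 * Y₀) ≤ 3 / 2 * (2 * Y₀) :=
      mul_le_mul_of_nonneg_right h2 (by linarith)
    rw [hC]
    linarith
  obtain ⟨n, hn1, hn2, hn3⟩ := hX
  have hX2Y : 2 * Y₀ ≤ X ^ (1 - 50 * ε) := by
    have h1 : X ^ (1 - 50 * ε) = X ^ ε * Y₀ := by
      rw [hY₀, ← Real.rpow_add hX0]
      congr 1
      ring
    rw [h1]
    exact mul_le_mul_of_nonneg_right t1 (by linarith)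
  have hn : 2 * Y₀ ≤ (n : ℝ) := hX2Y.trans hn1
  have hn0 : (0 : ℝ) < n := by linarith
  have hn1' : (1 : ℝ) ≤ n := by linarith
  have ha : 11 * ε / 20 ≤ 1 / 100 := by linarith
  set Z : ℝ := (n : ℝ) ^ (1 - 11 * ε / 20) with hZ
  have g1 : Y₀ ≤ (n : ℝ) / 2 := by linarith
  have g1' : (n : ℝ) / 2 ≤ X := by linarith
  have g2 := hstep _ g1 g1'
  have g3 : 2 * ((n : ℝ) / 2) = n := by ring
  rw [g3] at g2
  have g4 := hlow _ g1 g1'
  have g5 : Z / 2 ≤ ((n : ℝ) / 2) ^ (1 - 11 * ε / 20) := by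
    rw [hZ, Real.div_rpow hn0.le (by norm_num)]
    refine div_le_div_of_nonneg_left (Real.rpow_nonneg hn0.le _) (by positivity) ?_
    calc (2 : ℝ) ^ (1 - 11 * ε / 20) ≤ 2 ^ (1 : ℝ) :=
          Real.rpow_le_rpow_of_exponent_le (by norm_num) (by linarith)
      _ = 2 := Real.rpow_one 2
  have g5' : 5 * Y₀ ≤ Z / 8 := by
    have h1 : (X ^ (1 - 50 * ε)) ^ (1 - 11 * ε / 20) ≤ Z :=
      Real.rpow_le_rpow (Real.rpow_nonneg hX0.le _) hn1 (by linarith)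
    rw [← Real.rpow_mul hX0.le] at h1
    have h2 : X ^ (1 - 51 * ε + 9 * ε / 20) ≤ X ^ ((1 - 50 * ε) * (1 - 11 * ε / 20)) := by
      apply hmono
      nlinarith [mul_pos hε hε]
    rw [Real.rpow_add hX0, ← hY₀] at h2
    have h3 : Y₀ * 40 ≤ Y₀ * X ^ (9 * ε / 20) := mul_le_mul_of_nonneg_left t2 (by linarith)
    linarith
  have g6 : |C'| * Real.sqrt n ≤ Z / 8 := by
    have e : Z = (n : ℝ) ^ (1 / 2 - 11 * ε / 20) * Real.sqrt n := by
      rw [hZ, Real.sqrt_eq_rpow, ← Real.rpow_add hn0]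
      congr 1
      ring
    have h1 : 8 * |C'| ≤ (n : ℝ) ^ (1 / 2 - 11 * ε / 20) := by
      have h2 : (X ^ (1 - 50 * ε)) ^ (1 / 2 - 11 * ε / 20) ≤ (n : ℝ) ^ (1 / 2 - 11 * ε / 20) :=
        Real.rpow_le_rpow (Real.rpow_nonneg hX0.le _) hn1 (by linarith)
      rw [← Real.rpow_mul hX0.le] at h2
      have h3 : X ^ (4 / 10 : ℝ) ≤ X ^ ((1 - 50 * ε) * (1 / 2 - 11 * ε / 20)) := by
        apply hmono
        nlinarith [mul_pos hε hε]
      linarith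
    have := mul_le_mul_of_nonneg_right h1 (Real.sqrt_nonneg n)
    rw [e]
    linarith
  have g7 : |Chebyshev.psi n - Chebyshev.theta n| ≤ |C'| * Real.sqrt n := by
    rw [abs_of_nonneg (sub_nonneg.2 (Chebyshev.theta_le_psi n))]
    refine (hC' n).trans ?_
    exact mul_le_mul_of_nonneg_right (le_abs_self _) (Real.sqrt_nonneg _)
  have g8 : σ * (Chebyshev.psi n - n) = D n + σ * (Chebyshev.psi n - Chebyshev.theta n) := by
    simp only [hD]
    ring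
  have g9 : -|Chebyshev.psi n - Chebyshev.theta n| ≤
      σ * (Chebyshev.psi n - Chebyshev.theta n) := by
    have := neg_abs_le (σ * (Chebyshev.psi n - Chebyshev.theta n))
    rwa [abs_mul, hs, one_mul] at this
  rw [g8] at hn3
  linarith

end Pool.Agent.H48.OM
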