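import Pool.Agent.H48.OM.Defs
import Pool.Agent.H67.VS.Hat
import Pool.Agent.H67.VS.Sqb
import Pool.Agent.H67.VS.Ls

/-!
[H48 OM PARA]  The parameters of the final choice.

Notation: `X` large, `A = Ax X = ⌊X/2⌋`, `B = Bx X = ⌊4X⌋`, `R = Rx X = ⌊X^(17/200)⌋`,
`L = Lo ε X = ⌊X^(ε/100)⌋ ≤ X^(1/100000)`, `Q = Qo X` the primes in `(⌊X^(30/1000)⌋, ⌊X^(35/1000)⌋]`,
`Y = Yo X = X^(30/1000)/2`.
Proofs.
* `par_ok`: `q > ⌊X^(30/1000)⌋`, so `q > X^(30/1000)` (`Nat.lt_of_floor_lt`), `q - 1 ≥ X^(30/1000)/2`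
  for large `X`; `q q' L^2 ≤ X^(70/1000) X^(2/100000) ≤ X^(84/1000)`, below `⌊X^(85/1000)⌋` and
  `⌊X/2⌋` for large `X`; `L^2 ≤ X^(2/100000) < X^(30/1000)`, `H ≤ X^(2/1000) < X^(30/1000)`;
  `L ≥ 2` for large `X` (depends on `ε`); `H ≤ X^(2/1000) ≤ ⌊X/2⌋`.
* `sq_ge`: as `sq_lower` in `Pool/Agent/H67/VS/Sqb.lean`: `sqb_sum` gives
  `∑ log q/q ≥ log b - log a - 5 - log 4 ≥ (5/1000) log X - 8`, `a = ⌊X^(30/1000)⌋`,
  `b = ⌊X^(35/1000)⌋`, and `1/(q-1) ≥ 1/q ≥ (log q/q)/((35/1000) log X)`, so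
  `Sq ≥ 1/7 - 8/((35/1000) log X) ≥ 1/8`.
* `sq_le`: `1/(q-1) ≤ 2/q`... enough: the numbers `q - 1` are distinct in `[1, X^(35/1000)]`, so
  `Sq ≤ ∑_{m ≤ X^(35/1000)} 1/m ≤ 1 + log X^(35/1000) ≤ log X` (`harmonic_le_one_add_log`).
* `s2_le`: `1/(q-1)^2 ≤ (1/Y) 1/(q-1)`, `S2 ≤ Sq/Y ≤ 2 log X X^(-30/1000)`.
* `card_le`: `|Q| ≤ ⌊X^(35/1000)⌋`.
* `div_le`: the product of the primes of `Q` dividing `m` divides `m`, is `≥ 2^card`, so
  `card ≤ log(5X)/log 2 ≤ 2 log X` for large `X`.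
* `lo_ge`: `log L ≥ (ε/200) log X` for large `X` (`L ≥ X^(ε/100)/2 ≥ X^(ε/200)`).
-/

namespace Pool.Agent.H48.OM

open Finset Filter Pool.Agent.H21.MT Pool.Agent.H67.VS

theorem parA_ge (a C : ℝ) (ha : 0 < a) : ∀ᶠ X : ℝ in atTop, C ≤ X ^ a :=
  (tendsto_rpow_atTop ha).eventually_ge_atTop C

theorem parA_mem {X : ℝ} (hX : 0 < X) {q : ℕ} (hq : q ∈ Qo X) :
    q.Prime ∧ X ^ (30 / 1000 : ℝ) < q ∧ (q : ℝ) ≤ X ^ (35 / 1000 : ℝ) := by
  rw [Qo, Finset.mem_filter, Finset.mem_Ioc] at hq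
  refine ⟨hq.2, Nat.lt_of_floor_lt hq.1.1, ?_⟩
  exact (Nat.le_floor_iff (by positivity)).1 hq.1.2

theorem par_ok (ε : ℝ) (hε : 0 < ε) (hε1 : ε ≤ 1 / 1000) : ∀ᶠ X : ℝ in atTop, ∀ H : ℕ, 1 ≤ H →
    (H : ℝ) ≤ X ^ (1 / 500 : ℝ) → Par (Ax X) (Bx X) (Lo ε X) H (Rx X) (Qo X) (Yo X) := by
  filter_upwards [parA_ge (ε / 100) 2 (by positivity), parA_ge (30 / 1000) 2 (by norm_num),
    parA_ge (1 / 2) 2 (by norm_num), eventually_ge_atTop (1 : ℝ)] with X h1 h2 h3 hX1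
  intro H hH hHX
  have hX0 : 0 < X := by linarith
  have hhalf : X ^ (1 / 2 : ℝ) ≤ X / 2 := by
    have h4 : X ^ (1 / 2 : ℝ) * X ^ (1 / 2 : ℝ) = X := by
      rw [← Real.rpow_add hX0]
      norm_num
    nlinarith
  have mono : ∀ {a b : ℝ}, a ≤ b → X ^ a ≤ X ^ b := fun h =>
    Real.rpow_le_rpow_of_exponent_le hX1 h
  have hL : (Lo ε X : ℝ) ≤ X ^ (1 / 100000 : ℝ) :=
    (Nat.floor_le (by positivity)).trans (mono (by linarith))
  have hL2 : ((Lo ε X : ℝ)) ^ 2 ≤ X ^ (2 / 100000 : ℝ) := by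
    have h5 : X ^ (2 / 100000 : ℝ) = X ^ (1 / 100000 : ℝ) * X ^ (1 / 100000 : ℝ) := by
      rw [← Real.rpow_add hX0]
      norm_num
    rw [h5, sq]
    exact mul_le_mul hL hL (Nat.cast_nonneg _) (by positivity)
  have hqq : ∀ q ∈ Qo X, ∀ q' ∈ Qo X, ((q * q' * (Lo ε X) ^ 2 : ℕ) : ℝ) ≤ X ^ (17 / 200 : ℝ) := by
    intro q hq q' hq'
    obtain ⟨-, -, h5⟩ := parA_mem hX0 hq
    obtain ⟨-, -, h6⟩ := parA_mem hX0 hq'
    have h7 : X ^ (35 / 1000 : ℝ) * X ^ (35 / 1000 : ℝ) * X ^ (2 / 100000 : ℝ) ≤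
        X ^ (17 / 200 : ℝ) := by
      rw [← Real.rpow_add hX0, ← Real.rpow_add hX0]
      exact mono (by norm_num)
    push_cast
    refine le_trans ?_ h7
    gcongr
  refine ⟨?_, ?_, hH, ?_, ?_, ?_, ?_, ?_, ?_, ?_, ?_⟩
  · exact Nat.floor_le_floor (by linarith)
  · exact Nat.le_floor (by simpa using h1)
  · exact Nat.le_floor (hHX.trans ((mono (by norm_num)).trans hhalf))
  · unfold Yo
    linarith
  · exact fun q hq => (parA_mem hX0 hq).1
  · intro q hq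
    have h5 := (parA_mem hX0 hq).2.1
    have h6 : ((Lo ε X : ℝ)) ^ 2 < q := lt_of_le_of_lt (hL2.trans (mono (by norm_num))) h5
    exact_mod_cast h6
  · intro q hq
    have h5 := (parA_mem hX0 hq).2.1
    have h6 : (H : ℝ) < q := lt_of_le_of_lt (hHX.trans (mono (by norm_num))) h5
    exact_mod_cast h6
  · intro q hq
    have h5 := (parA_mem hX0 hq).2.1
    unfold Yo
    linarith
  · exact fun q hq q' hq' => Nat.le_floor (hqq q hq q' hq')
  · exact fun q hq q' hq' => Nat.le_floor ((hqq q hq q' hq').trans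
      ((mono (by norm_num)).trans hhalf))

theorem sq_ge : ∀ᶠ X : ℝ in atTop, 1 / 8 ≤ Sq (Qo X) := by
  filter_upwards [eventually_ge_atTop (Real.exp 20000)] with X hX
  have hXpos : 0 < X := lt_of_lt_of_le (Real.exp_pos _) hX
  set L : ℝ := Real.log X with hL
  have hL1 : 20000 ≤ L := by
    rw [hL, Real.le_log_iff_exp_le hXpos]
    exact hX
  have hX1 : 1 ≤ X := by
    have := Real.add_one_le_exp (20000 : ℝ)
    linarith
  set a : ℕ := ⌊X ^ (30 / 1000 : ℝ)⌋₊ with ha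
  set b : ℕ := ⌊X ^ (35 / 1000 : ℝ)⌋₊ with hb
  have hpa : 1 ≤ X ^ (30 / 1000 : ℝ) := Real.one_le_rpow hX1 (by norm_num)
  have hab' : X ^ (30 / 1000 : ℝ) ≤ X ^ (35 / 1000 : ℝ) :=
    Real.rpow_le_rpow_of_exponent_le hX1 (by norm_num)
  have ha1 : 1 ≤ a := Nat.le_floor (by simpa using hpa)
  have hab : a ≤ b := Nat.floor_le_floor hab'
  have hla : Real.log a ≤ 30 / 1000 * L := by
    rw [hL, ← Real.log_rpow hXpos]
    exact Real.log_le_log (by exact_mod_cast ha1) (Nat.floor_le (by positivity))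
  have hlb : Real.log b ≤ 35 / 1000 * L := by
    rw [hL, ← Real.log_rpow hXpos]
    exact Real.log_le_log (by exact_mod_cast (le_trans ha1 hab)) (Nat.floor_le (by positivity))
  have hlb' : 35 / 1000 * L - Real.log 2 ≤ Real.log b := by
    have h1 : X ^ (35 / 1000 : ℝ) / 2 ≤ b := by
      have h2 := Nat.lt_floor_add_one (X ^ (35 / 1000 : ℝ))
      rw [← hb] at h2
      have h3 : (1 : ℝ) ≤ b := by exact_mod_cast (le_trans ha1 hab)
      linarith
    have h4 : 35 / 1000 * L - Real.log 2 = Real.log (X ^ (35 / 1000 : ℝ) / 2) := by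
      rw [Real.log_div (by positivity) (by norm_num), Real.log_rpow hXpos]
    rw [h4]
    exact Real.log_le_log (by positivity) h1
  have hlog2 : Real.log 2 < 1 := by
    have := Real.log_two_lt_d9
    linarith
  have hlog4 : Real.log 4 < 2 := by
    have h1 : (4 : ℝ) = 2 ^ 2 := by norm_num
    rw [h1, Real.log_pow]
    push_cast
    linarith
  have hlbpos : 0 < Real.log b := by linarith
  have hsum := sqb_sum a b ha1 hab
  have hterm : ∀ q ∈ Qo X, Real.log q / q / Real.log b ≤ 1 / ((q : ℝ) - 1) := by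
    intro q hq
    rw [Qo, Finset.mem_filter, Finset.mem_Ioc] at hq
    have hq2 : (2 : ℝ) ≤ q := by exact_mod_cast hq.2.two_le
    have hqb : Real.log q ≤ Real.log b :=
      Real.log_le_log (by linarith) (by exact_mod_cast hq.1.2)
    rw [div_div, div_le_div_iff₀ (by positivity) (by linarith)]
    have hlq : 0 ≤ Real.log q := Real.log_nonneg (by linarith)
    nlinarith
  have h1 : (∑ q ∈ Qo X, Real.log q / q) / Real.log b ≤ Sq (Qo X) := by
    rw [Finset.sum_div]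
    exact Finset.sum_le_sum hterm
  refine le_trans ?_ h1
  rw [le_div_iff₀ hlbpos]
  refine le_trans ?_ hsum
  linarith

theorem parA_pos {X : ℝ} {q : ℕ} (hq : q ∈ Qo X) : (1 : ℝ) ≤ (q : ℝ) - 1 := by
  rw [Qo, Finset.mem_filter] at hq
  have : (2 : ℝ) ≤ q := by exact_mod_cast hq.2.two_le
  linarith

theorem sq_le : ∀ᶠ X : ℝ in atTop, Sq (Qo X) ≤ Real.log X := by
  filter_upwards [eventually_ge_atTop (Real.exp 2)] with X hX
  have hX0 : 0 < X := lt_of_lt_of_le (Real.exp_pos _) hX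
  have hL : 2 ≤ Real.log X := by
    rw [Real.le_log_iff_exp_le hX0]
    exact hX
  have hX1 : 1 ≤ X := by
    have := Real.add_one_le_exp (2 : ℝ)
    linarith
  set b : ℕ := ⌊X ^ (35 / 1000 : ℝ)⌋₊ with hb
  have hb1 : 1 ≤ b := Nat.le_floor (by
    simpa using Real.one_le_rpow hX1 (by norm_num : (0 : ℝ) ≤ 35 / 1000))
  have h1 : Sq (Qo X) = ∑ i ∈ ((Qo X).image (fun q : ℕ => (q - 2 : ℕ)) : Finset ℕ),
      (1 : ℝ) / ((i : ℝ) + 1) := by
    rw [Finset.sum_image]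
    · unfold Sq
      refine Finset.sum_congr rfl fun q hq => ?_
      have h2 : 2 ≤ q := by
        rw [Qo, Finset.mem_filter] at hq
        exact hq.2.two_le
      rw [Nat.cast_sub h2]
      push_cast
      congr 1
      ring
    · intro x hx y hy hxy
      rw [Finset.mem_coe, Qo, Finset.mem_filter] at hx hy
      have h3 := hx.2.two_le
      have h4 := hy.2.two_le
      simp only at hxy
      omega
  have h2 : ((Qo X).image (fun q : ℕ => (q - 2 : ℕ)) : Finset ℕ) ⊆ Finset.range b := by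
    intro i hi
    rw [Finset.mem_image] at hi
    obtain ⟨q, hq, rfl⟩ := hi
    rw [Qo, Finset.mem_filter, Finset.mem_Ioc] at hq
    have h3 := hq.2.two_le
    have h4 := hq.1.2
    rw [Finset.mem_range]
    omega
  have h3 : ∑ i ∈ ((Qo X).image (fun q : ℕ => (q - 2 : ℕ)) : Finset ℕ), (1 : ℝ) / ((i : ℝ) + 1) ≤
      ∑ i ∈ Finset.range b, (1 : ℝ) / ((i : ℝ) + 1) :=
    Finset.sum_le_sum_of_subset_of_nonneg h2 fun i _ _ => by positivity
  have h4 : ∑ i ∈ Finset.range b, (1 : ℝ) / ((i : ℝ) + 1) = (harmonic b : ℝ) := by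
    unfold harmonic
    push_cast
    simp only [one_div]
  have h5 := harmonic_le_one_add_log b
  have h6 : Real.log b ≤ 35 / 1000 * Real.log X := by
    rw [← Real.log_rpow hX0]
    exact Real.log_le_log (by exact_mod_cast hb1) (Nat.floor_le (by positivity))
  rw [h1]
  linarith

theorem s2_le : ∀ᶠ X : ℝ in atTop, S2 (Qo X) ≤ 2 * Real.log X * X ^ (-(30 / 1000) : ℝ) := by
  filter_upwards [sq_le, eventually_ge_atTop (1 : ℝ), parA_ge (30 / 1000) 2 (by norm_num)]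
    with X h1 hX1 h2
  have hX0 : 0 < X := by linarith
  have h3 : S2 (Qo X) ≤ Sq (Qo X) * (2 * X ^ (-(30 / 1000) : ℝ)) := by
    unfold S2 Sq
    rw [Finset.sum_mul]
    refine Finset.sum_le_sum fun q hq => ?_
    have h4 := parA_pos hq
    have h5 := (parA_mem hX0 hq).2.1
    have h6 : X ^ (30 / 1000 : ℝ) / 2 ≤ (q : ℝ) - 1 := by linarith
    have h7 : 0 < X ^ (30 / 1000 : ℝ) := by positivity
    rw [Real.rpow_neg hX0.le, sq, ← one_div_mul_one_div]
    refine mul_le_mul_of_nonneg_left ?_ (by positivity)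
    rw [← div_eq_mul_inv, div_le_div_iff₀ (by linarith) h7]
    linarith
  refine h3.trans ?_
  have h4 : 0 ≤ 2 * X ^ (-(30 / 1000) : ℝ) := by positivity
  calc Sq (Qo X) * (2 * X ^ (-(30 / 1000) : ℝ)) ≤ Real.log X * (2 * X ^ (-(30 / 1000) : ℝ)) :=
        mul_le_mul_of_nonneg_right h1 h4
    _ = _ := by ring

theorem card_le : ∀ᶠ X : ℝ in atTop, ((Qo X).card : ℝ) ≤ X ^ (35 / 1000 : ℝ) := by
  filter_upwards [eventually_ge_atTop (1 : ℝ)] with X hX1
  have h1 : (Qo X).card ≤ ⌊X ^ (35 / 1000 : ℝ)⌋₊ := by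
    refine (Finset.card_filter_le _ _).trans ?_
    rw [Nat.card_Ioc]
    exact Nat.sub_le _ _
  calc ((Qo X).card : ℝ) ≤ (⌊X ^ (35 / 1000 : ℝ)⌋₊ : ℝ) := by exact_mod_cast h1
    _ ≤ X ^ (35 / 1000 : ℝ) := Nat.floor_le (by positivity)

theorem div_le : ∀ᶠ X : ℝ in atTop, ∀ m : ℕ, 1 ≤ m → (m : ℝ) ≤ 5 * X →
    (((Qo X).filter (fun q => q ∣ m)).card : ℝ) ≤ 2 * Real.log X := by
  filter_upwards [eventually_ge_atTop (Real.exp 10)] with X hX
  intro m hm hmX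
  have hX0 : 0 < X := lt_of_lt_of_le (Real.exp_pos _) hX
  have hL : 10 ≤ Real.log X := by
    rw [Real.le_log_iff_exp_le hX0]
    exact hX
  set s := (Qo X).filter (fun q => q ∣ m) with hs
  have h1 : ∏ p ∈ s, p ∣ m := by
    refine Finset.prod_primes_dvd m (fun p hp => ?_) (fun p hp => ?_)
    · rw [hs, Finset.mem_filter, Qo, Finset.mem_filter] at hp
      exact hp.1.2.prime
    · rw [hs, Finset.mem_filter] at hp
      exact hp.2
  have h2 : 2 ^ s.card ≤ ∏ p ∈ s, p := by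
    refine Finset.pow_card_le_prod s (fun p => p) 2 fun p hp => ?_
    rw [hs, Finset.mem_filter, Qo, Finset.mem_filter] at hp
    exact hp.1.2.two_le
  have h3 : 2 ^ s.card ≤ m := h2.trans (Nat.le_of_dvd hm h1)
  have h4 : ((2 : ℝ)) ^ s.card ≤ 5 * X := by
    refine le_trans ?_ hmX
    exact_mod_cast h3
  have h5 := Real.log_le_log (by positivity) h4
  rw [Real.log_pow, Real.log_mul (by norm_num) hX0.ne'] at h5
  have h6 := Real.log_two_gt_d9
  have h7 : Real.log 5 ≤ 3 * Real.log 2 := by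
    have h8 : (3 : ℝ) * Real.log 2 = Real.log (2 ^ 3) := by
      rw [Real.log_pow]
      norm_num
    rw [h8]
    exact Real.log_le_log (by norm_num) (by norm_num)
  have h9 := Real.log_two_lt_d9
  have h10 : (0 : ℝ) ≤ s.card := Nat.cast_nonneg _
  nlinarith

theorem lo_ge (ε : ℝ) (hε : 0 < ε) : ∀ᶠ X : ℝ in atTop,
    ε / 200 * Real.log X ≤ Real.log (Lo ε X) ∧ (Lo ε X : ℝ) ≤ X ^ (ε / 100) := by
  filter_upwards [parA_ge (ε / 200) 2 (by positivity), eventually_ge_atTop (1 : ℝ)] with X h1 hX1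
  have hX0 : 0 < X := by linarith
  have h2 : X ^ (ε / 100) = X ^ (ε / 200) * X ^ (ε / 200) := by
    rw [← Real.rpow_add hX0]
    congr 1
    ring
  have h3 := Nat.lt_floor_add_one (X ^ (ε / 100))
  have h4 : X ^ (ε / 200) ≤ Lo ε X := by
    unfold Lo
    nlinarith
  refine ⟨?_, Nat.floor_le (by positivity)⟩
  rw [← Real.log_rpow hX0]
  exact Real.log_le_log (by positivity) h4

end Pool.Agent.H48.OM
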