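import Mathlib

/-!
[H48 OM PSISER]  The Dirichlet series of `psi(n)`.

Proof.  `K(s) = ∑_{n ≥ 1} psi(n) (n^(-s-1) - (n^(-s) - (n+1)^(-s))/s)`.
(1) For `n ≥ 1`, `Re s > 0`: `n^(-s) - (n+1)^(-s) = s ∫_n^{n+1} x^(-s-1) dx`, so the bracket is
`∫_n^{n+1} (n^(-s-1) - x^(-s-1)) dx`, of norm `≤ ‖s+1‖ n^(-Re s-2)` (mean value inequality; or
`Complex`/`integral` estimates).  `0 ≤ psi n ≤ 2 n` (`Chebyshev.psi_le`, check the constant; any
`C n`), so the terms are `≤ C ‖s+1‖ n^(-Re s-1)`, locally uniformly summable on `Re s > 0`: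
`K` is differentiable there (`DifferentiableOn.tsum_of_summable_norm` /
`differentiableOn_tsum_of_summable_norm` on `{σ0 < Re s, ‖s‖ < r}`; each term is differentiable).
(2) For `Re s > 1`: `∑ psi(n) n^(-s-1) = LSeries psi (s+1)` converges absolutely, and
`∑_n psi(n) (n^(-s) - (n+1)^(-s)) = ∑_n Λ(n) n^(-s)` (Abel summation: `psi(n) - psi(n-1) = Λ(n)`;
the terms `psi(n) n^(-s)` do not converge absolutely for `Re s ≤ 2`, so use partial sums:
`∑_{n ≤ N} psi(n)(n^(-s) - (n+1)^(-s)) = ∑_{n ≤ N} Λ(n) n^(-s) - psi(N) (N+1)^(-s)`, and the last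
term tends to `0` for `Re s > 1`).  Alternatively use `LSeries_eq_mul_integral_of_nonneg` for `Λ`.
`LSeries Λ s = - ζ'(s)/ζ(s)`: `ArithmeticFunction.LSeries_vonMangoldt_eq_deriv_riemannZeta_div`.
So `LSeries psi (s+1) = -ζ'(s)/ζ(s)/s + K(s)`.
-/

namespace Pool.Agent.H48.OM

open Filter

open Complex in
private theorem ps_bracket (s : ℂ) (hs : 0 < s.re) (n : ℕ) (hn : 1 ≤ n) :
    ‖(n : ℂ) ^ (-s - 1) - ((n : ℂ) ^ (-s) - ((n : ℂ) + 1) ^ (-s)) / s‖ ≤
      ‖s + 1‖ * (n : ℝ) ^ (-s.re - 2) := by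
  have hs0 : s ≠ 0 := by
    rintro rfl
    simp at hs
  have hn0 : (0 : ℝ) < n := by exact_mod_cast hn
  have hpos : ∀ x ∈ Set.Icc (n : ℝ) (n + 1), 0 < x := fun x hx => lt_of_lt_of_le hn0 hx.1
  have hder : ∀ (c : ℂ), ∀ x : ℝ, 0 < x →
      HasDerivAt (fun y : ℝ => (y : ℂ) ^ c) (c * (x : ℂ) ^ (c - 1)) x := by
    intro c x hx
    have h1 : HasDerivAt (fun z : ℂ => z ^ c) (c * (x : ℂ) ^ (c - 1) * 1) (x : ℂ) :=
      (hasDerivAt_id (x : ℂ)).cpow_const (Complex.ofReal_mem_slitPlane.mpr hx)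
    simpa using h1.comp_ofReal
  have hconv : Convex ℝ (Set.Icc (n : ℝ) (n + 1)) := convex_Icc _ _
  have hnm : (n : ℝ) ∈ Set.Icc (n : ℝ) (n + 1) := ⟨le_refl _, by linarith⟩
  have hnm1 : (n : ℝ) + 1 ∈ Set.Icc (n : ℝ) (n + 1) := ⟨by linarith, le_refl _⟩
  -- first application
  have hA : ∀ x ∈ Set.Icc (n : ℝ) (n + 1), ‖(x : ℂ) ^ (-s - 1) - ((n : ℝ) : ℂ) ^ (-s - 1)‖ ≤
      ‖s + 1‖ * (n : ℝ) ^ (-s.re - 2) := by
    intro x hx
    have h1 := hconv.norm_image_sub_le_of_norm_hasDerivWithin_le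
      (f := fun y : ℝ => (y : ℂ) ^ (-s - 1))
      (f' := fun y : ℝ => (-s - 1) * (y : ℂ) ^ (-s - 1 - 1))
      (C := ‖s + 1‖ * (n : ℝ) ^ (-s.re - 2))
      (fun y hy => (hder _ y (hpos y hy)).hasDerivWithinAt) (fun y hy => by
        rw [norm_mul, Complex.norm_cpow_eq_rpow_re_of_pos (hpos y hy)]
        have e1 : ‖-s - 1‖ = ‖s + 1‖ := by
          rw [← norm_neg]
          congr 1
          ring
        rw [e1]
        apply mul_le_mul_of_nonneg_left _ (norm_nonneg _)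
        have e2 : (-s - 1 - 1).re = -s.re - 2 := by
          simp
          ring
        rw [e2]
        exact Real.rpow_le_rpow_of_nonpos hn0 hy.1 (by linarith)) hnm hx
    refine h1.trans ?_
    calc ‖s + 1‖ * (n : ℝ) ^ (-s.re - 2) * ‖x - n‖ ≤ ‖s + 1‖ * (n : ℝ) ^ (-s.re - 2) * 1 := by
          apply mul_le_mul_of_nonneg_left _ (by positivity)
          rw [Real.norm_eq_abs, abs_le]
          constructor <;> linarith [hx.1, hx.2]
      _ = ‖s + 1‖ * (n : ℝ) ^ (-s.re - 2) := by ring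
  have h2 := hconv.norm_image_sub_le_of_norm_hasDerivWithin_le
    (f := fun y : ℝ => (y : ℂ) ^ (-s) / (-s) - ((n : ℝ) : ℂ) ^ (-s - 1) * (y : ℂ))
    (f' := fun y : ℝ => (y : ℂ) ^ (-s - 1) - ((n : ℝ) : ℂ) ^ (-s - 1))
    (C := ‖s + 1‖ * (n : ℝ) ^ (-s.re - 2))
    (fun y hy => by
      have h3 := (hder (-s) y (hpos y hy)).div_const (-s)
      have h4 : HasDerivAt (fun y : ℝ => ((n : ℝ) : ℂ) ^ (-s - 1) * (y : ℂ))
          (((n : ℝ) : ℂ) ^ (-s - 1) * 1) y :=
        (hasDerivAt_id (y : ℂ)).comp_ofReal.const_mul _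
      have h5 := h3.sub h4
      have e3 : -s * (y : ℂ) ^ (-s - 1) / -s - ((n : ℝ) : ℂ) ^ (-s - 1) * 1 =
          (y : ℂ) ^ (-s - 1) - ((n : ℝ) : ℂ) ^ (-s - 1) := by
        have : -s ≠ 0 := neg_ne_zero.mpr hs0
        field_simp
      rw [e3] at h5
      exact h5.hasDerivWithinAt) (fun y hy => hA y hy) hnm hnm1
  have e4 : ‖(n : ℝ) + 1 - (n : ℝ)‖ = 1 := by
    rw [add_sub_cancel_left]
    simp
  rw [e4, mul_one] at h2
  have e5 : (((n : ℝ) + 1 : ℝ) : ℂ) ^ (-s) / (-s) - ((n : ℝ) : ℂ) ^ (-s - 1) * (((n : ℝ) + 1 : ℝ) : ℂ) -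
      (((n : ℝ) : ℂ) ^ (-s) / (-s) - ((n : ℝ) : ℂ) ^ (-s - 1) * ((n : ℝ) : ℂ)) =
      -((n : ℂ) ^ (-s - 1) - ((n : ℂ) ^ (-s) - ((n : ℂ) + 1) ^ (-s)) / s) := by
    push_cast
    field_simp
    ring
  rw [e5, norm_neg] at h2
  exact h2

private theorem ps_const : ∃ C : ℝ, 0 ≤ C ∧ ∀ n : ℕ, |Chebyshev.psi n| ≤ C * n := by
  refine ⟨Real.log 4 + 4, by have := Real.log_nonneg (by norm_num : (1 : ℝ) ≤ 4); linarith, ?_⟩
  intro n
  rw [abs_of_nonneg (Chebyshev.psi_nonneg _)]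
  exact Chebyshev.psi_le_const_mul_self (by positivity)

/-- the terms of the auxiliary series -/
private noncomputable def psT (n : ℕ) (s : ℂ) : ℂ :=
  ((Chebyshev.psi n : ℝ) : ℂ) *
    ((n : ℂ) ^ (-s - 1) - ((n : ℂ) ^ (-s) - ((n : ℂ) + 1) ^ (-s)) / s)

private theorem psT_bound {C : ℝ} (hC0 : 0 ≤ C) (hC : ∀ n : ℕ, |Chebyshev.psi n| ≤ C * n) (s : ℂ)
    (hs : 0 < s.re) {σ M : ℝ} (_hσ : 0 < σ) (hσs : σ ≤ s.re) (hM : ‖s + 1‖ ≤ M) (n : ℕ) :
    ‖psT n s‖ ≤ C * M * (n : ℝ) ^ (-σ - 1) := by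
  have hM0 : 0 ≤ M := (norm_nonneg _).trans hM
  unfold psT
  rcases Nat.eq_zero_or_pos n with rfl | hn
  · have h0 : Chebyshev.psi ((0 : ℕ) : ℝ) = 0 := by simp
    rw [h0]
    simp only [Complex.ofReal_zero, zero_mul, norm_zero]
    positivity
  · have hn0 : (0 : ℝ) < n := by exact_mod_cast hn
    have hn1 : (1 : ℝ) ≤ n := by exact_mod_cast hn
    rw [norm_mul, Complex.norm_real, Real.norm_eq_abs]
    have h1 := ps_bracket s hs n hn
    calc |Chebyshev.psi (n : ℝ)| * _ ≤ (C * n) * (‖s + 1‖ * (n : ℝ) ^ (-s.re - 2)) :=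
          mul_le_mul (hC n) h1 (norm_nonneg _) (by positivity)
      _ ≤ (C * n) * (M * (n : ℝ) ^ (-σ - 2)) := by
          apply mul_le_mul_of_nonneg_left _ (by positivity)
          apply mul_le_mul hM _ (by positivity) hM0
          exact Real.rpow_le_rpow_of_exponent_le hn1 (by linarith)
      _ = C * M * (n : ℝ) ^ (-σ - 1) := by
          have : (n : ℝ) ^ (-σ - 1) = n * (n : ℝ) ^ (-σ - 2) := by
            nth_rewrite 2 [← Real.rpow_one (n : ℝ)]
            rw [← Real.rpow_add hn0]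
            congr 1
            ring
          rw [this]
          ring

private theorem psT_diff (n : ℕ) {s : ℂ} (hs : s ≠ 0) : DifferentiableAt ℂ (psT n) s := by
  unfold psT
  rcases Nat.eq_zero_or_pos n with rfl | hn
  · have h0 : Chebyshev.psi ((0 : ℕ) : ℝ) = 0 := by simp
    rw [h0]
    simp
  · have hn0 : (n : ℂ) ≠ 0 := by
      have : n ≠ 0 := by omega
      exact_mod_cast this
    have hn1 : (n : ℂ) + 1 ≠ 0 := by
      exact_mod_cast Nat.succ_ne_zero n
    have d1 : DifferentiableAt ℂ (fun s : ℂ => (n : ℂ) ^ (-s - 1)) s :=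
      (differentiableAt_id.neg.sub_const 1).const_cpow (Or.inl hn0)
    have d2 : DifferentiableAt ℂ (fun s : ℂ => (n : ℂ) ^ (-s)) s :=
      (differentiableAt_id.neg).const_cpow (Or.inl hn0)
    have d3 : DifferentiableAt ℂ (fun s : ℂ => ((n : ℂ) + 1) ^ (-s)) s :=
      (differentiableAt_id.neg).const_cpow (Or.inl hn1)
    exact (d1.sub ((d2.sub d3).div differentiableAt_id hs)).const_mul _

private theorem ps_K : DifferentiableOn ℂ (fun s => ∑' n, psT n s) {s : ℂ | 0 < s.re} := by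
  obtain ⟨C, hC0, hC⟩ := ps_const
  intro s0 hs0
  have hs0 : 0 < s0.re := hs0
  set U : Set ℂ := {s : ℂ | s0.re / 2 < s.re} ∩ Metric.ball 0 (‖s0‖ + 1) with hU
  have hUo : IsOpen U :=
    (isOpen_lt continuous_const Complex.continuous_re).inter Metric.isOpen_ball
  have hmem : s0 ∈ U := by
    refine ⟨?_, ?_⟩
    · show s0.re / 2 < s0.re
      linarith
    · rw [Metric.mem_ball, dist_zero_right]
      linarith
  have hpos : ∀ w ∈ U, 0 < w.re := by
    intro w hw
    have : s0.re / 2 < w.re := hw.1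
    linarith
  have hsum : Summable fun n : ℕ => C * (‖s0‖ + 2) * (n : ℝ) ^ (-(s0.re / 2) - 1) := by
    apply Summable.mul_left
    rw [Real.summable_nat_rpow]
    linarith
  have hd : DifferentiableOn ℂ (fun s => ∑' n, psT n s) U := by
    apply Complex.differentiableOn_tsum_of_summable_norm hsum _ hUo
    · intro n w hw
      apply psT_bound hC0 hC w (hpos w hw) (by linarith) (le_of_lt hw.1)
      have h1 : ‖w‖ < ‖s0‖ + 1 := by
        have := hw.2
        rwa [Metric.mem_ball, dist_zero_right] at this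
      calc ‖w + 1‖ ≤ ‖w‖ + ‖(1 : ℂ)‖ := norm_add_le _ _
        _ ≤ ‖s0‖ + 2 := by rw [norm_one]; linarith
    · intro n w hw
      have : w ≠ 0 := by
        rintro rfl
        have := hpos 0 hw
        simp at this
      exact (psT_diff n this).differentiableWithinAt
  exact (hd.differentiableAt (hUo.mem_nhds hmem)).differentiableWithinAt

open ArithmeticFunction in
private theorem ps_partial (s : ℂ) (N : ℕ) :
    ∑ n ∈ Finset.range (N + 1), ((Chebyshev.psi n : ℝ) : ℂ) * ((n : ℂ) ^ (-s) - ((n : ℂ) + 1) ^ (-s)) =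
      ∑ n ∈ Finset.range (N + 1), LSeries.term (fun n => ((vonMangoldt n : ℝ) : ℂ)) s n -
        ((Chebyshev.psi N : ℝ) : ℂ) * ((N : ℂ) + 1) ^ (-s) := by
  induction N with
  | zero =>
    simp
  | succ N ih =>
    rw [Finset.sum_range_succ, ih, Finset.sum_range_succ _ (N + 1)]
    have h1 : Chebyshev.psi ((N + 1 : ℕ) : ℝ) = Chebyshev.psi (N : ℝ) + vonMangoldt (N + 1) := by
      unfold Chebyshev.psi
      rw [Nat.floor_natCast, Nat.floor_natCast, Finset.sum_Ioc_succ_top (Nat.zero_le N)]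
    rw [LSeries.term_of_ne_zero (Nat.succ_ne_zero N), h1, Complex.cpow_neg]
    push_cast
    rw [Complex.cpow_neg ((N : ℂ) + 1) s]
    rw [div_eq_mul_inv]
    ring

open ArithmeticFunction in
theorem psi_series : ∃ K : ℂ → ℂ, DifferentiableOn ℂ K {s : ℂ | 0 < s.re} ∧
    ∀ s : ℂ, 1 < s.re →
      LSeriesSummable (fun n => ((Chebyshev.psi n : ℝ) : ℂ)) (s + 1) ∧
      LSeries (fun n => ((Chebyshev.psi n : ℝ) : ℂ)) (s + 1) =
        -(deriv riemannZeta s / riemannZeta s) / s + K s := by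
  refine ⟨fun s => ∑' n, psT n s, ps_K, ?_⟩
  intro s hs
  obtain ⟨C, hC0, hC⟩ := ps_const
  have hs0 : s ≠ 0 := by
    rintro rfl
    simp at hs
    linarith
  have hsum : LSeriesSummable (fun n => ((Chebyshev.psi n : ℝ) : ℂ)) (s + 1) := by
    apply LSeriesSummable_of_le_const_mul_rpow (x := 2)
    · simp
      linarith
    · refine ⟨C, fun n _ => ?_⟩
      rw [Complex.norm_real, Real.norm_eq_abs]
      have : (n : ℝ) ^ ((2 : ℝ) - 1) = n := by
        rw [show (2 : ℝ) - 1 = 1 by norm_num, Real.rpow_one]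
      rw [this]
      exact hC n
  refine ⟨hsum, ?_⟩
  -- summability of the auxiliary terms
  have hTsum : Summable fun n => psT n s := by
    apply Summable.of_norm_bounded (g := fun n : ℕ => C * ‖s + 1‖ * (n : ℝ) ^ (-s.re - 1))
    · apply Summable.mul_left
      rw [Real.summable_nat_rpow]
      linarith
    · intro n
      exact psT_bound hC0 hC s (by linarith) (by linarith) le_rfl le_rfl n
  set A : ℕ → ℂ := LSeries.term (fun n => ((Chebyshev.psi n : ℝ) : ℂ)) (s + 1) with hA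
  have hAsum : Summable A := hsum
  set B : ℕ → ℂ := fun n => ((Chebyshev.psi n : ℝ) : ℂ) * ((n : ℂ) ^ (-s) - ((n : ℂ) + 1) ^ (-s))
    with hB
  have hAB : ∀ n, B n = s * (A n - psT n s) := by
    intro n
    rcases Nat.eq_zero_or_pos n with rfl | hn
    · have h0 : Chebyshev.psi ((0 : ℕ) : ℝ) = 0 := by simp
      simp only [hA, hB, psT, h0]
      simp
    · have hn' : n ≠ 0 := by omega
      simp only [hA, hB, psT]
      rw [LSeries.term_of_ne_zero hn']
      have e1 : ((Chebyshev.psi n : ℝ) : ℂ) / (n : ℂ) ^ (s + 1) =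
          ((Chebyshev.psi n : ℝ) : ℂ) * (n : ℂ) ^ (-s - 1) := by
        rw [div_eq_mul_inv, ← Complex.cpow_neg]
        congr 2
        ring
      rw [e1]
      field_simp
      ring
  have hBsum : Summable B := by
    have := (hAsum.sub hTsum).mul_left s
    exact this.congr fun n => (hAB n).symm
  have hBval : ∑' n, B n = LSeries (fun n => ((vonMangoldt n : ℝ) : ℂ)) s := by
    have h1 : Tendsto (fun N => ∑ n ∈ Finset.range (N + 1), B n) atTop (nhds (∑' n, B n)) :=
      (hBsum.hasSum.tendsto_sum_nat).comp (tendsto_add_atTop_nat 1)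
    have h2 : Tendsto (fun N => ∑ n ∈ Finset.range (N + 1),
        LSeries.term (fun n => ((vonMangoldt n : ℝ) : ℂ)) s n) atTop
        (nhds (LSeries (fun n => ((vonMangoldt n : ℝ) : ℂ)) s)) :=
      ((LSeriesSummable_vonMangoldt hs).hasSum.tendsto_sum_nat).comp (tendsto_add_atTop_nat 1)
    have h3 : Tendsto (fun N : ℕ => ((Chebyshev.psi N : ℝ) : ℂ) * ((N : ℂ) + 1) ^ (-s)) atTop
        (nhds 0) := by
      rw [tendsto_zero_iff_norm_tendsto_zero]
      have h4 : Tendsto (fun N : ℕ => C * (((N : ℝ) + 1) ^ (-(s.re - 1)))) atTop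
          (nhds (C * 0)) := by
        apply Tendsto.const_mul
        have h5 := tendsto_rpow_neg_atTop (y := s.re - 1) (by linarith)
        have h6 : Tendsto (fun N : ℕ => (N : ℝ) + 1) atTop atTop :=
          tendsto_atTop_add_const_right _ _ tendsto_natCast_atTop_atTop
        exact h5.comp h6
      rw [mul_zero] at h4
      apply squeeze_zero (fun _ => norm_nonneg _) _ h4
      intro N
      have hN : (0 : ℝ) < (N : ℝ) + 1 := by positivity
      rw [norm_mul, Complex.norm_real, Real.norm_eq_abs]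
      have h7 : ‖((N : ℂ) + 1) ^ (-s)‖ = ((N : ℝ) + 1) ^ (-s.re) := by
        have := Complex.norm_cpow_eq_rpow_re_of_pos hN (-s)
        push_cast at this
        rw [this]
        simp
      rw [h7]
      calc |Chebyshev.psi (N : ℝ)| * ((N : ℝ) + 1) ^ (-s.re)
          ≤ (C * ((N : ℝ) + 1)) * ((N : ℝ) + 1) ^ (-s.re) := by
            apply mul_le_mul_of_nonneg_right _ (by positivity)
            refine (hC N).trans ?_
            apply mul_le_mul_of_nonneg_left _ hC0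
            linarith
        _ = C * ((N : ℝ) + 1) ^ (-(s.re - 1)) := by
            rw [mul_assoc]
            congr 1
            nth_rewrite 1 [← Real.rpow_one ((N : ℝ) + 1)]
            rw [← Real.rpow_add hN]
            congr 1
            ring
    have h8 := h2.sub h3
    rw [sub_zero] at h8
    refine tendsto_nhds_unique h1 (h8.congr fun N => ?_)
    rw [← ps_partial s N]
  have hfin : LSeries (fun n => ((Chebyshev.psi n : ℝ) : ℂ)) (s + 1) - ∑' n, psT n s =
      (∑' n, B n) / s := by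
    have h1 : ∑' n, B n = s * (∑' n, A n - ∑' n, psT n s) := by
      rw [← hAsum.tsum_sub hTsum, ← tsum_mul_left]
      exact tsum_congr hAB
    rw [h1, mul_div_cancel_left₀ _ hs0]
    rfl
  rw [hBval, LSeries_vonMangoldt_eq_deriv_riemannZeta_div hs] at hfin
  have h9 : -deriv riemannZeta s / riemannZeta s / s =
      -(deriv riemannZeta s / riemannZeta s) / s := by
    rw [neg_div]
  rw [h9] at hfin
  rw [← hfin]
  ring

end Pool.Agent.H48.OM
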