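import Mathlib

/-!
[H48 OM CSCH]  The Cauchy-Schwarz argument (finite sums, real numbers).

`w ≥ 0`, `σ = ±1`, `f(x) = a - σ (P(x) - m) ≥ 0` wherever `w(x) ≠ 0`.
Proof.  `(∑ w f g)^2 ≤ (∑ w f)(∑ w f g^2)` (Cauchy-Schwarz with the weights `w f ≥ 0`, e.g.
`Finset.sum_mul_sq_le_sq_mul_sq` for `sqrt(w f)` and `sqrt(w f) g`, or `inner_mul_le_norm_mul_norm`).
* `∑ w f = a M0 - σ (∑ w P - m M0) ≤ a M0 + e1` where `|∑ w P - m M0| ≤ e1`;
* `∑ w f g^2 = a ∑ w g^2 - σ ∑ w (P - m) g^2 ≤ a G2 + T` ;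
* `∑ w f g = (a + σ m) ∑ w g - σ ∑ w P g`, so `|∑ w f g| ≥ |∑ w P g| - (a + |m|) e0 ≥ V - (a+|m|) e0`
  where `|∑ w g| ≤ e0`, `V ≤ ∑ w P g`.
If `V - (a+|m|) e0 ≥ 0`, squaring gives the claim.
-/

namespace Pool.Agent.H48.OM

open Finset

theorem c_sch (I : Finset ℕ) (w P g : ℕ → ℝ) (σ a m M0 G2 T V e0 e1 : ℝ) (hσ : σ = 1 ∨ σ = -1)
    (hw : ∀ x ∈ I, 0 ≤ w x) (ha : 0 ≤ a) (hM : ∑ x ∈ I, w x = M0)
    (hf : ∀ x ∈ I, w x ≠ 0 → σ * (P x - m) ≤ a)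
    (h1 : |∑ x ∈ I, w x * P x - m * M0| ≤ e1) (h0 : |∑ x ∈ I, w x * g x| ≤ e0)
    (h2 : ∑ x ∈ I, w x * g x ^ 2 ≤ G2) (h3 : |∑ x ∈ I, w x * ((P x - m) * g x ^ 2)| ≤ T)
    (h4 : V ≤ ∑ x ∈ I, w x * (P x * g x)) (h5 : 0 ≤ V - (a + |m|) * e0) :
    (V - (a + |m|) * e0) ^ 2 ≤ (a * M0 + e1) * (a * G2 + T) := by
  have hwf : ∀ x ∈ I, 0 ≤ w x * (a - σ * (P x - m)) := by
    intro x hx
    by_cases h : w x = 0
    · rw [h]; simp
    · exact mul_nonneg (hw x hx) (by have := hf x hx h; linarith)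
  have hcs : (∑ x ∈ I, w x * (a - σ * (P x - m)) * g x) ^ 2 ≤
      (∑ x ∈ I, w x * (a - σ * (P x - m))) * (∑ x ∈ I, w x * (a - σ * (P x - m)) * g x ^ 2) := by
    have h := Finset.sum_mul_sq_le_sq_mul_sq I (fun x => Real.sqrt (w x * (a - σ * (P x - m))))
      (fun x => Real.sqrt (w x * (a - σ * (P x - m))) * g x)
    have e1 : ∑ x ∈ I, Real.sqrt (w x * (a - σ * (P x - m))) *
        (Real.sqrt (w x * (a - σ * (P x - m))) * g x) =
        ∑ x ∈ I, w x * (a - σ * (P x - m)) * g x := by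
      refine Finset.sum_congr rfl fun x hx => ?_
      rw [← mul_assoc, Real.mul_self_sqrt (hwf x hx)]
    have e2 : ∑ x ∈ I, Real.sqrt (w x * (a - σ * (P x - m))) ^ 2 =
        ∑ x ∈ I, w x * (a - σ * (P x - m)) := by
      refine Finset.sum_congr rfl fun x hx => ?_
      rw [Real.sq_sqrt (hwf x hx)]
    have e3 : ∑ x ∈ I, (Real.sqrt (w x * (a - σ * (P x - m))) * g x) ^ 2 =
        ∑ x ∈ I, w x * (a - σ * (P x - m)) * g x ^ 2 := by
      refine Finset.sum_congr rfl fun x hx => ?_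
      rw [mul_pow, Real.sq_sqrt (hwf x hx)]
    rw [e1, e2, e3] at h
    exact h
  have hA : ∑ x ∈ I, w x * (a - σ * (P x - m)) ≤ a * M0 + e1 := by
    have e : ∑ x ∈ I, w x * (a - σ * (P x - m)) =
        a * M0 - σ * (∑ x ∈ I, w x * P x - m * M0) := by
      rw [← hM, Finset.mul_sum, Finset.mul_sum, ← Finset.sum_sub_distrib, Finset.mul_sum,
        ← Finset.sum_sub_distrib]
      refine Finset.sum_congr rfl fun x _ => ?_
      ring
    rw [e]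
    have := abs_le.1 h1
    rcases hσ with h | h <;> rw [h] <;> linarith [this.1, this.2]
  have hB : ∑ x ∈ I, w x * (a - σ * (P x - m)) * g x ^ 2 ≤ a * G2 + T := by
    have e : ∑ x ∈ I, w x * (a - σ * (P x - m)) * g x ^ 2 =
        a * (∑ x ∈ I, w x * g x ^ 2) - σ * (∑ x ∈ I, w x * ((P x - m) * g x ^ 2)) := by
      rw [Finset.mul_sum, Finset.mul_sum, ← Finset.sum_sub_distrib]
      refine Finset.sum_congr rfl fun x _ => ?_
      ring
    rw [e]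
    have := abs_le.1 h3
    have h2' := mul_le_mul_of_nonneg_left h2 ha
    rcases hσ with h | h <;> rw [h] <;> linarith [this.1, this.2]
  have hB0 : 0 ≤ ∑ x ∈ I, w x * (a - σ * (P x - m)) * g x ^ 2 :=
    Finset.sum_nonneg fun x hx => mul_nonneg (hwf x hx) (sq_nonneg _)
  have hA0 : 0 ≤ ∑ x ∈ I, w x * (a - σ * (P x - m)) :=
    Finset.sum_nonneg fun x hx => hwf x hx
  have hC : V - (a + |m|) * e0 ≤ |∑ x ∈ I, w x * (a - σ * (P x - m)) * g x| := by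
    have e : ∑ x ∈ I, w x * (a - σ * (P x - m)) * g x =
        (a + σ * m) * (∑ x ∈ I, w x * g x) - σ * (∑ x ∈ I, w x * (P x * g x)) := by
      rw [Finset.mul_sum, Finset.mul_sum, ← Finset.sum_sub_distrib]
      refine Finset.sum_congr rfl fun x _ => ?_
      ring
    rw [e]
    have hs : |σ| = 1 := by rcases hσ with h | h <;> rw [h] <;> simp
    have t1 : |(a + σ * m) * (∑ x ∈ I, w x * g x)| ≤ (a + |m|) * e0 := by
      rw [abs_mul]
      refine mul_le_mul ?_ h0 (abs_nonneg _) (by positivity)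
      refine (abs_add_le _ _).trans ?_
      rw [abs_mul, hs, one_mul, abs_of_nonneg ha]
    have t2 : V ≤ |σ * (∑ x ∈ I, w x * (P x * g x))| := by
      rw [abs_mul, hs, one_mul]
      exact h4.trans (le_abs_self _)
    have t3 := abs_sub_abs_le_abs_sub (σ * (∑ x ∈ I, w x * (P x * g x)))
      ((a + σ * m) * (∑ x ∈ I, w x * g x))
    rw [abs_sub_comm] at t3
    linarith
  calc (V - (a + |m|) * e0) ^ 2 ≤ |∑ x ∈ I, w x * (a - σ * (P x - m)) * g x| ^ 2 :=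
        pow_le_pow_left₀ h5 hC 2
    _ = (∑ x ∈ I, w x * (a - σ * (P x - m)) * g x) ^ 2 := sq_abs _
    _ ≤ _ := hcs
    _ ≤ _ := mul_le_mul hA hB hB0 (hA0.trans hA)

end Pool.Agent.H48.OM
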