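import Pool.Agent.H48.OM.EeB

/-!
[H48 OM CHARONE]  A periodic function times `E_q`, summed over primes.

Proof.  Let `f` be periodic mod `M`, `q ∤ M` prime, `q ∤ a`, `Mq ≤ A`.
The primes `n ∈ (A,B]` are coprime to `M q` (`n > A ≥ Mq`), for the other `n` one has `pl n = 0`.
Sort by `r = n % M` (`f n = f r`, from `hf` by induction, e.g. `Function.Periodic`):
`∑_n w pl f(n) E_q(n+a) = ∑_{r ∈ range M} f(r) ∑_{n % M = r} w pl E_q(n+a)`.
If `r` is not coprime to `M` the inner sum is `0` (no primes `n > A` in this class).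
If `r` is coprime to `M` choose `t : ℤ` with `t ≡ r (M)`, `t ≡ -a (q)` (Chinese remainder theorem,
`M` and `q` coprime).  `t` is coprime to `M q` as `r` is coprime to `M` and `q ∤ a`.  For all `n`:
`(M : ℤ) ∣ n - t ↔ n % M = r`, and `((M*q : ℕ) : ℤ) ∣ n - t ↔ n % M = r ∧ (q : ℤ) ∣ n + a`.  So the
inner sum is `th (M*q) (-t) - th M (-t)/(q-1) = EE M q (-t)`, `ee_bound`; sum with
`∑_{r < M} |f r| ≤ b`.
-/

namespace Pool.Agent.H48.OM

open Finset Pool.Agent.H21.MT Pool.Agent.H67.VS

theorem char_one {A B : ℕ} {w : ℕ → ℝ} (M q R : ℕ) (hM : 1 ≤ M) (hq : q.Prime) (hqM : ¬ q ∣ M)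
    (hR : M * q ≤ R) (hA : M * q ≤ A) (f : ℕ → ℝ) (hf : ∀ n, f (n + M) = f n) (b : ℝ)
    (hb : ∑ r ∈ range M, |f r| ≤ b) (a : ℤ) (ha : ¬ (q : ℤ) ∣ a) :
    |∑ n ∈ Ioc A B, w n * pl n * (f n * eq1 q n a)| ≤
      b / ((M * q).totient : ℝ) * CSq A B w R (M * q) q := by
  have hq1 : 1 ≤ q := hq.one_lt.le
  have hMA : M ≤ A := (Nat.le_mul_of_pos_right M hq.pos).trans hA
  have hper : ∀ n, f n = f (n % M) := by
    intro n
    exact (Function.Periodic.map_mod_nat (f := f) (a := M) hf n).symm
  have hCS : 0 ≤ CSq A B w R (M * q) q := Finset.sum_nonneg fun _ _ => norm_nonneg _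
  have hφ : (0 : ℝ) ≤ 1 / ((M * q).totient : ℝ) := by positivity
  -- sort by residue
  have hsort : ∑ n ∈ Ioc A B, w n * pl n * (f n * eq1 q n a) =
      ∑ r ∈ range M, f r * ∑ n ∈ Ioc A B, (if n % M = r then w n * pl n * eq1 q n a else 0) := by
    simp only [Finset.mul_sum]
    rw [Finset.sum_comm]
    refine Finset.sum_congr rfl fun n _ => ?_
    have h1 : ∀ r ∈ range M, f r * (if n % M = r then w n * pl n * eq1 q n a else 0) =
        if n % M = r then w n * pl n * (f n * eq1 q n a) else 0 := by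
      intro r _
      by_cases h : n % M = r
      · rw [if_pos h, if_pos h, hper n, h]
        ring
      · rw [if_neg h, if_neg h, mul_zero]
    rw [Finset.sum_congr rfl h1, Finset.sum_ite_eq, if_pos (Finset.mem_range.2 (Nat.mod_lt _ (by omega)))]
  rw [hsort]
  have hcls : ∀ r ∈ range M, |∑ n ∈ Ioc A B, (if n % M = r then w n * pl n * eq1 q n a else 0)| ≤
      1 / ((M * q).totient : ℝ) * CSq A B w R (M * q) q := by
    intro r hr
    rw [Finset.mem_range] at hr
    by_cases hc : r.Coprime M
    · -- reduced class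
      have hcop : IsCoprime (M : ℤ) (q : ℤ) := by
        rw [Nat.isCoprime_iff_coprime]
        exact ((Nat.Prime.coprime_iff_not_dvd hq).2 hqM).symm
      obtain ⟨u, v, huv⟩ := hcop
      obtain ⟨t, ht⟩ : ∃ t : ℤ, t = (r : ℤ) * (v * q) + (-a) * (u * M) := ⟨_, rfl⟩
      have htM : t = (r : ℤ) + M * (-(r : ℤ) * u - a * u) := by
        rw [ht]
        linear_combination ((r : ℤ)) * huv
      have htq : t + a = (q : ℤ) * ((r : ℤ) * v + a * v) := by
        rw [ht]
        linear_combination (-a) * huv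
      have hqt : ¬ (q : ℤ) ∣ t := by
        intro hdvd
        apply ha
        have h1 : (q : ℤ) ∣ t + a := ⟨_, htq⟩
        exact (dvd_add_right hdvd).1 h1
      have hcopM : IsCoprime t (M : ℤ) := by
        rw [htM]
        exact IsCoprime.add_mul_left_left (Nat.isCoprime_iff_coprime.2 hc) _
      have hcopq : IsCoprime t (q : ℤ) := by
        have hpi : Prime (q : ℤ) := Nat.prime_iff_prime_int.1 hq
        exact ((Prime.coprime_iff_not_dvd hpi).2 hqt).symm
      have hu : IsCoprime t ((M * q : ℕ) : ℤ) := by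
        rw [Nat.cast_mul]
        exact IsCoprime.mul_right hcopM hcopq
      have hM_iff : ∀ n : ℕ, (M : ℤ) ∣ (n : ℤ) + -t ↔ n % M = r := by
        intro n
        have e1 : (n : ℤ) + -t = ((n : ℤ) - r) + (M : ℤ) * (-(-(r : ℤ) * u - a * u)) := by
          rw [htM]
          ring
        rw [e1]
        rw [dvd_add_left (Dvd.intro _ rfl)]
        rw [← Int.modEq_iff_dvd, Int.natCast_modEq_iff]
        constructor
        · intro h
          have h2 : r % M = n % M := h
          rw [← h2, Nat.mod_eq_of_lt hr]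
        · intro h
          show r % M = n % M
          rw [h, Nat.mod_eq_of_lt hr]
      have hq_iff : ∀ n : ℕ, (q : ℤ) ∣ (n : ℤ) + -t ↔ (q : ℤ) ∣ (n : ℤ) + a := by
        intro n
        have e1 : (n : ℤ) + -t = ((n : ℤ) + a) - (q : ℤ) * ((r : ℤ) * v + a * v) := by
          rw [← htq]
          ring
        rw [e1]
        exact dvd_sub_left (Dvd.intro _ rfl)
      have hMq_iff : ∀ n : ℕ, ((M * q : ℕ) : ℤ) ∣ (n : ℤ) + -t ↔ n % M = r ∧ (q : ℤ) ∣ (n : ℤ) + a := by
        intro n
        rw [← hM_iff n, ← hq_iff n]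
        have hc2 : M.Coprime q := ((Nat.Prime.coprime_iff_not_dvd hq).2 hqM).symm
        rw [Int.natCast_dvd, Int.natCast_dvd, Int.natCast_dvd]
        exact ⟨fun h' => ⟨dvd_of_mul_right_dvd h', dvd_of_mul_left_dvd h'⟩,
          fun h' => hc2.mul_dvd_of_dvd_of_dvd h'.1 h'.2⟩
      have hEE : ∑ n ∈ Ioc A B, (if n % M = r then w n * pl n * eq1 q n a else 0) =
          EE A B w M q (-t) := by
        unfold EE th
        rw [Finset.sum_div, ← Finset.sum_sub_distrib]
        refine Finset.sum_congr rfl fun n _ => ?_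
        unfold eq1
        by_cases h1 : n % M = r
        · rw [if_pos h1]
          rw [if_pos ((hM_iff n).2 h1)]
          by_cases h2 : (q : ℤ) ∣ (n : ℤ) + a
          · rw [if_pos h2, if_pos ((hMq_iff n).2 ⟨h1, h2⟩)]
            ring
          · rw [if_neg h2, if_neg (fun h => h2 ((hMq_iff n).1 h).2)]
            ring
        · rw [if_neg h1, if_neg (fun h => h1 ((hM_iff n).1 h)),
            if_neg (fun h => h1 ((hMq_iff n).1 h).1), zero_div, sub_zero]
      rw [hEE]
      exact ee_bound M q R hM hq hqM hR hA t hu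
    · -- no primes in this class
      have h0 : ∑ n ∈ Ioc A B, (if n % M = r then w n * pl n * eq1 q n a else 0) = 0 := by
        refine Finset.sum_eq_zero fun n hn => ?_
        rw [Finset.mem_Ioc] at hn
        by_cases h1 : n % M = r
        · rw [if_pos h1]
          have h2 : ¬ n.Prime := by
            intro hp
            apply hc
            have h3 : n.Coprime M :=
              (Nat.Prime.coprime_iff_not_dvd hp).2 (Nat.not_dvd_of_pos_of_lt hM (by omega))
            rw [← h1]
            unfold Nat.Coprime at h3 ⊢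
            rw [← Nat.gcd_rec, Nat.gcd_comm]
            exact h3
          unfold pl
          rw [if_neg h2, mul_zero, zero_mul]
        · rw [if_neg h1]
      rw [h0, abs_zero]
      exact mul_nonneg hφ hCS
  calc |∑ r ∈ range M, f r * ∑ n ∈ Ioc A B, (if n % M = r then w n * pl n * eq1 q n a else 0)|
      ≤ ∑ r ∈ range M, |f r * ∑ n ∈ Ioc A B, (if n % M = r then w n * pl n * eq1 q n a else 0)| :=
        Finset.abs_sum_le_sum_abs _ _
    _ ≤ ∑ r ∈ range M, |f r| * (1 / ((M * q).totient : ℝ) * CSq A B w R (M * q) q) := by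
        refine Finset.sum_le_sum fun r hr => ?_
        rw [abs_mul]
        exact mul_le_mul_of_nonneg_left (hcls r hr) (abs_nonneg _)
    _ = (∑ r ∈ range M, |f r|) * (1 / ((M * q).totient : ℝ) * CSq A B w R (M * q) q) := by
        rw [Finset.sum_mul]
    _ ≤ b * (1 / ((M * q).totient : ℝ) * CSq A B w R (M * q) q) :=
        mul_le_mul_of_nonneg_right hb (mul_nonneg hφ hCS)
    _ = b / ((M * q).totient : ℝ) * CSq A B w R (M * q) q := by ring

end Pool.Agent.H48.OM
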