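import Pool.Agent.H67.VS.Defs

/-!
[H48 OM DEFS]  MP_31d0eb_nt: primes in short intervals of length x^eps are infinitely often above and
infinitely often below the expected number by a constant times its square root.

Definitions (on top of `Pool/Agent/H67/VS/Defs.lean`: `hat, pl, PH, Wt, mass, theta, SW, FF, GG, bb,
gH, Sq, th, EE, ThC, KC, Ax, Bx, Rx`).
-/

namespace Pool.Agent.H48.OM

open Finset Pool.Agent.H21.MT Pool.Agent.H67.VS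

/-- `β_q(n+k) = (1 - q 1_{q | n+k})/(q-1)` -/
noncomputable def bq (q n : ℕ) (k : ℤ) : ℝ :=
  (1 - if (q : ℤ) ∣ (n : ℤ) + k then (q : ℝ) else 0) / ((q : ℝ) - 1)

/-- `E_q(n+k) = 1_{q | n+k} - 1/(q-1)` -/
noncomputable def eq1 (q n : ℕ) (k : ℤ) : ℝ :=
  (if (q : ℤ) ∣ (n : ℤ) + k then 1 else 0) - 1 / ((q : ℝ) - 1)

/-- `∑_{q ∈ Q} 1/(q-1)^2` -/
noncomputable def S2 (Q : Finset ℕ) : ℝ := ∑ q ∈ Q, 1 / ((q : ℝ) - 1) ^ 2

/-- `Δ = ∑_{d,e ≤ L} ρ_d ρ_e/[d,e]` -/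
noncomputable def Dl (ρ : ℕ → ℝ) (L : ℕ) : ℝ :=
  ∑ d ∈ Icc 1 L, ∑ e ∈ Icc 1 L, ρ d * ρ e / (Nat.lcm d e : ℝ)

open Classical in
/-- the primitive characters (of modulus `2..R`) with modulus dividing `N` and divisible by `q` -/
noncomputable def PCq (R N q : ℕ) : Finset (Ch R) :=
  (PC R).filter (fun c => c.md ∣ N ∧ q ∣ c.md)

/-- the sum of the character sums over primes over `PCq R N q` -/
noncomputable def CSq (A B : ℕ) (w : ℕ → ℝ) (R N q : ℕ) : ℝ :=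
  ∑ c ∈ PCq R N q, ‖ThC A B w c.2‖

/-- the sum of the character sums over primes over all primitive characters -/
noncomputable def CS (A B : ℕ) (w : ℕ → ℝ) (R : ℕ) : ℝ := ∑ c ∈ PC R, ‖ThC A B w c.2‖

/-- the sum over primes of a product of two test functions -/
noncomputable def TT (A B : ℕ) (w ρ : ℕ → ℝ) (L q q' : ℕ) (a b : ℤ) : ℝ :=
  ∑ n ∈ Ioc A B, w n * pl n * ((bq q n a * FF ρ L n a) * (bq q' n b * FF ρ L n b))

/-- the conditions on the parameters -/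
structure Par (A B L H R : ℕ) (Q : Finset ℕ) (Y : ℝ) : Prop where
  hAB : A ≤ B
  hL : 2 ≤ L
  hH : 1 ≤ H
  hHA : H ≤ A
  hY : 1 ≤ Y
  prime : ∀ q ∈ Q, q.Prime
  hLq : ∀ q ∈ Q, L ^ 2 < q
  hHq : ∀ q ∈ Q, H < q
  hYq : ∀ q ∈ Q, Y ≤ (q : ℝ) - 1
  hR : ∀ q ∈ Q, ∀ q' ∈ Q, q * q' * L ^ 2 ≤ R
  hA : ∀ q ∈ Q, ∀ q' ∈ Q, q * q' * L ^ 2 ≤ A

/-- level of the Selberg weights: a small power of `X^ε` -/
noncomputable def Lo (ε X : ℝ) : ℕ := ⌊X ^ (ε / 100)⌋₊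

/-- the large primes -/
noncomputable def Qo (X : ℝ) : Finset ℕ :=
  (Ioc ⌊X ^ (30 / 1000 : ℝ)⌋₊ ⌊X ^ (35 / 1000 : ℝ)⌋₊).filter Nat.Prime

/-- lower bound of `q - 1` -/
noncomputable def Yo (X : ℝ) : ℝ := X ^ (30 / 1000 : ℝ) / 2

/-- the third moment -/
noncomputable def T3 (A B : ℕ) (w ρ : ℕ → ℝ) (L : ℕ) (Q : Finset ℕ) (H : ℕ) : ℝ :=
  ∑ x ∈ Ioc A B, w x * (PH H x * gH ρ L Q H x ^ 2)

end Pool.Agent.H48.OM
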