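import Pool.Agent.H48.OM.Landau

/-!
[H48 OM DYAD]  Dyadic blocks with many / few primes.

Proof.  Suppose not: there is `X₀ ≥ 1` with `σ (θ(2X) - θ(X) - X) > X^(99/100)` for all real
`X ≥ X₀`.  Let `x ≥ 2 X₀`, `k ≥ 1` with `x/2^k ∈ [X₀, 2 X₀)`, `x_j = x/2^j`.  Telescoping:
`σ (θ(x) - x) = ∑_{j=1}^k σ (θ(2 x_j) - θ(x_j) - x_j) + σ (θ(x_k) - x_k)
 ≥ (x/2)^(99/100) - (θ(2X₀) + 2X₀)` (all terms of the sum are positive, keep `j = 1`; formally by
induction: `∀ k, ∀ x ∈ [2^k X₀, 2^(k+1) X₀), σ(θ x - x) ≥ -C`, then one more step).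
`0 ≤ ψ(x) - θ(x) ≤ C sqrt x log x` (Mathlib: `Chebyshev.psi_sub_theta...`, see
`Mathlib/NumberTheory/Chebyshev.lean`; anything `o(x^(99/100))` is enough), so
`σ (ψ(n) - n) ≥ (1/4) n^(99/100)` for large `n`, which contradicts `landau` with `c = 1/4`.
-/

namespace Pool.Agent.H48.OM

open Filter

private theorem dyad_low (D : ℝ → ℝ) (Y₀ C : ℝ) (hY : 1 ≤ Y₀)
    (h : ∀ x, Y₀ ≤ x → D x < D (2 * x)) (h0 : ∀ x, Y₀ ≤ x → x ≤ 2 * Y₀ → -C ≤ D x) (k : ℕ) :
    ∀ x, Y₀ ≤ x → x ≤ 2 ^ (k + 1) * Y₀ → -C ≤ D x := by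
  induction k with
  | zero =>
    intro x h1 h2
    refine h0 x h1 (by simpa using h2)
  | succ k ih =>
    intro x h1 h2
    rcases le_or_gt x (2 ^ (k + 1) * Y₀) with h3 | h3
    · exact ih x h1 h3
    · have h4 : Y₀ ≤ x / 2 := by
        have h5 : (1 : ℝ) ≤ 2 ^ k := one_le_pow₀ (by norm_num)
        have h6 : (2 : ℝ) ^ (k + 1) * Y₀ = 2 * (2 ^ k * Y₀) := by ring
        have h7 : Y₀ ≤ 2 ^ k * Y₀ := le_mul_of_one_le_left (by linarith) h5
        linarith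
      have h5 : x / 2 ≤ 2 ^ (k + 1) * Y₀ := by
        have h6 : (2 : ℝ) ^ (k + 1 + 1) * Y₀ = 2 * (2 ^ (k + 1) * Y₀) := by ring
        linarith
      have h6 := ih _ h4 h5
      have h7 := h _ h4
      have h8 : 2 * (x / 2) = x := by ring
      rw [h8] at h7
      linarith

theorem dyad (σ : ℝ) (hσ : σ = 1 ∨ σ = -1) (X₀ : ℝ) : ∃ X : ℝ, X₀ ≤ X ∧ 1 ≤ X ∧
    σ * (Chebyshev.theta (2 * X) - Chebyshev.theta X - X) ≤ X ^ (99 / 100 : ℝ) := by
  by_contra hcon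
  push Not at hcon
  set Y₀ : ℝ := max X₀ 1 with hY₀
  have hY1 : 1 ≤ Y₀ := le_max_right _ _
  have hYX : X₀ ≤ Y₀ := le_max_left _ _
  set D : ℝ → ℝ := fun x => σ * (Chebyshev.theta x - x) with hD
  have hstep : ∀ x, Y₀ ≤ x → D x + x ^ (99 / 100 : ℝ) < D (2 * x) := by
    intro x hx
    have := hcon x (hYX.trans hx) (hY1.trans hx)
    simp only [hD]
    linarith
  have hs : |σ| = 1 := by rcases hσ with h | h <;> rw [h] <;> simp
  set C : ℝ := Chebyshev.theta (2 * Y₀) + 2 * Y₀ with hC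
  have hC0 : 0 ≤ C := by
    have := Chebyshev.theta_nonneg (2 * Y₀)
    linarith
  have hbase : ∀ x, Y₀ ≤ x → x ≤ 2 * Y₀ → -C ≤ D x := by
    intro x h1 h2
    have h3 : |D x| ≤ C := by
      simp only [hD]
      rw [abs_mul, hs, one_mul]
      refine (abs_sub _ _).trans ?_
      rw [abs_of_nonneg (Chebyshev.theta_nonneg x), abs_of_nonneg (by linarith)]
      exact add_le_add (Chebyshev.theta_mono h2) h2
    exact (abs_le.1 h3).1
  have hlow : ∀ x, Y₀ ≤ x → -C ≤ D x := by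
    intro x hx
    obtain ⟨k, hk⟩ := pow_unbounded_of_one_lt x (one_lt_two (α := ℝ))
    refine dyad_low D Y₀ C hY1 (fun y hy => ?_) hbase k x hx ?_
    · have h1 := hstep y hy
      have h2 : 0 ≤ y ^ (99 / 100 : ℝ) := Real.rpow_nonneg (by linarith) _
      linarith
    · have h1 : (2 : ℝ) ^ k ≤ 2 ^ (k + 1) := pow_le_pow_right₀ (by norm_num) (Nat.le_succ k)
      have h2 : (2 : ℝ) ^ (k + 1) ≤ 2 ^ (k + 1) * Y₀ :=
        le_mul_of_one_le_right (by positivity) hY1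
      linarith
  obtain ⟨C', hC'⟩ := Chebyshev.psi_sub_theta_le_mul_sqrt
  refine landau σ (1 / 4) hσ (by norm_num) ?_
  have t1 : Tendsto (fun n : ℕ => (n : ℝ) ^ (99 / 100 : ℝ)) atTop atTop :=
    (tendsto_rpow_atTop (by norm_num)).comp tendsto_natCast_atTop_atTop
  have t2 : Tendsto (fun n : ℕ => (n : ℝ) ^ (49 / 100 : ℝ)) atTop atTop :=
    (tendsto_rpow_atTop (by norm_num)).comp tendsto_natCast_atTop_atTop
  filter_upwards [t1.eventually_ge_atTop (8 * C), t2.eventually_ge_atTop (8 * |C'|),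
    eventually_ge_atTop ⌈2 * Y₀⌉₊] with n h1 h2 h3
  have hn : 2 * Y₀ ≤ (n : ℝ) := (Nat.le_ceil _).trans (by exact_mod_cast h3)
  have hn0 : (0 : ℝ) < n := by linarith
  have g1 : Y₀ ≤ (n : ℝ) / 2 := by linarith
  have g2 := hstep _ g1
  have g3 : 2 * ((n : ℝ) / 2) = n := by ring
  rw [g3] at g2
  have g4 := hlow _ g1
  have g5 : (n : ℝ) ^ (99 / 100 : ℝ) / 2 ≤ ((n : ℝ) / 2) ^ (99 / 100 : ℝ) := by
    rw [Real.div_rpow hn0.le (by norm_num)]
    refine div_le_div_of_nonneg_left (Real.rpow_nonneg hn0.le _) (by positivity) ?_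
    calc (2 : ℝ) ^ (99 / 100 : ℝ) ≤ 2 ^ (1 : ℝ) :=
          Real.rpow_le_rpow_of_exponent_le (by norm_num) (by norm_num)
      _ = 2 := Real.rpow_one 2
  have g6 : |C'| * Real.sqrt n ≤ (n : ℝ) ^ (99 / 100 : ℝ) / 8 := by
    have e : (n : ℝ) ^ (99 / 100 : ℝ) = (n : ℝ) ^ (49 / 100 : ℝ) * Real.sqrt n := by
      rw [Real.sqrt_eq_rpow, ← Real.rpow_add hn0]
      norm_num
    rw [e]
    have := mul_le_mul_of_nonneg_right h2 (Real.sqrt_nonneg n)
    linarith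
  have g7 : |Chebyshev.psi n - Chebyshev.theta n| ≤ |C'| * Real.sqrt n := by
    rw [abs_of_nonneg (sub_nonneg.2 (Chebyshev.theta_le_psi n))]
    refine (hC' n).trans ?_
    exact mul_le_mul_of_nonneg_right (le_abs_self _) (Real.sqrt_nonneg _)
  have g8 : σ * (Chebyshev.psi n - n) = D n + σ * (Chebyshev.psi n - Chebyshev.theta n) := by
    simp only [hD]
    ring
  have g9 : -|Chebyshev.psi n - Chebyshev.theta n| ≤
      σ * (Chebyshev.psi n - Chebyshev.theta n) := by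
    have := neg_abs_le (σ * (Chebyshev.psi n - Chebyshev.theta n))
    rwa [abs_mul, hs, one_mul] at this
  rw [g8]
  linarith

end Pool.Agent.H48.OM
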