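import Pool.Agent.H48.OM.Defs
import Pool.Agent.H67.VS.CharB

/-!
[H48 OM EEB]  The relative discrepancy in a reduced class and primitive characters.

Setting: `q` prime, `q ∤ M`, `a` coprime to `M q`; `k = -a`.
Proof (all pieces are in `Pool/Agent/H67/VS/CharB.lean`, lemma `charb_EE` and `char_bound`, where they
are written for `a = p.1 - p.2`, `d < q`; repeat them for a general unit `a`).
(1) `charb_orth` for `M q` and for `M`:
    `φ(Mq) th (Mq) (-a) = ∑_{χ mod Mq} χ⁻¹(a) ThC χ`, `φ(M) th M (-a) = ∑_{ψ mod M} ψ⁻¹(a) ThC ψ`.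
    For `ψ` mod `M`, `χ = changeLevel ψ`: `ThC χ = ThC ψ` (`charb_ThC`, `Mq ≤ A`),
    `χ⁻¹(a) = ψ⁻¹(a)` (`charb_lift_int`); `changeLevel` is injective and `φ(Mq) = φ(M)(q-1)`, so
    `φ(Mq) EE M q (-a) = ∑ χ⁻¹(a) ThC χ` over the `χ` mod `Mq` that do not come from mod `M`.
(2) `‖χ⁻¹(a)‖ ≤ 1`, so `φ(Mq) |EE M q (-a)| ≤ ∑ ‖ThC χ‖` over these `χ`.
(3) such a `χ` is induced by a primitive `χ'` with conductor `m ∣ Mq` and `q ∣ m` (otherwise
    `m ∣ M`), so `χ' ∈ PCq R (Mq) q`, `ThC χ = ThC χ'`, and `χ ↦ χ'` is injective (see `second step`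
    in `char_bound`).
-/

namespace Pool.Agent.H48.OM

open Finset Pool.Agent.H21.MT Pool.Agent.H67.VS

open Classical in
/-- the pointwise formula for the relative discrepancy in a reduced class -/
theorem eeb_EE {A B : ℕ} {w : ℕ → ℝ} (M q : ℕ) [NeZero (M * q)] (hM : 1 ≤ M) (hq : q.Prime)
    (hqM : ¬ q ∣ M) (hA : M * q ≤ A) (a : ℤ) (hu : IsUnit ((a : ℤ) : ZMod (M * q))) :
    ((M * q).totient : ℂ) * ((EE A B w M q (-a) : ℝ) : ℂ) =
      ∑ χ ∈ (univ : Finset (DirichletCharacter ℂ (M * q))).filter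
        (fun χ => ∀ ψ : DirichletCharacter ℂ M,
          DirichletCharacter.changeLevel (dvd_mul_right M q) ψ ≠ χ),
        χ⁻¹ ((a : ℤ) : ZMod (M * q)) * ThC A B w χ := by
  have hM0 : NeZero M := ⟨by omega⟩
  have hN : 0 < M * q := Nat.pos_of_ne_zero (NeZero.ne _)
  have hdN : M ∣ M * q := dvd_mul_right M q
  unfold EE
  have hud : IsUnit ((a : ℤ) : ZMod M) := by
    rw [ZMod.coe_int_isUnit_iff_isCoprime] at hu ⊢
    push_cast at hu
    exact hu.of_mul_left_left
  have h1 := charb_orth (A := A) (B := B) (w := w) (M * q) a hu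
  have h2 := charb_orth (A := A) (B := B) (w := w) M a hud
  have htot : ((M * q).totient : ℂ) = (M.totient : ℂ) * ((q : ℂ) - 1) := by
    have hc : Nat.Coprime M q := ((Nat.Prime.coprime_iff_not_dvd hq).2 hqM).symm
    rw [Nat.totient_mul hc, Nat.totient_prime hq]
    push_cast [Nat.cast_sub hq.one_lt.le]
    ring
  have hq1 : ((q : ℂ) - 1) ≠ 0 := by
    have : (1 : ℝ) < q := by exact_mod_cast hq.one_lt
    have h3 : ((q : ℝ) - 1) ≠ 0 := by linarith
    intro h4
    apply h3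
    exact_mod_cast h4
  have hL : ((M * q).totient : ℂ) * ((th A B w (M * q) (-a) -
      th A B w M (-a) / ((q : ℝ) - 1) : ℝ) : ℂ) =
      ((M * q).totient : ℂ) * ((th A B w (M * q) (-a) : ℝ) : ℂ) -
        (M.totient : ℂ) * ((th A B w M (-a) : ℝ) : ℂ) := by
    push_cast
    rw [mul_sub, htot]
    congr 1
    field_simp
  rw [hL, h1, h2]
  have himg : ∑ ψ : DirichletCharacter ℂ M, ψ⁻¹ ((a : ℤ) : ZMod M) * ThC A B w ψ =
      ∑ χ ∈ (univ : Finset (DirichletCharacter ℂ (M * q))).filter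
        (fun χ => ¬ ∀ ψ : DirichletCharacter ℂ M,
          DirichletCharacter.changeLevel hdN ψ ≠ χ),
        χ⁻¹ ((a : ℤ) : ZMod (M * q)) * ThC A B w χ := by
    have hset : (univ : Finset (DirichletCharacter ℂ (M * q))).filter
        (fun χ => ¬ ∀ ψ : DirichletCharacter ℂ M,
          DirichletCharacter.changeLevel hdN ψ ≠ χ) =
        (univ : Finset (DirichletCharacter ℂ M)).image
          (fun ψ => DirichletCharacter.changeLevel hdN ψ) := by
      ext χ
      simp only [mem_filter, mem_univ, true_and, mem_image, not_forall, ne_eq, not_not]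
    rw [hset, Finset.sum_image]
    · refine Finset.sum_congr rfl fun ψ _ => ?_
      rw [charb_ThC hdN hN hA ψ, ← map_inv, charb_lift_int hdN ψ⁻¹ a hu]
    · intro ψ _ ψ' _ h
      exact DirichletCharacter.changeLevel_injective hdN h
  rw [himg, ← Finset.sum_filter_add_sum_filter_not
    (univ : Finset (DirichletCharacter ℂ (M * q)))
    (fun χ => ∀ ψ : DirichletCharacter ℂ M, DirichletCharacter.changeLevel hdN ψ ≠ χ),
    add_sub_cancel_right]

open Classical in
theorem ee_bound {A B : ℕ} {w : ℕ → ℝ} (M q R : ℕ) (hM : 1 ≤ M) (hq : q.Prime) (hqM : ¬ q ∣ M)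
    (hR : M * q ≤ R) (hA : M * q ≤ A) (a : ℤ) (hu : IsCoprime a ((M * q : ℕ) : ℤ)) :
    |EE A B w M q (-a)| ≤ 1 / ((M * q).totient : ℝ) * CSq A B w R (M * q) q := by
  have hN : 0 < M * q := Nat.mul_pos hM hq.pos
  have hN0 : NeZero (M * q) := ⟨hN.ne'⟩
  have hdN : M ∣ M * q := dvd_mul_right M q
  have hunit : IsUnit ((a : ℤ) : ZMod (M * q)) := by
    rw [ZMod.coe_int_isUnit_iff_isCoprime]
    exact hu.symm
  set T := (univ : Finset (DirichletCharacter ℂ (M * q))).filter
        (fun χ => ∀ ψ : DirichletCharacter ℂ M,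
          DirichletCharacter.changeLevel (dvd_mul_right M q) ψ ≠ χ) with hT
  have hSdef : CSq A B w R (M * q) q =
      ∑ c ∈ (PC R).filter (fun c => c.md ∣ M * q ∧ q ∣ c.md), ‖ThC A B w c.2‖ := by
    unfold CSq PCq
    refine Finset.sum_congr ?_ fun _ _ => rfl
    ext c
    simp only [mem_filter]
  set S := (PC R).filter (fun c => c.md ∣ M * q ∧ q ∣ c.md) with hS
  set g : DirichletCharacter ℂ (M * q) → ℝ := fun χ => ‖ThC A B w χ‖ with hg
  have hg0 : ∀ χ, 0 ≤ g χ := fun χ => norm_nonneg _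
  -- first step
  have h1 : ((M * q).totient : ℝ) * |EE A B w M q (-a)| ≤ ∑ χ ∈ T, g χ := by
    have h3 : ((M * q).totient : ℝ) * |EE A B w M q (-a)| =
        ‖((M * q).totient : ℂ) * ((EE A B w M q (-a) : ℝ) : ℂ)‖ := by
      rw [norm_mul, Complex.norm_natCast, Complex.norm_real, Real.norm_eq_abs]
    rw [h3, eeb_EE M q hM hq hqM hA a hunit]
    refine (norm_sum_le _ _).trans ?_
    have h4 : ∀ χ ∈ T, ‖χ⁻¹ ((a : ℤ) : ZMod (M * q)) * ThC A B w χ‖ ≤ g χ := by
      intro χ _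
      rw [norm_mul]
      exact mul_le_of_le_one_left (norm_nonneg _) (DirichletCharacter.norm_le_one _ _)
    refine (Finset.sum_le_sum h4).trans_eq' ?_
    refine Finset.sum_congr ?_ fun _ _ => rfl
    rw [hT]
  -- second step
  let f : Ch R → DirichletCharacter ℂ (M * q) := fun c =>
    if h : c.md ∣ M * q then DirichletCharacter.changeLevel h c.2 else 1
  have hsub : T ⊆ S.image f := by
    intro χ hχ
    rw [mem_image]
    have key : ∀ r (hr : r ∣ M * q) (χ' : DirichletCharacter ℂ r), χ'.IsPrimitive → q ∣ r →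
        DirichletCharacter.changeLevel hr χ' = χ →
        ∃ c ∈ S, f c = χ := by
      intro r hr χ' hp h2 hch
      have hr0 : 0 < r := Nat.pos_of_dvd_of_pos hr hN
      have hqr := Nat.le_of_dvd hr0 h2
      have hq2 := hq.two_le
      obtain ⟨m, rfl⟩ : ∃ m, r = m + 1 := ⟨r - 1, by omega⟩
      have hmR : m < R := by
        have := Nat.le_of_dvd hN hr
        omega
      refine ⟨⟨⟨m, hmR⟩, χ'⟩, ?_, ?_⟩
      · rw [hS, mem_filter, PC, mem_filter]
        refine ⟨⟨mem_univ _, hp, ?_⟩, hr, h2⟩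
        show 2 ≤ m + 1
        omega
      · show (if h : (Ch.md (⟨⟨m, hmR⟩, χ'⟩ : Ch R)) ∣ M * q then
          DirichletCharacter.changeLevel h χ' else 1) = χ
        rw [dif_pos (show (Ch.md (⟨⟨m, hmR⟩, χ'⟩ : Ch R)) ∣ M * q from hr)]
        exact hch
    refine key χ.conductor χ.conductor_dvd_level χ.primitiveCharacter
      χ.primitiveCharacter_isPrimitive ?_ χ.changeLevel_primitiveCharacter
    by_contra hqc
    rw [hT, mem_filter] at hχ
    have hc : Nat.Coprime χ.conductor q := ((Nat.Prime.coprime_iff_not_dvd hq).2 hqc).symm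
    have hcd : χ.conductor ∣ M := hc.dvd_of_dvd_mul_right χ.conductor_dvd_level
    apply hχ.2 (DirichletCharacter.changeLevel hcd χ.primitiveCharacter)
    rw [← DirichletCharacter.changeLevel_trans]
    exact χ.changeLevel_primitiveCharacter
  have h4 : ∑ χ ∈ T, g χ ≤ ∑ c ∈ S, g (f c) :=
    (sum_le_sum_of_subset_of_nonneg hsub fun _ _ _ => hg0 _).trans
      (sum_image_le_of_nonneg fun _ _ => hg0 _)
  have h5 : ∑ c ∈ S, g (f c) = ∑ c ∈ S, ‖ThC A B w c.2‖ := by
    refine Finset.sum_congr rfl fun c hc => ?_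
    rw [hS, mem_filter] at hc
    have hfc : f c = DirichletCharacter.changeLevel hc.2.1 c.2 := dif_pos hc.2.1
    rw [hfc]
    show ‖ThC A B w (DirichletCharacter.changeLevel hc.2.1 c.2)‖ = ‖ThC A B w c.2‖
    exact congrArg _ (charb_ThC (A := A) (B := B) (w := w) hc.2.1 hN hA c.2)
  have htp : (0 : ℝ) < ((M * q).totient : ℝ) := by
    exact_mod_cast Nat.totient_pos.mpr hN
  rw [hSdef, one_div, ← div_eq_inv_mul, le_div_iff₀ htp, mul_comm]
  exact h1.trans (h4.trans h5.le)

end Pool.Agent.H48.OM
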