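import Pool.Agent.H48.OM.Defs
import Pool.Agent.H67.VS.Hat
import Pool.Agent.H67.VS.Ls
import Pool.Agent.H67.VS.Cov

/-!
[H48 OM PARB]  The windows: mass, number of primes, character sums.

Proofs.  `A = Ax X`, `B = Bx X`, `w = hat y δ`, `Wt A B w` by `hat_wt`.
* `mass_ge`: `mass ≥ y δ/4 - 1/2` (private lemma `hat_mass_aux` in `Pool/Agent/H67/VS/Hat.lean`,
  copy it), `≥ X^(99/100)/4 - 1/2 ≥ X^(989/1000)` for large `X`.
* `mass_le`: at most `4X` integers in `(A,B]`, `w ≤ 1`.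
* `theta_le_mass`: `pl n ≤ log(4X)` for `n ≤ B ≤ 4X` (`cov_pl_le`), `w ≥ 0`; `log(4X) ≤ 2 log X`.
* `cs_le`: `ls` with `H = 2` and `κ k = if k = 1 then 1 else 0` : `Ico 1 2 = {1}`,
  `KC 2 κ χ = χ(1) = 1`, so `CS ≤ 2^2 X^(101/100)`; the condition `X^(-1/50) ≤ δ` follows from
  `X^(-1/100) ≤ δ`, and `2 ≤ X^(1/100)` for large `X`.
-/

namespace Pool.Agent.H48.OM

open Finset Filter Pool.Agent.H21.MT Pool.Agent.H67.VS

private theorem parb_apply (y δ : ℝ) {n : ℕ} (hn : n ≠ 0) :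
    hat y δ n = max 0 (1 - |Real.log ((n : ℝ) / y)| / δ) := by
  unfold hat
  rw [if_neg hn]

private theorem parb_nonneg (y δ : ℝ) (n : ℕ) : 0 ≤ hat y δ n := by
  unfold hat
  split_ifs
  · exact le_rfl
  · exact le_max_left _ _

private theorem parb_mass_aux (X y δ : ℝ) (hX : 1 ≤ X) (hy1 : X ≤ y) (hy2 : y ≤ 2 * X) (hδ : 0 < δ)
    (hδ2 : δ ≤ 1 / 2) : y * δ / 4 - 1 / 2 ≤ mass (Ax X) (Bx X) (hat y δ) := by
  have hy0 : 0 < y := by linarith
  have hexp : 1 + δ / 2 ≤ Real.exp (δ / 2) := by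
    have := Real.add_one_le_exp (δ / 2)
    linarith
  have hexp2 : Real.exp (δ / 2) ≤ 2 := by
    have h1 : Real.exp (δ / 2) ≤ Real.exp (Real.log 2) := by
      rw [Real.exp_le_exp]
      have := Real.log_two_gt_d9
      linarith
    rwa [Real.exp_log (by norm_num)] at h1
  have hz0 : 0 ≤ y * Real.exp (δ / 2) := by positivity
  have hyz : y ≤ y * Real.exp (δ / 2) := by nlinarith
  obtain ⟨p, hp⟩ : ∃ p : ℕ, p = ⌊y⌋₊ := ⟨_, rfl⟩
  obtain ⟨r, hr⟩ : ∃ r : ℕ, r = ⌊y * Real.exp (δ / 2)⌋₊ := ⟨_, rfl⟩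
  have hpr : p ≤ r := by
    rw [hp, hr]
    exact Nat.floor_le_floor hyz
  have hsub : Ioc p r ⊆ Ioc (Ax X) (Bx X) := by
    apply Ioc_subset_Ioc
    · rw [hp]
      unfold Ax
      exact Nat.floor_le_floor (by linarith)
    · rw [hr]
      unfold Bx
      exact Nat.floor_le_floor (by nlinarith)
  unfold mass
  have h1 : ∑ n ∈ Ioc p r, hat y δ n ≤ ∑ n ∈ Ioc (Ax X) (Bx X), hat y δ n :=
    sum_le_sum_of_subset_of_nonneg hsub (fun i _ _ => parb_nonneg y δ i)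
  have h2 : ∑ n ∈ Ioc p r, (1 / 2 : ℝ) ≤ ∑ n ∈ Ioc p r, hat y δ n := by
    apply sum_le_sum
    intro n hn
    rw [mem_Ioc, hp, hr] at hn
    have hny : y < n := (Nat.floor_lt hy0.le).1 hn.1
    have hnz : (n : ℝ) ≤ y * Real.exp (δ / 2) := (Nat.le_floor_iff hz0).1 hn.2
    have hn0 : (0 : ℝ) < n := by linarith
    have hnn : n ≠ 0 := by
      intro h
      rw [h] at hn0
      simp at hn0
    rw [parb_apply y δ hnn]
    refine le_trans ?_ (le_max_right _ _)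
    have h3 : 0 ≤ Real.log ((n : ℝ) / y) := by
      apply Real.log_nonneg
      rw [le_div_iff₀ hy0]
      linarith
    have h4 : Real.log ((n : ℝ) / y) ≤ δ / 2 := by
      rw [← Real.log_exp (δ / 2)]
      apply Real.log_le_log (by positivity)
      rw [div_le_iff₀ hy0]
      linarith
    rw [abs_of_nonneg h3]
    have h5 : Real.log ((n : ℝ) / y) / δ ≤ 1 / 2 := by
      rw [div_le_iff₀ hδ]
      linarith
    linarith
  rw [sum_const, Nat.card_Ioc, nsmul_eq_mul, Nat.cast_sub hpr] at h2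
  have h3 : (p : ℝ) ≤ y := by
    rw [hp]
    exact Nat.floor_le hy0.le
  have h4 : y * Real.exp (δ / 2) - 1 < r := by
    rw [hr]
    exact Nat.sub_one_lt_floor _
  have h5 : y * (1 + δ / 2) ≤ y * Real.exp (δ / 2) := mul_le_mul_of_nonneg_left hexp hy0.le
  linarith

theorem mass_ge : ∀ᶠ X : ℝ in atTop, ∀ y δ : ℝ, X ≤ y → y ≤ 2 * X →
    X ^ (-1 / 100 : ℝ) ≤ δ → δ ≤ 1 / 2 →
    X ^ (989 / 1000 : ℝ) ≤ mass (Ax X) (Bx X) (hat y δ) := by
  have h1 := (tendsto_rpow_atTop (show (0 : ℝ) < 1 / 1000 by norm_num)).eventually_ge_atTop 6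
  filter_upwards [h1, eventually_ge_atTop (1 : ℝ)] with X hX6 hX1 y δ hy1 hy2 hδ1 hδ2
  have hX0 : 0 < X := by linarith
  have hδ0 : 0 < δ := lt_of_lt_of_le (Real.rpow_pos_of_pos hX0 _) hδ1
  refine le_trans ?_ (parb_mass_aux X y δ hX1 hy1 hy2 hδ0 hδ2)
  have h2 : X * X ^ (-1 / 100 : ℝ) ≤ y * δ :=
    mul_le_mul hy1 hδ1 (Real.rpow_nonneg hX0.le _) (by linarith)
  have h3 : X * X ^ (-1 / 100 : ℝ) = X ^ (989 / 1000 : ℝ) * X ^ (1 / 1000 : ℝ) := by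
    nth_rewrite 1 [← Real.rpow_one X]
    rw [← Real.rpow_add hX0, ← Real.rpow_add hX0]
    norm_num
  have h4 : 1 ≤ X ^ (989 / 1000 : ℝ) := Real.one_le_rpow hX1 (by norm_num)
  rw [h3] at h2
  have h5 : X ^ (989 / 1000 : ℝ) * 6 ≤ X ^ (989 / 1000 : ℝ) * X ^ (1 / 1000 : ℝ) :=
    mul_le_mul_of_nonneg_left hX6 (by linarith)
  linarith

theorem mass_le (X y δ : ℝ) (hX : 2 ≤ X) (hy1 : X ≤ y) (hy2 : y ≤ 2 * X) (hδ : 0 < δ)
    (hδ2 : δ ≤ 1 / 2) : mass (Ax X) (Bx X) (hat y δ) ≤ 4 * X := by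
  have hw := hat_wt X y δ hX hy1 hy2 hδ hδ2
  unfold mass
  have h1 : ∑ n ∈ Ioc (Ax X) (Bx X), hat y δ n ≤ ∑ n ∈ Ioc (Ax X) (Bx X), (1 : ℝ) :=
    Finset.sum_le_sum fun n _ => hw.le_one n
  rw [Finset.sum_const, Nat.card_Ioc, nsmul_eq_mul, mul_one] at h1
  have h2 : ((Bx X - Ax X : ℕ) : ℝ) ≤ (Bx X : ℝ) := by
    exact_mod_cast Nat.sub_le _ _
  have h3 : (Bx X : ℝ) ≤ 4 * X := by
    unfold Bx
    exact Nat.floor_le (by linarith)
  linarith

theorem theta_le_mass (X y δ : ℝ) (hX : 4 ≤ X) (hy1 : X ≤ y) (hy2 : y ≤ 2 * X) (hδ : 0 < δ)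
    (hδ2 : δ ≤ 1 / 2) : 0 ≤ theta (Ax X) (Bx X) (hat y δ) ∧
    theta (Ax X) (Bx X) (hat y δ) ≤ 2 * Real.log X * mass (Ax X) (Bx X) (hat y δ) := by
  have hw := hat_wt X y δ (by linarith) hy1 hy2 hδ hδ2
  constructor
  · unfold theta
    exact Finset.sum_nonneg fun n _ => mul_nonneg (hw.nonneg n) (cov_pl_nonneg n)
  · unfold theta mass
    rw [Finset.mul_sum]
    refine Finset.sum_le_sum fun n hn => ?_
    rw [Finset.mem_Ioc] at hn
    have h1 : (n : ℝ) ≤ 4 * X := by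
      have h2 : (n : ℝ) ≤ (Bx X : ℝ) := by exact_mod_cast hn.2
      refine h2.trans ?_
      unfold Bx
      exact Nat.floor_le (by linarith)
    have h3 : pl n ≤ Real.log (4 * X) := cov_pl_le h1 (by linarith)
    have h4 : Real.log (4 * X) ≤ 2 * Real.log X := by
      have h5 : Real.log (4 * X) ≤ Real.log (X * X) :=
        Real.log_le_log (by linarith) (by nlinarith)
      rw [Real.log_mul (x := X) (y := X) (by linarith) (by linarith)] at h5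
      linarith
    rw [mul_comm (2 * Real.log X)]
    exact mul_le_mul_of_nonneg_left (h3.trans h4) (hw.nonneg n)

theorem cs_le : ∀ᶠ X : ℝ in atTop, ∀ y δ : ℝ, X ≤ y → y ≤ 2 * X →
    X ^ (-1 / 100 : ℝ) ≤ δ → δ ≤ 1 / 2 →
    CS (Ax X) (Bx X) (hat y δ) (Rx X) ≤ 4 * X ^ (101 / 100 : ℝ) := by
  have h1 := (tendsto_rpow_atTop (show (0 : ℝ) < 1 / 100 by norm_num)).eventually_ge_atTop 2
  filter_upwards [h1, eventually_ge_atTop (1 : ℝ), ls] with X hX2 hX1 hls y δ hy1 hy2 hδ1 hδ2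
  have hδ' : X ^ (-1 / 50 : ℝ) ≤ δ :=
    (Real.rpow_le_rpow_of_exponent_le hX1 (by norm_num)).trans hδ1
  have h2 := hls y δ hy1 hy2 hδ' hδ2 2 (by norm_num) (by exact_mod_cast hX2)
    (fun k => if k = 1 then 1 else 0) (fun k => by
      split_ifs <;> norm_num)
  have h3 : ∀ c ∈ PC (Rx X), ‖KC 2 (fun k : ℕ => if k = 1 then (1 : ℝ) else 0) c.2‖ = 1 := by
    intro c _
    unfold KC
    have h4 : Ico 1 2 = ({1} : Finset ℕ) := rfl
    rw [h4, Finset.sum_singleton]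
    simp
  have h5 : CS (Ax X) (Bx X) (hat y δ) (Rx X) = ∑ c ∈ PC (Rx X),
      ‖ThC (Ax X) (Bx X) (hat y δ) c.2‖ *
        ‖KC 2 (fun k : ℕ => if k = 1 then (1 : ℝ) else 0) c.2‖ := by
    unfold CS
    refine Finset.sum_congr rfl fun c hc => ?_
    rw [h3 c hc, mul_one]
  rw [h5]
  refine h2.trans ?_
  norm_num

end Pool.Agent.H48.OM
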