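import Pool.Agent.H48.OM.ParA
import Pool.Agent.H48.OM.ParB
import Pool.Agent.H48.OM.Cross
import Pool.Agent.H48.OM.Cov3
import Pool.Agent.H67.VS.Gsq
import Pool.Agent.H67.VS.Fp

/-!
[H48 OM FACTA]  First and second moments for the windows.

Notation: `A = Ax X, B = Bx X, L = Lo ε X, Q = Qo X, R = Rx X, Y = Yo X, w = hat y δ`,
`M0 = mass A B w ≥ X^(989/1000)`, `Θ = theta A B w`, `1 ≤ H ≤ X^(2/1000)`, `L ≤ X^(1/100000)`,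
`|Q| ≤ X^(35/1000)`, `1/8 ≤ Sq ≤ log X`, `S2 ≤ 2 log X X^(-30/1000)`, `CS ≤ 4 X^(101/100)`,
`Θ ≤ 2 log X M0 ≤ 8 X log X`, `log(B+H) ≤ log(5X) ≤ 2 log X`, `B ≤ 4X`.
Everything is for large `X` (depending on `ε`).
Proofs.
* `fact_mean`: `mean_sum`: `3 H^2 log(B+H) ≤ 6 X^(4/1000) log X ≤ M0`.
* `fact_g`: `f_part` with `v = w` (`Pool/Agent/H67/VS/Fp.lean`): `≤ 3 H L^2 |Q| (|w B| + 3) ≤
  12 H L^2 |Q| ≤ X^(1/10)`.
* `fact_cross`: `cross_raw`: `9 H^3 L^2 |Q| log(B+H) ≤ X^(1/10)`,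
  `H^2 L^2 S2 Θ ≤ X^(4/1000+2/100000-30/1000+1) 16 log^2 X`, `4 H^2 L^2/Y CS ≤
  32 X^(4/1000+2/100000-30/1000+1010/1000)`; all `≤ X^(987/1000)/3`.
* `fact_sq`: `g_sq`: `6 H Sq M0/log L + 100 H^2 L^4 |Q|^2`, and
  `100 H^2 L^4 |Q|^2 ≤ 100 X^(75/1000) ≤ H Sq M0/log L` (`log L ≤ log X`).
-/

namespace Pool.Agent.H48.OM

open Finset Filter Pool.Agent.H21.MT Pool.Agent.H67.VS

private theorem fa_ev (C a b : ℝ) (k : ℕ) (hab : a < b) :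
    ∀ᶠ X : ℝ in atTop, C * Real.log X ^ k * X ^ a ≤ X ^ b := by
  have h1 := (isLittleO_log_rpow_rpow_atTop (k : ℝ) (show (0 : ℝ) < b - a by linarith)).bound
    (show (0 : ℝ) < 1 / (|C| + 1) by positivity)
  filter_upwards [h1, eventually_gt_atTop (1 : ℝ)] with X h1 hX
  have hX0 : 0 < X := by linarith
  have hl : 0 ≤ Real.log X := Real.log_nonneg hX.le
  rw [Real.rpow_natCast, Real.norm_eq_abs, Real.norm_eq_abs, abs_of_nonneg (pow_nonneg hl k),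
    abs_of_nonneg (Real.rpow_nonneg hX0.le _)] at h1
  have h2 : X ^ b = X ^ (b - a) * X ^ a := by
    rw [← Real.rpow_add hX0]
    congr 1
    ring
  rw [h2]
  apply mul_le_mul_of_nonneg_right _ (Real.rpow_nonneg hX0.le _)
  have h3 : C * Real.log X ^ k ≤ (|C| + 1) * Real.log X ^ k := by
    apply mul_le_mul_of_nonneg_right _ (pow_nonneg hl k)
    linarith [le_abs_self C]
  have h4 : (|C| + 1) * Real.log X ^ k ≤ (|C| + 1) * (1 / (|C| + 1) * X ^ (b - a)) :=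
    mul_le_mul_of_nonneg_left h1 (by positivity)
  have h5 : (|C| + 1) * (1 / (|C| + 1) * X ^ (b - a)) = X ^ (b - a) := by
    field_simp
  linarith

private theorem fa_bh (X : ℝ) (hX : 5 ≤ X) (H : ℕ) (hH : 1 ≤ H) (hHX : (H : ℝ) ≤ X ^ (1 / 500 : ℝ)) :
    0 ≤ Real.log ((Bx X : ℝ) + H) ∧ Real.log ((Bx X : ℝ) + H) ≤ 2 * Real.log X := by
  have hX0 : 0 < X := by linarith
  have h1 : ((Bx X : ℕ) : ℝ) ≤ 4 * X := Nat.floor_le (by linarith)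
  have h2 : X ^ (1 / 500 : ℝ) ≤ X := by
    calc X ^ (1 / 500 : ℝ) ≤ X ^ (1 : ℝ) :=
          Real.rpow_le_rpow_of_exponent_le (by linarith) (by norm_num)
      _ = X := Real.rpow_one X
  have h3 : (1 : ℝ) ≤ H := by exact_mod_cast hH
  have h4 : (0 : ℝ) ≤ (Bx X : ℝ) := Nat.cast_nonneg _
  refine ⟨Real.log_nonneg (by linarith), ?_⟩
  have h5 : 2 * Real.log X = Real.log (X ^ 2) := by
    rw [Real.log_pow]
    norm_num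
  rw [h5]
  apply Real.log_le_log (by linarith)
  nlinarith

theorem fact_mean : ∀ᶠ X : ℝ in atTop, ∀ y δ : ℝ,
    X ≤ y → y ≤ 2 * X → X ^ (-1 / 100 : ℝ) ≤ δ → δ ≤ 1 / 2 → ∀ H : ℕ, 1 ≤ H →
    (H : ℝ) ≤ X ^ (1 / 500 : ℝ) →
    |∑ x ∈ Ioc (Ax X) (Bx X), hat y δ x * PH H x - H * theta (Ax X) (Bx X) (hat y δ)| ≤
      mass (Ax X) (Bx X) (hat y δ) := by
  filter_upwards [mass_ge, fa_ev 6 (4 / 1000) (989 / 1000) 1 (by norm_num),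
    fa_ev 2 (1 / 500) 1 0 (by norm_num), eventually_ge_atTop (5 : ℝ)] with X hm he he2 hX
  intro y δ hy1 hy2 hδ hδ2 H hH hHX
  have hX0 : (0 : ℝ) < X := by linarith
  have hδ0 : 0 < δ := lt_of_lt_of_le (Real.rpow_pos_of_pos hX0 _) hδ
  have hw := hat_wt X y δ (by linarith) hy1 hy2 hδ0 hδ2
  have hHA : H ≤ Ax X := by
    apply Nat.le_floor
    rw [pow_zero, mul_one, Real.rpow_one] at he2
    linarith
  refine (mean_sum hw hHA hH).trans (le_trans ?_ (hm y δ hy1 hy2 hδ hδ2))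
  obtain ⟨hl0, hl1⟩ := fa_bh X hX H hH hHX
  have h1 : (H : ℝ) ^ 2 ≤ X ^ (4 / 1000 : ℝ) := by
    calc (H : ℝ) ^ 2 ≤ (X ^ (1 / 500 : ℝ)) ^ 2 := pow_le_pow_left₀ (Nat.cast_nonneg _) hHX 2
      _ = X ^ (4 / 1000 : ℝ) := by
          rw [← Real.rpow_natCast, ← Real.rpow_mul hX0.le]
          norm_num
  have h2 : 3 * (H : ℝ) ^ 2 * Real.log ((Bx X : ℝ) + H) ≤
      3 * X ^ (4 / 1000 : ℝ) * (2 * Real.log X) := by
    apply mul_le_mul _ hl1 hl0 (by positivity)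
    linarith
  refine h2.trans (le_trans (le_of_eq ?_) he)
  ring

/-- numerical bounds for the parameters -/
private theorem fa_par (ε : ℝ) (hε : 0 < ε) (hε1 : ε ≤ 1 / 1000) : ∀ᶠ X : ℝ in atTop,
    ∀ H : ℕ, 1 ≤ H → (H : ℝ) ≤ X ^ (1 / 500 : ℝ) →
    Par (Ax X) (Bx X) (Lo ε X) H (Rx X) (Qo X) (Yo X) ∧
    ((Lo ε X : ℕ) : ℝ) ≤ X ^ (1 / 100000 : ℝ) ∧ ((Qo X).card : ℝ) ≤ X ^ (35 / 1000 : ℝ) := by
  filter_upwards [par_ok ε hε hε1, card_le, lo_ge ε hε, eventually_ge_atTop (1 : ℝ)]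
    with X h1 h2 h3 hX
  intro H hH hHX
  refine ⟨h1 H hH hHX, h3.2.trans ?_, h2⟩
  apply Real.rpow_le_rpow_of_exponent_le hX
  linarith

private theorem fa_pow (X : ℝ) (hX : 0 < X) (a : ℝ) (n : ℕ) : (X ^ a) ^ n = X ^ (a * n) := by
  rw [← Real.rpow_natCast, ← Real.rpow_mul hX.le]

theorem fact_g (ε : ℝ) (hε : 0 < ε) (hε1 : ε ≤ 1 / 1000) : ∀ᶠ X : ℝ in atTop, ∀ y δ : ℝ,
    X ≤ y → y ≤ 2 * X → X ^ (-1 / 100 : ℝ) ≤ δ → δ ≤ 1 / 2 → ∀ H : ℕ, 1 ≤ H →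
    (H : ℝ) ≤ X ^ (1 / 500 : ℝ) → ∀ ρ : ℕ → ℝ, SW (Lo ε X) ρ →
    |∑ x ∈ Ioc (Ax X) (Bx X), hat y δ x * gH ρ (Lo ε X) (Qo X) H x| ≤ X ^ (1 / 10 : ℝ) := by
  filter_upwards [fa_par ε hε hε1, fa_ev 12 (1 / 500 + 2 / 100000 + 35 / 1000) (1 / 10) 0
    (by norm_num), eventually_ge_atTop (5 : ℝ)] with X hp he hX
  intro y δ hy1 hy2 hδ hδ2 H hH hHX ρ hρ
  have hX0 : (0 : ℝ) < X := by linarith
  have hδ0 : 0 < δ := lt_of_lt_of_le (Real.rpow_pos_of_pos hX0 _) hδ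
  have hw := hat_wt X y δ (by linarith) hy1 hy2 hδ0 hδ2
  obtain ⟨hP, hL, hQ⟩ := hp H hH hHX
  have hL1 : 1 ≤ Lo ε X := le_trans (by norm_num) hP.hL
  have h1 := f_part (A := Ax X) (B := Bx X) (L := Lo ε X) (H := H) (ρ := ρ) (Q := Qo X)
    (hat y δ) hP.hAB hρ (fun q hq => ⟨hP.prime q hq,
      lt_of_le_of_lt (by nlinarith) (hP.hLq q hq)⟩)
  refine h1.trans ?_
  have h2 : |hat y δ (Bx X)| + ∑ k ∈ Ioo (Ax X) (Bx X), |hat y δ (k + 1) - hat y δ k| ≤ 4 := by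
    have h3 : |hat y δ (Bx X)| ≤ 1 := by
      rw [abs_of_nonneg (hw.nonneg _)]
      exact hw.le_one _
    have h4 : ∑ k ∈ Ioo (Ax X) (Bx X), |hat y δ (k + 1) - hat y δ k| ≤ 3 := by
      have h5 : Ioo (Ax X) (Bx X) = Ico (Ax X + 1) (Bx X) := by
        ext k
        simp only [mem_Ioo, mem_Ico]
        omega
      rw [h5]
      exact hw.tv _ _
    linarith
  have h6 : 3 * (H : ℝ) * ((Lo ε X : ℕ) : ℝ) ^ 2 * ((Qo X).card : ℝ) ≤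
      3 * X ^ (1 / 500 : ℝ) * (X ^ (1 / 100000 : ℝ)) ^ 2 * X ^ (35 / 1000 : ℝ) := by
    have h7 : ((Lo ε X : ℕ) : ℝ) ^ 2 ≤ (X ^ (1 / 100000 : ℝ)) ^ 2 :=
      pow_le_pow_left₀ (Nat.cast_nonneg _) hL 2
    gcongr
  have h8 : 0 ≤ 3 * (H : ℝ) * ((Lo ε X : ℕ) : ℝ) ^ 2 * ((Qo X).card : ℝ) := by positivity
  calc 3 * (H : ℝ) * ((Lo ε X : ℕ) : ℝ) ^ 2 * ((Qo X).card : ℝ) *
        (|hat y δ (Bx X)| + ∑ k ∈ Ioo (Ax X) (Bx X), |hat y δ (k + 1) - hat y δ k|)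
      ≤ 3 * (H : ℝ) * ((Lo ε X : ℕ) : ℝ) ^ 2 * ((Qo X).card : ℝ) * 4 :=
        mul_le_mul_of_nonneg_left h2 h8
    _ ≤ 3 * X ^ (1 / 500 : ℝ) * (X ^ (1 / 100000 : ℝ)) ^ 2 * X ^ (35 / 1000 : ℝ) * 4 := by
        linarith
    _ = 12 * Real.log X ^ 0 * X ^ (1 / 500 + 2 / 100000 + 35 / 1000 : ℝ) := by
        rw [fa_pow X hX0, Real.rpow_add hX0, Real.rpow_add hX0]
        norm_num
        ring
    _ ≤ X ^ (1 / 10 : ℝ) := he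

theorem fact_cross (ε : ℝ) (hε : 0 < ε) (hε1 : ε ≤ 1 / 1000) : ∀ᶠ X : ℝ in atTop, ∀ y δ : ℝ,
    X ≤ y → y ≤ 2 * X → X ^ (-1 / 100 : ℝ) ≤ δ → δ ≤ 1 / 2 → ∀ H : ℕ, 1 ≤ H →
    (H : ℝ) ≤ X ^ (1 / 500 : ℝ) → ∀ ρ : ℕ → ℝ, SW (Lo ε X) ρ →
    |∑ x ∈ Ioc (Ax X) (Bx X), hat y δ x * (PH H x * gH ρ (Lo ε X) (Qo X) H x) -
      H * Sq (Qo X) * theta (Ax X) (Bx X) (hat y δ)| ≤ X ^ (987 / 1000 : ℝ) := by
  filter_upwards [fa_par ε hε hε1, s2_le, cs_le,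
    fa_ev 54 (3 / 500 + 2 / 100000 + 35 / 1000) (987 / 1000) 1 (by norm_num),
    fa_ev 48 (2 / 500 + 2 / 100000 + -(30 / 1000) + 1) (987 / 1000) 2 (by norm_num),
    fa_ev 96 (2 / 500 + 2 / 100000 + -(30 / 1000) + 101 / 100) (987 / 1000) 0 (by norm_num),
    eventually_ge_atTop (5 : ℝ)] with X hp hS2 hCS he1 he2 he3 hX
  intro y δ hy1 hy2 hδ hδ2 H hH hHX ρ hρ
  have hX0 : (0 : ℝ) < X := by linarith
  have hδ0 : 0 < δ := lt_of_lt_of_le (Real.rpow_pos_of_pos hX0 _) hδ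
  have hw := hat_wt X y δ (by linarith) hy1 hy2 hδ0 hδ2
  obtain ⟨hP, hL, hQ⟩ := hp H hH hHX
  obtain ⟨hl0, hl1⟩ := fa_bh X hX H hH hHX
  have hlog : 0 ≤ Real.log X := Real.log_nonneg (by linarith)
  refine (cross_raw hP hw hρ).trans ?_
  have hL2 : ((Lo ε X : ℕ) : ℝ) ^ 2 ≤ (X ^ (1 / 100000 : ℝ)) ^ 2 :=
    pow_le_pow_left₀ (Nat.cast_nonneg _) hL 2
  have hH2 : (H : ℝ) ^ 2 ≤ (X ^ (1 / 500 : ℝ)) ^ 2 :=
    pow_le_pow_left₀ (Nat.cast_nonneg _) hHX 2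
  have hH3 : (H : ℝ) ^ 3 ≤ (X ^ (1 / 500 : ℝ)) ^ 3 :=
    pow_le_pow_left₀ (Nat.cast_nonneg _) hHX 3
  -- first term
  have t1 : 9 * (H : ℝ) ^ 3 * ((Lo ε X : ℕ) : ℝ) ^ 2 * ((Qo X).card : ℝ) *
      Real.log ((Bx X : ℝ) + H) ≤ X ^ (987 / 1000 : ℝ) / 3 := by
    calc 9 * (H : ℝ) ^ 3 * ((Lo ε X : ℕ) : ℝ) ^ 2 * ((Qo X).card : ℝ) *
          Real.log ((Bx X : ℝ) + H)
        ≤ 9 * (X ^ (1 / 500 : ℝ)) ^ 3 * (X ^ (1 / 100000 : ℝ)) ^ 2 * X ^ (35 / 1000 : ℝ) *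
          (2 * Real.log X) := by gcongr
      _ = (54 * Real.log X ^ 1 * X ^ (3 / 500 + 2 / 100000 + 35 / 1000 : ℝ)) / 3 := by
          rw [fa_pow X hX0, fa_pow X hX0, Real.rpow_add hX0, Real.rpow_add hX0]
          norm_num
          ring
      _ ≤ _ := by linarith
  -- second term
  have hS20 : 0 ≤ S2 (Qo X) := by
    unfold S2
    exact sum_nonneg fun q _ => by positivity
  obtain ⟨hth0, hth1⟩ := theta_le_mass X y δ (by linarith) hy1 hy2 hδ0 hδ2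
  have hm := mass_le X y δ (by linarith) hy1 hy2 hδ0 hδ2
  have hth2 : theta (Ax X) (Bx X) (hat y δ) ≤ 8 * X * Real.log X := by
    calc theta (Ax X) (Bx X) (hat y δ) ≤ 2 * Real.log X * mass (Ax X) (Bx X) (hat y δ) := hth1
      _ ≤ 2 * Real.log X * (4 * X) := mul_le_mul_of_nonneg_left hm (by linarith)
      _ = 8 * X * Real.log X := by ring
  have t2 : (H : ℝ) ^ 2 * ((Lo ε X : ℕ) : ℝ) ^ 2 * S2 (Qo X) *
      theta (Ax X) (Bx X) (hat y δ) ≤ X ^ (987 / 1000 : ℝ) / 3 := by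
    calc (H : ℝ) ^ 2 * ((Lo ε X : ℕ) : ℝ) ^ 2 * S2 (Qo X) * theta (Ax X) (Bx X) (hat y δ)
        ≤ (X ^ (1 / 500 : ℝ)) ^ 2 * (X ^ (1 / 100000 : ℝ)) ^ 2 *
          (2 * Real.log X * X ^ (-(30 / 1000) : ℝ)) * (8 * X * Real.log X) := by
          apply mul_le_mul _ hth2 hth0 (by positivity)
          apply mul_le_mul _ hS2 hS20 (by positivity)
          exact mul_le_mul hH2 hL2 (by positivity) (by positivity)
      _ = (48 * Real.log X ^ 2 * X ^ (2 / 500 + 2 / 100000 + -(30 / 1000) + 1 : ℝ)) / 3 := by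
          rw [fa_pow X hX0, fa_pow X hX0, Real.rpow_add hX0, Real.rpow_add hX0,
            Real.rpow_add hX0, Real.rpow_one]
          norm_num
          ring
      _ ≤ _ := by linarith
  -- third term
  have hCS0 : 0 ≤ CS (Ax X) (Bx X) (hat y δ) (Rx X) := by
    unfold CS
    exact sum_nonneg fun c _ => norm_nonneg _
  have hCS1 := hCS y δ hy1 hy2 hδ hδ2
  have hYo : Yo X = X ^ (30 / 1000 : ℝ) / 2 := rfl
  have t3 : 4 * (H : ℝ) ^ 2 * ((Lo ε X : ℕ) : ℝ) ^ 2 / Yo X *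
      CS (Ax X) (Bx X) (hat y δ) (Rx X) ≤ X ^ (987 / 1000 : ℝ) / 3 := by
    have h1 : 4 * (H : ℝ) ^ 2 * ((Lo ε X : ℕ) : ℝ) ^ 2 / Yo X =
        8 * (H : ℝ) ^ 2 * ((Lo ε X : ℕ) : ℝ) ^ 2 * X ^ (-(30 / 1000) : ℝ) := by
      rw [hYo, Real.rpow_neg hX0.le]
      have : X ^ (30 / 1000 : ℝ) ≠ 0 := (Real.rpow_pos_of_pos hX0 _).ne'
      field_simp
      ring
    rw [h1]
    calc 8 * (H : ℝ) ^ 2 * ((Lo ε X : ℕ) : ℝ) ^ 2 * X ^ (-(30 / 1000) : ℝ) *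
          CS (Ax X) (Bx X) (hat y δ) (Rx X)
        ≤ 8 * (X ^ (1 / 500 : ℝ)) ^ 2 * (X ^ (1 / 100000 : ℝ)) ^ 2 * X ^ (-(30 / 1000) : ℝ) *
          (4 * X ^ (101 / 100 : ℝ)) := by
          apply mul_le_mul _ hCS1 hCS0 (by positivity)
          gcongr
      _ = (96 * Real.log X ^ 0 *
          X ^ (2 / 500 + 2 / 100000 + -(30 / 1000) + 101 / 100 : ℝ)) / 3 := by
          rw [fa_pow X hX0, fa_pow X hX0, Real.rpow_add hX0, Real.rpow_add hX0,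
            Real.rpow_add hX0]
          norm_num
          ring
      _ ≤ _ := by linarith
  linarith

theorem fact_sq (ε : ℝ) (hε : 0 < ε) (hε1 : ε ≤ 1 / 1000) : ∀ᶠ X : ℝ in atTop, ∀ y δ : ℝ,
    X ≤ y → y ≤ 2 * X → X ^ (-1 / 100 : ℝ) ≤ δ → δ ≤ 1 / 2 → ∀ H : ℕ, 1 ≤ H →
    (H : ℝ) ≤ X ^ (1 / 500 : ℝ) → ∀ ρ : ℕ → ℝ, SW (Lo ε X) ρ →
    ∑ x ∈ Ioc (Ax X) (Bx X), hat y δ x * gH ρ (Lo ε X) (Qo X) H x ^ 2 ≤
      7 * H * Sq (Qo X) * mass (Ax X) (Bx X) (hat y δ) / Real.log (Lo ε X) := by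
  filter_upwards [fa_par ε hε hε1, mass_ge, sq_ge,
    fa_ev 800 (2 / 500 + 4 / 100000 + 70 / 1000) (989 / 1000) 1 (by norm_num),
    eventually_ge_atTop (5 : ℝ)] with X hp hm hsq he hX
  intro y δ hy1 hy2 hδ hδ2 H hH hHX ρ hρ
  have hX0 : (0 : ℝ) < X := by linarith
  have hδ0 : 0 < δ := lt_of_lt_of_le (Real.rpow_pos_of_pos hX0 _) hδ
  have hw := hat_wt X y δ (by linarith) hy1 hy2 hδ0 hδ2
  obtain ⟨hP, hL, hQ⟩ := hp H hH hHX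
  have hlog : 0 < Real.log X := Real.log_pos (by linarith)
  have hL1 : 1 ≤ Lo ε X := le_trans (by norm_num) hP.hL
  have h1 := g_sq hw hP.hAB hρ hP.hL hH (fun q hq => ⟨hP.prime q hq,
      lt_of_le_of_lt (by nlinarith) (hP.hLq q hq), hP.hHq q hq⟩)
  refine h1.trans ?_
  have hL2 : (2 : ℝ) ≤ ((Lo ε X : ℕ) : ℝ) := by exact_mod_cast hP.hL
  have hlL : 0 < Real.log (Lo ε X) := Real.log_pos (by linarith)
  have hlL2 : Real.log (Lo ε X) ≤ Real.log X := by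
    apply Real.log_le_log (by linarith)
    refine hL.trans ?_
    calc X ^ (1 / 100000 : ℝ) ≤ X ^ (1 : ℝ) :=
          Real.rpow_le_rpow_of_exponent_le (by linarith) (by norm_num)
      _ = X := Real.rpow_one X
  have hL4 : ((Lo ε X : ℕ) : ℝ) ^ 4 ≤ (X ^ (1 / 100000 : ℝ)) ^ 4 :=
    pow_le_pow_left₀ (Nat.cast_nonneg _) hL 4
  have hH2 : (H : ℝ) ^ 2 ≤ (X ^ (1 / 500 : ℝ)) ^ 2 :=
    pow_le_pow_left₀ (Nat.cast_nonneg _) hHX 2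
  have hQ2 : ((Qo X).card : ℝ) ^ 2 ≤ (X ^ (35 / 1000 : ℝ)) ^ 2 :=
    pow_le_pow_left₀ (Nat.cast_nonneg _) hQ 2
  have h2 : 800 * Real.log X * ((H : ℝ) ^ 2 * ((Lo ε X : ℕ) : ℝ) ^ 4 *
      ((Qo X).card : ℝ) ^ 2) ≤ mass (Ax X) (Bx X) (hat y δ) := by
    calc 800 * Real.log X * ((H : ℝ) ^ 2 * ((Lo ε X : ℕ) : ℝ) ^ 4 * ((Qo X).card : ℝ) ^ 2)
        ≤ 800 * Real.log X * ((X ^ (1 / 500 : ℝ)) ^ 2 * (X ^ (1 / 100000 : ℝ)) ^ 4 *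
          (X ^ (35 / 1000 : ℝ)) ^ 2) := by gcongr
      _ = 800 * Real.log X ^ 1 * X ^ (2 / 500 + 4 / 100000 + 70 / 1000 : ℝ) := by
          rw [fa_pow X hX0, fa_pow X hX0, fa_pow X hX0, Real.rpow_add hX0, Real.rpow_add hX0]
          norm_num
      _ ≤ X ^ (989 / 1000 : ℝ) := he
      _ ≤ _ := hm y δ hy1 hy2 hδ hδ2
  have hH1 : (1 : ℝ) ≤ H := by exact_mod_cast hH
  have hM0 : 0 ≤ mass (Ax X) (Bx X) (hat y δ) :=
    le_trans (Real.rpow_nonneg hX0.le _) (hm y δ hy1 hy2 hδ hδ2)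
  have h3 : 100 * (H : ℝ) ^ 2 * ((Lo ε X : ℕ) : ℝ) ^ 4 * ((Qo X).card : ℝ) ^ 2 ≤
      H * Sq (Qo X) * mass (Ax X) (Bx X) (hat y δ) / Real.log (Lo ε X) := by
    rw [le_div_iff₀ hlL]
    set K : ℝ := (H : ℝ) ^ 2 * ((Lo ε X : ℕ) : ℝ) ^ 4 * ((Qo X).card : ℝ) ^ 2 with hK
    have hK0 : 0 ≤ K := by positivity
    have h4 : 100 * (H : ℝ) ^ 2 * ((Lo ε X : ℕ) : ℝ) ^ 4 * ((Qo X).card : ℝ) ^ 2 *
        Real.log (Lo ε X) ≤ 100 * K * Real.log X := by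
      have : 100 * (H : ℝ) ^ 2 * ((Lo ε X : ℕ) : ℝ) ^ 4 * ((Qo X).card : ℝ) ^ 2 = 100 * K := by
        rw [hK]; ring
      rw [this]
      exact mul_le_mul_of_nonneg_left hlL2 (by positivity)
    have h5 : 100 * K * Real.log X ≤ mass (Ax X) (Bx X) (hat y δ) / 8 := by linarith
    have h6 : mass (Ax X) (Bx X) (hat y δ) / 8 ≤
        H * Sq (Qo X) * mass (Ax X) (Bx X) (hat y δ) := by
      have h7 : 1 / 8 ≤ H * Sq (Qo X) := by nlinarith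
      have := mul_le_mul_of_nonneg_right h7 hM0
      linarith
    linarith
  have h8 : 7 * H * Sq (Qo X) * mass (Ax X) (Bx X) (hat y δ) / Real.log (Lo ε X) =
      6 * H * Sq (Qo X) * mass (Ax X) (Bx X) (hat y δ) / Real.log (Lo ε X) +
      H * Sq (Qo X) * mass (Ax X) (Bx X) (hat y δ) / Real.log (Lo ε X) := by ring
  rw [h8]
  linarith

end Pool.Agent.H48.OM
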