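import Pool.Agent.H48.OM.ParA
import Pool.Agent.H48.OM.ParB
import Pool.Agent.H48.OM.Raw3
import Pool.Agent.H48.OM.SqAs

/-!
[H48 OM FACTB]  The third moment relative to the mean.

Notation and bounds as in `FactA`; `K = 2 log X` (`div_le`, `B + H ≤ 5X`), `|Δ| = |Dl ρ L| ≤ L^4`
(`gsqA_rho_sum`, `lcm ≥ 1`).
Proof.  `raw3`: `T3 = H^2 Sq Δ Θ + E1`, `sq_asym`: `∑ w g^2 = H Sq Δ M0 + E2`, so
`T3 - (H Θ/M0) ∑ w g^2 = E1 - (H Θ/M0) E2` (the main terms cancel).  `H Θ/M0 ≤ 2 H log X`.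
`E1` (with `L^4 ≤ X^(ε/25)`, `ε/25 ≤ 4/100000`, `H ≤ X^(2/1000)`):
* `3 H^4 L^4 |Q|^2 log(B+H) ≤ X^(1/10)`;
* `H^3 L^4 ((4 Sq+1)/Y) CS ≤ X^(6/1000 + 4/100000 - 30/1000 + 1010/1000) 50 log X ≤ X^(987/1000)`;
* `H^3 L^4 S2 (Sq + K + 1) Θ ≤ X^(6/1000+4/100000-30/1000+1) 100 log^3 X ≤ X^(987/1000)`;
* `5 H^3 L^4 S2 B log B ≤ X^(987/1000)` likewise;
* `H (Sq^2 + Sq + Sq L^4) Θ ≤ H 3 log^2 X X^(ε/25) 2 log X M0`.
`(H Θ/M0)|E2| ≤ 2 H log X (36 H^2 L^4 |Q|^2 + H^2 L^4 (3 S2 M0 + 8 Sq) + 8 H L^4 |Q|)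
 ≤ X^(1/10) + M0 X^(6/1000+4/100000-30/1000) 12 log^2 X ≤ X^(1/10) + M0`.
Everything together is `≤ H M0 (6 log^3 X X^(ε/25) + 5) ≤ H X^(ε/4) M0` for large `X`
(`M0 ≥ X^(989/1000)`).
-/

namespace Pool.Agent.H48.OM

open Finset Filter Pool.Agent.H21.MT Pool.Agent.H67.VS

private theorem factb_small {a b c M : ℝ} (ha : 100 ≤ a) (hab : a ^ 8 ≤ b) (hM : b ^ 989 ≤ M)
    (hc0 : 0 ≤ c) (hc : c ≤ a) (k m : ℕ) (hk : k ≤ 7) (hm : m + 1 ≤ 989) :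
    c * a ^ k * b ^ m ≤ M := by
  have ha0 : 0 < a := by linarith
  have ha1 : 1 ≤ a := by linarith
  have hb1 : 1 ≤ b := le_trans (one_le_pow₀ ha1) hab
  have hb0 : 0 < b := by linarith
  calc c * a ^ k * b ^ m ≤ a * a ^ k * b ^ m := by gcongr
    _ = a ^ (k + 1) * b ^ m := by ring
    _ ≤ a ^ 8 * b ^ m := by
        have h1 : a ^ (k + 1) ≤ a ^ 8 := pow_le_pow_right₀ ha1 (by omega)
        gcongr
    _ ≤ b * b ^ m := by gcongr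
    _ = b ^ (m + 1) := by ring
    _ ≤ b ^ 989 := pow_le_pow_right₀ hb1 hm
    _ ≤ M := hM

private theorem factb_s2 {a b s2 c M : ℝ} (ha : 100 ≤ a) (hab : a ^ 8 ≤ b) (hM : 0 ≤ M)
    (hs20 : 0 ≤ s2) (hs2 : s2 * b ^ 30 ≤ 2 * a) (hc0 : 0 ≤ c) (hc : 2 * c ≤ a) (k m : ℕ)
    (hk : k ≤ 6) (hm : m ≤ 6) : c * a ^ k * b ^ m * s2 * M ≤ M := by
  have ha0 : 0 < a := by linarith
  have ha1 : 1 ≤ a := by linarith
  have hb1 : 1 ≤ b := le_trans (one_le_pow₀ ha1) hab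
  have hb0 : 0 < b := by linarith
  have h1 : c * a ^ k * b ^ m * s2 ≤ 1 := by
    have h2 : c * a ^ k * b ^ m * s2 * b ^ 24 ≤ 1 * b ^ 24 := by
      calc c * a ^ k * b ^ m * s2 * b ^ 24 ≤ c * a ^ 6 * b ^ 6 * s2 * b ^ 24 := by
            have h3 : a ^ k ≤ a ^ 6 := pow_le_pow_right₀ ha1 hk
            have h4 : b ^ m ≤ b ^ 6 := pow_le_pow_right₀ hb1 hm
            gcongr
        _ = c * a ^ 6 * (s2 * b ^ 30) := by ring
        _ ≤ c * a ^ 6 * (2 * a) := by gcongr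
        _ = (2 * c) * a ^ 7 := by ring
        _ ≤ a * a ^ 7 := by gcongr
        _ = a ^ 8 := by ring
        _ ≤ b := hab
        _ = b ^ 1 := (pow_one b).symm
        _ ≤ b ^ 24 := pow_le_pow_right₀ hb1 (by norm_num)
        _ = 1 * b ^ 24 := (one_mul _).symm
    exact le_of_mul_le_mul_right h2 (by positivity)
  calc c * a ^ k * b ^ m * s2 * M ≤ 1 * M := mul_le_mul_of_nonneg_right h1 hM
    _ = M := one_mul M

private theorem factb_num {a b h Lr cQ sq s2 Y cs M Θ lBH K Br lB : ℝ}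
    (ha : 100 ≤ a) (hab : a ^ 8 ≤ b) (hh1 : 1 ≤ h) (hh : h ≤ b ^ 2) (hL0 : 0 ≤ Lr) (hL : Lr ≤ a)
    (hQ0 : 0 ≤ cQ) (hQ : cQ ≤ b ^ 35) (hsq0 : 0 ≤ sq) (hsq : sq ≤ a) (hs20 : 0 ≤ s2)
    (hs2 : s2 * b ^ 30 ≤ 2 * a) (hY : Y = b ^ 30 / 2) (hcs0 : 0 ≤ cs)
    (hcs : cs ≤ 4 * b ^ 1010) (hM : b ^ 989 ≤ M) (hΘ0 : 0 ≤ Θ) (hΘ : Θ ≤ 2 * a * M)
    (hlBH0 : 0 ≤ lBH) (hlBH : lBH ≤ 2 * a) (hK0 : 0 ≤ K) (hK : K ≤ 2 * a) (hB0 : 0 ≤ Br)
    (hB : Br ≤ 4 * b ^ 1000) (hlB0 : 0 ≤ lB) (hlB : lB ≤ 2 * a) :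
    (3 * h ^ 4 * Lr ^ 4 * cQ ^ 2 * lBH + h ^ 3 * Lr ^ 4 * ((4 * sq + 1) / Y) * cs +
      h ^ 3 * Lr ^ 4 * s2 * (sq + K + 1) * Θ + 5 * h ^ 3 * Lr ^ 4 * s2 * (Br * lB) +
      h * (sq ^ 2 + sq + sq * Lr ^ 4) * Θ) +
      h * (2 * a) * (36 * h ^ 2 * Lr ^ 4 * cQ ^ 2 + h ^ 2 * Lr ^ 4 * (3 * s2 * M + 8 * sq) +
      8 * h * Lr ^ 4 * cQ) ≤ h * a ^ 7 * M := by
  have ha0 : 0 < a := by linarith
  have ha1 : 1 ≤ a := by linarith
  have hb1 : 1 ≤ b := le_trans (one_le_pow₀ ha1) hab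
  have hb0 : 0 < b := by linarith
  have hM0 : 0 < M := lt_of_lt_of_le (by positivity) hM
  have hh0 : 0 < h := by linarith
  have t1 : 3 * h ^ 4 * Lr ^ 4 * cQ ^ 2 * lBH ≤ M := by
    calc 3 * h ^ 4 * Lr ^ 4 * cQ ^ 2 * lBH
        ≤ 3 * (b ^ 2) ^ 4 * a ^ 4 * (b ^ 35) ^ 2 * (2 * a) := by gcongr
      _ = 6 * a ^ 5 * b ^ 78 := by ring
      _ ≤ M := factb_small ha hab hM (by norm_num) (by linarith) 5 78 (by norm_num) (by norm_num)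
  have t2 : h ^ 3 * Lr ^ 4 * ((4 * sq + 1) / Y) * cs ≤ M := by
    have h1 : (4 * sq + 1) / Y * b ^ 30 ≤ 10 * a := by
      rw [hY]
      have h2 : (4 * sq + 1) / (b ^ 30 / 2) * b ^ 30 = 2 * (4 * sq + 1) := by
        field_simp
      rw [h2]
      linarith
    have hY0 : 0 < Y := by rw [hY]; positivity
    calc h ^ 3 * Lr ^ 4 * ((4 * sq + 1) / Y) * cs
        ≤ (b ^ 2) ^ 3 * a ^ 4 * ((4 * sq + 1) / Y) * (4 * b ^ 1010) := by gcongr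
      _ = 4 * a ^ 4 * ((4 * sq + 1) / Y * b ^ 30) * b ^ 986 := by ring
      _ ≤ 4 * a ^ 4 * (10 * a) * b ^ 986 := by gcongr
      _ = 40 * a ^ 5 * b ^ 986 := by ring
      _ ≤ M := factb_small ha hab hM (by norm_num) (by linarith) 5 986 (by norm_num) (by norm_num)
  have t3 : h ^ 3 * Lr ^ 4 * s2 * (sq + K + 1) * Θ ≤ M := by
    calc h ^ 3 * Lr ^ 4 * s2 * (sq + K + 1) * Θ
        ≤ (b ^ 2) ^ 3 * a ^ 4 * s2 * (a + 2 * a + a) * (2 * a * M) := by gcongr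
      _ = 8 * a ^ 6 * b ^ 6 * s2 * M := by ring
      _ ≤ M := factb_s2 ha hab hM0.le hs20 hs2 (by norm_num) (by linarith) 6 6 le_rfl le_rfl
  have t4 : 5 * h ^ 3 * Lr ^ 4 * s2 * (Br * lB) ≤ M := by
    calc 5 * h ^ 3 * Lr ^ 4 * s2 * (Br * lB)
        ≤ 5 * (b ^ 2) ^ 3 * a ^ 4 * s2 * ((4 * b ^ 1000) * (2 * a)) := by gcongr
      _ = 40 * a ^ 5 * (s2 * b ^ 30) * b ^ 976 := by ring
      _ ≤ 40 * a ^ 5 * (2 * a) * b ^ 976 := by gcongr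
      _ = 80 * a ^ 6 * b ^ 976 := by ring
      _ ≤ M := factb_small ha hab hM (by norm_num) (by linarith) 6 976 (by norm_num) (by norm_num)
  have t5 : h * (sq ^ 2 + sq + sq * Lr ^ 4) * Θ ≤ h * (6 * a ^ 6) * M := by
    have h1 : a ^ 2 ≤ a ^ 5 := pow_le_pow_right₀ ha1 (by norm_num)
    have h2 : a ^ 1 ≤ a ^ 5 := pow_le_pow_right₀ ha1 (by norm_num)
    rw [pow_one] at h2
    calc h * (sq ^ 2 + sq + sq * Lr ^ 4) * Θ
        ≤ h * (a ^ 2 + a + a * a ^ 4) * (2 * a * M) := by gcongr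
      _ ≤ h * (a ^ 5 + a ^ 5 + a * a ^ 4) * (2 * a * M) := by gcongr
      _ = h * (6 * a ^ 6) * M := by ring
  have s1' : (2 * a) * (36 * h ^ 2 * Lr ^ 4 * cQ ^ 2) ≤ M := by
    calc (2 * a) * (36 * h ^ 2 * Lr ^ 4 * cQ ^ 2)
        ≤ (2 * a) * (36 * (b ^ 2) ^ 2 * a ^ 4 * (b ^ 35) ^ 2) := by gcongr
      _ = 72 * a ^ 5 * b ^ 74 := by ring
      _ ≤ M := factb_small ha hab hM (by norm_num) (by linarith) 5 74 (by norm_num) (by norm_num)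
  have s2' : (2 * a) * (h ^ 2 * Lr ^ 4 * (3 * s2 * M + 8 * sq)) ≤ M + M := by
    calc (2 * a) * (h ^ 2 * Lr ^ 4 * (3 * s2 * M + 8 * sq))
        ≤ (2 * a) * ((b ^ 2) ^ 2 * a ^ 4 * (3 * s2 * M + 8 * a)) := by gcongr
      _ = 6 * a ^ 5 * b ^ 4 * s2 * M + 16 * a ^ 6 * b ^ 4 := by ring
      _ ≤ M + M := by
          refine add_le_add ?_ ?_
          · exact factb_s2 ha hab hM0.le hs20 hs2 (by norm_num) (by linarith) 5 4 (by norm_num)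
              (by norm_num)
          · exact factb_small ha hab hM (by norm_num) (by linarith) 6 4 (by norm_num)
              (by norm_num)
  have s3' : (2 * a) * (8 * h * Lr ^ 4 * cQ) ≤ M := by
    calc (2 * a) * (8 * h * Lr ^ 4 * cQ)
        ≤ (2 * a) * (8 * (b ^ 2) * a ^ 4 * (b ^ 35)) := by gcongr
      _ = 16 * a ^ 5 * b ^ 37 := by ring
      _ ≤ M := factb_small ha hab hM (by norm_num) (by linarith) 5 37 (by norm_num) (by norm_num)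
  have hE : h * (2 * a) * (36 * h ^ 2 * Lr ^ 4 * cQ ^ 2 + h ^ 2 * Lr ^ 4 * (3 * s2 * M + 8 * sq) +
      8 * h * Lr ^ 4 * cQ) ≤ h * (4 * M) := by
    have h1 : h * (2 * a) * (36 * h ^ 2 * Lr ^ 4 * cQ ^ 2 + h ^ 2 * Lr ^ 4 * (3 * s2 * M + 8 * sq) +
      8 * h * Lr ^ 4 * cQ) = h * ((2 * a) * (36 * h ^ 2 * Lr ^ 4 * cQ ^ 2) +
        (2 * a) * (h ^ 2 * Lr ^ 4 * (3 * s2 * M + 8 * sq)) + (2 * a) * (8 * h * Lr ^ 4 * cQ)) := by
      ring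
    rw [h1]
    refine mul_le_mul_of_nonneg_left ?_ hh0.le
    linarith
  have hMh : M ≤ h * M := by nlinarith
  have h6 : 6 * a ^ 6 + 8 ≤ a ^ 7 := by
    have h1 : 1 ≤ a ^ 6 := one_le_pow₀ ha1
    have h2 : a ^ 7 = a * a ^ 6 := by ring
    rw [h2]
    nlinarith
  have h7 : h * M * (6 * a ^ 6 + 8) ≤ h * M * a ^ 7 :=
    mul_le_mul_of_nonneg_left h6 (by positivity)
  have h8 := add_le_add (add_le_add (add_le_add (add_le_add (add_le_add t1 t2) t3) t4) t5) hE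
  refine h8.trans ?_
  have h9 : M + M + M + M + h * (6 * a ^ 6) * M + h * (4 * M) ≤ h * M * (6 * a ^ 6 + 8) := by
    have h10 : h * M * (6 * a ^ 6 + 8) = h * (6 * a ^ 6) * M + h * (4 * M) + 4 * (h * M) := by
      ring
    rw [h10]
    linarith
  refine h9.trans (h7.trans (le_of_eq ?_))
  ring

theorem fact_third (ε : ℝ) (hε : 0 < ε) (hε1 : ε ≤ 1 / 1000) : ∀ᶠ X : ℝ in atTop, ∀ y δ : ℝ,
    X ≤ y → y ≤ 2 * X → X ^ (-1 / 100 : ℝ) ≤ δ → δ ≤ 1 / 2 → ∀ H : ℕ, 1 ≤ H →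
    (H : ℝ) ≤ X ^ (1 / 500 : ℝ) → ∀ ρ : ℕ → ℝ, SW (Lo ε X) ρ →
    |∑ x ∈ Ioc (Ax X) (Bx X), hat y δ x * ((PH H x -
      H * theta (Ax X) (Bx X) (hat y δ) / mass (Ax X) (Bx X) (hat y δ)) *
      gH ρ (Lo ε X) (Qo X) H x ^ 2)| ≤
      H * X ^ (ε / 4) * mass (Ax X) (Bx X) (hat y δ) := by
  have hη : 0 < ε / 100 := by positivity
  have hlog : ∀ᶠ X : ℝ in atTop, Real.log X ≤ X ^ (ε / 100) := by
    have h1 := (isLittleO_log_rpow_atTop hη).bound one_pos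
    filter_upwards [h1, eventually_ge_atTop 1] with X h2 h3
    rw [one_mul, Real.norm_eq_abs, Real.norm_eq_abs] at h2
    have h4 : |X ^ (ε / 100)| = X ^ (ε / 100) := abs_of_nonneg (by positivity)
    rw [h4] at h2
    exact (le_abs_self _).trans h2
  have hbig : ∀ᶠ X : ℝ in atTop, 100 ≤ X ^ (ε / 100) :=
    (tendsto_rpow_atTop hη).eventually_ge_atTop 100
  filter_upwards [par_ok ε hε hε1, sq_le, s2_le, card_le, div_le, lo_ge ε hε, mass_ge, cs_le,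
    hlog, hbig, eventually_ge_atTop 10] with X hpar hsq hs2 hcard hdiv hlo hmass hcs hlX hb hX10
  intro y δ hy1 hy2 hδ1 hδ2 H hH1 hH2 ρ hρ
  have hX0 : 0 < X := by linarith
  have hX1 : 1 ≤ X := by linarith
  have hδ0 : 0 < δ := lt_of_lt_of_le (by positivity) hδ1
  have hP := hpar H hH1 hH2
  have hw := hat_wt X y δ (by linarith) hy1 hy2 hδ0 hδ2
  have hM := hmass y δ hy1 hy2 hδ1 hδ2
  have hCS := hcs y δ hy1 hy2 hδ1 hδ2
  obtain ⟨hΘ0, hΘ⟩ := theta_le_mass X y δ (by linarith) hy1 hy2 hδ0 hδ2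
  have hl0 : 0 ≤ Real.log X := Real.log_nonneg hX1
  have hH5 : (H : ℝ) ≤ X := by
    refine hH2.trans ?_
    calc X ^ (1 / 500 : ℝ) ≤ X ^ (1 : ℝ) := Real.rpow_le_rpow_of_exponent_le hX1 (by norm_num)
      _ = X := Real.rpow_one X
  have hB4 : (Bx X : ℝ) ≤ 4 * X := Nat.floor_le (by positivity)
  have hBH : (Bx X : ℝ) + H ≤ 5 * X := by linarith
  have hlog5 : Real.log (5 * X) ≤ 2 * Real.log X := by
    have h1 : 2 * Real.log X = Real.log (X ^ 2) := by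
      rw [Real.log_pow]
      norm_num
    rw [h1]
    apply Real.log_le_log (by positivity)
    nlinarith
  have hlBH : Real.log ((Bx X : ℝ) + H) ≤ 2 * Real.log X := by
    refine le_trans (Real.log_le_log ?_ hBH) hlog5
    have : (1 : ℝ) ≤ H := by exact_mod_cast hH1
    have : (0 : ℝ) ≤ Bx X := Nat.cast_nonneg _
    linarith
  have hlBH0 : 0 ≤ Real.log ((Bx X : ℝ) + H) := by
    apply Real.log_nonneg
    have : (1 : ℝ) ≤ H := by exact_mod_cast hH1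
    have : (0 : ℝ) ≤ Bx X := Nat.cast_nonneg _
    linarith
  have hlB : Real.log (Bx X : ℝ) ≤ 2 * Real.log X := by
    rcases Nat.eq_zero_or_pos (Bx X) with h0 | h0
    · rw [h0]
      simp only [Nat.cast_zero, Real.log_zero]
      positivity
    · refine le_trans (Real.log_le_log (by exact_mod_cast h0) ?_) hlog5
      linarith
  have hlB0 : 0 ≤ Real.log (Bx X : ℝ) := Real.log_natCast_nonneg _
  have hraw := raw3 hP hw hρ (2 * Real.log X) (by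
    intro m hm1 hm2
    refine hdiv m hm1 ?_
    have : (m : ℝ) ≤ (Bx X : ℝ) + H := by exact_mod_cast hm2
    linarith)
  have hsa := sq_asym hP hw hρ
  have hSq0 : 0 ≤ Sq (Qo X) := sum_nonneg fun q hq => by
    have h1 := hP.hYq q hq
    have h2 := hP.hY
    have h3 : (0 : ℝ) < (q : ℝ) - 1 := by linarith
    positivity
  have hS20 : 0 ≤ S2 (Qo X) := by
    unfold S2
    exact sum_nonneg fun q _ => by positivity
  have hCS0 : 0 ≤ CS (Ax X) (Bx X) (hat y δ) (Rx X) := sum_nonneg fun _ _ => norm_nonneg _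
  -- the two basic quantities
  obtain ⟨a, hadef⟩ : ∃ a, a = X ^ (ε / 100) := ⟨_, rfl⟩
  obtain ⟨b, hbdef⟩ : ∃ b, b = X ^ (1 / 1000 : ℝ) := ⟨_, rfl⟩
  have hbpow : ∀ n : ℕ, b ^ n = X ^ ((n : ℝ) / 1000) := by
    intro n
    rw [hbdef, ← Real.rpow_natCast, ← Real.rpow_mul hX0.le]
    congr 1
    ring
  have hapow : ∀ n : ℕ, a ^ n = X ^ ((n : ℝ) * (ε / 100)) := by
    intro n
    rw [hadef, ← Real.rpow_natCast, ← Real.rpow_mul hX0.le]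
    congr 1
    ring
  have ha : 100 ≤ a := by rw [hadef]; exact hb
  have hab : a ^ 8 ≤ b := by
    rw [hapow, hbdef]
    apply Real.rpow_le_rpow_of_exponent_le hX1
    push_cast
    linarith
  have hM0 : 0 < mass (Ax X) (Bx X) (hat y δ) := lt_of_lt_of_le (by positivity) hM
  have hY : Yo X = b ^ 30 / 2 := by
    rw [hbpow]
    unfold Yo
    norm_num
  have hlXa : Real.log X ≤ a := by rw [hadef]; exact hlX
  have hnum := factb_num (a := a) (b := b) (h := (H : ℝ)) (Lr := (Lo ε X : ℝ))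
    (cQ := ((Qo X).card : ℝ)) (sq := Sq (Qo X)) (s2 := S2 (Qo X)) (Y := Yo X)
    (cs := CS (Ax X) (Bx X) (hat y δ) (Rx X)) (M := mass (Ax X) (Bx X) (hat y δ))
    (Θ := theta (Ax X) (Bx X) (hat y δ)) (lBH := Real.log ((Bx X : ℝ) + H))
    (K := 2 * Real.log X) (Br := (Bx X : ℝ)) (lB := Real.log (Bx X : ℝ)) ha hab
    (by exact_mod_cast hH1) (by rw [hbpow]; refine hH2.trans (le_of_eq ?_); norm_num)
    (Nat.cast_nonneg _) (by rw [hadef]; exact hlo.2) (Nat.cast_nonneg _)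
    (by rw [hbpow]; refine hcard.trans (le_of_eq ?_); norm_num) hSq0 (hsq.trans hlXa) hS20
    (by
      have h1 : X ^ (-(30 / 1000) : ℝ) * b ^ 30 = 1 := by
        rw [hbpow, ← Real.rpow_add hX0]
        norm_num
      calc S2 (Qo X) * b ^ 30 ≤ (2 * Real.log X * X ^ (-(30 / 1000) : ℝ)) * b ^ 30 := by
            have : 0 ≤ b ^ 30 := by rw [hbpow]; positivity
            gcongr
        _ = 2 * Real.log X * (X ^ (-(30 / 1000) : ℝ) * b ^ 30) := by ring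
        _ = 2 * Real.log X := by rw [h1, mul_one]
        _ ≤ 2 * a := by linarith) hY hCS0
    (by rw [hbpow]; refine hCS.trans (le_of_eq ?_); norm_num)
    (by rw [hbpow]; refine le_trans (le_of_eq ?_) hM; norm_num) hΘ0
    (hΘ.trans (by
      have := hM0.le
      gcongr)) hlBH0 (by linarith) (by linarith) (by linarith) (Nat.cast_nonneg _)
    (by rw [hbpow]; refine hB4.trans (le_of_eq ?_); norm_num) hlB0 (by linarith)
  obtain ⟨M, hMd⟩ : ∃ M, M = mass (Ax X) (Bx X) (hat y δ) := ⟨_, rfl⟩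
  obtain ⟨Θ, hΘd⟩ : ∃ Θ, Θ = theta (Ax X) (Bx X) (hat y δ) := ⟨_, rfl⟩
  obtain ⟨G2, hG2⟩ : ∃ G2, G2 = ∑ x ∈ Ioc (Ax X) (Bx X), hat y δ x *
      gH ρ (Lo ε X) (Qo X) H x ^ 2 := ⟨_, rfl⟩
  have hsplit : ∑ x ∈ Ioc (Ax X) (Bx X), hat y δ x * ((PH H x -
      H * theta (Ax X) (Bx X) (hat y δ) / mass (Ax X) (Bx X) (hat y δ)) *
      gH ρ (Lo ε X) (Qo X) H x ^ 2) =
      T3 (Ax X) (Bx X) (hat y δ) ρ (Lo ε X) (Qo X) H - (H * Θ / M) * G2 := by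
    rw [hG2, T3, mul_sum, ← sum_sub_distrib, hMd, hΘd]
    refine sum_congr rfl fun x _ => ?_
    ring
  rw [hsplit]
  rw [← hΘd] at hraw hnum
  rw [← hMd] at hnum
  rw [← hMd, ← hG2] at hsa
  rw [← hMd] at hM0 hΘ ⊢
  rw [← hΘd] at hΘ hΘ0
  have hc0 : 0 ≤ (H : ℝ) * Θ / M := by positivity
  have hc1 : (H : ℝ) * Θ / M ≤ H * (2 * a) := by
    rw [div_le_iff₀ hM0]
    calc (H : ℝ) * Θ ≤ H * (2 * Real.log X * M) := by gcongr
      _ ≤ H * (2 * a * M) := by gcongr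
      _ = H * (2 * a) * M := by ring
  have hmain : T3 (Ax X) (Bx X) (hat y δ) ρ (Lo ε X) (Qo X) H - (H * Θ / M) * G2 =
      (T3 (Ax X) (Bx X) (hat y δ) ρ (Lo ε X) (Qo X) H -
        (H : ℝ) ^ 2 * Sq (Qo X) * Dl ρ (Lo ε X) * Θ) -
      (H * Θ / M) * (G2 - H * Sq (Qo X) * Dl ρ (Lo ε X) * M) := by
    field_simp
    ring
  rw [hmain]
  refine (abs_sub _ _).trans ?_
  rw [abs_mul, abs_of_nonneg hc0]
  have hE20 := (abs_nonneg (G2 - H * Sq (Qo X) * Dl ρ (Lo ε X) * M)).trans hsa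
  have h1 : (H * Θ / M) * |G2 - H * Sq (Qo X) * Dl ρ (Lo ε X) * M| ≤ H * (2 * a) *
      (36 * (H : ℝ) ^ 2 * (Lo ε X : ℝ) ^ 4 * ((Qo X).card : ℝ) ^ 2 +
      (H : ℝ) ^ 2 * (Lo ε X : ℝ) ^ 4 * (3 * S2 (Qo X) * M + 8 * Sq (Qo X)) +
      8 * H * (Lo ε X : ℝ) ^ 4 * (Qo X).card) :=
    mul_le_mul hc1 hsa (abs_nonneg _) (by positivity)
  refine (add_le_add hraw h1).trans (hnum.trans ?_)
  have h2 : a ^ 7 ≤ X ^ (ε / 4) := by
    rw [hapow]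
    apply Real.rpow_le_rpow_of_exponent_le hX1
    push_cast
    linarith
  gcongr

end Pool.Agent.H48.OM
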