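import Pool.Agent.H48.OM.WinO
import Pool.Agent.H48.OM.WinS
import Pool.Agent.H67.VS.FinA

/-!
[H48 OM FINO]  The theorem.

Proof.  Let `ε' = min ε (1/1000)/2` and `c₁` from `win_osc ε'`.  Take `X` from `win_sel σ` (large),
`y, δ`, and `X₁ = y exp(-δ)` (`X/2 ≤ X₁ ≤ 2X`, as large as we like).  Let `H` be real with
`X₁^ε ≤ H ≤ X₁^(1/1000)` (if `ε > 1/1000` there is none for `X₁ > 1`, so assume `ε ≤ 1/1000`),
`N = ⌊H⌋₊`: `X^(ε/2) ≤ N ≤ X^(1/500)` for large `X`.  `hat y δ n ≠ 0` implies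
`X₁ < n < y exp δ = X₁ exp(2δ) ≤ X₁ + X₁^(199/200)` (`hat_supp`, `δ ≤ 2 X^(-1/100)`).
The primes in `(n, n+H]` are those in `(n, n+N]`; `PH_near`:
`|PH N n - log n * π| ≤ N^2/n ≤ 1`, `π = π(n,n+H)`.
`m = N Θ/M0`.
* `σ = -1` in `win_sel`: `Θ ≥ (1 - X^(-1/500)) M0 ≥ M0/2`, `m ≥ N - N X^(-1/500) ≥ N - 1 ≥ H - 2`;
  `win_osc` with `σ = 1`: `PH N n ≥ m + c₁ sqrt(N log X)`, so
  `log n π ≥ H - 3 + c₁ sqrt(N log X) ≥ H + (c₁/2) sqrt(N log X)` for large `X`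
  (`N ≥ X^(ε/2)`), and `log n ≤ 2 log X`, `N ≥ H/2`:
  `sqrt(N log X)/log n ≥ sqrt(H log n/4)/log n = (1/2) sqrt(H/log n)`.
* `σ = 1`: `Θ ≤ (1 + X^(-1/500)) M0`, `m ≤ N + 1 ≤ H + 1`.  If `Θ ≥ M0/2`: `win_osc` with
  `σ = -1`: `PH N n ≤ m - c₁ sqrt(N log X)`.  If `Θ < M0/2`: some `n` with `hat y δ n ≠ 0` has
  `PH N n ≤ (∑ w PH)/M0 ≤ (N Θ + M0)/M0 ≤ N/2 + 1` (`fact_mean`, `mass > 0`), which is
  `≤ N + 1 - c₁ sqrt(N log X)` for large `X` (`sqrt(N log X) ≤ N/(2 c₁)`, as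
  `N ≥ X^(ε/2)`).  In both cases `log n π ≤ H + 2 - c₁ sqrt(N log X)`.
`c = c₁/4`.
-/

namespace Pool.Agent.H48.OM

open Finset Filter Pool.Agent.H21.MT Pool.Agent.H67.VS

/-- the number of primes in `(n, n+H]` -/
noncomputable def pc (n : ℕ) (H : ℝ) : ℕ := {p : ℕ | p.Prime ∧ n < p ∧ (p : ℝ) ≤ n + H}.ncard

private theorem fo_pc (n : ℕ) (H : ℝ) (hH : 0 ≤ H) :
    pc n H = ((Ioc n (n + ⌊H⌋₊)).filter Nat.Prime).card := by
  unfold pc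
  rw [← Set.ncard_coe_finset]
  congr 1
  ext p
  simp only [Set.mem_setOf_eq, coe_filter, mem_Ioc]
  constructor
  · rintro ⟨hp, h1, h2⟩
    refine ⟨⟨h1, ?_⟩, hp⟩
    have h3 : p - n ≤ ⌊H⌋₊ := by
      apply Nat.le_floor
      rw [Nat.cast_sub h1.le]
      linarith
    omega
  · rintro ⟨⟨h1, h2⟩, hp⟩
    refine ⟨hp, h1, ?_⟩
    have h3 : ((⌊H⌋₊ : ℕ) : ℝ) ≤ H := Nat.floor_le hH
    have h4 : (p : ℝ) ≤ n + ⌊H⌋₊ := by exact_mod_cast h2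
    linarith

private theorem fo_exp (δ : ℝ) (h0 : 0 ≤ δ) (h1 : δ ≤ 1 / 2) :
    1 / 2 ≤ Real.exp (-δ) ∧ Real.exp (-δ) ≤ 1 ∧ Real.exp (2 * δ) ≤ 1 + 4 * δ := by
  refine ⟨?_, ?_, ?_⟩
  · have := Real.add_one_le_exp (-δ)
    linarith
  · exact Real.exp_le_one_iff.2 (by linarith)
  · have h2 : |Real.exp (2 * δ) - 1 - 2 * δ| ≤ (2 * δ) ^ 2 := by
      apply Real.abs_exp_sub_one_sub_id_le
      rw [abs_of_nonneg (by linarith)]
      linarith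
    have h3 := (abs_le.1 h2).2
    nlinarith

/-- the elementary bounds for one window -/
private theorem fo_setup (e : ℝ) (he : 0 < e) (he1 : e ≤ 1 / 1000) : ∀ᶠ X : ℝ in atTop,
    ∀ y δ : ℝ, X ≤ y → y ≤ 2 * X → X ^ (-1 / 100 : ℝ) ≤ δ → δ ≤ 2 * X ^ (-1 / 100 : ℝ) →
    δ ≤ 1 / 2 →
    X / 2 ≤ y * Real.exp (-δ) ∧
    (∀ n : ℕ, hat y δ n ≠ 0 → y * Real.exp (-δ) ≤ n ∧
      (n : ℝ) ≤ y * Real.exp (-δ) + (y * Real.exp (-δ)) ^ (199 / 200 : ℝ) ∧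
      1 ≤ Real.log n ∧ Real.log n ≤ 2 * Real.log X) ∧
    (∀ H : ℝ, (y * Real.exp (-δ)) ^ e ≤ H → H ≤ (y * Real.exp (-δ)) ^ (1 / 1000 : ℝ) →
      X ^ (e / 2) ≤ (⌊H⌋₊ : ℝ) ∧ (⌊H⌋₊ : ℝ) ≤ X ^ (1 / 500 : ℝ) ∧ 2 ≤ H ∧ 1 ≤ ⌊H⌋₊ ∧
      ∀ n : ℕ, hat y δ n ≠ 0 → (⌊H⌋₊ : ℝ) ^ 2 / n ≤ 1) := by
  have e1 := (tendsto_rpow_atTop (show (0 : ℝ) < 1 / 200 by norm_num)).eventually_ge_atTop 16
  have e2 := (tendsto_rpow_atTop (show (0 : ℝ) < e / 2 by linarith)).eventually_ge_atTop 3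
  have e3 := (tendsto_rpow_atTop (show (0 : ℝ) < 1 / 2 by linarith)).eventually_ge_atTop 2
  filter_upwards [e1, e2, e3, eventually_ge_atTop (8 : ℝ)] with X h1 h2 h3 hX
  intro y δ hy1 hy2 hδ1 hδ3 hδ2
  have hX0 : (0 : ℝ) < X := by linarith
  have hδ0 : 0 < δ := lt_of_lt_of_le (Real.rpow_pos_of_pos hX0 _) hδ1
  obtain ⟨hx1, hx2, hx3⟩ := fo_exp δ hδ0.le hδ2
  set X₁ : ℝ := y * Real.exp (-δ) with hX₁
  have hy0 : 0 < y := by linarith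
  have ha : X / 2 ≤ X₁ := by
    rw [hX₁]
    nlinarith
  have hb : X₁ ≤ 2 * X := by
    rw [hX₁]
    nlinarith
  have hX₁0 : 0 < X₁ := by linarith
  have hlogX : 2 * Real.log X = Real.log (X ^ 2) := by
    rw [Real.log_pow]
    norm_num
  have hup : ∀ n : ℕ, hat y δ n ≠ 0 → X₁ ≤ n ∧ (n : ℝ) ≤ X₁ + X₁ ^ (199 / 200 : ℝ) := by
    intro n hn
    obtain ⟨h4, h5⟩ := hat_supp y δ hy0 hδ0 n hn
    refine ⟨h4.le, ?_⟩
    have h6 : y * Real.exp δ = X₁ * Real.exp (2 * δ) := by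
      rw [hX₁, mul_assoc, ← Real.exp_add]
      congr 2
      ring
    have h7 : X₁ * Real.exp (2 * δ) ≤ X₁ * (1 + 4 * δ) := mul_le_mul_of_nonneg_left hx3 hX₁0.le
    have h8 : X₁ ^ (199 / 200 : ℝ) = X₁ * X₁ ^ (-1 / 200 : ℝ) := by
      rw [show (199 / 200 : ℝ) = 1 + -1 / 200 by norm_num, Real.rpow_add hX₁0, Real.rpow_one]
    have h9 : 4 * δ ≤ X₁ ^ (-1 / 200 : ℝ) := by
      have g1 : (2 * X) ^ (-1 / 200 : ℝ) ≤ X₁ ^ (-1 / 200 : ℝ) :=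
        Real.rpow_le_rpow_of_nonpos hX₁0 hb (by norm_num)
      have g2 : (2 * X) ^ (-1 / 200 : ℝ) = 2 ^ (-1 / 200 : ℝ) * X ^ (-1 / 200 : ℝ) :=
        Real.mul_rpow (by norm_num) hX0.le
      have g3 : (1 / 2 : ℝ) ≤ 2 ^ (-1 / 200 : ℝ) := by
        have : (2 : ℝ) ^ (-1 : ℝ) ≤ 2 ^ (-1 / 200 : ℝ) :=
          Real.rpow_le_rpow_of_exponent_le (by norm_num) (by norm_num)
        rw [Real.rpow_neg_one] at this
        linarith
      have g4 : X ^ (-1 / 100 : ℝ) = X ^ (-1 / 200 : ℝ) * X ^ (-1 / 200 : ℝ) := by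
        rw [← Real.rpow_add hX0]
        norm_num
      have g5 : X ^ (-1 / 200 : ℝ) * X ^ (1 / 200 : ℝ) = 1 := by
        rw [← Real.rpow_add hX0]
        norm_num
      have g6 : 0 < X ^ (-1 / 200 : ℝ) := Real.rpow_pos_of_pos hX0 _
      have g7 : X ^ (-1 / 200 : ℝ) * 16 ≤ 1 := by
        have := mul_le_mul_of_nonneg_left h1 g6.le
        linarith
      have g8 : 4 * δ ≤ 8 * (X ^ (-1 / 200 : ℝ) * X ^ (-1 / 200 : ℝ)) := by
        rw [← g4]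
        linarith
      have g9 : 1 / 2 * X ^ (-1 / 200 : ℝ) ≤ 2 ^ (-1 / 200 : ℝ) * X ^ (-1 / 200 : ℝ) :=
        mul_le_mul_of_nonneg_right g3 g6.le
      nlinarith
    have h10 : X₁ * (1 + 4 * δ) ≤ X₁ + X₁ ^ (199 / 200 : ℝ) := by
      rw [h8]
      have := mul_le_mul_of_nonneg_left h9 hX₁0.le
      linarith
    linarith
  refine ⟨ha, ?_, ?_⟩
  · intro n hn
    obtain ⟨h4, h5⟩ := hup n hn
    refine ⟨h4, h5, ?_, ?_⟩
    · have h6 : (3 : ℝ) ≤ n := by linarith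
      rw [Real.le_log_iff_exp_le (by linarith)]
      linarith [Real.exp_one_lt_d9]
    · rw [hlogX]
      apply Real.log_le_log (by linarith)
      have h6 : X₁ ^ (199 / 200 : ℝ) ≤ X₁ := by
        calc X₁ ^ (199 / 200 : ℝ) ≤ X₁ ^ (1 : ℝ) :=
              Real.rpow_le_rpow_of_exponent_le (by linarith) (by norm_num)
          _ = X₁ := Real.rpow_one _
      nlinarith
  · intro H hH1 hH2
    have hXe : X ^ (e / 2) * X ^ (e / 2) = X ^ e := by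
      rw [← Real.rpow_add hX0]
      congr 1
      ring
    have g1 : X ^ e / 2 ^ e ≤ X₁ ^ e := by
      rw [← Real.div_rpow hX0.le (by norm_num)]
      exact Real.rpow_le_rpow (by linarith) ha he.le
    have hH3 : X ^ e / 2 ^ e ≤ H := g1.trans hH1
    have hmain : X ^ (e / 2) + 1 ≤ H := by
      refine le_trans ?_ hH3
      have k1 : (2 : ℝ) ^ e ≤ 2 := by
        calc (2 : ℝ) ^ e ≤ 2 ^ (1 : ℝ) :=
              Real.rpow_le_rpow_of_exponent_le (by norm_num) (by linarith)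
          _ = 2 := Real.rpow_one _
      have k2 : (0 : ℝ) < 2 ^ e := Real.rpow_pos_of_pos (by norm_num) _
      rw [le_div_iff₀ k2, ← hXe]
      nlinarith
    have hfl : H - 1 < (⌊H⌋₊ : ℝ) := by
      have := Nat.lt_floor_add_one H
      linarith
    have hN1 : X ^ (e / 2) ≤ (⌊H⌋₊ : ℝ) := by linarith
    have hH0 : 0 ≤ H := by linarith
    have hN2 : (⌊H⌋₊ : ℝ) ≤ X ^ (1 / 500 : ℝ) := by
      refine (Nat.floor_le hH0).trans (hH2.trans ?_)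
      have : X ^ (1 / 500 : ℝ) = (X ^ (2 : ℝ)) ^ (1 / 1000 : ℝ) := by
        rw [← Real.rpow_mul hX0.le]
        norm_num
      rw [this]
      apply Real.rpow_le_rpow hX₁0.le _ (by norm_num)
      rw [Real.rpow_two]
      nlinarith
    refine ⟨hN1, hN2, by linarith, ?_, ?_⟩
    · have : (1 : ℝ) ≤ (⌊H⌋₊ : ℝ) := by linarith
      exact_mod_cast this
    · intro n hn
      obtain ⟨h4, h5⟩ := hup n hn
      have hn0 : (0 : ℝ) < n := by linarith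
      rw [div_le_one hn0]
      have g2 : (⌊H⌋₊ : ℝ) ^ 2 ≤ (X ^ (1 / 500 : ℝ)) ^ 2 :=
        pow_le_pow_left₀ (Nat.cast_nonneg _) hN2 2
      have g3 : (X ^ (1 / 500 : ℝ)) ^ 2 ≤ X ^ (1 / 2 : ℝ) := by
        rw [← Real.rpow_natCast, ← Real.rpow_mul hX0.le]
        exact Real.rpow_le_rpow_of_exponent_le (by linarith) (by norm_num)
      have g4 : X ^ (1 / 2 : ℝ) * X ^ (1 / 2 : ℝ) = X := by
        rw [← Real.rpow_add hX0]
        norm_num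
      nlinarith

/-- comparison of the square roots -/
private theorem fo_sqrt (X H N l : ℝ) (hN0 : 0 ≤ N) (hN : H / 2 ≤ N) (hH : 0 ≤ H)
    (hl0 : 0 ≤ l) (hl : l ≤ 2 * X) (hX : 0 ≤ X) :
    Real.sqrt (H * l) / 2 ≤ Real.sqrt (N * X) := by
  have h1 : Real.sqrt (H * l) / 2 = Real.sqrt (H * l / 4) := by
    rw [Real.sqrt_div (by positivity), show (4 : ℝ) = 2 ^ 2 by norm_num,
      Real.sqrt_sq (by norm_num)]
  rw [h1]
  apply Real.sqrt_le_sqrt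
  nlinarith [mul_le_mul hN hl hl0 hN0]

private theorem fo_div (H l : ℝ) (hH : 0 ≤ H) (hl : 0 < l) :
    l * Real.sqrt (H / l) = Real.sqrt (H * l) := by
  have h1 : H * l = l ^ 2 * (H / l) := by
    field_simp
  rw [h1, Real.sqrt_mul (by positivity), Real.sqrt_sq hl.le]

theorem fin_up (ε : ℝ) (hε : 0 < ε) : ∃ c : ℝ, 0 < c ∧ ∀ X₀ : ℝ, ∃ X : ℝ, X₀ ≤ X ∧
    ∀ H : ℝ, X ^ ε ≤ H → H ≤ X ^ (1 / 1000 : ℝ) →
      ∃ n : ℕ, X ≤ n ∧ (n : ℝ) ≤ X + X ^ (199 / 200 : ℝ) ∧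
        H / Real.log n + c * Real.sqrt (H / Real.log n) ≤ pc n H := by
  set e : ℝ := min ε (1 / 1000) with he
  have he0 : 0 < e := lt_min hε (by norm_num)
  have he1 : e ≤ 1 / 1000 := min_le_right _ _
  have heε : e ≤ ε := min_le_left _ _
  obtain ⟨c₁, hc₁, hosc⟩ := win_osc (e / 2) (by linarith) (by linarith)
  refine ⟨c₁ / 4, by positivity, fun X₀ => ?_⟩
  have ev1 := (tendsto_rpow_atTop (show (0 : ℝ) < e / 2 by linarith)).eventually_ge_atTop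
    ((12 / c₁) ^ 2)
  have ev2 := (tendsto_rpow_atTop (show (0 : ℝ) < 1 / 500 by norm_num)).eventually_ge_atTop 2
  have hall := (hosc.and ((fo_setup e he0 he1).and ((ev1.and ev2).and mass_ge))).and
    (eventually_ge_atTop (max (2 * X₀) 8))
  obtain ⟨X', hX'⟩ := eventually_atTop.1 hall
  obtain ⟨X, hXX, y, δ, hy1, hy2, hδ1, hδ3, hδ2, hsel⟩ := win_sel (-1) (Or.inr rfl) X'
  obtain ⟨⟨hoscX, hset, ⟨hcX, hcX2⟩, hmass⟩, hX0'⟩ := hX' X hXX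
  have hX8 : (8 : ℝ) ≤ X := le_trans (le_max_right _ _) hX0'
  have hXX0 : 2 * X₀ ≤ X := le_trans (le_max_left _ _) hX0'
  have hX0 : (0 : ℝ) < X := by linarith
  obtain ⟨ha, hn, hH⟩ := hset y δ hy1 hy2 hδ1 hδ3 hδ2
  set X₁ : ℝ := y * Real.exp (-δ) with hX₁
  refine ⟨X₁, by linarith, fun H hH1 hH2 => ?_⟩
  have hX₁1 : 1 ≤ X₁ := by linarith
  have hH1' : X₁ ^ e ≤ H := le_trans (Real.rpow_le_rpow_of_exponent_le hX₁1 heε) hH1
  obtain ⟨hN1, hN2, hH8, hN3, hN4⟩ := hH H hH1' hH2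
  set M0 := mass (Ax X) (Bx X) (hat y δ) with hM0
  set Θ := theta (Ax X) (Bx X) (hat y δ) with hΘ
  have hM0p : 0 < M0 := lt_of_lt_of_le (Real.rpow_pos_of_pos hX0 _) (hmass y δ hy1 hy2 hδ1 hδ2)
  set u : ℝ := X ^ (-1 / 500 : ℝ) with hu
  have hu0 : 0 < u := Real.rpow_pos_of_pos hX0 _
  have huX : u * X ^ (1 / 500 : ℝ) = 1 := by
    rw [hu, ← Real.rpow_add hX0]
    norm_num
  have hN0 : (0 : ℝ) ≤ (⌊H⌋₊ : ℝ) := Nat.cast_nonneg _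
  have hNu : (⌊H⌋₊ : ℝ) * u ≤ 1 := by
    calc (⌊H⌋₊ : ℝ) * u ≤ X ^ (1 / 500 : ℝ) * u := mul_le_mul_of_nonneg_right hN2 hu0.le
      _ = 1 := by rw [mul_comm, huX]
  have hΘ1 : (1 - u) * M0 ≤ Θ := by linarith
  have hu2 : u ≤ 1 / 2 := by
    have := mul_le_mul_of_nonneg_left hcX2 hu0.le
    linarith
  have hΘ2 : M0 / 2 ≤ Θ := by nlinarith
  obtain ⟨n, hn0, hn1⟩ := hoscX y δ hy1 hy2 hδ1 hδ2 ⌊H⌋₊ hN1 hN2 1 (Or.inl rfl) hΘ2
  obtain ⟨hn2, hn3, hn4, hn5⟩ := hn n hn0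
  refine ⟨n, hn2, hn3, ?_⟩
  rw [fo_pc n H (by linarith)]
  set π : ℝ := (((Ioc n (n + ⌊H⌋₊)).filter Nat.Prime).card : ℝ) with hπ
  have hnr : (0 : ℝ) < n := by linarith
  have hn1' : 1 ≤ n := by
    have : (0 : ℝ) < n := hnr
    have : 0 < n := by exact_mod_cast this
    omega
  have hnear := (PH_near ⌊H⌋₊ n hn1').trans (hN4 n hn0)
  have hnear2 := (abs_le.1 hnear).2
  have hm : (⌊H⌋₊ : ℝ) - 1 ≤ ⌊H⌋₊ * Θ / M0 := by
    rw [le_div_iff₀ hM0p]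
    have h1 : (⌊H⌋₊ : ℝ) * ((1 - u) * M0) ≤ ⌊H⌋₊ * Θ := mul_le_mul_of_nonneg_left hΘ1 hN0
    have h2 : (⌊H⌋₊ : ℝ) * u * M0 ≤ 1 * M0 := mul_le_mul_of_nonneg_right hNu hM0p.le
    nlinarith
  have hfl : H - 1 < (⌊H⌋₊ : ℝ) := by
    have := Nat.lt_floor_add_one H
    linarith
  have hfl2 : (⌊H⌋₊ : ℝ) ≤ H := Nat.floor_le (by linarith)
  have hlX : 0 < Real.log X := Real.log_pos (by linarith)
  have hl0 : 0 < Real.log n := by linarith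
  have hs1 := fo_sqrt (Real.log X) H (⌊H⌋₊ : ℝ) (Real.log n) hN0 (by linarith) (by linarith)
    hl0.le hn5 hlX.le
  set S : ℝ := Real.sqrt (H * Real.log n) with hS
  have hS1 : 12 / c₁ ≤ S := by
    rw [hS]
    apply Real.le_sqrt_of_sq_le
    have h1 : (12 / c₁) ^ 2 ≤ H := by linarith
    nlinarith
  have hS2 : 3 ≤ c₁ / 4 * S := by
    have h1 : c₁ / 4 * (12 / c₁) ≤ c₁ / 4 * S := mul_le_mul_of_nonneg_left hS1 (by positivity)
    have h2 : c₁ / 4 * (12 / c₁) = 3 := by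
      field_simp
      norm_num
    linarith
  have hS3 : c₁ * (S / 2) ≤ c₁ * Real.sqrt ((⌊H⌋₊ : ℝ) * Real.log X) :=
    mul_le_mul_of_nonneg_left hs1 hc₁.le
  have hkey : H + c₁ / 4 * S ≤ Real.log n * π := by linarith
  have hdiv : H / Real.log n + c₁ / 4 * Real.sqrt (H / Real.log n) =
      (H + c₁ / 4 * S) / Real.log n := by
    rw [hS, ← fo_div H (Real.log n) (by linarith) hl0]
    field_simp
  rw [hdiv, div_le_iff₀ hl0]
  linarith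

theorem fin_down (ε : ℝ) (hε : 0 < ε) : ∃ c : ℝ, 0 < c ∧ ∀ X₀ : ℝ, ∃ X : ℝ, X₀ ≤ X ∧
    ∀ H : ℝ, X ^ ε ≤ H → H ≤ X ^ (1 / 1000 : ℝ) →
      ∃ n : ℕ, X ≤ n ∧ (n : ℝ) ≤ X + X ^ (199 / 200 : ℝ) ∧
        (pc n H : ℝ) ≤ H / Real.log n - c * Real.sqrt (H / Real.log n) := by
  set e : ℝ := min ε (1 / 1000) with he
  have he0 : 0 < e := lt_min hε (by norm_num)
  have he1 : e ≤ 1 / 1000 := min_le_right _ _
  have heε : e ≤ ε := min_le_left _ _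
  obtain ⟨c₁, hc₁, hosc⟩ := win_osc (e / 2) (by linarith) (by linarith)
  refine ⟨c₁ / 4, by positivity, fun X₀ => ?_⟩
  have ev1 := (tendsto_rpow_atTop (show (0 : ℝ) < e / 2 by linarith)).eventually_ge_atTop
    ((12 / c₁) ^ 2)
  have ev2 := (tendsto_rpow_atTop (show (0 : ℝ) < e / 2 by linarith)).eventually_ge_atTop 8
  have ev3 : ∀ᶠ X : ℝ in atTop, (2 * c₁ ^ 2) * Real.log X ≤ X ^ (e / 2) := by
    have h1 := (isLittleO_log_rpow_atTop (show (0 : ℝ) < e / 2 by linarith)).bound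
      (show (0 : ℝ) < 1 / (2 * c₁ ^ 2) by positivity)
    filter_upwards [h1, eventually_ge_atTop (1 : ℝ)] with X h1 hX
    rw [Real.norm_eq_abs, Real.norm_eq_abs, abs_of_nonneg (Real.log_nonneg hX),
      abs_of_nonneg (Real.rpow_nonneg (by linarith) _)] at h1
    have h2 := mul_le_mul_of_nonneg_left h1 (show (0 : ℝ) ≤ 2 * c₁ ^ 2 by positivity)
    have h3 : 2 * c₁ ^ 2 * (1 / (2 * c₁ ^ 2) * X ^ (e / 2)) = X ^ (e / 2) := by
      field_simp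
    linarith
  have hall := (hosc.and ((fo_setup e he0 he1).and ((ev1.and (ev2.and ev3)).and
    (mass_ge.and fact_mean)))).and (eventually_ge_atTop (max (2 * X₀) 8))
  obtain ⟨X', hX'⟩ := eventually_atTop.1 hall
  obtain ⟨X, hXX, y, δ, hy1, hy2, hδ1, hδ3, hδ2, hsel⟩ := win_sel 1 (Or.inl rfl) X'
  obtain ⟨⟨hoscX, hset, ⟨hcX, hcX2, hcX3⟩, hmass, hmean⟩, hX0'⟩ := hX' X hXX
  have hX8 : (8 : ℝ) ≤ X := le_trans (le_max_right _ _) hX0'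
  have hXX0 : 2 * X₀ ≤ X := le_trans (le_max_left _ _) hX0'
  have hX0 : (0 : ℝ) < X := by linarith
  obtain ⟨ha, hn, hH⟩ := hset y δ hy1 hy2 hδ1 hδ3 hδ2
  set X₁ : ℝ := y * Real.exp (-δ) with hX₁
  refine ⟨X₁, by linarith, fun H hH1 hH2 => ?_⟩
  have hX₁1 : 1 ≤ X₁ := by linarith
  have hH1' : X₁ ^ e ≤ H := le_trans (Real.rpow_le_rpow_of_exponent_le hX₁1 heε) hH1
  obtain ⟨hN1, hN2, hH8, hN3, hN4⟩ := hH H hH1' hH2
  set M0 := mass (Ax X) (Bx X) (hat y δ) with hM0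
  set Θ := theta (Ax X) (Bx X) (hat y δ) with hΘ
  have hM0p : 0 < M0 := lt_of_lt_of_le (Real.rpow_pos_of_pos hX0 _) (hmass y δ hy1 hy2 hδ1 hδ2)
  set u : ℝ := X ^ (-1 / 500 : ℝ) with hu
  have hu0 : 0 < u := Real.rpow_pos_of_pos hX0 _
  have huX : u * X ^ (1 / 500 : ℝ) = 1 := by
    rw [hu, ← Real.rpow_add hX0]
    norm_num
  have hN0 : (0 : ℝ) ≤ (⌊H⌋₊ : ℝ) := Nat.cast_nonneg _
  have hNu : (⌊H⌋₊ : ℝ) * u ≤ 1 := by
    calc (⌊H⌋₊ : ℝ) * u ≤ X ^ (1 / 500 : ℝ) * u := mul_le_mul_of_nonneg_right hN2 hu0.le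
      _ = 1 := by rw [mul_comm, huX]
  have hΘ1 : Θ ≤ (1 + u) * M0 := by linarith
  have hfl : H - 1 < (⌊H⌋₊ : ℝ) := by
    have := Nat.lt_floor_add_one H
    linarith
  have hfl2 : (⌊H⌋₊ : ℝ) ≤ H := Nat.floor_le (by linarith)
  have hlX : 0 < Real.log X := Real.log_pos (by linarith)
  -- it suffices to bound `PH`
  have hfin : ∀ n : ℕ, hat y δ n ≠ 0 →
      PH ⌊H⌋₊ n + 1 ≤ H - c₁ / 4 * Real.sqrt (H * Real.log n) →
      ∃ n : ℕ, X₁ ≤ n ∧ (n : ℝ) ≤ X₁ + X₁ ^ (199 / 200 : ℝ) ∧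
        (pc n H : ℝ) ≤ H / Real.log n - c₁ / 4 * Real.sqrt (H / Real.log n) := by
    intro n hn0 hkey
    obtain ⟨hn2, hn3, hn4, hn5⟩ := hn n hn0
    refine ⟨n, hn2, hn3, ?_⟩
    rw [fo_pc n H (by linarith)]
    set π : ℝ := (((Ioc n (n + ⌊H⌋₊)).filter Nat.Prime).card : ℝ) with hπ
    have hnr : (0 : ℝ) < n := by linarith
    have hn1' : 1 ≤ n := by
      have : (0 : ℝ) < n := hnr
      have : 0 < n := by exact_mod_cast this
      omega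
    have hnear := (PH_near ⌊H⌋₊ n hn1').trans (hN4 n hn0)
    have hnear2 := (abs_le.1 hnear).1
    have hl0 : 0 < Real.log n := by linarith
    have hdiv : H / Real.log n - c₁ / 4 * Real.sqrt (H / Real.log n) =
        (H - c₁ / 4 * Real.sqrt (H * Real.log n)) / Real.log n := by
      rw [← fo_div H (Real.log n) (by linarith) hl0]
      field_simp
    rw [hdiv, le_div_iff₀ hl0]
    linarith
  have hSlow : ∀ n : ℕ, hat y δ n ≠ 0 → 3 ≤ c₁ / 4 * Real.sqrt (H * Real.log n) := by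
    intro n hn0
    obtain ⟨hn2, hn3, hn4, hn5⟩ := hn n hn0
    have hS1 : 12 / c₁ ≤ Real.sqrt (H * Real.log n) := by
      apply Real.le_sqrt_of_sq_le
      have h1 : (12 / c₁) ^ 2 ≤ H := by linarith
      nlinarith
    have h1 : c₁ / 4 * (12 / c₁) ≤ c₁ / 4 * Real.sqrt (H * Real.log n) :=
      mul_le_mul_of_nonneg_left hS1 (by positivity)
    have h2 : c₁ / 4 * (12 / c₁) = 3 := by
      field_simp
      norm_num
    linarith
  by_cases hcase : M0 / 2 ≤ Θ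
  · obtain ⟨n, hn0, hn1⟩ := hoscX y δ hy1 hy2 hδ1 hδ2 ⌊H⌋₊ hN1 hN2 (-1) (Or.inr rfl) hcase
    obtain ⟨hn2, hn3, hn4, hn5⟩ := hn n hn0
    apply hfin n hn0
    have hm : ⌊H⌋₊ * Θ / M0 ≤ (⌊H⌋₊ : ℝ) + 1 := by
      rw [div_le_iff₀ hM0p]
      have h1 : (⌊H⌋₊ : ℝ) * Θ ≤ ⌊H⌋₊ * ((1 + u) * M0) := mul_le_mul_of_nonneg_left hΘ1 hN0
      have h2 : (⌊H⌋₊ : ℝ) * u * M0 ≤ 1 * M0 := mul_le_mul_of_nonneg_right hNu hM0p.le
      nlinarith
    have hl0 : 0 < Real.log n := by linarith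
    have hs1 := fo_sqrt (Real.log X) H (⌊H⌋₊ : ℝ) (Real.log n) hN0 (by linarith) (by linarith)
      hl0.le hn5 hlX.le
    have hS3 : c₁ * (Real.sqrt (H * Real.log n) / 2) ≤
        c₁ * Real.sqrt ((⌊H⌋₊ : ℝ) * Real.log X) := mul_le_mul_of_nonneg_left hs1 hc₁.le
    have hS4 := hSlow n hn0
    linarith
  · rw [not_le] at hcase
    -- some `n` with few primes
    have hw := hat_wt X y δ (by linarith) hy1 hy2
      (lt_of_lt_of_le (Real.rpow_pos_of_pos hX0 _) hδ1) hδ2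
    have hex : ∃ n : ℕ, hat y δ n ≠ 0 ∧ PH ⌊H⌋₊ n ≤ (⌊H⌋₊ : ℝ) / 2 + 1 := by
      by_contra hno
      push Not at hno
      have h1 := (abs_le.1 (hmean y δ hy1 hy2 hδ1 hδ2 ⌊H⌋₊ hN3 hN2)).2
      have h2 : ((⌊H⌋₊ : ℝ) / 2 + 1) * M0 ≤
          ∑ x ∈ Ioc (Ax X) (Bx X), hat y δ x * PH ⌊H⌋₊ x := by
        rw [hM0]
        unfold mass
        rw [mul_sum]
        apply sum_le_sum
        intro x _
        by_cases hx : hat y δ x = 0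
        · rw [hx]
          simp
        · have h3 := hno x hx
          have h4 := hw.nonneg x
          nlinarith
      have hN5 : (1 : ℝ) ≤ (⌊H⌋₊ : ℝ) := by exact_mod_cast hN3
      nlinarith
    obtain ⟨n, hn0, hn1⟩ := hex
    obtain ⟨hn2, hn3, hn4, hn5⟩ := hn n hn0
    apply hfin n hn0
    have hl0 : 0 < Real.log n := by linarith
    have hS5 : c₁ / 4 * Real.sqrt (H * Real.log n) ≤ H / 4 := by
      have h1 : Real.sqrt (H * Real.log n) ≤ H / c₁ := by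
        apply Real.sqrt_le_iff.2
        refine ⟨by positivity, ?_⟩
        have h2 : c₁ ^ 2 * Real.log n ≤ H := by
          have := mul_le_mul_of_nonneg_left hn5 (show (0 : ℝ) ≤ c₁ ^ 2 by positivity)
          linarith
        rw [div_pow, le_div_iff₀ (by positivity)]
        nlinarith
      calc c₁ / 4 * Real.sqrt (H * Real.log n) ≤ c₁ / 4 * (H / c₁) :=
            mul_le_mul_of_nonneg_left h1 (by positivity)
        _ = H / 4 := by field_simp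
    linarith

end Pool.Agent.H48.OM
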