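import Pool.Agent.H48.OM.DyadL
import Pool.Agent.H67.VS.Hat
import Pool.Agent.H67.VS.Sqb
import Pool.Agent.H67.VS.Cov

/-!
[H48 OM WINSL]  Windows with (almost) at least / at most the expected number of primes, localised.

Proof.  Exactly as `Pool/Agent/H48/OM/WinS.lean` (proved; copy its private lemmas), with the block
`Y ∈ [X^(1-51ε), X]` from `dyad_loc` instead of `dyad` and with the exponents
`Y^(1-11ε/20)` (error of the block; `15 Y^(99/100) log(4Y)` is smaller) and `Y^(-21ε/40)` (loss in the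
window): for large `Y` (and `Y ≥ X^(1-51ε) ≥ X^(9/10)` is large with `X`)
`Y^(1-21ε/40) ≥ 2 Y^(1-11ε/20) + 24 Y^(99/100) (1 + log(4Y))`, as `21/40 < 11/20` and
`21ε/40 < 1/100`.
-/

namespace Pool.Agent.H48.OM

open Finset Filter Pool.Agent.H21.MT Pool.Agent.H67.VS

private lemma ws_exp {δ : ℝ} (h0 : 0 ≤ δ) (h1 : δ ≤ 1 / 2) : Real.exp δ ≤ 1 + 2 * δ := by
  have h2 : 1 - δ ≤ Real.exp (-δ) := by
    have := Real.add_one_le_exp (-δ)
    linarith
  have h3 : Real.exp δ * Real.exp (-δ) = 1 := by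
    rw [← Real.exp_add, add_neg_cancel, Real.exp_zero]
  have h4 : 0 < Real.exp δ := Real.exp_pos _
  have h5 : Real.exp δ * (1 - δ) ≤ 1 :=
    (mul_le_mul_of_nonneg_left h2 h4.le).trans h3.le
  have h6 : 1 ≤ (1 + 2 * δ) * (1 - δ) := by nlinarith
  have h7 : Real.exp δ * (1 - δ) ≤ (1 + 2 * δ) * (1 - δ) := h5.trans h6
  exact le_of_mul_le_mul_right h7 (by linarith)

private lemma ws_nonneg (y δ : ℝ) (n : ℕ) : 0 ≤ hat y δ n := by
  unfold hat
  split_ifs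
  · exact le_rfl
  · exact le_max_left _ _

/-- outside the range the hat functions vanish -/
private lemma ws_zero {X δ : ℝ} (hX : 2 ≤ X) (hδ : 0 < δ) {J : ℕ}
    (hJ : (J : ℝ) * δ = Real.log 2) {j : ℕ} (hj : j ∈ range (J + 1)) {n : ℕ}
    (hn : n ∉ Ioc ⌊X * Real.exp (-δ)⌋₊ ⌊2 * X * Real.exp δ⌋₊) :
    hat (X * Real.exp (j * δ)) δ n = 0 := by
  have hX0 : 0 < X := by linarith
  obtain ⟨y, hy⟩ : ∃ y, y = X * Real.exp (j * δ) := ⟨_, rfl⟩
  rw [← hy]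
  have hy0 : 0 < y := by rw [hy]; positivity
  have hyX : X ≤ y := by
    rw [hy]
    exact le_mul_of_one_le_right hX0.le (Real.one_le_exp (by positivity))
  have hy2 : y ≤ 2 * X := by
    rw [hy]
    have h1 : (j : ℝ) * δ ≤ Real.log 2 := by
      rw [← hJ]
      rw [mem_range] at hj
      have : (j : ℝ) ≤ J := by exact_mod_cast (by omega : j ≤ J)
      gcongr
    have h2 : Real.exp (j * δ) ≤ 2 := by
      calc Real.exp (j * δ) ≤ Real.exp (Real.log 2) := Real.exp_le_exp.2 h1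
        _ = 2 := Real.exp_log (by norm_num)
    nlinarith
  unfold hat
  split_ifs with h0
  · rfl
  · have hn0 : (0 : ℝ) < n := by exact_mod_cast Nat.pos_of_ne_zero h0
    have hlog : Real.log ((n : ℝ) / y) = Real.log n - Real.log y :=
      Real.log_div hn0.ne' hy0.ne'
    have habs : δ ≤ |Real.log ((n : ℝ) / y)| := by
      rw [mem_Ioc, not_and_or, not_lt, not_le] at hn
      rcases hn with hn | hn
      · have h1 : (n : ℝ) ≤ X * Real.exp (-δ) :=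
          (Nat.le_floor_iff (by positivity)).1 hn
        have h2 : Real.log n ≤ Real.log y - δ := by
          calc Real.log n ≤ Real.log (y * Real.exp (-δ)) := by
                apply Real.log_le_log hn0
                exact h1.trans (mul_le_mul_of_nonneg_right hyX (Real.exp_pos _).le)
            _ = Real.log y - δ := by
                rw [Real.log_mul hy0.ne' (Real.exp_pos _).ne', Real.log_exp]
                ring
        rw [hlog, abs_of_nonpos (by linarith)]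
        linarith
      · have h1 : 2 * X * Real.exp δ < n := (Nat.floor_lt (by positivity)).1 hn
        have h2 : Real.log y + δ ≤ Real.log n := by
          calc Real.log y + δ = Real.log (y * Real.exp δ) := by
                rw [Real.log_mul hy0.ne' (Real.exp_pos _).ne', Real.log_exp]
            _ ≤ Real.log n := by
                apply Real.log_le_log (by positivity)
                exact (mul_le_mul_of_nonneg_right hy2 (Real.exp_pos _).le).trans h1.le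
        rw [hlog, abs_of_nonneg (by linarith)]
        linarith
    apply max_eq_left
    have : 1 ≤ |Real.log ((n : ℝ) / y)| / δ := by
      rw [le_div_iff₀ hδ]
      linarith
    linarith

/-- the endpoints -/
private lemma ws_ends {X δ : ℝ} (hX : 2 ≤ X) (hδ : 0 < δ) (hδ2 : δ ≤ 1 / 2) :
    ⌊X * Real.exp (-δ)⌋₊ ≤ ⌊X⌋₊ ∧ ⌊X⌋₊ ≤ ⌊2 * X⌋₊ ∧ ⌊2 * X⌋₊ ≤ ⌊2 * X * Real.exp δ⌋₊ ∧
    ((⌊2 * X * Real.exp δ⌋₊ : ℕ) : ℝ) ≤ 4 * X ∧
    ((⌊2 * X * Real.exp δ⌋₊ : ℕ) : ℝ) - ((⌊X * Real.exp (-δ)⌋₊ : ℕ) : ℝ) ≤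
      X + 5 * δ * X + 1 ∧
    X - 1 ≤ ((⌊2 * X⌋₊ : ℕ) : ℝ) - ((⌊X⌋₊ : ℕ) : ℝ) := by
  have hX0 : 0 < X := by linarith
  have h1 : Real.exp (-δ) ≤ 1 := Real.exp_le_one_iff.2 (by linarith)
  have h2 : 1 ≤ Real.exp δ := Real.one_le_exp hδ.le
  have h3 := ws_exp hδ.le hδ2
  have h4 : 1 - δ ≤ Real.exp (-δ) := by
    have := Real.add_one_le_exp (-δ)
    linarith
  have h5 : 2 * X * Real.exp δ ≤ 2 * X * (1 + 2 * δ) :=
    mul_le_mul_of_nonneg_left h3 (by positivity)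
  have h6 : X * (1 - δ) ≤ X * Real.exp (-δ) := mul_le_mul_of_nonneg_left h4 hX0.le
  have h7 : ((⌊2 * X * Real.exp δ⌋₊ : ℕ) : ℝ) ≤ 2 * X * Real.exp δ :=
    Nat.floor_le (by positivity)
  have h8 : X * Real.exp (-δ) < ((⌊X * Real.exp (-δ)⌋₊ : ℕ) : ℝ) + 1 := Nat.lt_floor_add_one _
  have h9 : 2 * X < ((⌊2 * X⌋₊ : ℕ) : ℝ) + 1 := Nat.lt_floor_add_one _
  have h10 : ((⌊X⌋₊ : ℕ) : ℝ) ≤ X := Nat.floor_le hX0.le
  refine ⟨Nat.floor_le_floor ?_, Nat.floor_le_floor (by linarith), Nat.floor_le_floor ?_, ?_, ?_,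
    by linarith⟩
  · exact mul_le_of_le_one_right hX0.le h1
  · exact le_mul_of_one_le_right (by positivity) h2
  · refine h7.trans (h5.trans ?_)
    nlinarith
  · nlinarith

private lemma ws_sub {X : ℝ} (hX : 2 ≤ X) : Ioc ⌊X⌋₊ ⌊2 * X⌋₊ ⊆ Ioc (Ax X) (Bx X) := by
  unfold Ax Bx
  intro n hn
  rw [mem_Ioc] at hn ⊢
  have h1 : ⌊X / 2⌋₊ ≤ ⌊X⌋₊ := Nat.floor_le_floor (by linarith)
  have h2 : ⌊2 * X⌋₊ ≤ ⌊4 * X⌋₊ := Nat.floor_le_floor (by linarith)
  omega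

/-- comparison of the weighted sum with sums over intervals -/
private lemma ws_sum {X δ : ℝ} (hX : 2 ≤ X) (hδ : 0 < δ) {J : ℕ}
    (hJ : (J : ℝ) * δ = Real.log 2) (f : ℕ → ℝ) (hf : ∀ n, 0 ≤ f n) :
    ∑ n ∈ Ioc ⌊X⌋₊ ⌊2 * X⌋₊, f n ≤
      ∑ j ∈ range (J + 1), ∑ n ∈ Ioc (Ax X) (Bx X), hat (X * Real.exp (j * δ)) δ n * f n ∧
    ∑ j ∈ range (J + 1), ∑ n ∈ Ioc (Ax X) (Bx X), hat (X * Real.exp (j * δ)) δ n * f n ≤
      ∑ n ∈ Ioc ⌊X * Real.exp (-δ)⌋₊ ⌊2 * X * Real.exp δ⌋₊, f n := by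
  have hX0 : 0 < X := by linarith
  have h1 : ∑ j ∈ range (J + 1), ∑ n ∈ Ioc (Ax X) (Bx X), hat (X * Real.exp (j * δ)) δ n * f n =
      ∑ n ∈ Ioc (Ax X) (Bx X), (∑ j ∈ range (J + 1), hat (X * Real.exp (j * δ)) δ n) * f n := by
    rw [sum_comm]
    apply sum_congr rfl
    intro n _
    rw [sum_mul]
  have hW0 : ∀ n, 0 ≤ ∑ j ∈ range (J + 1), hat (X * Real.exp (j * δ)) δ n :=
    fun n => sum_nonneg fun j _ => ws_nonneg _ _ _
  have hW1 : ∀ n, ∑ j ∈ range (J + 1), hat (X * Real.exp (j * δ)) δ n ≤ 1 :=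
    fun n => hat_sum_le X δ hX0 hδ (J + 1) n
  rw [h1]
  constructor
  · calc ∑ n ∈ Ioc ⌊X⌋₊ ⌊2 * X⌋₊, f n
        = ∑ n ∈ Ioc ⌊X⌋₊ ⌊2 * X⌋₊,
          (∑ j ∈ range (J + 1), hat (X * Real.exp (j * δ)) δ n) * f n := by
          apply sum_congr rfl
          intro n hn
          rw [mem_Ioc] at hn
          have h2 : X ≤ n := ((Nat.floor_lt hX0.le).1 hn.1).le
          have h3 : (n : ℝ) ≤ 2 * X := (Nat.le_floor_iff (by positivity)).1 hn.2
          rw [hat_sum_eq X δ hX0 hδ J n h2 (by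
            rw [hJ, Real.exp_log (by norm_num)]
            linarith), one_mul]
      _ ≤ _ := by
          apply sum_le_sum_of_subset_of_nonneg (ws_sub hX)
          intro n _ _
          exact mul_nonneg (hW0 n) (hf n)
  · calc ∑ n ∈ Ioc (Ax X) (Bx X), (∑ j ∈ range (J + 1), hat (X * Real.exp (j * δ)) δ n) * f n
        ≤ ∑ n ∈ (Ioc (Ax X) (Bx X)).filter
            (fun n => n ∈ Ioc ⌊X * Real.exp (-δ)⌋₊ ⌊2 * X * Real.exp δ⌋₊), f n := by
          rw [sum_filter]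
          apply sum_le_sum
          intro n _
          split_ifs with hn
          · calc _ ≤ 1 * f n := mul_le_mul_of_nonneg_right (hW1 n) (hf n)
              _ = f n := one_mul _
          · rw [sum_eq_zero (fun j hj => ws_zero hX hδ hJ hj hn), zero_mul]
      _ ≤ _ := by
          apply sum_le_sum_of_subset_of_nonneg
          · intro n hn
            exact (mem_filter.1 hn).2
          · intro n _ _
            exact hf n

/-- masses and prime sums of all windows -/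
private lemma ws_all {X δ : ℝ} (hX : 2 ≤ X) (hδ : 0 < δ) (hδ2 : δ ≤ 1 / 2) {J : ℕ}
    (hJ : (J : ℝ) * δ = Real.log 2) :
    X - 1 ≤ ∑ j ∈ range (J + 1), mass (Ax X) (Bx X) (hat (X * Real.exp (j * δ)) δ) ∧
    ∑ j ∈ range (J + 1), mass (Ax X) (Bx X) (hat (X * Real.exp (j * δ)) δ) ≤
      X + 5 * δ * X + 1 ∧
    Chebyshev.theta (2 * X) - Chebyshev.theta X ≤
      ∑ j ∈ range (J + 1), theta (Ax X) (Bx X) (hat (X * Real.exp (j * δ)) δ) ∧
    ∑ j ∈ range (J + 1), theta (Ax X) (Bx X) (hat (X * Real.exp (j * δ)) δ) ≤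
      Chebyshev.theta (2 * X) - Chebyshev.theta X + (5 * δ * X + 2) * Real.log (4 * X) := by
  have hX0 : 0 < X := by linarith
  obtain ⟨e1, e2, e3, e4, e5, e6⟩ := ws_ends hX hδ hδ2
  obtain ⟨a, ha⟩ : ∃ a, a = ⌊X * Real.exp (-δ)⌋₊ := ⟨_, rfl⟩
  obtain ⟨b, hb⟩ : ∃ b, b = ⌊2 * X * Real.exp δ⌋₊ := ⟨_, rfl⟩
  have hm := ws_sum hX hδ hJ (fun _ => (1 : ℝ)) (fun _ => zero_le_one)
  have ht := ws_sum hX hδ hJ pl cov_pl_nonneg
  rw [← ha] at e1 e5 hm ht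
  rw [← hb] at e3 e4 e5 hm ht
  simp only [mul_one, sum_const, Nat.card_Ioc, nsmul_eq_mul] at hm
  rw [Nat.cast_sub e2, Nat.cast_sub (le_trans e1 (le_trans e2 e3))] at hm
  have hth := sqb_theta X (2 * X) (by linarith)
  refine ⟨?_, ?_, ?_, ?_⟩
  · refine e6.trans hm.1
  · exact hm.2.trans e5
  · rw [← hth]
    exact ht.1
  · refine ht.2.trans ?_
    rw [← sum_Ioc_consecutive pl e1 (le_trans e2 e3), ← sum_Ioc_consecutive pl e2 e3, hth]
    have hl : ∀ n ∈ Ioc a b, pl n ≤ Real.log (4 * X) := by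
      intro n hn
      rw [mem_Ioc] at hn
      apply cov_pl_le _ (by linarith)
      exact (by exact_mod_cast hn.2 : (n : ℝ) ≤ b).trans e4
    have h1 : ∑ n ∈ Ioc a ⌊X⌋₊, pl n ≤ ((⌊X⌋₊ : ℝ) - a) * Real.log (4 * X) := by
      calc ∑ n ∈ Ioc a ⌊X⌋₊, pl n ≤ ∑ n ∈ Ioc a ⌊X⌋₊, Real.log (4 * X) := by
            apply sum_le_sum
            intro n hn
            rw [mem_Ioc] at hn
            exact hl n (by rw [mem_Ioc]; omega)
        _ = _ := by rw [sum_const, Nat.card_Ioc, nsmul_eq_mul, Nat.cast_sub e1]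
    have h2 : ∑ n ∈ Ioc ⌊2 * X⌋₊ b, pl n ≤ ((b : ℝ) - ⌊2 * X⌋₊) * Real.log (4 * X) := by
      calc ∑ n ∈ Ioc ⌊2 * X⌋₊ b, pl n ≤ ∑ n ∈ Ioc ⌊2 * X⌋₊ b, Real.log (4 * X) := by
            apply sum_le_sum
            intro n hn
            rw [mem_Ioc] at hn
            exact hl n (by rw [mem_Ioc]; omega)
        _ = _ := by rw [sum_const, Nat.card_Ioc, nsmul_eq_mul, Nat.cast_sub e3]
    have hlog : 0 ≤ Real.log (4 * X) := Real.log_nonneg (by linarith)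
    have h3 : (((⌊X⌋₊ : ℝ) - a) + ((b : ℝ) - ⌊2 * X⌋₊)) * Real.log (4 * X) ≤
        (5 * δ * X + 2) * Real.log (4 * X) := by
      apply mul_le_mul_of_nonneg_right _ hlog
      linarith
    linarith

/-- the choice of the grid -/
private lemma ws_grid {X : ℝ} (hX : 2 ≤ X) (h10 : 10 ≤ X ^ (1 / 100 : ℝ)) :
    ∃ (J : ℕ) (δ : ℝ), 0 < δ ∧ (J : ℝ) * δ = Real.log 2 ∧ X ^ (-1 / 100 : ℝ) ≤ δ ∧
      δ ≤ 2 * X ^ (-1 / 100 : ℝ) ∧ δ ≤ 1 / 2 := by
  have hX0 : 0 < X := by linarith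
  have hl1 : 0.69 < Real.log 2 := by
    have := Real.log_two_gt_d9
    linarith
  have hl2 : Real.log 2 < 0.7 := by
    have := Real.log_two_lt_d9
    linarith
  obtain ⟨P, hP⟩ : ∃ P, P = X ^ (1 / 100 : ℝ) := ⟨_, rfl⟩
  have hPinv : X ^ (-1 / 100 : ℝ) = P⁻¹ := by
    rw [hP, ← Real.rpow_neg hX0.le]
    norm_num
  rw [← hP] at h10
  have hP0 : 0 < P := by linarith
  obtain ⟨J, hJ⟩ : ∃ J, J = ⌊Real.log 2 * P⌋₊ := ⟨_, rfl⟩
  have hJ1 : (J : ℝ) ≤ Real.log 2 * P := by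
    rw [hJ]; exact Nat.floor_le (by positivity)
  have hJ2 : Real.log 2 * P - 1 < J := by
    have := Nat.lt_floor_add_one (Real.log 2 * P)
    rw [← hJ] at this
    linarith
  have hJ3 : Real.log 2 * P / 2 ≤ J := by nlinarith
  have hJ0 : (0 : ℝ) < J := by nlinarith
  refine ⟨J, Real.log 2 / J, by positivity, by field_simp, ?_, ?_, ?_⟩
  · rw [hPinv, le_div_iff₀ hJ0, inv_mul_le_iff₀ hP0, mul_comm]
    exact hJ1
  · rw [hPinv, div_le_iff₀ hJ0]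
    calc Real.log 2 = 2 * P⁻¹ * (Real.log 2 * P / 2) := by field_simp
      _ ≤ 2 * P⁻¹ * J := by gcongr
  · rw [div_le_iff₀ hJ0]
    nlinarith

/-- the conditions on a large `X` -/
private lemma wsl_large (ε : ℝ) (hε : 0 < ε) : ∀ᶠ X : ℝ in atTop, 2 ≤ X ∧ 10 ≤ X ^ (1 / 100 : ℝ) ∧
    2 * (24 + 12 * Real.log (4 * X)) ≤ X ^ (9 / 1000 : ℝ) ∧ 4 ≤ X ^ (ε / 40) := by
  have h1 := (tendsto_rpow_atTop (show (0 : ℝ) < 1 / 100 by norm_num)).eventually_ge_atTop 10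
  have h2 := (isLittleO_log_rpow_atTop (show (0 : ℝ) < 9 / 1000 by norm_num)).def
    (show (0 : ℝ) < 1 / 48 by norm_num)
  have h3 := (tendsto_rpow_atTop (show (0 : ℝ) < 9 / 1000 by norm_num)).eventually_ge_atTop
    (4 * (24 + 12 * Real.log 4))
  have h5 := (tendsto_rpow_atTop (show (0 : ℝ) < ε / 40 by positivity)).eventually_ge_atTop 4
  filter_upwards [h1, h2, h3, h5, eventually_ge_atTop (2 : ℝ)] with X h1 h2 h3 h5 h4
  refine ⟨h4, h1, ?_, h5⟩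
  have hX0 : 0 < X := by linarith
  rw [Real.norm_of_nonneg (Real.log_nonneg (by linarith)),
    Real.norm_of_nonneg (Real.rpow_nonneg hX0.le _)] at h2
  rw [Real.log_mul (by norm_num) hX0.ne']
  linarith

theorem win_sel_loc (ε : ℝ) (hε : 0 < ε) (hε1 : ε ≤ 1 / 1000) (σ : ℝ) (hσ : σ = 1 ∨ σ = -1) :
    ∀ᶠ X : ℝ in atTop, ∃ Y : ℝ, X ^ (1 - 51 * ε) ≤ Y ∧ Y ≤ X ∧ ∃ y δ : ℝ,
    Y ≤ y ∧ y ≤ 2 * Y ∧ Y ^ (-1 / 100 : ℝ) ≤ δ ∧ δ ≤ 2 * Y ^ (-1 / 100 : ℝ) ∧ δ ≤ 1 / 2 ∧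
    σ * (theta (Ax Y) (Bx Y) (hat y δ) - mass (Ax Y) (Bx Y) (hat y δ)) ≤
      Y ^ (-(21 * ε / 40)) * mass (Ax Y) (Bx Y) (hat y δ) := by
  have hc := (tendsto_rpow_atTop (show (0 : ℝ) < 1 - 51 * ε by linarith)).eventually
    (eventually_forall_ge_atTop.2 (wsl_large ε hε))
  filter_upwards [dyad_loc ε hε hε1 σ hσ, hc] with X₁ hX₁ hcX
  obtain ⟨X, hXX, hXX1, hdy⟩ := hX₁
  refine ⟨X, hXX, hXX1, ?_⟩
  obtain ⟨hX2, h10, hlog, h4⟩ := hcX X hXX
  have hX0 : 0 < X := by linarith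
  obtain ⟨J, δ, hδ0, hJ, hδ1, hδ2, hδ3⟩ := ws_grid hX2 h10
  by_contra hcon
  push Not at hcon
  obtain ⟨m1, m2, t1, t2⟩ := ws_all hX2 hδ0 hδ3 hJ
  have hall : ∀ j ∈ range (J + 1), X ^ (-(21 * ε / 40)) *
      mass (Ax X) (Bx X) (hat (X * Real.exp (j * δ)) δ) ≤
      σ * (theta (Ax X) (Bx X) (hat (X * Real.exp (j * δ)) δ) -
        mass (Ax X) (Bx X) (hat (X * Real.exp (j * δ)) δ)) := by
    intro j hj
    have h1 : (j : ℝ) * δ ≤ Real.log 2 := by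
      rw [← hJ]
      rw [mem_range] at hj
      have : (j : ℝ) ≤ J := by exact_mod_cast (by omega : j ≤ J)
      gcongr
    have h2 : Real.exp (j * δ) ≤ 2 := by
      calc Real.exp (j * δ) ≤ Real.exp (Real.log 2) := Real.exp_le_exp.2 h1
        _ = 2 := Real.exp_log (by norm_num)
    refine (hcon (X * Real.exp (j * δ)) δ ?_ ?_ hδ1 hδ2 hδ3).le
    · exact le_mul_of_one_le_right hX0.le (Real.one_le_exp (by positivity))
    · nlinarith
  have hsum := sum_le_sum hall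
  rw [← mul_sum, ← mul_sum, sum_sub_distrib] at hsum
  obtain ⟨M, hM⟩ : ∃ M, M = ∑ j ∈ range (J + 1),
    mass (Ax X) (Bx X) (hat (X * Real.exp (j * δ)) δ) := ⟨_, rfl⟩
  obtain ⟨T, hT⟩ : ∃ T, T = ∑ j ∈ range (J + 1),
    theta (Ax X) (Bx X) (hat (X * Real.exp (j * δ)) δ) := ⟨_, rfl⟩
  rw [← hM] at m1 m2 hsum
  rw [← hT] at t1 t2 hsum
  -- powers of `X`
  obtain ⟨P, hP⟩ : ∃ P, P = X ^ (99 / 100 : ℝ) := ⟨_, rfl⟩
  have hP1 : 1 ≤ P := by rw [hP]; exact Real.one_le_rpow (by linarith) (by norm_num)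
  obtain ⟨E, hE⟩ : ∃ E, E = X ^ (1 - 11 * ε / 20) := ⟨_, rfl⟩
  have hE1 : 1 ≤ E := by rw [hE]; exact Real.one_le_rpow (by linarith) (by linarith)
  have hδX : δ * X ≤ 2 * P := by
    calc δ * X ≤ 2 * X ^ (-1 / 100 : ℝ) * X := by gcongr
      _ = 2 * (X ^ (-1 / 100 : ℝ) * X ^ (1 : ℝ)) := by rw [Real.rpow_one]; ring
      _ = 2 * P := by rw [hP, ← Real.rpow_add hX0]; norm_num
  obtain ⟨η, hη⟩ : ∃ η, η = X ^ (-(21 * ε / 40)) := ⟨_, rfl⟩
  have hη0 : 0 < η := by rw [hη]; positivity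
  have hη1 : η ≤ 1 := by
    rw [hη]
    exact Real.rpow_le_one_of_one_le_of_nonpos (by linarith) (by linarith)
  have hηXE : η * X = E * X ^ (ε / 40) := by
    calc η * X = X ^ (-(21 * ε / 40)) * X ^ (1 : ℝ) := by rw [Real.rpow_one, hη]
      _ = E * X ^ (ε / 40) := by
        rw [hE, ← Real.rpow_add hX0, ← Real.rpow_add hX0]
        congr 1
        ring
  have hηXP : η * X = P * X ^ (1 / 100 - 21 * ε / 40) := by
    calc η * X = X ^ (-(21 * ε / 40)) * X ^ (1 : ℝ) := by rw [Real.rpow_one, hη]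
      _ = P * X ^ (1 / 100 - 21 * ε / 40) := by
        rw [hP, ← Real.rpow_add hX0, ← Real.rpow_add hX0]
        congr 1
        ring
  obtain ⟨L, hL⟩ : ∃ L, L = Real.log (4 * X) := ⟨_, rfl⟩
  have hL0 : 0 ≤ L := by rw [hL]; exact Real.log_nonneg (by linarith)
  rw [← hL] at hlog t2
  rw [← hη] at hsum
  rw [← hE] at hdy
  have hbigE : 4 * E ≤ η * X := by
    rw [hηXE, mul_comm 4 E]
    exact mul_le_mul_of_nonneg_left h4 (by linarith)
  have hbigP : 2 * (P * (24 + 12 * L)) ≤ η * X := by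
    rw [hηXP]
    have h1 : X ^ (9 / 1000 : ℝ) ≤ X ^ (1 / 100 - 21 * ε / 40) :=
      Real.rpow_le_rpow_of_exponent_le (by linarith) (by linarith)
    have h2 : P * (2 * (24 + 12 * L)) ≤ P * X ^ (1 / 100 - 21 * ε / 40) :=
      mul_le_mul_of_nonneg_left (hlog.trans h1) (by linarith)
    linarith
  have hPL : 0 ≤ P * L := by positivity
  have hδL : (5 * δ * X + 2) * L ≤ 12 * (P * L) := by
    have h1 : 5 * δ * X + 2 ≤ 12 * P := by linarith
    calc (5 * δ * X + 2) * L ≤ 12 * P * L := mul_le_mul_of_nonneg_right h1 hL0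
      _ = _ := by ring
  rcases hσ with rfl | rfl
  · have h1 : η * (X - 1) ≤ η * M := mul_le_mul_of_nonneg_left m1 hη0.le
    linarith
  · have h1 : (1 - η) * M ≤ (1 - η) * (X + 5 * δ * X + 1) :=
      mul_le_mul_of_nonneg_left m2 (by linarith)
    have h2 : (1 - η) * (X + 5 * δ * X + 1) ≤ X + 5 * δ * X + 1 - η * X := by
      have : 0 ≤ η * (5 * δ * X + 1) := by positivity
      linarith
    linarith

end Pool.Agent.H48.OM
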