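import Pool.Agent.H48.OM.WinO
import Pool.Agent.H48.OM.WinSL
import Pool.Agent.H48.OM.FinO

/-!
[H48 OM FINL]  The theorem, localised: every interval `[X^(1-60ε₂), X]`.

Proof.  As `fin_up`, `fin_down` in `Pool/Agent/H48/OM/FinO.lean` (proved; copy and adapt the private
lemmas), with `e = ε₁` and `win_osc (ε₁/2)`.
For large `X` apply `win_sel_loc ε₂ (-σ)` to `X/4`: `W ∈ [(X/4)^(1-51ε₂), X/4]`, `y, δ`; put
`Y = y exp(-δ)`, so `W/2 ≤ Y ≤ 2W ≤ X/2`, `Y ≥ X^(1-60ε₂)` for large `X`.  `W ≥ (X/4)^(9/10)`, so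
everything that holds for all large `W` may be used.  The role of `X` in `fin_up` is played by `W`
and the role of `u = X^(-1/500)` by `u = W^(-21ε₂/40)`.  For `Y^ε₁ ≤ H ≤ Y^ε₂`, `N = ⌊H⌋₊`:
`N u ≤ sqrt N sqrt N u ≤ sqrt N (2W)^(ε₂/2) W^(-21ε₂/40) ≤ sqrt N` (large `W`), and `sqrt N` is
absorbed by `c₁ sqrt(N log W)` for large `W` (`log W → ∞`); this replaces `N u ≤ 1`.
* `σ = 1`: `Θ ≥ (1-u) M0 ≥ M0/2`, `m = N Θ/M0 ≥ N - N u ≥ N - sqrt N`, `win_osc` with `σ = 1`.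
* `σ = -1`: `Θ ≤ (1+u) M0`, `m ≤ N + sqrt N`; if `Θ ≥ M0/2` use `win_osc` with `-1`, otherwise the
  mean value argument of `fin_down`.
-/

namespace Pool.Agent.H48.OM

open Finset Filter Pool.Agent.H21.MT Pool.Agent.H67.VS

private theorem fl_pc (n : ℕ) (H : ℝ) (hH : 0 ≤ H) :
    pc n H = ((Ioc n (n + ⌊H⌋₊)).filter Nat.Prime).card := by
  unfold pc
  rw [← Set.ncard_coe_finset]
  congr 1
  ext p
  simp only [Set.mem_setOf_eq, coe_filter, mem_Ioc]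
  constructor
  · rintro ⟨hp, h1, h2⟩
    refine ⟨⟨h1, ?_⟩, hp⟩
    have h3 : p - n ≤ ⌊H⌋₊ := by
      apply Nat.le_floor
      rw [Nat.cast_sub h1.le]
      linarith
    omega
  · rintro ⟨⟨h1, h2⟩, hp⟩
    refine ⟨hp, h1, ?_⟩
    have h3 : ((⌊H⌋₊ : ℕ) : ℝ) ≤ H := Nat.floor_le hH
    have h4 : (p : ℝ) ≤ n + ⌊H⌋₊ := by exact_mod_cast h2
    linarith

private theorem fl_exp (δ : ℝ) (h0 : 0 ≤ δ) (h1 : δ ≤ 1 / 2) :
    1 / 2 ≤ Real.exp (-δ) ∧ Real.exp (-δ) ≤ 1 ∧ Real.exp (2 * δ) ≤ 1 + 4 * δ := by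
  refine ⟨?_, ?_, ?_⟩
  · have := Real.add_one_le_exp (-δ)
    linarith
  · exact Real.exp_le_one_iff.2 (by linarith)
  · have h2 : |Real.exp (2 * δ) - 1 - 2 * δ| ≤ (2 * δ) ^ 2 := by
      apply Real.abs_exp_sub_one_sub_id_le
      rw [abs_of_nonneg (by linarith)]
      linarith
    have h3 := (abs_le.1 h2).2
    nlinarith

/-- the elementary bounds for one window -/
private theorem fl_setup (e : ℝ) (he : 0 < e) (he1 : e ≤ 1 / 1000) : ∀ᶠ X : ℝ in atTop,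
    ∀ y δ : ℝ, X ≤ y → y ≤ 2 * X → X ^ (-1 / 100 : ℝ) ≤ δ → δ ≤ 2 * X ^ (-1 / 100 : ℝ) →
    δ ≤ 1 / 2 →
    X / 2 ≤ y * Real.exp (-δ) ∧
    (∀ n : ℕ, hat y δ n ≠ 0 → y * Real.exp (-δ) ≤ n ∧
      (n : ℝ) ≤ y * Real.exp (-δ) + (y * Real.exp (-δ)) ^ (199 / 200 : ℝ) ∧
      1 ≤ Real.log n ∧ Real.log n ≤ 2 * Real.log X) ∧
    (∀ H : ℝ, (y * Real.exp (-δ)) ^ e ≤ H → H ≤ (y * Real.exp (-δ)) ^ (1 / 1000 : ℝ) →
      X ^ (e / 2) ≤ (⌊H⌋₊ : ℝ) ∧ (⌊H⌋₊ : ℝ) ≤ X ^ (1 / 500 : ℝ) ∧ 2 ≤ H ∧ 1 ≤ ⌊H⌋₊ ∧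
      ∀ n : ℕ, hat y δ n ≠ 0 → (⌊H⌋₊ : ℝ) ^ 2 / n ≤ 1) := by
  have e1 := (tendsto_rpow_atTop (show (0 : ℝ) < 1 / 200 by norm_num)).eventually_ge_atTop 16
  have e2 := (tendsto_rpow_atTop (show (0 : ℝ) < e / 2 by linarith)).eventually_ge_atTop 3
  have e3 := (tendsto_rpow_atTop (show (0 : ℝ) < 1 / 2 by linarith)).eventually_ge_atTop 2
  filter_upwards [e1, e2, e3, eventually_ge_atTop (8 : ℝ)] with X h1 h2 h3 hX
  intro y δ hy1 hy2 hδ1 hδ3 hδ2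
  have hX0 : (0 : ℝ) < X := by linarith
  have hδ0 : 0 < δ := lt_of_lt_of_le (Real.rpow_pos_of_pos hX0 _) hδ1
  obtain ⟨hx1, hx2, hx3⟩ := fl_exp δ hδ0.le hδ2
  set X₁ : ℝ := y * Real.exp (-δ) with hX₁
  have hy0 : 0 < y := by linarith
  have ha : X / 2 ≤ X₁ := by
    rw [hX₁]
    nlinarith
  have hb : X₁ ≤ 2 * X := by
    rw [hX₁]
    nlinarith
  have hX₁0 : 0 < X₁ := by linarith
  have hlogX : 2 * Real.log X = Real.log (X ^ 2) := by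
    rw [Real.log_pow]
    norm_num
  have hup : ∀ n : ℕ, hat y δ n ≠ 0 → X₁ ≤ n ∧ (n : ℝ) ≤ X₁ + X₁ ^ (199 / 200 : ℝ) := by
    intro n hn
    obtain ⟨h4, h5⟩ := hat_supp y δ hy0 hδ0 n hn
    refine ⟨h4.le, ?_⟩
    have h6 : y * Real.exp δ = X₁ * Real.exp (2 * δ) := by
      rw [hX₁, mul_assoc, ← Real.exp_add]
      congr 2
      ring
    have h7 : X₁ * Real.exp (2 * δ) ≤ X₁ * (1 + 4 * δ) := mul_le_mul_of_nonneg_left hx3 hX₁0.le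
    have h8 : X₁ ^ (199 / 200 : ℝ) = X₁ * X₁ ^ (-1 / 200 : ℝ) := by
      rw [show (199 / 200 : ℝ) = 1 + -1 / 200 by norm_num, Real.rpow_add hX₁0, Real.rpow_one]
    have h9 : 4 * δ ≤ X₁ ^ (-1 / 200 : ℝ) := by
      have g1 : (2 * X) ^ (-1 / 200 : ℝ) ≤ X₁ ^ (-1 / 200 : ℝ) :=
        Real.rpow_le_rpow_of_nonpos hX₁0 hb (by norm_num)
      have g2 : (2 * X) ^ (-1 / 200 : ℝ) = 2 ^ (-1 / 200 : ℝ) * X ^ (-1 / 200 : ℝ) :=
        Real.mul_rpow (by norm_num) hX0.le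
      have g3 : (1 / 2 : ℝ) ≤ 2 ^ (-1 / 200 : ℝ) := by
        have : (2 : ℝ) ^ (-1 : ℝ) ≤ 2 ^ (-1 / 200 : ℝ) :=
          Real.rpow_le_rpow_of_exponent_le (by norm_num) (by norm_num)
        rw [Real.rpow_neg_one] at this
        linarith
      have g4 : X ^ (-1 / 100 : ℝ) = X ^ (-1 / 200 : ℝ) * X ^ (-1 / 200 : ℝ) := by
        rw [← Real.rpow_add hX0]
        norm_num
      have g5 : X ^ (-1 / 200 : ℝ) * X ^ (1 / 200 : ℝ) = 1 := by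
        rw [← Real.rpow_add hX0]
        norm_num
      have g6 : 0 < X ^ (-1 / 200 : ℝ) := Real.rpow_pos_of_pos hX0 _
      have g7 : X ^ (-1 / 200 : ℝ) * 16 ≤ 1 := by
        have := mul_le_mul_of_nonneg_left h1 g6.le
        linarith
      have g8 : 4 * δ ≤ 8 * (X ^ (-1 / 200 : ℝ) * X ^ (-1 / 200 : ℝ)) := by
        rw [← g4]
        linarith
      have g9 : 1 / 2 * X ^ (-1 / 200 : ℝ) ≤ 2 ^ (-1 / 200 : ℝ) * X ^ (-1 / 200 : ℝ) :=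
        mul_le_mul_of_nonneg_right g3 g6.le
      nlinarith
    have h10 : X₁ * (1 + 4 * δ) ≤ X₁ + X₁ ^ (199 / 200 : ℝ) := by
      rw [h8]
      have := mul_le_mul_of_nonneg_left h9 hX₁0.le
      linarith
    linarith
  refine ⟨ha, ?_, ?_⟩
  · intro n hn
    obtain ⟨h4, h5⟩ := hup n hn
    refine ⟨h4, h5, ?_, ?_⟩
    · have h6 : (3 : ℝ) ≤ n := by linarith
      rw [Real.le_log_iff_exp_le (by linarith)]
      linarith [Real.exp_one_lt_d9]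
    · rw [hlogX]
      apply Real.log_le_log (by linarith)
      have h6 : X₁ ^ (199 / 200 : ℝ) ≤ X₁ := by
        calc X₁ ^ (199 / 200 : ℝ) ≤ X₁ ^ (1 : ℝ) :=
              Real.rpow_le_rpow_of_exponent_le (by linarith) (by norm_num)
          _ = X₁ := Real.rpow_one _
      nlinarith
  · intro H hH1 hH2
    have hXe : X ^ (e / 2) * X ^ (e / 2) = X ^ e := by
      rw [← Real.rpow_add hX0]
      congr 1
      ring
    have g1 : X ^ e / 2 ^ e ≤ X₁ ^ e := by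
      rw [← Real.div_rpow hX0.le (by norm_num)]
      exact Real.rpow_le_rpow (by linarith) ha he.le
    have hH3 : X ^ e / 2 ^ e ≤ H := g1.trans hH1
    have hmain : X ^ (e / 2) + 1 ≤ H := by
      refine le_trans ?_ hH3
      have k1 : (2 : ℝ) ^ e ≤ 2 := by
        calc (2 : ℝ) ^ e ≤ 2 ^ (1 : ℝ) :=
              Real.rpow_le_rpow_of_exponent_le (by norm_num) (by linarith)
          _ = 2 := Real.rpow_one _
      have k2 : (0 : ℝ) < 2 ^ e := Real.rpow_pos_of_pos (by norm_num) _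
      rw [le_div_iff₀ k2, ← hXe]
      nlinarith
    have hfl : H - 1 < (⌊H⌋₊ : ℝ) := by
      have := Nat.lt_floor_add_one H
      linarith
    have hN1 : X ^ (e / 2) ≤ (⌊H⌋₊ : ℝ) := by linarith
    have hH0 : 0 ≤ H := by linarith
    have hN2 : (⌊H⌋₊ : ℝ) ≤ X ^ (1 / 500 : ℝ) := by
      refine (Nat.floor_le hH0).trans (hH2.trans ?_)
      have : X ^ (1 / 500 : ℝ) = (X ^ (2 : ℝ)) ^ (1 / 1000 : ℝ) := by
        rw [← Real.rpow_mul hX0.le]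
        norm_num
      rw [this]
      apply Real.rpow_le_rpow hX₁0.le _ (by norm_num)
      rw [Real.rpow_two]
      nlinarith
    refine ⟨hN1, hN2, by linarith, ?_, ?_⟩
    · have : (1 : ℝ) ≤ (⌊H⌋₊ : ℝ) := by linarith
      exact_mod_cast this
    · intro n hn
      obtain ⟨h4, h5⟩ := hup n hn
      have hn0 : (0 : ℝ) < n := by linarith
      rw [div_le_one hn0]
      have g2 : (⌊H⌋₊ : ℝ) ^ 2 ≤ (X ^ (1 / 500 : ℝ)) ^ 2 :=
        pow_le_pow_left₀ (Nat.cast_nonneg _) hN2 2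
      have g3 : (X ^ (1 / 500 : ℝ)) ^ 2 ≤ X ^ (1 / 2 : ℝ) := by
        rw [← Real.rpow_natCast, ← Real.rpow_mul hX0.le]
        exact Real.rpow_le_rpow_of_exponent_le (by linarith) (by norm_num)
      have g4 : X ^ (1 / 2 : ℝ) * X ^ (1 / 2 : ℝ) = X := by
        rw [← Real.rpow_add hX0]
        norm_num
      nlinarith

/-- comparison of the square roots -/
private theorem fl_sqrt (X H N l : ℝ) (hN0 : 0 ≤ N) (hN : H / 2 ≤ N) (hH : 0 ≤ H)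
    (hl0 : 0 ≤ l) (hl : l ≤ 2 * X) (hX : 0 ≤ X) :
    Real.sqrt (H * l) / 2 ≤ Real.sqrt (N * X) := by
  have h1 : Real.sqrt (H * l) / 2 = Real.sqrt (H * l / 4) := by
    rw [Real.sqrt_div (by positivity), show (4 : ℝ) = 2 ^ 2 by norm_num,
      Real.sqrt_sq (by norm_num)]
  rw [h1]
  apply Real.sqrt_le_sqrt
  nlinarith [mul_le_mul hN hl hl0 hN0]

private theorem fl_div (H l : ℝ) (hH : 0 ≤ H) (hl : 0 < l) :
    l * Real.sqrt (H / l) = Real.sqrt (H * l) := by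
  have h1 : H * l = l ^ 2 * (H / l) := by
    field_simp
  rw [h1, Real.sqrt_mul (by positivity), Real.sqrt_sq hl.le]

private theorem fl_small (e2 : ℝ) (he : 0 < e2) (he1 : e2 ≤ 1 / 1000) : ∀ᶠ W : ℝ in atTop,
    W ^ (-(21 * e2 / 40)) ≤ 1 / 2 ∧ ∀ N : ℝ, 0 ≤ N → N ≤ (2 * W) ^ e2 →
      N * W ^ (-(21 * e2 / 40)) ≤ Real.sqrt N := by
  have ev1 := (tendsto_rpow_atTop (show (0 : ℝ) < e2 / 40 by linarith)).eventually_ge_atTop 2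
  filter_upwards [ev1, eventually_ge_atTop (1 : ℝ)] with W hW hW1
  have hW0 : (0 : ℝ) < W := by linarith
  have hu : W ^ (-(21 * e2 / 40)) ≤ W ^ (-(e2 / 40)) :=
    Real.rpow_le_rpow_of_exponent_le hW1 (by linarith)
  have hu2 : W ^ (-(e2 / 40)) ≤ 1 / 2 := by
    rw [Real.rpow_neg hW0.le, ← one_div]
    exact one_div_le_one_div_of_le (by norm_num) hW
  refine ⟨hu.trans hu2, fun N hN0 hN => ?_⟩
  have hs : Real.sqrt N ≤ (2 * W) ^ (e2 / 2) := by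
    rw [Real.sqrt_le_left (Real.rpow_nonneg (by linarith) _)]
    rw [← Real.rpow_natCast, ← Real.rpow_mul (by linarith)]
    have e : e2 / 2 * ((2 : ℕ) : ℝ) = e2 := by push_cast; ring
    rw [e]
    exact hN
  have hs2 : (2 * W) ^ (e2 / 2) ≤ 2 * W ^ (e2 / 2) := by
    rw [Real.mul_rpow (by norm_num) hW0.le]
    apply mul_le_mul_of_nonneg_right _ (Real.rpow_nonneg hW0.le _)
    calc (2 : ℝ) ^ (e2 / 2) ≤ 2 ^ (1 : ℝ) :=
          Real.rpow_le_rpow_of_exponent_le (by norm_num) (by linarith)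
      _ = 2 := Real.rpow_one _
  have hs3 : (2 * W) ^ (e2 / 2) * W ^ (-(21 * e2 / 40)) ≤ 1 := by
    calc (2 * W) ^ (e2 / 2) * W ^ (-(21 * e2 / 40)) ≤
        (2 * W ^ (e2 / 2)) * W ^ (-(21 * e2 / 40)) :=
          mul_le_mul_of_nonneg_right hs2 (Real.rpow_nonneg hW0.le _)
      _ = 2 * W ^ (-(e2 / 40)) := by
          rw [mul_assoc, ← Real.rpow_add hW0]
          congr 2
          ring
      _ ≤ 2 * (1 / 2) := by linarith
      _ = 1 := by norm_num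
  calc N * W ^ (-(21 * e2 / 40)) =
      Real.sqrt N * (Real.sqrt N * W ^ (-(21 * e2 / 40))) := by
        rw [← mul_assoc, Real.mul_self_sqrt hN0]
    _ ≤ Real.sqrt N * ((2 * W) ^ (e2 / 2) * W ^ (-(21 * e2 / 40))) := by
        apply mul_le_mul_of_nonneg_left _ (Real.sqrt_nonneg _)
        exact mul_le_mul_of_nonneg_right hs (Real.rpow_nonneg hW0.le _)
    _ ≤ Real.sqrt N * 1 := mul_le_mul_of_nonneg_left hs3 (Real.sqrt_nonneg _)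
    _ = Real.sqrt N := mul_one _

/-- the square root is absorbed -/
private theorem fl_absorb (c N l : ℝ) (hc : 0 < c) (hN : 0 ≤ N) (hl : (4 / c) ^ 2 ≤ l) :
    Real.sqrt N ≤ c / 4 * Real.sqrt (N * l) := by
  have h1 : 4 / c ≤ Real.sqrt l := Real.le_sqrt_of_sq_le hl
  rw [Real.sqrt_mul hN]
  have h2 : 1 ≤ c / 4 * Real.sqrt l := by
    have := mul_le_mul_of_nonneg_left h1 (show 0 ≤ c / 4 by positivity)
    have h3 : c / 4 * (4 / c) = 1 := by field_simp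
    linarith
  calc Real.sqrt N = Real.sqrt N * 1 := (mul_one _).symm
    _ ≤ Real.sqrt N * (c / 4 * Real.sqrt l) := mul_le_mul_of_nonneg_left h2 (Real.sqrt_nonneg _)
    _ = _ := by ring

private theorem fl_up (e e2 : ℝ) (he0 : 0 < e) (hee : e ≤ e2) (he2 : e2 ≤ 1 / 1000) :
    ∃ c : ℝ, 0 < c ∧ ∀ᶠ X : ℝ in atTop, ∀ y δ : ℝ, X ≤ y → y ≤ 2 * X →
    X ^ (-1 / 100 : ℝ) ≤ δ → δ ≤ 2 * X ^ (-1 / 100 : ℝ) → δ ≤ 1 / 2 →
    (-1) * (theta (Ax X) (Bx X) (hat y δ) - mass (Ax X) (Bx X) (hat y δ)) ≤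
      X ^ (-(21 * e2 / 40)) * mass (Ax X) (Bx X) (hat y δ) →
    X / 2 ≤ y * Real.exp (-δ) ∧ y * Real.exp (-δ) ≤ 2 * X ∧
    ∀ H : ℝ, (y * Real.exp (-δ)) ^ e ≤ H → H ≤ (y * Real.exp (-δ)) ^ e2 →
      ∃ n : ℕ, y * Real.exp (-δ) ≤ n ∧
        (n : ℝ) ≤ y * Real.exp (-δ) + (y * Real.exp (-δ)) ^ (199 / 200 : ℝ) ∧
        c * Real.sqrt (H / Real.log n) ≤ (pc n H : ℝ) - H / Real.log n := by
  have he1 : e ≤ 1 / 1000 := hee.trans he2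
  obtain ⟨c₁, hc₁, hosc⟩ := win_osc (e / 2) (by linarith) (by linarith)
  refine ⟨c₁ / 4, by positivity, ?_⟩
  have ev1 := (tendsto_rpow_atTop (show (0 : ℝ) < e / 2 by linarith)).eventually_ge_atTop
    ((24 / c₁) ^ 2)
  have ev4 := Real.tendsto_log_atTop.eventually_ge_atTop ((4 / c₁) ^ 2)
  filter_upwards [hosc, fl_setup e he0 he1, ev1, ev4, fl_small e2 (by linarith) he2, mass_ge,
    eventually_ge_atTop (8 : ℝ)] with X hoscX hset hcX hlogX hsm hmass hX8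
  intro y δ hy1 hy2 hδ1 hδ3 hδ2 hsel
  obtain ⟨hsm1, hsm2⟩ := hsm
  have hX0 : (0 : ℝ) < X := by linarith
  obtain ⟨ha, hn, hH⟩ := hset y δ hy1 hy2 hδ1 hδ3 hδ2
  have hδ0 : 0 < δ := lt_of_lt_of_le (Real.rpow_pos_of_pos hX0 _) hδ1
  obtain ⟨-, hx2, -⟩ := fl_exp δ hδ0.le hδ2
  set X₁ : ℝ := y * Real.exp (-δ) with hX₁
  have hX₁2 : X₁ ≤ 2 * X := by
    rw [hX₁]
    have : y * Real.exp (-δ) ≤ y * 1 := mul_le_mul_of_nonneg_left hx2 (by linarith)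
    linarith
  refine ⟨ha, hX₁2, fun H hH1 hH2 => ?_⟩
  have hX₁1 : 1 ≤ X₁ := by linarith
  have hH2' : H ≤ X₁ ^ (1 / 1000 : ℝ) :=
    hH2.trans (Real.rpow_le_rpow_of_exponent_le hX₁1 he2)
  obtain ⟨hN1, hN2, hH8, hN3, hN4⟩ := hH H hH1 hH2'
  set M0 := mass (Ax X) (Bx X) (hat y δ) with hM0
  set Θ := theta (Ax X) (Bx X) (hat y δ) with hΘ
  have hM0p : 0 < M0 := lt_of_lt_of_le (Real.rpow_pos_of_pos hX0 _) (hmass y δ hy1 hy2 hδ1 hδ2)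
  set u : ℝ := X ^ (-(21 * e2 / 40)) with hu
  have hu0 : 0 < u := Real.rpow_pos_of_pos hX0 _
  have hN0 : (0 : ℝ) ≤ (⌊H⌋₊ : ℝ) := Nat.cast_nonneg _
  have hfl2 : (⌊H⌋₊ : ℝ) ≤ H := Nat.floor_le (by linarith)
  have hNu : (⌊H⌋₊ : ℝ) * u ≤ Real.sqrt (⌊H⌋₊ : ℝ) := by
    apply hsm2 _ hN0
    refine hfl2.trans (hH2.trans ?_)
    exact Real.rpow_le_rpow (by linarith) hX₁2 (by linarith)
  have hΘ1 : (1 - u) * M0 ≤ Θ := by linarith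
  have hΘ2 : M0 / 2 ≤ Θ := by nlinarith
  obtain ⟨n, hn0, hn1⟩ := hoscX y δ hy1 hy2 hδ1 hδ2 ⌊H⌋₊ hN1 hN2 1 (Or.inl rfl) hΘ2
  obtain ⟨hn2, hn3, hn4, hn5⟩ := hn n hn0
  refine ⟨n, hn2, hn3, ?_⟩
  rw [fl_pc n H (by linarith)]
  set π : ℝ := (((Ioc n (n + ⌊H⌋₊)).filter Nat.Prime).card : ℝ) with hπ
  have hnr : (0 : ℝ) < n := by linarith
  have hn1' : 1 ≤ n := by
    have : (0 : ℝ) < n := hnr
    have : 0 < n := by exact_mod_cast this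
    omega
  have hnear := (PH_near ⌊H⌋₊ n hn1').trans (hN4 n hn0)
  have hnear2 := (abs_le.1 hnear).2
  have hm : (⌊H⌋₊ : ℝ) - Real.sqrt (⌊H⌋₊ : ℝ) ≤ ⌊H⌋₊ * Θ / M0 := by
    rw [le_div_iff₀ hM0p]
    have h1 : (⌊H⌋₊ : ℝ) * ((1 - u) * M0) ≤ ⌊H⌋₊ * Θ := mul_le_mul_of_nonneg_left hΘ1 hN0
    have h2 : (⌊H⌋₊ : ℝ) * u * M0 ≤ Real.sqrt (⌊H⌋₊ : ℝ) * M0 :=
      mul_le_mul_of_nonneg_right hNu hM0p.le
    nlinarith
  have hfl : H - 1 < (⌊H⌋₊ : ℝ) := by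
    have := Nat.lt_floor_add_one H
    linarith
  have hlX : 0 < Real.log X := Real.log_pos (by linarith)
  have hl0 : 0 < Real.log n := by linarith
  have hs1 := fl_sqrt (Real.log X) H (⌊H⌋₊ : ℝ) (Real.log n) hN0 (by linarith) (by linarith)
    hl0.le hn5 hlX.le
  have hab := fl_absorb c₁ (⌊H⌋₊ : ℝ) (Real.log X) hc₁ hN0 hlogX
  set S : ℝ := Real.sqrt (H * Real.log n) with hS
  have hS1 : 24 / c₁ ≤ S := by
    rw [hS]
    apply Real.le_sqrt_of_sq_le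
    have h1 : (24 / c₁) ^ 2 ≤ H := by linarith
    nlinarith
  have hS2 : 3 ≤ c₁ / 8 * S := by
    have h1 : c₁ / 8 * (24 / c₁) ≤ c₁ / 8 * S := mul_le_mul_of_nonneg_left hS1 (by positivity)
    have h2 : c₁ / 8 * (24 / c₁) = 3 := by
      field_simp
      norm_num
    linarith
  have hS3 : c₁ * (S / 2) ≤ c₁ * Real.sqrt ((⌊H⌋₊ : ℝ) * Real.log X) :=
    mul_le_mul_of_nonneg_left hs1 hc₁.le
  have hkey : H + c₁ / 4 * S ≤ Real.log n * π := by linarith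
  have hdiv : H / Real.log n + c₁ / 4 * Real.sqrt (H / Real.log n) =
      (H + c₁ / 4 * S) / Real.log n := by
    rw [hS, ← fl_div H (Real.log n) (by linarith) hl0]
    field_simp
  have hfin : H / Real.log n + c₁ / 4 * Real.sqrt (H / Real.log n) ≤ π := by
    rw [hdiv, div_le_iff₀ hl0]
    linarith
  linarith

private theorem fl_down (e e2 : ℝ) (he0 : 0 < e) (hee : e ≤ e2) (he2 : e2 ≤ 1 / 1000) :
    ∃ c : ℝ, 0 < c ∧ ∀ᶠ X : ℝ in atTop, ∀ y δ : ℝ, X ≤ y → y ≤ 2 * X →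
    X ^ (-1 / 100 : ℝ) ≤ δ → δ ≤ 2 * X ^ (-1 / 100 : ℝ) → δ ≤ 1 / 2 →
    1 * (theta (Ax X) (Bx X) (hat y δ) - mass (Ax X) (Bx X) (hat y δ)) ≤
      X ^ (-(21 * e2 / 40)) * mass (Ax X) (Bx X) (hat y δ) →
    X / 2 ≤ y * Real.exp (-δ) ∧ y * Real.exp (-δ) ≤ 2 * X ∧
    ∀ H : ℝ, (y * Real.exp (-δ)) ^ e ≤ H → H ≤ (y * Real.exp (-δ)) ^ e2 →
      ∃ n : ℕ, y * Real.exp (-δ) ≤ n ∧
        (n : ℝ) ≤ y * Real.exp (-δ) + (y * Real.exp (-δ)) ^ (199 / 200 : ℝ) ∧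
        c * Real.sqrt (H / Real.log n) ≤ H / Real.log n - (pc n H : ℝ) := by
  have he1 : e ≤ 1 / 1000 := hee.trans he2
  obtain ⟨c₁, hc₁, hosc⟩ := win_osc (e / 2) (by linarith) (by linarith)
  refine ⟨c₁ / 4, by positivity, ?_⟩
  have ev1 := (tendsto_rpow_atTop (show (0 : ℝ) < e / 2 by linarith)).eventually_ge_atTop
    ((24 / c₁) ^ 2)
  have ev2 := (tendsto_rpow_atTop (show (0 : ℝ) < e / 2 by linarith)).eventually_ge_atTop 8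
  have ev3 : ∀ᶠ X : ℝ in atTop, (2 * c₁ ^ 2) * Real.log X ≤ X ^ (e / 2) := by
    have h1 := (isLittleO_log_rpow_atTop (show (0 : ℝ) < e / 2 by linarith)).bound
      (show (0 : ℝ) < 1 / (2 * c₁ ^ 2) by positivity)
    filter_upwards [h1, eventually_ge_atTop (1 : ℝ)] with X h1 hX
    rw [Real.norm_eq_abs, Real.norm_eq_abs, abs_of_nonneg (Real.log_nonneg hX),
      abs_of_nonneg (Real.rpow_nonneg (by linarith) _)] at h1
    have h2 := mul_le_mul_of_nonneg_left h1 (show (0 : ℝ) ≤ 2 * c₁ ^ 2 by positivity)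
    have h3 : 2 * c₁ ^ 2 * (1 / (2 * c₁ ^ 2) * X ^ (e / 2)) = X ^ (e / 2) := by
      field_simp
    linarith
  have ev4 := Real.tendsto_log_atTop.eventually_ge_atTop ((4 / c₁) ^ 2)
  filter_upwards [hosc, fl_setup e he0 he1, ev1, ev2, ev3, ev4, fl_small e2 (by linarith) he2,
    mass_ge, fact_mean, eventually_ge_atTop (8 : ℝ)] with X hoscX hset hcX hcX2 hcX3 hlogX hsm
    hmass hmean hX8
  intro y δ hy1 hy2 hδ1 hδ3 hδ2 hsel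
  obtain ⟨hsm1, hsm2⟩ := hsm
  have hX0 : (0 : ℝ) < X := by linarith
  obtain ⟨ha, hn, hH⟩ := hset y δ hy1 hy2 hδ1 hδ3 hδ2
  have hδ0 : 0 < δ := lt_of_lt_of_le (Real.rpow_pos_of_pos hX0 _) hδ1
  obtain ⟨-, hx2, -⟩ := fl_exp δ hδ0.le hδ2
  set X₁ : ℝ := y * Real.exp (-δ) with hX₁
  have hX₁2 : X₁ ≤ 2 * X := by
    rw [hX₁]
    have : y * Real.exp (-δ) ≤ y * 1 := mul_le_mul_of_nonneg_left hx2 (by linarith)
    linarith
  refine ⟨ha, hX₁2, fun H hH1 hH2 => ?_⟩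
  have hX₁1 : 1 ≤ X₁ := by linarith
  have hH2' : H ≤ X₁ ^ (1 / 1000 : ℝ) :=
    hH2.trans (Real.rpow_le_rpow_of_exponent_le hX₁1 he2)
  obtain ⟨hN1, hN2, hH8, hN3, hN4⟩ := hH H hH1 hH2'
  set M0 := mass (Ax X) (Bx X) (hat y δ) with hM0
  set Θ := theta (Ax X) (Bx X) (hat y δ) with hΘ
  have hM0p : 0 < M0 := lt_of_lt_of_le (Real.rpow_pos_of_pos hX0 _) (hmass y δ hy1 hy2 hδ1 hδ2)
  set u : ℝ := X ^ (-(21 * e2 / 40)) with hu
  have hu0 : 0 < u := Real.rpow_pos_of_pos hX0 _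
  have hN0 : (0 : ℝ) ≤ (⌊H⌋₊ : ℝ) := Nat.cast_nonneg _
  have hfl2 : (⌊H⌋₊ : ℝ) ≤ H := Nat.floor_le (by linarith)
  have hNu : (⌊H⌋₊ : ℝ) * u ≤ Real.sqrt (⌊H⌋₊ : ℝ) := by
    apply hsm2 _ hN0
    refine hfl2.trans (hH2.trans ?_)
    exact Real.rpow_le_rpow (by linarith) hX₁2 (by linarith)
  have hΘ1 : Θ ≤ (1 + u) * M0 := by linarith
  have hfl : H - 1 < (⌊H⌋₊ : ℝ) := by
    have := Nat.lt_floor_add_one H
    linarith
  have hlX : 0 < Real.log X := Real.log_pos (by linarith)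
  -- it suffices to bound `PH`
  have hfin : ∀ n : ℕ, hat y δ n ≠ 0 →
      PH ⌊H⌋₊ n + 1 ≤ H - c₁ / 4 * Real.sqrt (H * Real.log n) →
      ∃ n : ℕ, X₁ ≤ n ∧ (n : ℝ) ≤ X₁ + X₁ ^ (199 / 200 : ℝ) ∧
        c₁ / 4 * Real.sqrt (H / Real.log n) ≤ H / Real.log n - (pc n H : ℝ) := by
    intro n hn0 hkey
    obtain ⟨hn2, hn3, hn4, hn5⟩ := hn n hn0
    refine ⟨n, hn2, hn3, ?_⟩
    rw [fl_pc n H (by linarith)]
    set π : ℝ := (((Ioc n (n + ⌊H⌋₊)).filter Nat.Prime).card : ℝ) with hπ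
    have hnr : (0 : ℝ) < n := by linarith
    have hn1' : 1 ≤ n := by
      have : (0 : ℝ) < n := hnr
      have : 0 < n := by exact_mod_cast this
      omega
    have hnear := (PH_near ⌊H⌋₊ n hn1').trans (hN4 n hn0)
    have hnear2 := (abs_le.1 hnear).1
    have hl0 : 0 < Real.log n := by linarith
    have hdiv : H / Real.log n - c₁ / 4 * Real.sqrt (H / Real.log n) =
        (H - c₁ / 4 * Real.sqrt (H * Real.log n)) / Real.log n := by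
      rw [← fl_div H (Real.log n) (by linarith) hl0]
      field_simp
    have hfin2 : π ≤ H / Real.log n - c₁ / 4 * Real.sqrt (H / Real.log n) := by
      rw [hdiv, le_div_iff₀ hl0]
      linarith
    linarith
  have hSlow : ∀ n : ℕ, hat y δ n ≠ 0 → 3 ≤ c₁ / 8 * Real.sqrt (H * Real.log n) := by
    intro n hn0
    obtain ⟨hn2, hn3, hn4, hn5⟩ := hn n hn0
    have hS1 : 24 / c₁ ≤ Real.sqrt (H * Real.log n) := by
      apply Real.le_sqrt_of_sq_le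
      have h1 : (24 / c₁) ^ 2 ≤ H := by linarith
      nlinarith
    have h1 : c₁ / 8 * (24 / c₁) ≤ c₁ / 8 * Real.sqrt (H * Real.log n) :=
      mul_le_mul_of_nonneg_left hS1 (by positivity)
    have h2 : c₁ / 8 * (24 / c₁) = 3 := by
      field_simp
      norm_num
    linarith
  by_cases hcase : M0 / 2 ≤ Θ
  · obtain ⟨n, hn0, hn1⟩ := hoscX y δ hy1 hy2 hδ1 hδ2 ⌊H⌋₊ hN1 hN2 (-1) (Or.inr rfl) hcase
    obtain ⟨hn2, hn3, hn4, hn5⟩ := hn n hn0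
    apply hfin n hn0
    have hm : ⌊H⌋₊ * Θ / M0 ≤ (⌊H⌋₊ : ℝ) + Real.sqrt (⌊H⌋₊ : ℝ) := by
      rw [div_le_iff₀ hM0p]
      have h1 : (⌊H⌋₊ : ℝ) * Θ ≤ ⌊H⌋₊ * ((1 + u) * M0) := mul_le_mul_of_nonneg_left hΘ1 hN0
      have h2 : (⌊H⌋₊ : ℝ) * u * M0 ≤ Real.sqrt (⌊H⌋₊ : ℝ) * M0 :=
        mul_le_mul_of_nonneg_right hNu hM0p.le
      nlinarith
    have hl0 : 0 < Real.log n := by linarith
    have hs1 := fl_sqrt (Real.log X) H (⌊H⌋₊ : ℝ) (Real.log n) hN0 (by linarith) (by linarith)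
      hl0.le hn5 hlX.le
    have hab := fl_absorb c₁ (⌊H⌋₊ : ℝ) (Real.log X) hc₁ hN0 hlogX
    have hS3 : c₁ * (Real.sqrt (H * Real.log n) / 2) ≤
        c₁ * Real.sqrt ((⌊H⌋₊ : ℝ) * Real.log X) := mul_le_mul_of_nonneg_left hs1 hc₁.le
    have hS4 := hSlow n hn0
    linarith
  · rw [not_le] at hcase
    -- some `n` with few primes
    have hw := hat_wt X y δ (by linarith) hy1 hy2
      (lt_of_lt_of_le (Real.rpow_pos_of_pos hX0 _) hδ1) hδ2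
    have hex : ∃ n : ℕ, hat y δ n ≠ 0 ∧ PH ⌊H⌋₊ n ≤ (⌊H⌋₊ : ℝ) / 2 + 1 := by
      by_contra hno
      push Not at hno
      have h1 := (abs_le.1 (hmean y δ hy1 hy2 hδ1 hδ2 ⌊H⌋₊ hN3 hN2)).2
      have h2 : ((⌊H⌋₊ : ℝ) / 2 + 1) * M0 ≤
          ∑ x ∈ Ioc (Ax X) (Bx X), hat y δ x * PH ⌊H⌋₊ x := by
        rw [hM0]
        unfold mass
        rw [mul_sum]
        apply sum_le_sum
        intro x _
        by_cases hx : hat y δ x = 0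
        · rw [hx]
          simp
        · have h3 := hno x hx
          have h4 := hw.nonneg x
          nlinarith
      have hN5 : (1 : ℝ) ≤ (⌊H⌋₊ : ℝ) := by exact_mod_cast hN3
      nlinarith
    obtain ⟨n, hn0, hn1⟩ := hex
    obtain ⟨hn2, hn3, hn4, hn5⟩ := hn n hn0
    apply hfin n hn0
    have hl0 : 0 < Real.log n := by linarith
    have hS5 : c₁ / 4 * Real.sqrt (H * Real.log n) ≤ H / 4 := by
      have h1 : Real.sqrt (H * Real.log n) ≤ H / c₁ := by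
        apply Real.sqrt_le_iff.2
        refine ⟨by positivity, ?_⟩
        have h2 : c₁ ^ 2 * Real.log n ≤ H := by
          have := mul_le_mul_of_nonneg_left hn5 (show (0 : ℝ) ≤ c₁ ^ 2 by positivity)
          linarith
        rw [div_pow, le_div_iff₀ (by positivity)]
        nlinarith
      calc c₁ / 4 * Real.sqrt (H * Real.log n) ≤ c₁ / 4 * (H / c₁) :=
            mul_le_mul_of_nonneg_left h1 (by positivity)
        _ = H / 4 := by field_simp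
    linarith

private theorem fl_win (ε₁ ε₂ : ℝ) (h1 : 0 < ε₁) (h12 : ε₁ ≤ ε₂) (h2 : ε₂ ≤ 1 / 1000) (σ : ℝ)
    (hσ : σ = 1 ∨ σ = -1) : ∃ c : ℝ, 0 < c ∧ ∀ᶠ X : ℝ in atTop, ∀ y δ : ℝ, X ≤ y → y ≤ 2 * X →
    X ^ (-1 / 100 : ℝ) ≤ δ → δ ≤ 2 * X ^ (-1 / 100 : ℝ) → δ ≤ 1 / 2 →
    (-σ) * (theta (Ax X) (Bx X) (hat y δ) - mass (Ax X) (Bx X) (hat y δ)) ≤
      X ^ (-(21 * ε₂ / 40)) * mass (Ax X) (Bx X) (hat y δ) →
    X / 2 ≤ y * Real.exp (-δ) ∧ y * Real.exp (-δ) ≤ 2 * X ∧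
    ∀ H : ℝ, (y * Real.exp (-δ)) ^ ε₁ ≤ H → H ≤ (y * Real.exp (-δ)) ^ ε₂ →
      ∃ n : ℕ, y * Real.exp (-δ) ≤ n ∧
        (n : ℝ) ≤ y * Real.exp (-δ) + (y * Real.exp (-δ)) ^ (199 / 200 : ℝ) ∧
        c * Real.sqrt (H / Real.log n) ≤ σ * ((pc n H : ℝ) - H / Real.log n) := by
  rcases hσ with rfl | rfl
  · obtain ⟨c, hc, h⟩ := fl_up ε₁ ε₂ h1 h12 h2
    refine ⟨c, hc, ?_⟩
    filter_upwards [h] with X hX
    intro y δ a1 a2 a3 a4 a5 a6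
    obtain ⟨b1, b2, b3⟩ := hX y δ a1 a2 a3 a4 a5 a6
    refine ⟨b1, b2, fun H hH1 hH2 => ?_⟩
    obtain ⟨n, d1, d2, d3⟩ := b3 H hH1 hH2
    exact ⟨n, d1, d2, by rw [one_mul]; exact d3⟩
  · obtain ⟨c, hc, h⟩ := fl_down ε₁ ε₂ h1 h12 h2
    refine ⟨c, hc, ?_⟩
    filter_upwards [h] with X hX
    intro y δ a1 a2 a3 a4 a5 a6
    rw [neg_neg] at a6
    obtain ⟨b1, b2, b3⟩ := hX y δ a1 a2 a3 a4 a5 a6
    refine ⟨b1, b2, fun H hH1 hH2 => ?_⟩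
    obtain ⟨n, d1, d2, d3⟩ := b3 H hH1 hH2
    exact ⟨n, d1, d2, by linarith⟩

theorem fin_loc (ε₁ ε₂ : ℝ) (h1 : 0 < ε₁) (h12 : ε₁ ≤ ε₂) (h2 : ε₂ ≤ 1 / 1000) (σ : ℝ)
    (hσ : σ = 1 ∨ σ = -1) : ∃ c : ℝ, 0 < c ∧ ∀ᶠ X : ℝ in atTop, ∃ Y : ℝ,
    X ^ (1 - 60 * ε₂) ≤ Y ∧ 2 * Y ≤ X ∧ ∀ H : ℝ, Y ^ ε₁ ≤ H → H ≤ Y ^ ε₂ →
      ∃ n : ℕ, Y ≤ n ∧ (n : ℝ) ≤ Y + Y ^ (199 / 200 : ℝ) ∧
        c * Real.sqrt (H / Real.log n) ≤ σ * ((pc n H : ℝ) - H / Real.log n) := by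
  obtain ⟨c, hc, hwin⟩ := fl_win ε₁ ε₂ h1 h12 h2 σ hσ
  have hε₂ : 0 < ε₂ := lt_of_lt_of_le h1 h12
  have hσ' : -σ = 1 ∨ -σ = -1 := by
    rcases hσ with rfl | rfl
    · exact Or.inr rfl
    · exact Or.inl (by norm_num)
  have hsel := win_sel_loc ε₂ hε₂ h2 (-σ) hσ'
  obtain ⟨W₀, hW₀⟩ := eventually_atTop.1 hwin
  refine ⟨c, hc, ?_⟩
  have hq : Tendsto (fun X : ℝ => X / 4) atTop atTop :=
    tendsto_id.atTop_div_const (by norm_num)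
  have ev1 := hq.eventually hsel
  have ev2 := hq.eventually ((tendsto_rpow_atTop
    (show (0 : ℝ) < 1 - 51 * ε₂ by linarith)).eventually_ge_atTop W₀)
  have ev3 := (tendsto_rpow_atTop (show (0 : ℝ) < 9 * ε₂ by linarith)).eventually_ge_atTop 8
  filter_upwards [ev1, ev2, ev3, eventually_ge_atTop (4 : ℝ)] with X hX1 hX2 hX3 hX4
  obtain ⟨W, hWa, hWb, y, δ, a1, a2, a3, a4, a5, a6⟩ := hX1
  obtain ⟨b1, b2, b3⟩ := hW₀ W (hX2.trans hWa) y δ a1 a2 a3 a4 a5 a6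
  have hX0 : (0 : ℝ) < X := by linarith
  refine ⟨y * Real.exp (-δ), ?_, by linarith, b3⟩
  have g1 : X ^ (1 - 51 * ε₂) / 4 ≤ (X / 4) ^ (1 - 51 * ε₂) := by
    rw [Real.div_rpow hX0.le (by norm_num)]
    have k1 : (4 : ℝ) ^ (1 - 51 * ε₂) ≤ 4 := by
      calc (4 : ℝ) ^ (1 - 51 * ε₂) ≤ 4 ^ (1 : ℝ) :=
            Real.rpow_le_rpow_of_exponent_le (by norm_num) (by linarith)
        _ = 4 := Real.rpow_one _
    exact div_le_div_of_nonneg_left (Real.rpow_nonneg hX0.le _)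
      (Real.rpow_pos_of_pos (by norm_num) _) k1
  have g2 : X ^ (1 - 51 * ε₂) = X ^ (1 - 60 * ε₂) * X ^ (9 * ε₂) := by
    rw [← Real.rpow_add hX0]
    congr 1
    ring
  have g3 : X ^ (1 - 60 * ε₂) * 8 ≤ X ^ (1 - 60 * ε₂) * X ^ (9 * ε₂) :=
    mul_le_mul_of_nonneg_left hX3 (Real.rpow_nonneg hX0.le _)
  linarith

end Pool.Agent.H48.OM
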