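import Pool.Agent.H48.OM.ZNZ
import Pool.Agent.H48.OM.PsiSer

/-!
[H48 OM LANDL]  Landau's lemma, localised: `ψ(n) - n` does not stay `≥ c n^(1-a)` on
`[X^(1-η), X]`.

Proof.  `f(n) = σ (ψ(n) - n)`, `|f(n)| ≤ C n`; `s₀ = 1 + d`, `b = d + a`, `r = d + 2a`,
`k = ⌊κ log X⌋`.
`T_k = ∑_n (f(n) - c n^(1-a)) n^(-d-2) (log n)^k/k!`.
(1) `∑_n (f(n) - c n^(1-a)) n^(-s-1) = G(s) - c ζ(s+a)` for `Re s > 1`, `G` analytic on a
neighbourhood of the closed disc `|s - s₀| ≤ r`; so `T_k ≤ - (c/2) b^(-k-1)` for large `k`.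
(2) if `f(n) ≥ c n^(1-a)` on `[X^(1-η), X]` then `T_k ≥ - C' (sum over the other n)`, which is small
by `h1`, `h2`.
-/

namespace Pool.Agent.H48.OM

open Filter Complex Topology

private lemma lal_term (α : ℝ) {s : ℂ} (hs : s + 1 - α ≠ 0) (n : ℕ) :
    LSeries.term (fun n => (((n : ℝ) ^ α : ℝ) : ℂ)) (s + 1) n = 1 / (n : ℂ) ^ (s + 1 - α) := by
  rcases Nat.eq_zero_or_pos n with h | h
  · subst h
    rw [LSeries.term_zero, Nat.cast_zero, Complex.zero_cpow hs, div_zero]
  · rw [LSeries.term_of_ne_zero h.ne']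
    have h0 : (n : ℂ) ≠ 0 := by exact_mod_cast h.ne'
    rw [Complex.cpow_sub _ _ h0, Complex.ofReal_cpow (Nat.cast_nonneg n), Complex.ofReal_natCast]
    rw [one_div, inv_div]

private lemma lal_pow (α : ℝ) (hα : α ≤ 1) {s : ℂ} (hs : 1 < s.re) :
    LSeriesHasSum (fun n => (((n : ℝ) ^ α : ℝ) : ℂ)) (s + 1) (riemannZeta (s + 1 - α)) := by
  have hre : 1 < (s + 1 - α).re := by
    simp only [sub_re, add_re, one_re, ofReal_re]
    linarith
  have hne : s + 1 - α ≠ 0 := by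
    intro h
    rw [h] at hre
    simp at hre
    linarith
  unfold LSeriesHasSum
  have h1 : (LSeries.term (fun n => (((n : ℝ) ^ α : ℝ) : ℂ)) (s + 1)) =
      fun n : ℕ => 1 / (n : ℂ) ^ (s + 1 - α) := by
    ext n
    exact lal_term α hne n
  rw [h1, zeta_eq_tsum_one_div_nat_cpow hre]
  exact (Complex.summable_one_div_nat_cpow.mpr hre).hasSum

/-- the coefficients -/
private noncomputable def lalR (σ c a : ℝ) (n : ℕ) : ℝ :=
  σ * (Chebyshev.psi n - n) - c * (n : ℝ) ^ (1 - a)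

private noncomputable def lalF (σ c a : ℝ) (n : ℕ) : ℂ := ((lalR σ c a n : ℝ) : ℂ)

private lemma lal_F (σ c a : ℝ) (ha : 0 < a) (K : ℂ → ℂ) (hK : ∀ s : ℂ, 1 < s.re →
      LSeriesSummable (fun n => ((Chebyshev.psi n : ℝ) : ℂ)) (s + 1) ∧
      LSeries (fun n => ((Chebyshev.psi n : ℝ) : ℂ)) (s + 1) =
        -(deriv riemannZeta s / riemannZeta s) / s + K s) {s : ℂ} (hs : 1 < s.re) :
    LSeriesHasSum (lalF σ c a) (s + 1)
      (σ * (-(deriv riemannZeta s / riemannZeta s) / s + K s) - σ * riemannZeta s -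
        c * riemannZeta (s + a)) := by
  have h1 : LSeriesHasSum (fun n => ((Chebyshev.psi n : ℝ) : ℂ)) (s + 1)
      (-(deriv riemannZeta s / riemannZeta s) / s + K s) := by
    rw [← (hK s hs).2]
    exact (hK s hs).1.LSeriesHasSum
  have h2 := lal_pow 1 le_rfl hs
  have h3 := lal_pow (1 - a) (by linarith) hs
  have e2 : s + 1 - ((1 : ℝ) : ℂ) = s := by push_cast; ring
  have e3 : s + 1 - ((1 - a : ℝ) : ℂ) = s + a := by push_cast; ring
  rw [e2] at h2
  rw [e3] at h3
  have h4 := ((h1.smul (σ : ℂ)).sub (h2.smul (σ : ℂ))).sub (h3.smul (c : ℂ))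
  have e4 : lalF σ c a = (σ : ℂ) • (fun n : ℕ => ((Chebyshev.psi n : ℝ) : ℂ)) -
      (σ : ℂ) • (fun n : ℕ => (((n : ℝ) ^ (1 : ℝ) : ℝ) : ℂ)) -
      (c : ℂ) • (fun n : ℕ => (((n : ℝ) ^ (1 - a : ℝ) : ℝ) : ℂ)) := by
    ext n
    simp only [lalF, lalR, Pi.sub_apply, Pi.smul_apply, smul_eq_mul, Real.rpow_one]
    push_cast
    ring
  rw [e4]
  exact h4

/-- the continuation -/
private noncomputable def lalG (σ c a : ℝ) (K : ℂ → ℂ) (s : ℂ) : ℂ :=
  σ * (-1 / s - deriv riemannZeta₁ s / (s * riemannZeta₁ s) - riemannZeta₀ s + K s) -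
    c * riemannZeta₀ (s + a)

private lemma lal_z1 {s : ℂ} (hs : 1 < s.re) : riemannZeta₁ s ≠ 0 := by
  have hs1 : s ≠ 1 := by
    intro h
    rw [h] at hs
    simp at hs
  have hz : riemannZeta s ≠ 0 := riemannZeta_ne_zero_of_one_lt_re hs
  intro h
  apply hz
  rw [riemannZeta_eq_inv_sub_mul hs1, h, mul_zero]

private lemma lal_eq (σ c a : ℝ) (ha : 0 < a) (K : ℂ → ℂ) (hK : ∀ s : ℂ, 1 < s.re →
      LSeriesSummable (fun n => ((Chebyshev.psi n : ℝ) : ℂ)) (s + 1) ∧
      LSeries (fun n => ((Chebyshev.psi n : ℝ) : ℂ)) (s + 1) =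
        -(deriv riemannZeta s / riemannZeta s) / s + K s) {s : ℂ} (hs : 1 < s.re) :
    LSeriesHasSum (lalF σ c a) (s + 1) (lalG σ c a K s - c * (1 * s - (1 - a : ℂ))⁻¹) := by
  have h1 := lal_F σ c a ha K hK hs
  have hs1 : s ≠ 1 := by
    intro h
    rw [h] at hs
    simp at hs
  have hs0 : s ≠ 0 := by
    intro h
    rw [h] at hs
    simp at hs
    linarith
  have hs2 : s + a ≠ 1 := by
    intro h
    have : (s + a).re = 1 := by rw [h]; simp
    rw [add_re, ofReal_re] at this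
    linarith
  have hsub : s - 1 ≠ 0 := sub_ne_zero.2 hs1
  have hz1 : riemannZeta₁ s ≠ 0 := lal_z1 hs
  convert h1 using 1
  rw [deriv_riemannZeta_eq_neg_inv_sub_sq_mul_add hs1]
  have e1 : -(((-((s - 1)⁻¹) ^ 2 * riemannZeta₁ s + (s - 1)⁻¹ * deriv riemannZeta₁ s)) /
      riemannZeta s) / s = (s - 1)⁻¹ / s - deriv riemannZeta₁ s / (s * riemannZeta₁ s) := by
    rw [riemannZeta_eq_inv_sub_mul hs1]
    field_simp
    ring
  rw [e1, riemannZeta_eq_inv_sub_add hs1, riemannZeta_eq_inv_sub_add hs2]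
  have e2 : s + a - 1 = 1 * s - (1 - a : ℂ) := by ring
  rw [e2]
  unfold lalG
  have e3 : (s - 1)⁻¹ / s - (s - 1)⁻¹ = -1 / s := by
    field_simp
    ring
  have e4 : (σ : ℂ) * ((s - 1)⁻¹ / s - deriv riemannZeta₁ s / (s * riemannZeta₁ s) + K s) -
      σ * ((s - 1)⁻¹ + riemannZeta₀ s) = σ * (((s - 1)⁻¹ / s - (s - 1)⁻¹) -
        deriv riemannZeta₁ s / (s * riemannZeta₁ s) - riemannZeta₀ s + K s) := by ring
  rw [e4, e3]
  ring

private lemma lal_Gdiff (σ c a : ℝ) (K : ℂ → ℂ)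
    (hK : DifferentiableOn ℂ K {s : ℂ | 0 < s.re}) {s : ℂ} (hs : 1 < s.re ∨ ‖s - 1‖ ≤ 1 / 10) :
    DifferentiableAt ℂ (lalG σ c a K) s := by
  have hre : 9 / 10 ≤ s.re := by
    rcases hs with hs | hs
    · linarith
    · have h1 : |(s - 1).re| ≤ ‖s - 1‖ := Complex.abs_re_le_norm _
      rw [sub_re, one_re] at h1
      have h2 := (abs_le.1 (h1.trans hs)).1
      linarith
  have hs0 : s ≠ 0 := by
    intro h
    rw [h] at hre
    simp at hre
    linarith
  have hz1 : riemannZeta₁ s ≠ 0 := by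
    rcases hs with hs | hs
    · exact lal_z1 hs
    · exact zeta1_ne s hs
  have hKs : DifferentiableAt ℂ K s := by
    refine hK.differentiableAt (IsOpen.mem_nhds ?_ ?_)
    · exact isOpen_lt continuous_const Complex.continuous_re
    · show 0 < s.re
      linarith
  have h0 : DifferentiableAt ℂ riemannZeta₀ s := differentiable_riemannZeta₀ s
  have h0' : DifferentiableAt ℂ (fun s : ℂ => riemannZeta₀ (s + a)) s :=
    (differentiable_riemannZeta₀.comp (by fun_prop : Differentiable ℂ fun s : ℂ => s + a)) s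
  have h1 : DifferentiableAt ℂ riemannZeta₁ s := differentiable_riemannZeta₁ s
  have h1' : DifferentiableAt ℂ (deriv riemannZeta₁) s :=
    (differentiable_riemannZeta₁.deriv) s
  unfold lalG
  have hA : DifferentiableAt ℂ (fun s : ℂ => -1 / s) s :=
    DifferentiableAt.div (differentiableAt_const _) differentiableAt_id hs0
  have hB : DifferentiableAt ℂ (fun s : ℂ => deriv riemannZeta₁ s / (s * riemannZeta₁ s)) s :=
    DifferentiableAt.div h1' (DifferentiableAt.mul differentiableAt_id h1) (mul_ne_zero hs0 hz1)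
  exact ((((hA.sub hB).sub h0).add hKs).const_mul _).sub (h0'.const_mul _)

/-- points of the closed disc -/
private lemma lal_ball (a d : ℝ) (hd : 0 < d)
    (had : 4 * a * d + 8 * a ^ 2 ≤ 1 / 100) {s : ℂ} (hs : ‖s - (1 + d : ℝ)‖ ≤ d + 2 * a) :
    1 < s.re ∨ ‖s - 1‖ ≤ 1 / 10 := by
  rcases lt_or_ge 1 s.re with h | h
  · exact Or.inl h
  · right
    have h1 : ‖s - (1 + d : ℝ)‖ ^ 2 ≤ (d + 2 * a) ^ 2 := by gcongr
    rw [← Complex.normSq_eq_norm_sq, Complex.normSq_apply] at h1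
    simp only [sub_re, sub_im, ofReal_re, ofReal_im, sub_zero] at h1
    have h2 : ‖s - 1‖ ^ 2 ≤ (1 / 10) ^ 2 := by
      rw [← Complex.normSq_eq_norm_sq, Complex.normSq_apply]
      simp only [sub_re, sub_im, one_re, one_im, sub_zero]
      nlinarith [mul_nonneg hd.le (sub_nonneg.2 h), sq_nonneg a]
    exact le_of_sq_le_sq h2 (by norm_num)

private lemma lal_logMul (f : ℕ → ℂ) (k n : ℕ) :
    (LSeries.logMul^[k] f) n = (Complex.log n) ^ k * f n := by
  induction k with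
  | zero => simp
  | succ k ih =>
    rw [Function.iterate_succ', Function.comp_apply]
    unfold LSeries.logMul at ih ⊢
    rw [ih, pow_succ]
    ring

/-- the terms of the series -/
private noncomputable def lalW (σ c a d : ℝ) (k n : ℕ) : ℝ :=
  lalR σ c a n * (Real.log n) ^ k * (n : ℝ) ^ (-(2 + d))

private lemma lal_W_term (σ c a d : ℝ) (hd : 0 < d) (k n : ℕ) :
    LSeries.term (LSeries.logMul^[k] (lalF σ c a)) (((1 + d : ℝ) : ℂ) + 1) n =
      ((lalW σ c a d k n : ℝ) : ℂ) := by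
  rcases Nat.eq_zero_or_pos n with h | h
  · subst h
    rw [LSeries.term_zero]
    unfold lalW
    rw [Nat.cast_zero, Real.zero_rpow (by linarith), mul_zero, ofReal_zero]
  · rw [LSeries.term_of_ne_zero h.ne', lal_logMul]
    unfold lalW lalF
    have e : (((1 + d : ℝ) : ℂ) + 1) = ((2 + d : ℝ) : ℂ) := by push_cast; ring
    rw [e, Real.rpow_neg (Nat.cast_nonneg n)]
    push_cast
    rw [Complex.ofReal_cpow (Nat.cast_nonneg n)]
    push_cast
    rw [div_eq_mul_inv]
    ring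

private lemma lal_upper (σ c a d : ℝ) (ha : 0 < a) (hd : 0 < d)
    (had : 4 * a * d + 8 * a ^ 2 ≤ 1 / 100) :
    ∃ M : ℝ, 0 ≤ M ∧ ∀ k : ℕ, Summable (lalW σ c a d k) ∧
      ∑' n, lalW σ c a d k n ≤
        (k.factorial : ℝ) * (M / (d + 2 * a) ^ k - c / (d + a) ^ (k + 1)) := by
  obtain ⟨K, hK1, hK⟩ := psi_series
  have hr : 0 < d + 2 * a := by positivity
  have hGd : ∀ s ∈ Metric.closedBall (((1 + d : ℝ) : ℂ)) (d + 2 * a),
      DifferentiableAt ℂ (lalG σ c a K) s := by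
    intro s hs
    rw [Metric.mem_closedBall, dist_eq_norm] at hs
    exact lal_Gdiff σ c a K hK1 (lal_ball a d hd had hs)
  have hcont : ContinuousOn (fun s => ‖lalG σ c a K s‖)
      (Metric.closedBall (((1 + d : ℝ) : ℂ)) (d + 2 * a)) := by
    intro s hs
    exact (hGd s hs).continuousAt.continuousWithinAt.norm
  obtain ⟨M, hM⟩ := (isCompact_closedBall (((1 + d : ℝ) : ℂ)) (d + 2 * a)).exists_bound_of_continuousOn
    (f := lalG σ c a K) (fun s hs => (hGd s hs).continuousAt.continuousWithinAt)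
  have hM0 : 0 ≤ M := (norm_nonneg _).trans (hM _ (Metric.mem_closedBall_self hr.le))
  refine ⟨M, hM0, fun k => ?_⟩
  have hdc : DiffContOnCl ℂ (lalG σ c a K) (Metric.ball (((1 + d : ℝ) : ℂ)) (d + 2 * a)) := by
    refine DifferentiableOn.diffContOnCl ?_
    rw [closure_ball _ hr.ne']
    exact fun s hs => (hGd s hs).differentiableWithinAt
  have hcau := Complex.norm_iteratedDeriv_le_of_forall_mem_sphere_norm_le k hr hdc
    (fun z hz => hM z (Metric.sphere_subset_closedBall hz))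
  have habs : LSeries.abscissaOfAbsConv (lalF σ c a) < (((((1 + d : ℝ) : ℂ)) + 1).re : EReal) := by
    have h1 : 1 < ((1 + d / 2 : ℝ) : ℂ).re := by
      rw [ofReal_re]; linarith
    have h2 := (lal_eq σ c a ha K hK h1).LSeriesSummable.abscissaOfAbsConv_le
    refine lt_of_le_of_lt h2 ?_
    have h3 : (((1 + d / 2 : ℝ) : ℂ) + 1).re < ((((1 + d : ℝ) : ℂ)) + 1).re := by
      rw [add_re, ofReal_re, one_re, add_re, ofReal_re, one_re]; linarith
    exact_mod_cast h3
  have hder := LSeries_iteratedDeriv k habs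
  have hsum : LSeriesSummable (LSeries.logMul^[k] (lalF σ c a)) (((1 + d : ℝ) : ℂ) + 1) := by
    refine LSeriesSummable_of_abscissaOfAbsConv_lt_re ?_
    rw [LSeries.absicssaOfAbsConv_logPowMul]
    exact habs
  have hfun : LSeries.term (LSeries.logMul^[k] (lalF σ c a)) (((1 + d : ℝ) : ℂ) + 1) =
      fun n => ((lalW σ c a d k n : ℝ) : ℂ) := by
    ext n
    exact lal_W_term σ c a d hd k n
  have hsumW : Summable (lalW σ c a d k) := by
    unfold LSeriesSummable at hsum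
    rw [hfun] at hsum
    exact Complex.summable_ofReal.1 hsum
  refine ⟨hsumW, ?_⟩
  have hT : LSeries (LSeries.logMul^[k] (lalF σ c a)) (((1 + d : ℝ) : ℂ) + 1) =
      ((∑' n, lalW σ c a d k n : ℝ) : ℂ) := by
    unfold LSeries
    rw [hfun, Complex.ofReal_tsum]
  rw [hT] at hder
  have hnear : (fun s : ℂ => LSeries (lalF σ c a) (s + 1)) =ᶠ[𝓝 (((1 + d : ℝ) : ℂ))]
      (fun s : ℂ => lalG σ c a K s - c * (1 * s - (1 - a : ℂ))⁻¹) := by
    have h1 : ∀ᶠ s : ℂ in 𝓝 (((1 + d : ℝ) : ℂ)), 1 < s.re := by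
      refine (isOpen_lt continuous_const Complex.continuous_re).mem_nhds ?_
      show (1 : ℝ) < ((1 + d : ℝ) : ℂ).re
      rw [ofReal_re]
      linarith
    filter_upwards [h1] with s hs
    exact (lal_eq σ c a ha K hK hs).LSeries_eq
  have e1 := Filter.EventuallyEq.iteratedDeriv_eq k hnear
  rw [iteratedDeriv_comp_add_const] at e1
  simp only [hder] at e1
  have hGana : AnalyticAt ℂ (lalG σ c a K) (((1 + d : ℝ) : ℂ)) := by
    have hU : IsOpen {s : ℂ | 1 < s.re} := isOpen_lt continuous_const Complex.continuous_re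
    have hdo : DifferentiableOn ℂ (lalG σ c a K) {s : ℂ | 1 < s.re} := fun s hs =>
      (lal_Gdiff σ c a K hK1 (Or.inl hs)).differentiableWithinAt
    refine hdo.analyticAt (hU.mem_nhds ?_)
    show (1 : ℝ) < ((1 + d : ℝ) : ℂ).re
    rw [ofReal_re]
    linarith
  have hne : (1 * (((1 + d : ℝ) : ℂ)) - (1 - a : ℂ)) ≠ 0 := by
    have e : (1 * (((1 + d : ℝ) : ℂ)) - (1 - a : ℂ)) = ((d + a : ℝ) : ℂ) := by push_cast; ring
    rw [e]
    exact_mod_cast (by positivity : d + a ≠ 0)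
  have hIana : AnalyticAt ℂ (fun s : ℂ => (c : ℂ) * (1 * s - (1 - a : ℂ))⁻¹) (((1 + d : ℝ) : ℂ)) := by
    refine analyticAt_const.mul (AnalyticAt.inv ?_ hne)
    fun_prop
  have e2 : iteratedDeriv k (fun s : ℂ => lalG σ c a K s - c * (1 * s - (1 - a : ℂ))⁻¹)
      (((1 + d : ℝ) : ℂ)) = iteratedDeriv k (lalG σ c a K) (((1 + d : ℝ) : ℂ)) -
        iteratedDeriv k (fun s : ℂ => (c : ℂ) * (1 * s - (1 - a : ℂ))⁻¹) (((1 + d : ℝ) : ℂ)) := by
    exact iteratedDeriv_sub (hGana.contDiffAt) (hIana.contDiffAt)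
  have e3 : iteratedDeriv k (fun s : ℂ => (c : ℂ) * (1 * s - (1 - a : ℂ))⁻¹) (((1 + d : ℝ) : ℂ)) =
      (-1) ^ k * (((k.factorial : ℝ) * (c / (d + a) ^ (k + 1)) : ℝ) : ℂ) := by
    rw [iteratedDeriv_const_mul_field, iteratedDeriv_eq_iterate, iter_deriv_inv_linear_sub]
    have e : (1 * (((1 + d : ℝ) : ℂ)) - (1 - a : ℂ)) = ((d + a : ℝ) : ℂ) := by push_cast; ring
    simp only [e]
    have e5 : (-1 - (k : ℤ)) = -((k + 1 : ℕ) : ℤ) := by push_cast; ring
    rw [e5, zpow_neg, zpow_natCast]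
    push_cast
    rw [div_eq_mul_inv]
    ring
  rw [e2, e3] at e1
  have hre : ∑' n, lalW σ c a d k n = ((-1) ^ k * iteratedDeriv k (lalG σ c a K) (((1 + d : ℝ) : ℂ))).re
      - (k.factorial : ℝ) * (c / (d + a) ^ (k + 1)) := by
    have e6 : ((∑' n, lalW σ c a d k n : ℝ) : ℂ) =
        (-1) ^ k * iteratedDeriv k (lalG σ c a K) (((1 + d : ℝ) : ℂ)) -
        (((k.factorial : ℝ) * (c / (d + a) ^ (k + 1)) : ℝ) : ℂ) := by
      have e7 : ((-1 : ℂ) ^ k) * (-1) ^ k = 1 := by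
        rw [← mul_pow]; norm_num
      have e8 := congrArg (fun z => (-1 : ℂ) ^ k * z) e1
      rw [← mul_assoc, e7, one_mul, mul_sub, ← mul_assoc ((-1 : ℂ) ^ k) ((-1) ^ k), e7, one_mul] at e8
      exact e8
    have e9 := congrArg Complex.re e6
    rw [ofReal_re, sub_re, ofReal_re] at e9
    exact e9
  rw [hre]
  have hn : ((-1) ^ k * iteratedDeriv k (lalG σ c a K) (((1 + d : ℝ) : ℂ))).re ≤
      (k.factorial : ℝ) * M / (d + 2 * a) ^ k := by
    refine (Complex.re_le_norm _).trans ?_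
    rw [norm_mul, norm_pow, norm_neg, norm_one, one_pow, one_mul]
    exact hcau
  have e10 : (k.factorial : ℝ) * (M / (d + 2 * a) ^ k - c / (d + a) ^ (k + 1)) =
      (k.factorial : ℝ) * M / (d + 2 * a) ^ k - (k.factorial : ℝ) * (c / (d + a) ^ (k + 1)) := by
    ring
  rw [e10]
  linarith

/-- `u^k e^(-δu) ≤ V^k e^(-δV)` -/
private lemma lal_gk (k : ℕ) (δ u V : ℝ) (hu : 0 ≤ u) (hV : 0 < V)
    (h : (k / V - δ) * (u - V) ≤ 0) :
    u ^ k * Real.exp (-(δ * u)) ≤ V ^ k * Real.exp (-(δ * V)) := by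
  have h1 : u / V ≤ Real.exp (u / V - 1) := by
    have := Real.add_one_le_exp (u / V - 1)
    linarith
  have h2 : (u / V) ^ k ≤ Real.exp (k * (u / V - 1)) := by
    rw [Real.exp_nat_mul]
    exact pow_le_pow_left₀ (by positivity) h1 k
  have h3 : (k : ℝ) * (u / V - 1) ≤ δ * u - δ * V := by
    have e : (k / V - δ) * (u - V) = (k : ℝ) * (u / V - 1) - (δ * u - δ * V) := by
      field_simp
    linarith
  have h4 : (u / V) ^ k ≤ Real.exp (δ * u - δ * V) := h2.trans (Real.exp_le_exp.2 h3)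
  have h5 : u ^ k ≤ V ^ k * Real.exp (δ * u - δ * V) := by
    rw [div_pow, div_le_iff₀ (by positivity)] at h4
    linarith
  calc u ^ k * Real.exp (-(δ * u))
      ≤ V ^ k * Real.exp (δ * u - δ * V) * Real.exp (-(δ * u)) := by gcongr
    _ = V ^ k * Real.exp (-(δ * V)) := by
        rw [mul_assoc, ← Real.exp_add]
        congr 2
        ring

/-- `(k+1)^k ≤ e^(k+1) k!` -/
private lemma lal_fac (k : ℕ) (κ U : ℝ) (hκ : 0 < κ) (hU : 0 ≤ U) (h : κ * U ≤ k + 1) :
    U ^ k ≤ (k.factorial : ℝ) * (Real.exp 1 * (Real.exp 1 / κ) ^ k) := by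
  have h1 : ((k + 1 : ℝ)) ^ (k + 1) / ((k + 1).factorial : ℝ) ≤ Real.exp (k + 1) := by
    exact_mod_cast Real.pow_div_factorial_le_exp ((k + 1 : ℝ)) (by positivity) (k + 1)
  have h2 : ((k + 1 : ℝ)) ^ k ≤ (k.factorial : ℝ) * Real.exp (k + 1) := by
    have e : ((k + 1 : ℝ)) ^ (k + 1) / ((k + 1).factorial : ℝ) =
        ((k + 1 : ℝ)) ^ k / (k.factorial : ℝ) := by
      rw [Nat.factorial_succ]
      push_cast
      rw [pow_succ]
      have : (k.factorial : ℝ) ≠ 0 := by positivity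
      field_simp
    rw [e, div_le_iff₀ (by positivity)] at h1
    linarith
  have h3 : U ≤ (k + 1) / κ := by
    rw [le_div_iff₀ hκ]
    linarith
  calc U ^ k ≤ ((k + 1) / κ) ^ k := pow_le_pow_left₀ hU h3 k
    _ = ((k + 1 : ℝ)) ^ k / κ ^ k := by rw [div_pow]
    _ ≤ ((k.factorial : ℝ) * Real.exp (k + 1)) / κ ^ k := by gcongr
    _ = (k.factorial : ℝ) * (Real.exp 1 * (Real.exp 1 / κ) ^ k) := by
        rw [Real.exp_add, div_pow, ← Real.exp_nat_mul, mul_one]
        ring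

private lemma lal_abs (σ c a : ℝ) (hσ : σ = 1 ∨ σ = -1) (hc : 0 < c) (ha : 0 < a) (n : ℕ)
    (hn : 1 ≤ n) : -((Real.log 4 + 5 + c) * n) ≤ lalR σ c a n := by
  have hn1 : (1 : ℝ) ≤ n := by exact_mod_cast hn
  have h1 := Chebyshev.psi_le_const_mul_self (x := (n : ℝ)) (by positivity)
  have h2 := Chebyshev.psi_nonneg (n : ℝ)
  have h3 : (n : ℝ) ^ (1 - a) ≤ n := by
    calc (n : ℝ) ^ (1 - a) ≤ (n : ℝ) ^ (1 : ℝ) :=
          Real.rpow_le_rpow_of_exponent_le hn1 (by linarith)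
      _ = n := Real.rpow_one _
  have hl : 0 ≤ Real.log 4 := Real.log_nonneg (by norm_num)
  have h4 : c * (n : ℝ) ^ (1 - a) ≤ c * n := by gcongr
  have h5 : 0 ≤ Real.log 4 * n := by positivity
  unfold lalR
  rcases hσ with h | h
  · rw [h]
    nlinarith
  · rw [h]
    nlinarith

/-- lower bound of the sum -/
private lemma lal_lower (σ c a d τ : ℝ) (hσ : σ = 1 ∨ σ = -1) (hc : 0 < c) (ha : 0 < a)
    (hτ : τ < d) (k : ℕ) (U V : ℝ) (hU : 0 < U) (hV : 0 < V)
    (hkU : (k : ℝ) / U ≤ τ) (hkV : d ≤ k / V)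
    (hsum : Summable (lalW σ c a d k))
    (hpos : ∀ n : ℕ, 1 ≤ n → V ≤ Real.log n → Real.log n ≤ U → 0 ≤ lalR σ c a n) :
    -((Real.log 4 + 5 + c) * (V ^ k * Real.exp (-(d * V)) * (1 + V) +
      U ^ k * Real.exp (-(τ * U)) * ∑' n : ℕ, (n : ℝ) ^ (-(1 + (d - τ))))) ≤
        ∑' n, lalW σ c a d k n := by
  set C := Real.log 4 + 5 + c with hC
  have hC0 : 0 < C := by
    have hl : 0 ≤ Real.log 4 := Real.log_nonneg (by norm_num)
    positivity
  set A := V ^ k * Real.exp (-(d * V)) with hA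
  set B := U ^ k * Real.exp (-(τ * U)) with hB
  have hA0 : 0 < A := by positivity
  have hB0 : 0 < B := by positivity
  set N := ⌊Real.exp V⌋₊ with hN
  set m1 : ℕ → ℝ := fun n => if n ∈ Finset.range (N + 1) then A * (n : ℝ)⁻¹ else 0 with hm1
  set m2 : ℕ → ℝ := fun n => B * (n : ℝ) ^ (-(1 + (d - τ))) with hm2
  have hs1 : HasSum m1 (∑ n ∈ Finset.range (N + 1), A * (n : ℝ)⁻¹) := by
    have h : HasSum m1 (∑ n ∈ Finset.range (N + 1), m1 n) := hasSum_sum_of_ne_finset_zero (by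
      intro n hn
      rw [hm1]
      simp only [hn, if_false])
    have e : ∑ n ∈ Finset.range (N + 1), m1 n = ∑ n ∈ Finset.range (N + 1), A * (n : ℝ)⁻¹ := by
      refine Finset.sum_congr rfl fun n hn => ?_
      rw [hm1]
      simp only [hn, if_true]
    rw [e] at h
    exact h
  have hs2 : HasSum m2 (B * ∑' n : ℕ, (n : ℝ) ^ (-(1 + (d - τ)))) := by
    refine (Summable.hasSum ?_).mul_left B
    exact Real.summable_nat_rpow.2 (by linarith)
  have hb1 : ∑ n ∈ Finset.range (N + 1), A * (n : ℝ)⁻¹ ≤ A * (1 + V) := by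
    rw [← Finset.mul_sum]
    refine mul_le_mul_of_nonneg_left ?_ hA0.le
    have e : ∑ n ∈ Finset.range (N + 1), (n : ℝ)⁻¹ = ((harmonic N : ℚ) : ℝ) := by
      rw [Finset.sum_range_succ']
      simp only [Nat.cast_zero, inv_zero, add_zero, harmonic]
      push_cast
      rfl
    rw [e]
    refine (harmonic_le_one_add_log N).trans ?_
    have hN1 : 1 ≤ N := by
      rw [hN]
      exact Nat.one_le_floor_iff _ |>.2 (Real.one_le_exp hV.le)
    have : Real.log N ≤ V := by
      rw [Real.log_le_iff_le_exp (by exact_mod_cast hN1)]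
      exact Nat.floor_le (Real.exp_pos V).le
    linarith
  have hmain : ∀ n, -(C * (m1 n + m2 n)) ≤ lalW σ c a d k n := by
    intro n
    rcases Nat.eq_zero_or_pos n with h0 | h0
    · have e : lalW σ c a d k n = 0 := by
        unfold lalW
        rcases eq_or_ne (2 + d) 0 with hz | hz
        · exfalso
          have : 0 ≤ (k : ℝ) / V := by positivity
          have h2 : 0 ≤ (k : ℝ) / U := by positivity
          linarith
        · rw [h0, Nat.cast_zero, Real.zero_rpow (neg_ne_zero.2 hz), mul_zero]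
      rw [e]
      have h1 : 0 ≤ m1 n := by
        rw [hm1]
        dsimp only
        split_ifs <;> positivity
      have h2 : 0 ≤ m2 n := by
        rw [hm2]
        positivity
      have := mul_nonneg hC0.le (add_nonneg h1 h2)
      linarith
    · have hn1 : (1 : ℝ) ≤ n := by exact_mod_cast h0
      have hn0 : (0 : ℝ) < n := by linarith
      have hl0 : 0 ≤ Real.log n := Real.log_nonneg hn1
      have h1 : 0 ≤ m1 n := by
        rw [hm1]
        dsimp only
        split_ifs <;> positivity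
      have h2 : 0 ≤ m2 n := by
        rw [hm2]
        positivity
      have hlow : -(C * ((n : ℝ) ^ (-(1 + d)) * Real.log n ^ k)) ≤ lalW σ c a d k n := by
        have h3 := lal_abs σ c a hσ hc ha n h0
        unfold lalW
        have e : -(C * ((n : ℝ) ^ (-(1 + d)) * Real.log n ^ k)) =
            -(C * n) * Real.log n ^ k * (n : ℝ) ^ (-(2 + d)) := by
          have : (n : ℝ) ^ (-(1 + d)) = n * (n : ℝ) ^ (-(2 + d)) := by
            rw [show -(1 + d) = 1 + -(2 + d) by ring, Real.rpow_add hn0, Real.rpow_one]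
          rw [this]
          ring
        rw [e]
        gcongr
      rcases lt_or_ge (Real.log n) V with hlt | hge
      · have hmem : n ∈ Finset.range (N + 1) := by
          rw [Finset.mem_range, Nat.lt_succ_iff, hN]
          refine Nat.le_floor ?_
          rw [← Real.log_le_iff_le_exp hn0]
          exact hlt.le
        have e1 : m1 n = A * (n : ℝ)⁻¹ := by
          rw [hm1]
          simp only [hmem, if_true]
        have h3 := lal_gk k d (Real.log n) V hl0 hV
          (mul_nonpos_of_nonneg_of_nonpos (by linarith) (by linarith))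
        have h4 : (n : ℝ) ^ (-(1 + d)) * Real.log n ^ k ≤ m1 n := by
          rw [e1]
          have e : (n : ℝ) ^ (-(1 + d)) = (n : ℝ)⁻¹ * Real.exp (-(d * Real.log n)) := by
            rw [show -(1 + d) = -1 + -d by ring, Real.rpow_add hn0, Real.rpow_neg_one,
              Real.rpow_def_of_pos hn0 (-d)]
            congr 2
            ring
          rw [e]
          calc (n : ℝ)⁻¹ * Real.exp (-(d * Real.log n)) * Real.log n ^ k
              = (Real.log n ^ k * Real.exp (-(d * Real.log n))) * (n : ℝ)⁻¹ := by ring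
            _ ≤ A * (n : ℝ)⁻¹ := by gcongr
        refine le_trans ?_ hlow
        have h5 : C * ((n : ℝ) ^ (-(1 + d)) * Real.log n ^ k) ≤ C * (m1 n + m2 n) := by
          refine mul_le_mul_of_nonneg_left ?_ hC0.le
          linarith
        linarith
      · rcases le_or_gt (Real.log n) U with hle | hgt
        · have h3 := hpos n h0 hge hle
          have h4 : 0 ≤ lalW σ c a d k n := by
            unfold lalW
            positivity
          have := mul_nonneg hC0.le (add_nonneg h1 h2)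
          linarith
        · have h3 := lal_gk k τ (Real.log n) U hl0 hU
            (mul_nonpos_of_nonpos_of_nonneg (by linarith) (by linarith))
          have h4 : (n : ℝ) ^ (-(1 + d)) * Real.log n ^ k ≤ m2 n := by
            rw [hm2]
            dsimp only
            have e : (n : ℝ) ^ (-(1 + d)) =
                (n : ℝ) ^ (-(1 + (d - τ))) * Real.exp (-(τ * Real.log n)) := by
              rw [show -(1 + d) = -(1 + (d - τ)) + -τ by ring, Real.rpow_add hn0,
                Real.rpow_def_of_pos hn0 (-τ)]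
              congr 2
              ring
            rw [e]
            calc (n : ℝ) ^ (-(1 + (d - τ))) * Real.exp (-(τ * Real.log n)) * Real.log n ^ k
                = (Real.log n ^ k * Real.exp (-(τ * Real.log n))) *
                  (n : ℝ) ^ (-(1 + (d - τ))) := by ring
              _ ≤ B * (n : ℝ) ^ (-(1 + (d - τ))) := by gcongr
          refine le_trans ?_ hlow
          have h5 : C * ((n : ℝ) ^ (-(1 + d)) * Real.log n ^ k) ≤ C * (m1 n + m2 n) := by
            refine mul_le_mul_of_nonneg_left ?_ hC0.le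
            linarith
          linarith
  have hS := ((hs1.add hs2).mul_left C).neg
  have h6 := hasSum_le hmain hS hsum.hasSum
  refine le_trans ?_ h6
  have h7 : C * (∑ n ∈ Finset.range (N + 1), A * (n : ℝ)⁻¹ +
      B * ∑' n : ℕ, (n : ℝ) ^ (-(1 + (d - τ)))) ≤
      C * (A * (1 + V) + B * ∑' n : ℕ, (n : ℝ) ^ (-(1 + (d - τ)))) := by
    refine mul_le_mul_of_nonneg_left ?_ hC0.le
    linarith
  linarith


/-- the exponential rates -/
private lemma lal_rates (C Z κ b ρ₁ ρ₂ M r c : ℝ) (hb : 0 < b) (hr : b < r)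
    (hc : 0 < c) (h1 : 0 < ρ₁) (h1' : ρ₁ * b < 1) (h2 : 0 < ρ₂) (h2' : ρ₂ * b < 1) :
    ∀ᶠ k : ℕ in atTop, M / r ^ k + C * (Real.exp 1 * ρ₂ ^ k * (1 + (k + 1) / κ) +
      Real.exp 1 * ρ₁ ^ k * Z) < c / b ^ (k + 1) := by
  have hr0 : 0 < r := hb.trans hr
  have t1 : Tendsto (fun k : ℕ => (b / r) ^ k) atTop (𝓝 0) :=
    tendsto_pow_atTop_nhds_zero_of_lt_one (by positivity) (by rw [div_lt_one hr0]; exact hr)
  have t2 : Tendsto (fun k : ℕ => (ρ₁ * b) ^ k) atTop (𝓝 0) :=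
    tendsto_pow_atTop_nhds_zero_of_lt_one (by positivity) h1'
  have t3 : Tendsto (fun k : ℕ => (ρ₂ * b) ^ k) atTop (𝓝 0) :=
    tendsto_pow_atTop_nhds_zero_of_lt_one (by positivity) h2'
  have t4 : Tendsto (fun k : ℕ => (k : ℝ) * (ρ₂ * b) ^ k) atTop (𝓝 0) :=
    tendsto_self_mul_const_pow_of_lt_one (by positivity) h2'
  have t5 : Tendsto (fun k : ℕ => M * (b / r) ^ k + C * (Real.exp 1 * ((1 + 1 / κ) * (ρ₂ * b) ^ k +
      (1 / κ) * ((k : ℝ) * (ρ₂ * b) ^ k)) + Real.exp 1 * Z * (ρ₁ * b) ^ k)) atTop (𝓝 0) := by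
    have := (t1.const_mul M).add (((((t3.const_mul (1 + 1 / κ)).add (t4.const_mul (1 / κ))).const_mul
      (Real.exp 1)).add (t2.const_mul (Real.exp 1 * Z))).const_mul C)
    simpa using this
  have hcb : 0 < c / b := by positivity
  filter_upwards [t5.eventually (gt_mem_nhds hcb)] with k hk
  have hbk : 0 < b ^ k := by positivity
  have hk2 := mul_lt_mul_of_pos_right hk (inv_pos.2 hbk)
  have e1 : (M * (b / r) ^ k + C * (Real.exp 1 * ((1 + 1 / κ) * (ρ₂ * b) ^ k +
      (1 / κ) * ((k : ℝ) * (ρ₂ * b) ^ k)) + Real.exp 1 * Z * (ρ₁ * b) ^ k)) * (b ^ k)⁻¹ =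
      M / r ^ k + C * (Real.exp 1 * ρ₂ ^ k * (1 + (k + 1) / κ) + Real.exp 1 * ρ₁ ^ k * Z) := by
    rw [div_pow, mul_pow, mul_pow]
    field_simp
    ring
  have e2 : c / b * (b ^ k)⁻¹ = c / b ^ (k + 1) := by
    rw [pow_succ]
    field_simp
  rw [e1, e2] at hk2
  exact hk2

theorem landau_loc (σ c a d η κ τ : ℝ) (hσ : σ = 1 ∨ σ = -1) (hc : 0 < c) (ha : 0 < a)
    (hd : 0 < d) (had : 4 * a * d + 8 * a ^ 2 ≤ 1 / 100) (hη0 : 0 < η) (hη1 : η < 1)
    (hκ0 : 0 < κ) (hκ1 : d * (1 - η) < κ) (hκτ : κ < τ) (hτd : τ < d)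
    (h1 : Real.exp (1 - τ / κ) * (d + a) < κ)
    (h2 : (1 - η) * Real.exp (1 - d * (1 - η) / κ) * (d + a) < κ) :
    ∀ᶠ X : ℝ in atTop, ∃ n : ℕ, X ^ (1 - η) ≤ n ∧ (n : ℝ) ≤ X ∧
      σ * (Chebyshev.psi n - n) < c * (n : ℝ) ^ (1 - a) := by
  obtain ⟨M, hM0, hM⟩ := lal_upper σ c a d ha hd had
  set Z : ℝ := ∑' n : ℕ, (n : ℝ) ^ (-(1 + (d - τ))) with hZ
  set C : ℝ := Real.log 4 + 5 + c with hC
  have hC0 : 0 < C := by
    have hl : 0 ≤ Real.log 4 := Real.log_nonneg (by norm_num)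
    positivity
  have hZ0 : 0 ≤ Z := tsum_nonneg fun n => by positivity
  have hη : 0 < 1 - η := by linarith
  set ρ₁ : ℝ := Real.exp (1 - τ / κ) / κ with hρ₁
  set ρ₂ : ℝ := (1 - η) * Real.exp (1 - d * (1 - η) / κ) / κ with hρ₂
  have hr1 : ρ₁ * (d + a) < 1 := by
    rw [hρ₁, div_mul_eq_mul_div, div_lt_one hκ0]
    exact h1
  have hr2 : ρ₂ * (d + a) < 1 := by
    rw [hρ₂, div_mul_eq_mul_div, div_lt_one hκ0]
    exact h2
  have hrates := lal_rates C Z κ (d + a) ρ₁ ρ₂ M (d + 2 * a) c (by positivity) (by linarith) hc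
    (by positivity) hr1 (by positivity) hr2
  have hfl : Tendsto (fun X : ℝ => ⌊κ * Real.log X⌋₊) atTop atTop :=
    tendsto_nat_floor_atTop.comp (Real.tendsto_log_atTop.const_mul_atTop hκ0)
  have hgap : 0 < κ - d * (1 - η) := by linarith
  filter_upwards [hfl.eventually hrates, eventually_gt_atTop (1 : ℝ),
    Real.tendsto_log_atTop.eventually_ge_atTop (1 / (κ - d * (1 - η)))] with X hX hX1 hX2
  by_contra hcon
  push Not at hcon
  set U : ℝ := Real.log X with hU
  set k : ℕ := ⌊κ * U⌋₊ with hk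
  have hU0 : 0 < U := Real.log_pos hX1
  have hX0 : 0 < X := by linarith
  have hk1 : (k : ℝ) ≤ κ * U := Nat.floor_le (by positivity)
  have hk2 : κ * U < k + 1 := Nat.lt_floor_add_one _
  set V : ℝ := (1 - η) * U with hV
  have hV0 : 0 < V := by positivity
  have hkU : (k : ℝ) / U ≤ τ := by
    rw [div_le_iff₀ hU0]
    nlinarith
  have hkV : d ≤ k / V := by
    rw [le_div_iff₀ hV0]
    rw [div_le_iff₀ hgap] at hX2
    have : d * V = d * (1 - η) * U := by rw [hV]; ring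
    rw [this]
    nlinarith
  obtain ⟨hsum, hup⟩ := hM k
  have hpos : ∀ n : ℕ, 1 ≤ n → V ≤ Real.log n → Real.log n ≤ U → 0 ≤ lalR σ c a n := by
    intro n hn hn1 hn2
    have hn0 : (0 : ℝ) < n := by exact_mod_cast hn
    have h3 : X ^ (1 - η) ≤ n := by
      rw [Real.rpow_def_of_pos hX0, ← Real.le_log_iff_exp_le hn0]
      have : Real.log X * (1 - η) = V := by rw [hV, hU]; ring
      rw [this]
      exact hn1
    have h4 : (n : ℝ) ≤ X := by
      rwa [← Real.log_le_log_iff hn0 hX0]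
    have := hcon n h3 h4
    unfold lalR
    linarith
  have hlow := lal_lower σ c a d τ hσ hc ha hτd k U V hU0 hV0 hkU hkV hsum hpos
  have hf := lal_fac k κ U hκ0 hU0.le hk2.le
  have hfac0 : (0 : ℝ) < k.factorial := by positivity
  have hUk : (k : ℝ) / κ ≤ U := by
    rw [div_le_iff₀ hκ0]
    linarith
  have hB : U ^ k * Real.exp (-(τ * U)) ≤ (k.factorial : ℝ) * (Real.exp 1 * ρ₁ ^ k) := by
    have hτ0 : 0 < τ := by linarith
    have h5 : Real.exp (-(τ * U)) ≤ Real.exp (-(τ / κ)) ^ k := by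
      rw [← Real.exp_nat_mul]
      refine Real.exp_le_exp.2 ?_
      have : τ * ((k : ℝ) / κ) ≤ τ * U := by gcongr
      have e : (k : ℝ) * -(τ / κ) = -(τ * ((k : ℝ) / κ)) := by ring
      rw [e]
      linarith
    calc U ^ k * Real.exp (-(τ * U))
        ≤ ((k.factorial : ℝ) * (Real.exp 1 * (Real.exp 1 / κ) ^ k)) * Real.exp (-(τ / κ)) ^ k := by
          gcongr
      _ = (k.factorial : ℝ) * (Real.exp 1 * ((Real.exp 1 / κ) * Real.exp (-(τ / κ))) ^ k) := by
          rw [mul_pow (Real.exp 1 / κ)]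
          ring
      _ = (k.factorial : ℝ) * (Real.exp 1 * ρ₁ ^ k) := by
          have e : (Real.exp 1 / κ) * Real.exp (-(τ / κ)) = ρ₁ := by
            rw [hρ₁, sub_eq_add_neg, Real.exp_add]
            ring
          rw [e]
  have hA : V ^ k * Real.exp (-(d * V)) ≤ (k.factorial : ℝ) * (Real.exp 1 * ρ₂ ^ k) := by
    have h5 : Real.exp (-(d * V)) ≤ Real.exp (-(d * (1 - η) / κ)) ^ k := by
      rw [← Real.exp_nat_mul]
      refine Real.exp_le_exp.2 ?_
      have : d * (1 - η) * ((k : ℝ) / κ) ≤ d * (1 - η) * U := by gcongr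
      have e : (k : ℝ) * -(d * (1 - η) / κ) = -(d * (1 - η) * ((k : ℝ) / κ)) := by ring
      have e' : d * V = d * (1 - η) * U := by rw [hV]; ring
      rw [e, e']
      linarith
    calc V ^ k * Real.exp (-(d * V)) = (1 - η) ^ k * U ^ k * Real.exp (-(d * V)) := by
          rw [hV, mul_pow]
      _ ≤ (1 - η) ^ k * ((k.factorial : ℝ) * (Real.exp 1 * (Real.exp 1 / κ) ^ k)) *
          Real.exp (-(d * (1 - η) / κ)) ^ k := by
          gcongr
      _ = (k.factorial : ℝ) * (Real.exp 1 *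
          (((1 - η) * (Real.exp 1 / κ)) * Real.exp (-(d * (1 - η) / κ))) ^ k) := by
          rw [mul_pow ((1 - η) * (Real.exp 1 / κ)), mul_pow (1 - η)]
          ring
      _ = (k.factorial : ℝ) * (Real.exp 1 * ρ₂ ^ k) := by
          have e : ((1 - η) * (Real.exp 1 / κ)) * Real.exp (-(d * (1 - η) / κ)) = ρ₂ := by
            have e9 : 1 - d * (1 - η) / κ = 1 + -(d * (1 - η) / κ) := by ring
            rw [hρ₂, e9, Real.exp_add]
            ring
          rw [e]
  have hV1 : 1 + V ≤ 1 + (k + 1) / κ := by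
    have h6 : U ≤ (k + 1) / κ := by
      rw [le_div_iff₀ hκ0]
      linarith
    have h7 : V ≤ U := by
      rw [hV]
      nlinarith
    linarith
  have h8 : C * (V ^ k * Real.exp (-(d * V)) * (1 + V) + U ^ k * Real.exp (-(τ * U)) * Z) ≤
      (k.factorial : ℝ) * (C * (Real.exp 1 * ρ₂ ^ k * (1 + (k + 1) / κ) +
        Real.exp 1 * ρ₁ ^ k * Z)) := by
    calc C * (V ^ k * Real.exp (-(d * V)) * (1 + V) + U ^ k * Real.exp (-(τ * U)) * Z)
        ≤ C * (((k.factorial : ℝ) * (Real.exp 1 * ρ₂ ^ k)) * (1 + (k + 1) / κ) +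
          ((k.factorial : ℝ) * (Real.exp 1 * ρ₁ ^ k)) * Z) := by
          gcongr
      _ = (k.factorial : ℝ) * (C * (Real.exp 1 * ρ₂ ^ k * (1 + (k + 1) / κ) +
        Real.exp 1 * ρ₁ ^ k * Z)) := by ring
  have h9 : -((k.factorial : ℝ) * (C * (Real.exp 1 * ρ₂ ^ k * (1 + (k + 1) / κ) +
        Real.exp 1 * ρ₁ ^ k * Z))) ≤
      (k.factorial : ℝ) * (M / (d + 2 * a) ^ k - c / (d + a) ^ (k + 1)) := by
    refine le_trans ?_ hup
    refine le_trans ?_ hlow
    linarith
  have h10 : 0 ≤ M / (d + 2 * a) ^ k - c / (d + a) ^ (k + 1) +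
      C * (Real.exp 1 * ρ₂ ^ k * (1 + (k + 1) / κ) + Real.exp 1 * ρ₁ ^ k * Z) := by
    by_contra hneg
    push Not at hneg
    have := mul_neg_of_pos_of_neg hfac0 hneg
    linarith
  linarith

end Pool.Agent.H48.OM
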