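import Pool.Agent.H48.OM.ZNZ
import Pool.Agent.H48.OM.PsiSer

/-!
[H48 OM LANDAU]  `psi(n) - n` is not of one sign up to `n^(99/100)` (Landau's lemma).

Proof.  Suppose `c n^(99/100) ≤ σ (psi n - n)` for all `n ≥ N`, `N ≥ 1`.
Let `a(n) = σ (psi n - n) - c n^(99/100)` for `n ≥ N`, `a(n) = 0` for `n < N`; `a ≥ 0`,
`|a(n)| ≤ C n`.
(1) For `Re s > 1`: `LSeries a (s+1) = σ (LSeries psi (s+1) - ζ(s)) - c ζ(s + 1/100) - P(s)` where
`P(s) = ∑_{1 ≤ n < N} (σ (psi n - n) - c n^(99/100)) n^(-s-1)` is entire; here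
`∑ n n^(-s-1) = ζ(s)`, `∑ n^(99/100) n^(-s-1) = ζ(s+1/100)` (`zeta_eq_tsum_one_div_nat_cpow`).
(2) With `ζ(s) = (s-1)⁻¹ ζ₁(s)`, `-ζ'/ζ(s) = 1/(s-1) - ζ₁'/ζ₁(s)`
(`deriv_riemannZeta_eq_neg_inv_sub_sq_mul_add`, `riemannZeta_eq_inv_sub_mul`),
`ζ(s) = (s-1)⁻¹ + ζ₀(s)` (`riemannZeta_eq_inv_sub_add`) and `psi_series`, for `Re s > 1`:
`LSeries a (s+1) = G(s)`,
`G(s) = σ (-1/s - ζ₁'(s)/(s ζ₁(s)) - ζ₀(s) + K(s)) - c ((s - 99/100)⁻¹ + ζ₀(s + 1/100)) - P(s)`.
`G` is differentiable on the open ball `B(101/100, 2/100)` (`‖s - 1‖ < 3/100`, so `ζ₁(s) ≠ 0` by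
`zeta1_ne`, `Re s > 0`, `s ≠ 99/100`); `ζ₀, ζ₁` are entire.
(3) `0 ≤ (-1)^k * iteratedDeriv k (LSeries a) (201/100)` (`LSeries.iteratedDeriv_alternating`,
abscissa `≤ 2`), so `0 ≤ (-1)^k * iteratedDeriv k G (101/100)` (`G(s) = LSeries a (s+1)` near
`101/100`; `iteratedDeriv_comp_add_const`, `Filter.EventuallyEq.iteratedDeriv_eq`).
`DifferentiableOn.nonneg_of_iteratedDeriv_nonneg` (`Mathlib/Analysis/Complex/Positivity.lean`) for
`f(z) = G(-z)`, center `-101/100`, radius `2/100` (`iteratedDeriv_comp_neg`): `0 ≤ G(s)` for real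
`s ∈ (99/100, 101/100]`.
(4) As `s → 99/100` from the right (real), `-c/(s - 99/100) → -∞` and the other terms of `G` are
continuous at `99/100` (`‖99/100 - 1‖ ≤ 1/10`), so `(G s).re → -∞`, a contradiction.
-/

namespace Pool.Agent.H48.OM

open Filter Complex Topology
open scoped ComplexOrder

private lemma lan_term (α : ℝ) {s : ℂ} (hs : s + 1 - α ≠ 0) (n : ℕ) :
    LSeries.term (fun n => (((n : ℝ) ^ α : ℝ) : ℂ)) (s + 1) n = 1 / (n : ℂ) ^ (s + 1 - α) := by
  rcases Nat.eq_zero_or_pos n with h | h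
  · subst h
    rw [LSeries.term_zero, Nat.cast_zero, Complex.zero_cpow hs, div_zero]
  · rw [LSeries.term_of_ne_zero h.ne']
    have h0 : (n : ℂ) ≠ 0 := by exact_mod_cast h.ne'
    rw [Complex.cpow_sub _ _ h0, Complex.ofReal_cpow (Nat.cast_nonneg n), Complex.ofReal_natCast]
    rw [one_div, inv_div]

private lemma lan_pow (α : ℝ) (hα : α ≤ 1) {s : ℂ} (hs : 1 < s.re) :
    LSeriesHasSum (fun n => (((n : ℝ) ^ α : ℝ) : ℂ)) (s + 1) (riemannZeta (s + 1 - α)) := by
  have hre : 1 < (s + 1 - α).re := by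
    simp only [sub_re, add_re, one_re, ofReal_re]
    linarith
  have hne : s + 1 - α ≠ 0 := by
    intro h
    rw [h] at hre
    simp at hre
    linarith
  unfold LSeriesHasSum
  have h1 : (LSeries.term (fun n => (((n : ℝ) ^ α : ℝ) : ℂ)) (s + 1)) =
      fun n : ℕ => 1 / (n : ℂ) ^ (s + 1 - α) := by
    ext n
    exact lan_term α hne n
  rw [h1, zeta_eq_tsum_one_div_nat_cpow hre]
  exact (Complex.summable_one_div_nat_cpow.mpr hre).hasSum

/-- the coefficients -/
private noncomputable def lanF (σ c : ℝ) (n : ℕ) : ℂ :=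
  ((σ * (Chebyshev.psi n - n) - c * (n : ℝ) ^ (99 / 100 : ℝ) : ℝ) : ℂ)

private lemma lan_F (σ c : ℝ) (K : ℂ → ℂ) (hK : ∀ s : ℂ, 1 < s.re →
      LSeriesSummable (fun n => ((Chebyshev.psi n : ℝ) : ℂ)) (s + 1) ∧
      LSeries (fun n => ((Chebyshev.psi n : ℝ) : ℂ)) (s + 1) =
        -(deriv riemannZeta s / riemannZeta s) / s + K s) {s : ℂ} (hs : 1 < s.re) :
    LSeriesHasSum (lanF σ c) (s + 1)
      (σ * (-(deriv riemannZeta s / riemannZeta s) / s + K s) - σ * riemannZeta s -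
        c * riemannZeta (s + 1 / 100)) := by
  have h1 : LSeriesHasSum (fun n => ((Chebyshev.psi n : ℝ) : ℂ)) (s + 1)
      (-(deriv riemannZeta s / riemannZeta s) / s + K s) := by
    rw [← (hK s hs).2]
    exact (hK s hs).1.LSeriesHasSum
  have h2 := lan_pow 1 le_rfl hs
  have h3 := lan_pow (99 / 100) (by norm_num) hs
  have e2 : s + 1 - ((1 : ℝ) : ℂ) = s := by push_cast; ring
  have e3 : s + 1 - ((99 / 100 : ℝ) : ℂ) = s + 1 / 100 := by push_cast; ring
  rw [e2] at h2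
  rw [e3] at h3
  have h4 := ((h1.smul (σ : ℂ)).sub (h2.smul (σ : ℂ))).sub (h3.smul (c : ℂ))
  have e4 : lanF σ c = (σ : ℂ) • (fun n : ℕ => ((Chebyshev.psi n : ℝ) : ℂ)) -
      (σ : ℂ) • (fun n : ℕ => (((n : ℝ) ^ (1 : ℝ) : ℝ) : ℂ)) -
      (c : ℂ) • (fun n : ℕ => (((n : ℝ) ^ (99 / 100 : ℝ) : ℝ) : ℂ)) := by
    ext n
    simp only [lanF, Pi.sub_apply, Pi.smul_apply, smul_eq_mul, Real.rpow_one]
    push_cast
    ring
  rw [e4]
  exact h4

/-- the finite part -/
private noncomputable def lanP (σ c : ℝ) (N : ℕ) (s : ℂ) : ℂ :=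
  ∑ n ∈ Finset.range N, LSeries.term (lanF σ c) (s + 1) n

private lemma lanP_diff (σ c : ℝ) (N : ℕ) : Differentiable ℂ (lanP σ c N) := by
  unfold lanP
  refine Differentiable.fun_sum fun n _ => ?_
  rcases Nat.eq_zero_or_pos n with h | h
  · subst h
    simp only [LSeries.term_zero]
    exact differentiable_const _
  · have h0 : (n : ℂ) ≠ 0 := by exact_mod_cast h.ne'
    have e : (fun s : ℂ => LSeries.term (lanF σ c) (s + 1) n) =
        fun s : ℂ => lanF σ c n / (n : ℂ) ^ (s + 1) := by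
      ext s
      rw [LSeries.term_of_ne_zero h.ne']
    rw [e]
    intro s
    refine DifferentiableAt.div (differentiableAt_const _) ?_ ?_
    · exact DifferentiableAt.const_cpow (by fun_prop) (Or.inl h0)
    · rw [Complex.cpow_ne_zero_iff]
      exact Or.inl h0

/-- the nonnegative coefficients -/
private noncomputable def lanA (σ c : ℝ) (N : ℕ) (n : ℕ) : ℂ := if n < N then 0 else lanF σ c n

private lemma lan_A (σ c : ℝ) (N : ℕ) {s z : ℂ} (h : LSeriesHasSum (lanF σ c) (s + 1) z) :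
    LSeriesHasSum (lanA σ c N) (s + 1) (z - lanP σ c N s) := by
  have h1 : LSeriesHasSum (fun n => if n < N then lanF σ c n else 0) (s + 1) (lanP σ c N s) := by
    unfold LSeriesHasSum lanP
    have h2 : ∑ n ∈ Finset.range N, LSeries.term (lanF σ c) (s + 1) n =
        ∑ n ∈ Finset.range N, LSeries.term (fun n => if n < N then lanF σ c n else 0) (s + 1) n := by
      refine Finset.sum_congr rfl fun n hn => ?_
      rw [Finset.mem_range] at hn
      unfold LSeries.term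
      simp only [hn, if_true]
    rw [h2]
    refine hasSum_sum_of_ne_finset_zero fun n hn => ?_
    rw [Finset.mem_range] at hn
    unfold LSeries.term
    simp only [hn, if_false, zero_div, ite_self]
  have h3 := h.sub h1
  have e : lanA σ c N = lanF σ c - fun n => if n < N then lanF σ c n else 0 := by
    ext n
    simp only [lanA, Pi.sub_apply]
    split_ifs
    · ring
    · ring
  rw [e]
  exact h3

/-- the continuation -/
private noncomputable def lanG (σ c : ℝ) (N : ℕ) (K : ℂ → ℂ) (s : ℂ) : ℂ :=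
  σ * (-1 / s - deriv riemannZeta₁ s / (s * riemannZeta₁ s) - riemannZeta₀ s + K s) -
    c * riemannZeta₀ (s + 1 / 100) - lanP σ c N s

private lemma lan_eq (σ c : ℝ) (N : ℕ) (K : ℂ → ℂ) (hK : ∀ s : ℂ, 1 < s.re →
      LSeriesSummable (fun n => ((Chebyshev.psi n : ℝ) : ℂ)) (s + 1) ∧
      LSeries (fun n => ((Chebyshev.psi n : ℝ) : ℂ)) (s + 1) =
        -(deriv riemannZeta s / riemannZeta s) / s + K s) {s : ℂ} (hs : 1 < s.re) :
    LSeriesHasSum (lanA σ c N) (s + 1) (lanG σ c N K s - c * (s - 99 / 100)⁻¹) := by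
  have h1 := lan_A σ c N (lan_F σ c K hK hs)
  have hs1 : s ≠ 1 := by
    intro h
    rw [h] at hs
    simp at hs
  have hs0 : s ≠ 0 := by
    intro h
    rw [h] at hs
    simp at hs
    linarith
  have hs2 : s + 1 / 100 ≠ 1 := by
    intro h
    have : (s + 1 / 100).re = 1 := by rw [h]; simp
    rw [add_re] at this
    have h2 : ((1 : ℂ) / 100).re = 1 / 100 := by norm_num
    rw [h2] at this
    linarith
  have hz : riemannZeta s ≠ 0 := riemannZeta_ne_zero_of_one_lt_re hs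
  have hsub : s - 1 ≠ 0 := sub_ne_zero.2 hs1
  have hz1 : riemannZeta₁ s ≠ 0 := by
    intro h
    apply hz
    rw [riemannZeta_eq_inv_sub_mul hs1, h, mul_zero]
  convert h1 using 1
  rw [deriv_riemannZeta_eq_neg_inv_sub_sq_mul_add hs1]
  have e1 : -(((-((s - 1)⁻¹) ^ 2 * riemannZeta₁ s + (s - 1)⁻¹ * deriv riemannZeta₁ s)) /
      riemannZeta s) / s = (s - 1)⁻¹ / s - deriv riemannZeta₁ s / (s * riemannZeta₁ s) := by
    rw [riemannZeta_eq_inv_sub_mul hs1]
    field_simp
    ring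
  rw [e1, riemannZeta_eq_inv_sub_add hs1, riemannZeta_eq_inv_sub_add hs2]
  have e2 : s + 1 / 100 - 1 = s - 99 / 100 := by ring
  rw [e2]
  unfold lanG
  have e3 : (s - 1)⁻¹ / s - (s - 1)⁻¹ = -1 / s := by
    field_simp
    ring
  have e4 : (σ : ℂ) * ((s - 1)⁻¹ / s - deriv riemannZeta₁ s / (s * riemannZeta₁ s) + K s) -
      σ * ((s - 1)⁻¹ + riemannZeta₀ s) = σ * (((s - 1)⁻¹ / s - (s - 1)⁻¹) -
        deriv riemannZeta₁ s / (s * riemannZeta₁ s) - riemannZeta₀ s + K s) := by ring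
  rw [e4, e3]
  ring

private lemma lan_Gdiff (σ c : ℝ) (N : ℕ) (K : ℂ → ℂ)
    (hK : DifferentiableOn ℂ K {s : ℂ | 0 < s.re}) {s : ℂ} (hs : ‖s - 1‖ ≤ 1 / 10) :
    DifferentiableAt ℂ (lanG σ c N K) s := by
  have hre : 9 / 10 ≤ s.re := by
    have h1 : |(s - 1).re| ≤ ‖s - 1‖ := Complex.abs_re_le_norm _
    rw [sub_re, one_re] at h1
    have h2 := (abs_le.1 (h1.trans hs)).1
    linarith
  have hs0 : s ≠ 0 := by
    intro h
    rw [h] at hre
    simp at hre
    linarith
  have hz1 := zeta1_ne s hs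
  have hKs : DifferentiableAt ℂ K s := by
    refine hK.differentiableAt (IsOpen.mem_nhds ?_ ?_)
    · exact isOpen_lt continuous_const Complex.continuous_re
    · show 0 < s.re
      linarith
  have h0 : DifferentiableAt ℂ riemannZeta₀ s := differentiable_riemannZeta₀ s
  have h0' : DifferentiableAt ℂ (fun s : ℂ => riemannZeta₀ (s + 1 / 100)) s :=
    (differentiable_riemannZeta₀.comp (by fun_prop : Differentiable ℂ fun s : ℂ => s + 1 / 100)) s
  have h1 : DifferentiableAt ℂ riemannZeta₁ s := differentiable_riemannZeta₁ s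
  have h1' : DifferentiableAt ℂ (deriv riemannZeta₁) s :=
    (differentiable_riemannZeta₁.deriv) s
  have hP := lanP_diff σ c N s
  unfold lanG
  have hA : DifferentiableAt ℂ (fun s : ℂ => -1 / s) s :=
    DifferentiableAt.div (differentiableAt_const _) differentiableAt_id hs0
  have hB : DifferentiableAt ℂ (fun s : ℂ => deriv riemannZeta₁ s / (s * riemannZeta₁ s)) s :=
    DifferentiableAt.div h1' (DifferentiableAt.mul differentiableAt_id h1) (mul_ne_zero hs0 hz1)
  exact ((((hA.sub hB).sub h0).add hKs).const_mul _).sub (h0'.const_mul _) |>.sub hP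


/-- nonnegativity of the continuation on the real axis up to the pole -/
private lemma lan_nonneg (σ c : ℝ) (N : ℕ) (K : ℂ → ℂ)
    (hK1 : DifferentiableOn ℂ K {s : ℂ | 0 < s.re}) (hK : ∀ s : ℂ, 1 < s.re →
      LSeriesSummable (fun n => ((Chebyshev.psi n : ℝ) : ℂ)) (s + 1) ∧
      LSeries (fun n => ((Chebyshev.psi n : ℝ) : ℂ)) (s + 1) =
        -(deriv riemannZeta s / riemannZeta s) / s + K s)
    (hN : ∀ n : ℕ, N ≤ n → 0 ≤ σ * (Chebyshev.psi n - n) - c * (n : ℝ) ^ (99 / 100 : ℝ))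
    (t : ℝ) (ht1 : 99 / 100 < t) (ht2 : t ≤ 101 / 100) :
    0 ≤ lanG σ c N K t - c * ((t : ℂ) - 99 / 100)⁻¹ := by
  set G : ℂ → ℂ := fun s => lanG σ c N K s - c * (s - 99 / 100)⁻¹ with hG
  have hGd : DifferentiableOn ℂ G (Metric.ball (101 / 100 : ℂ) (2 / 100)) := by
    intro s hs
    rw [Metric.mem_ball, dist_eq_norm] at hs
    refine DifferentiableAt.differentiableWithinAt ?_
    have h1 : ‖s - 1‖ ≤ 1 / 10 := by
      have e : s - 1 = (s - 101 / 100) + 1 / 100 := by ring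
      rw [e]
      refine (norm_add_le _ _).trans ?_
      have : ‖(1 / 100 : ℂ)‖ = 1 / 100 := by norm_num
      rw [this]
      linarith
    have h2 : s - 99 / 100 ≠ 0 := by
      intro h
      have e : s - 101 / 100 = -(2 / 100) := by
        linear_combination h
      rw [e, norm_neg] at hs
      norm_num at hs
    rw [hG]
    refine (lan_Gdiff σ c N K hK1 h1).sub (DifferentiableAt.const_mul ?_ _)
    exact DifferentiableAt.inv (by fun_prop) h2
  have hnear : ∀ᶠ s in 𝓝 (101 / 100 : ℂ), G s = LSeries (lanA σ c N) (s + 1) := by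
    have h1 : ∀ᶠ s : ℂ in 𝓝 (101 / 100 : ℂ), 1 < s.re := by
      refine (isOpen_lt continuous_const Complex.continuous_re).mem_nhds ?_
      show (1 : ℝ) < (101 / 100 : ℂ).re
      norm_num
    filter_upwards [h1] with s hs
    exact (lan_eq σ c N K hK hs).LSeries_eq.symm
  have hna : (0 : ℕ → ℂ) ≤ lanA σ c N := by
    intro n
    unfold lanA
    split_ifs with h
    · exact le_rfl
    · rw [not_lt] at h
      unfold lanF
      rw [Pi.zero_apply]
      exact Complex.zero_le_real.2 (hN n h)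
  have habs : LSeries.abscissaOfAbsConv (lanA σ c N) < ((201 / 100 : ℝ) : EReal) := by
    have h1 : 1 < ((1001 / 1000 : ℝ) : ℂ).re := by
      rw [ofReal_re]; norm_num
    have h2 := (lan_eq σ c N K hK h1).LSeriesSummable.abscissaOfAbsConv_le
    refine lt_of_le_of_lt h2 ?_
    have h3 : (((1001 / 1000 : ℝ) : ℂ) + 1).re < 201 / 100 := by
      rw [add_re, ofReal_re, one_re]; norm_num
    exact_mod_cast h3
  have hder : ∀ k : ℕ, 0 ≤ iteratedDeriv k (fun z : ℂ => G (-z)) (-(101 / 100)) := by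
    intro k
    rw [iteratedDeriv_comp_neg, neg_neg, smul_eq_mul]
    have h1 : iteratedDeriv k G (101 / 100) =
        iteratedDeriv k (fun s : ℂ => LSeries (lanA σ c N) (s + 1)) (101 / 100) :=
      Filter.EventuallyEq.iteratedDeriv_eq k hnear
    rw [h1, iteratedDeriv_comp_add_const]
    have h2 := LSeries.iteratedDeriv_alternating hna habs k
    have e : ((201 / 100 : ℝ) : ℂ) = 101 / 100 + 1 := by push_cast; ring
    rw [e] at h2
    exact h2
  have hfd : DifferentiableOn ℂ (fun z : ℂ => G (-z)) (Metric.ball (-(101 / 100) : ℂ) (2 / 100)) := by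
    refine hGd.comp (differentiable_neg.differentiableOn) ?_
    intro z hz
    rw [Metric.mem_ball, dist_eq_norm] at hz ⊢
    rw [← norm_neg]
    have e : -(-z - 101 / 100) = z - -(101 / 100) := by ring
    rw [e]
    exact hz
  have hfin := hfd.nonneg_of_iteratedDeriv_nonneg hder (z := -(t : ℂ)) ?_ ?_
  · simpa [hG] using hfin
  · rw [neg_le_neg_iff]
    have e : (101 / 100 : ℂ) = ((101 / 100 : ℝ) : ℂ) := by push_cast; ring
    rw [e]
    exact_mod_cast ht2
  · rw [Metric.mem_ball, dist_eq_norm]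
    have e : -(t : ℂ) - -(101 / 100) = ((101 / 100 - t : ℝ) : ℂ) := by push_cast; ring
    rw [e, Complex.norm_real, Real.norm_eq_abs, abs_lt]
    constructor <;> linarith

theorem landau (σ c : ℝ) (hσ : σ = 1 ∨ σ = -1) (hc : 0 < c) :
    ¬ ∀ᶠ n : ℕ in atTop, c * (n : ℝ) ^ (99 / 100 : ℝ) ≤ σ * (Chebyshev.psi n - n) := by
  intro hev
  obtain ⟨N, hN⟩ := eventually_atTop.1 hev
  obtain ⟨K, hK1, hK⟩ := psi_series
  have hN' : ∀ n : ℕ, N ≤ n →
      0 ≤ σ * (Chebyshev.psi n - n) - c * (n : ℝ) ^ (99 / 100 : ℝ) := by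
    intro n hn
    linarith [hN n hn]
  have hcont : ContinuousAt (fun t : ℝ => (lanG σ c N K (t : ℂ)).re) (99 / 100) := by
    have h1 : ContinuousAt (lanG σ c N K) (((99 / 100 : ℝ)) : ℂ) := by
      refine (lan_Gdiff σ c N K hK1 ?_).continuousAt
      have e : (((99 / 100 : ℝ)) : ℂ) - 1 = ((-1 / 100 : ℝ) : ℂ) := by push_cast; ring
      rw [e, Complex.norm_real, Real.norm_eq_abs]
      norm_num [abs_le]
    have h2 : ContinuousAt (fun t : ℝ => (t : ℂ)) (99 / 100) :=
      Complex.continuous_ofReal.continuousAt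
    exact Complex.continuous_re.continuousAt.comp (ContinuousAt.comp h1 h2)
  set R : ℝ := (lanG σ c N K (((99 / 100 : ℝ)) : ℂ)).re with hR
  have hlt : ∀ᶠ t : ℝ in 𝓝 (99 / 100), (lanG σ c N K (t : ℂ)).re < |R| + 1 := by
    refine hcont.eventually_lt continuousAt_const ?_
    have := le_abs_self R
    show R < |R| + 1
    linarith
  rw [Metric.eventually_nhds_iff] at hlt
  obtain ⟨r, hr, hr2⟩ := hlt
  have hpos : 0 < |R| + 1 := by positivity
  set u : ℝ := min (r / 2) (min (1 / 100) (c / (|R| + 1))) with hu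
  have hu0 : 0 < u := by
    rw [hu]
    refine lt_min (by linarith) (lt_min (by norm_num) (by positivity))
  have hu1 : u ≤ r / 2 := min_le_left _ _
  have hu2 : u ≤ 1 / 100 := (min_le_right _ _).trans (min_le_left _ _)
  have hu3 : u ≤ c / (|R| + 1) := (min_le_right _ _).trans (min_le_right _ _)
  have h1 := lan_nonneg σ c N K hK1 hK hN' (99 / 100 + u) (by linarith) (by linarith)
  have h2 : (lanG σ c N K ((99 / 100 + u : ℝ) : ℂ)).re < |R| + 1 := by
    apply hr2
    rw [Real.dist_eq]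
    have : 99 / 100 + u - 99 / 100 = u := by ring
    rw [this, abs_of_pos hu0]
    linarith
  have h3 : ((c : ℂ) * (((99 / 100 + u : ℝ) : ℂ) - 99 / 100)⁻¹) = ((c / u : ℝ) : ℂ) := by
    push_cast
    rw [add_sub_cancel_left, div_eq_mul_inv]
  rw [h3] at h1
  have h4 : 0 ≤ (lanG σ c N K ((99 / 100 + u : ℝ) : ℂ) - ((c / u : ℝ) : ℂ)).re :=
    (Complex.le_def.1 h1).1
  rw [sub_re, ofReal_re] at h4
  have h5 : |R| + 1 ≤ c / u := by
    rw [le_div_iff₀ hu0]
    rw [le_div_iff₀ hpos] at hu3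
    linarith
  linarith

end Pool.Agent.H48.OM
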