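import Pool.Agent.H48.OM.PairC
import Pool.Agent.H48.OM.SumPair

/-!
[H48 OM OFFQ]  The contribution of pairs of different primes.

Notation `Θ = theta A B w`, `C = CS A B w R`, `S = Sq Q`.
Proof.  (0) For `|b| ≤ H` (`b` an integer) and `n ∈ (A,B]`: `m = n + b` is a natural number with
`1 ≤ m ≤ B + H` if `|b| < H`, `∑_{q' ∈ Q} |bq q' n b| ≤ ∑ (1/(q'-1) + [q' ∣ m]) ≤ S + K`.
(1) For fixed `b` put `U(q,q',b)` = right side of `pair_char`.  Then
`∑_{q} ∑_{q' ≠ q} U(q,q',b) ≤ 4 L^2 ∑_{d,e ≤ L} (S/Y) C + L^4 S2 (S + K) Θ` by `sum_pair`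
(with `D = lcm d e`; the prime factors of `D` are `≤ L < q`) and (0), and
`∑_{d,e ≤ L} 1 = L^2`.
(2) For `h ∈ [1,H]` and `i, j ∈ [1,H]`, `a = i - h`, `b = j - h`, `|a|, |b| < H < q`:
 * `a ≠ 0`: `q ∤ a`, `pair_char`, so `∑_{q ≠ q'} |TT(q,q',a,b)| ≤` (1);
 * `a = 0`, `b ≠ 0`: `TT(q,q',a,b) = TT(q',q,b,a)`, `q' ∤ b`, `pair_char`, and the double sum is
   symmetric (`Finset.sum_comm'`), so again `≤` (1);
 * `a = b = 0` (`i = j = h`, one pair): for a prime `n > A ≥ q, q', L`: `bq q n 0 = 1/(q-1)`,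
   `FF ρ L n 0 = ρ 1 = 1`, so `TT = Θ/((q-1)(q'-1))`, sum `≤ S^2 Θ`.
Total over the `≤ H^2` pairs `(i,j)`.  (`Θ, C, S, S2, K ≥ 0`; `K ≥ 0` by `hK` with `m = 1`.)
-/

namespace Pool.Agent.H48.OM

open Finset Pool.Agent.H21.MT Pool.Agent.H67.VS

theorem bq_sum {A B L H R : ℕ} {Q : Finset ℕ} {Y : ℝ} (hP : Par A B L H R Q Y) (K : ℝ)
    (hK : ∀ m : ℕ, 1 ≤ m → m ≤ B + H → ((Q.filter (fun q => q ∣ m)).card : ℝ) ≤ K)
    (b : ℤ) (hb : |b| < H) (n : ℕ) (hn : n ∈ Ioc A B) :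
    ∑ q' ∈ Q, |bq q' n b| ≤ Sq Q + K := by
  rw [Finset.mem_Ioc] at hn
  have hHA := hP.hHA
  rw [abs_lt] at hb
  obtain ⟨m, hm⟩ : ∃ m : ℕ, (m : ℤ) = (n : ℤ) + b := ⟨((n : ℤ) + b).toNat, Int.toNat_of_nonneg (by omega)⟩
  have hm1 : 1 ≤ m := by omega
  have hm2 : m ≤ B + H := by omega
  have hterm : ∀ q' ∈ Q, |bq q' n b| ≤ 1 / ((q' : ℝ) - 1) + (if q' ∣ m then (1 : ℝ) else 0) := by
    intro q' hq'
    have hp := hP.prime q' hq'
    have h2 : (2 : ℝ) ≤ q' := by exact_mod_cast hp.two_le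
    have h0 : 0 < (q' : ℝ) - 1 := by linarith
    have h1 : ((q' : ℤ) ∣ (n : ℤ) + b) ↔ q' ∣ m := by
      rw [← hm]
      exact Int.natCast_dvd_natCast
    unfold bq
    by_cases hd : q' ∣ m
    · rw [if_pos (h1.2 hd), if_pos hd]
      have e : (1 - (q' : ℝ)) / ((q' : ℝ) - 1) = -1 := by
        field_simp
        ring
      rw [e, abs_neg, abs_one]
      have : 0 ≤ 1 / ((q' : ℝ) - 1) := by positivity
      linarith
    · rw [if_neg (fun h => hd (h1.1 h)), if_neg hd, sub_zero, add_zero, abs_of_nonneg (by positivity)]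
  refine (Finset.sum_le_sum hterm).trans ?_
  rw [Finset.sum_add_distrib]
  refine add_le_add le_rfl ?_
  rw [Finset.sum_ite, Finset.sum_const_zero, add_zero, Finset.sum_const, nsmul_eq_mul, mul_one]
  exact hK m hm1 hm2

theorem prime_vals {A B L H R : ℕ} {ρ : ℕ → ℝ} {Q : Finset ℕ} {Y : ℝ} (hP : Par A B L H R Q Y)
    (hρ : SW L ρ) (q : ℕ) (hq : q ∈ Q) (n : ℕ) (hn : n ∈ Ioc A B) (hp : n.Prime) :
    bq q n 0 = 1 / ((q : ℝ) - 1) ∧ FF ρ L n 0 = 1 := by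
  rw [Finset.mem_Ioc] at hn
  have hpq := hP.prime q hq
  have hL := hP.hL
  have hLq := hP.hLq q hq
  have hqA : q ≤ A := by
    have h1 := hP.hA q hq q hq
    have h2 : 1 ≤ q := hpq.one_lt.le
    have h3 : 1 ≤ L ^ 2 := Nat.one_le_pow _ _ (by omega)
    calc q = q * 1 * 1 := by ring
      _ ≤ q * q * L ^ 2 := by gcongr
      _ ≤ A := h1
  have hLA : L ≤ A := by nlinarith
  constructor
  · unfold bq
    have h1 : ¬ (q : ℤ) ∣ (n : ℤ) + 0 := by
      rw [add_zero, Int.natCast_dvd_natCast]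
      intro h
      have h2 := (Nat.prime_dvd_prime_iff_eq hpq hp).1 h
      omega
    rw [if_neg h1, sub_zero]
  · unfold FF
    rw [Finset.sum_eq_single 1]
    · rw [if_pos (by simp)]
      exact hρ.one
    · intro d hd hd1
      rw [Finset.mem_Icc] at hd
      have h1 : ¬ (d : ℤ) ∣ (n : ℤ) + 0 := by
        rw [add_zero, Int.natCast_dvd_natCast]
        intro h
        rcases (Nat.dvd_prime hp).1 h with h2 | h2
        · exact hd1 h2
        · omega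
      rw [if_neg h1]
    · intro h
      exact absurd (Finset.mem_Icc.2 ⟨le_rfl, by omega⟩) h

theorem offq_theta_nonneg {A B : ℕ} {w : ℕ → ℝ} (hw : Wt A B w) : 0 ≤ theta A B w :=
  Finset.sum_nonneg fun n _ => mul_nonneg (hw.nonneg n) (pairc_pl_nonneg n)

theorem offq_CS_nonneg {A B R : ℕ} {w : ℕ → ℝ} : 0 ≤ CS A B w R :=
  Finset.sum_nonneg fun _ _ => norm_nonneg _

theorem offq_Sq_nonneg {A B L H R : ℕ} {Q : Finset ℕ} {Y : ℝ} (hP : Par A B L H R Q Y) : 0 ≤ Sq Q := by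
  unfold Sq
  refine Finset.sum_nonneg fun q hq => ?_
  have h2 : (2 : ℝ) ≤ q := by exact_mod_cast (hP.prime q hq).two_le
  exact div_nonneg zero_le_one (by linarith)

/-- one shift prime to all `q`: the sum over pairs -/
theorem offq_one {A B L H R : ℕ} {w ρ : ℕ → ℝ} {Q : Finset ℕ} {Y : ℝ} (hP : Par A B L H R Q Y)
    (hw : Wt A B w) (hρ : SW L ρ) (K : ℝ)
    (hK : ∀ m : ℕ, 1 ≤ m → m ≤ B + H → ((Q.filter (fun q => q ∣ m)).card : ℝ) ≤ K)
    (a b : ℤ) (ha : a ≠ 0) (haH : |a| < H) (hb : |b| < H) :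
    ∑ q ∈ Q, ∑ q' ∈ Q.erase q, |TT A B w ρ L q q' a b| ≤
      4 * (L : ℝ) ^ 4 * (Sq Q / Y) * CS A B w R +
        (L : ℝ) ^ 4 * S2 Q * (Sq Q + K) * theta A B w := by
  have hpos : ∀ q ∈ Q, 0 < (q : ℝ) - 1 := by
    intro q hq
    have h2 : (2 : ℝ) ≤ q := by exact_mod_cast (hP.prime q hq).two_le
    linarith
  have hndvd : ∀ q ∈ Q, ¬ (q : ℤ) ∣ a := by
    intro q hq hd
    have h1 := hP.hHq q hq
    have h2 : |a| < q := by
      have : (H : ℤ) < q := by exact_mod_cast h1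
      omega
    exact ha (Int.eq_zero_of_abs_lt_dvd hd h2)
  have hstep : ∑ q ∈ Q, ∑ q' ∈ Q.erase q, |TT A B w ρ L q q' a b| ≤
      ∑ q ∈ Q, ∑ q' ∈ Q.erase q, (4 * (L : ℝ) ^ 2 * (1 / (((q : ℝ) - 1) * ((q' : ℝ) - 1))) *
        ∑ d ∈ Icc 1 L, ∑ e ∈ Icc 1 L, CSq A B w R (Nat.lcm d e * q' * q) q +
      (L : ℝ) ^ 4 * (1 / ((q : ℝ) - 1) ^ 2) * ∑ n ∈ Ioc A B, w n * pl n * |bq q' n b|) := by
    refine Finset.sum_le_sum fun q hq => Finset.sum_le_sum fun q' hq' => ?_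
    rw [Finset.mem_erase] at hq'
    exact pair_char hP hw hρ q q' hq hq'.2 (fun h => hq'.1 h.symm) a b (hndvd q hq)
  refine hstep.trans ?_
  simp only [Finset.sum_add_distrib]
  refine add_le_add ?_ ?_
  · -- the characters
    have e1 : ∑ q ∈ Q, ∑ q' ∈ Q.erase q, 4 * (L : ℝ) ^ 2 * (1 / (((q : ℝ) - 1) * ((q' : ℝ) - 1))) *
        ∑ d ∈ Icc 1 L, ∑ e ∈ Icc 1 L, CSq A B w R (Nat.lcm d e * q' * q) q =
        4 * (L : ℝ) ^ 2 * ∑ d ∈ Icc 1 L, ∑ e ∈ Icc 1 L, ∑ q ∈ Q, ∑ q' ∈ Q.erase q,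
          1 / (((q : ℝ) - 1) * ((q' : ℝ) - 1)) * CSq A B w R (Nat.lcm d e * q' * q) q := by
      have h1 : ∀ q ∈ Q, ∑ q' ∈ Q.erase q, 4 * (L : ℝ) ^ 2 * (1 / (((q : ℝ) - 1) * ((q' : ℝ) - 1))) *
          ∑ d ∈ Icc 1 L, ∑ e ∈ Icc 1 L, CSq A B w R (Nat.lcm d e * q' * q) q =
          4 * (L : ℝ) ^ 2 * ∑ d ∈ Icc 1 L, ∑ e ∈ Icc 1 L, ∑ q' ∈ Q.erase q,
          1 / (((q : ℝ) - 1) * ((q' : ℝ) - 1)) * CSq A B w R (Nat.lcm d e * q' * q) q := by
        intro q _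
        simp only [Finset.mul_sum]
        rw [Finset.sum_comm]
        refine Finset.sum_congr rfl fun d _ => ?_
        rw [Finset.sum_comm]
        refine Finset.sum_congr rfl fun e _ => Finset.sum_congr rfl fun q' _ => ?_
        ring
      rw [Finset.sum_congr rfl h1, ← Finset.mul_sum]
      congr 1
      rw [Finset.sum_comm]
      refine Finset.sum_congr rfl fun d _ => ?_
      rw [Finset.sum_comm]
    rw [e1]
    have h2 : ∑ d ∈ Icc 1 L, ∑ e ∈ Icc 1 L, ∑ q ∈ Q, ∑ q' ∈ Q.erase q,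
          1 / (((q : ℝ) - 1) * ((q' : ℝ) - 1)) * CSq A B w R (Nat.lcm d e * q' * q) q ≤
        ∑ d ∈ Icc 1 L, ∑ e ∈ Icc 1 L, Sq Q / Y * CS A B w R := by
      refine Finset.sum_le_sum fun d hd => Finset.sum_le_sum fun e he => ?_
      refine sum_pair Q Y hP.hY (fun q hq => ⟨hP.prime q hq, hP.hYq q hq⟩) (Nat.lcm d e) ?_
      intro q hq
      have hLq : L < q := by
        have h1 := hP.hLq q hq
        have h2 := hP.hL
        nlinarith
      exact (Nat.Prime.coprime_iff_not_dvd (hP.prime q hq)).1 (gsqA_coprime (hP.prime q hq) hLq hd he)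
    calc 4 * (L : ℝ) ^ 2 * _ ≤ 4 * (L : ℝ) ^ 2 * ∑ d ∈ Icc 1 L, ∑ e ∈ Icc 1 L, Sq Q / Y * CS A B w R :=
          mul_le_mul_of_nonneg_left h2 (by positivity)
      _ = 4 * (L : ℝ) ^ 4 * (Sq Q / Y) * CS A B w R := by
          rw [Finset.sum_const, Finset.sum_const, Nat.card_Icc, Nat.add_sub_cancel, nsmul_eq_mul,
            nsmul_eq_mul]
          ring
  · -- the trivial part
    have hin : ∀ q ∈ Q, ∑ q' ∈ Q.erase q, (L : ℝ) ^ 4 * (1 / ((q : ℝ) - 1) ^ 2) *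
        ∑ n ∈ Ioc A B, w n * pl n * |bq q' n b| ≤
        (L : ℝ) ^ 4 * (1 / ((q : ℝ) - 1) ^ 2) * ((Sq Q + K) * theta A B w) := by
      intro q hq
      rw [← Finset.mul_sum]
      refine mul_le_mul_of_nonneg_left ?_ (by have := hpos q hq; positivity)
      rw [Finset.sum_comm]
      unfold theta
      rw [Finset.mul_sum]
      refine Finset.sum_le_sum fun n hn => ?_
      rw [← Finset.mul_sum]
      have hw0 : 0 ≤ w n * pl n := mul_nonneg (hw.nonneg n) (pairc_pl_nonneg n)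
      have h1 : ∑ q' ∈ Q.erase q, |bq q' n b| ≤ Sq Q + K :=
        (Finset.sum_le_sum_of_subset_of_nonneg (Finset.erase_subset _ _)
          (fun _ _ _ => abs_nonneg _)).trans (bq_sum hP K hK b hb n hn)
      calc w n * pl n * ∑ q' ∈ Q.erase q, |bq q' n b| ≤ w n * pl n * (Sq Q + K) :=
            mul_le_mul_of_nonneg_left h1 hw0
        _ = _ := by ring
    refine (Finset.sum_le_sum hin).trans (le_of_eq ?_)
    unfold S2
    rw [← Finset.sum_mul, ← Finset.mul_sum]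
    ring

theorem offq_TT_comm {A B L : ℕ} {w ρ : ℕ → ℝ} (q q' : ℕ) (a b : ℤ) :
    TT A B w ρ L q q' a b = TT A B w ρ L q' q b a := by
  unfold TT
  refine Finset.sum_congr rfl fun n _ => ?_
  ring

theorem off_q {A B L H R : ℕ} {w ρ : ℕ → ℝ} {Q : Finset ℕ} {Y : ℝ} (hP : Par A B L H R Q Y)
    (hw : Wt A B w) (hρ : SW L ρ) (K : ℝ)
    (hK : ∀ m : ℕ, 1 ≤ m → m ≤ B + H → ((Q.filter (fun q => q ∣ m)).card : ℝ) ≤ K)
    (h : ℕ) (hh : h ∈ Icc 1 H) :
    ∑ q ∈ Q, ∑ q' ∈ Q.erase q, ∑ i ∈ Icc 1 H, ∑ j ∈ Icc 1 H,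
      |TT A B w ρ L q q' ((i : ℤ) - h) ((j : ℤ) - h)| ≤
      (H : ℝ) ^ 2 * (4 * (L : ℝ) ^ 4 * (Sq Q / Y) * CS A B w R +
        (L : ℝ) ^ 4 * S2 Q * (Sq Q + K) * theta A B w) + Sq Q ^ 2 * theta A B w := by
  rw [Finset.mem_Icc] at hh
  have hpos : ∀ q ∈ Q, 0 < (q : ℝ) - 1 := by
    intro q hq
    have h2 : (2 : ℝ) ≤ q := by exact_mod_cast (hP.prime q hq).two_le
    linarith
  have hΘ := offq_theta_nonneg hw
  have hC : 0 ≤ CS A B w R := offq_CS_nonneg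
  have hS := offq_Sq_nonneg hP
  have hS2 : 0 ≤ S2 Q := Finset.sum_nonneg fun q hq => by have := hpos q hq; positivity
  have hK0 : 0 ≤ K := by
    have h1 := hP.hH
    exact (Nat.cast_nonneg _).trans (hK 1 le_rfl (by omega))
  have hY0 : 0 ≤ Y := by linarith [hP.hY]
  obtain ⟨E, hE⟩ : ∃ E : ℝ, E = 4 * (L : ℝ) ^ 4 * (Sq Q / Y) * CS A B w R +
        (L : ℝ) ^ 4 * S2 Q * (Sq Q + K) * theta A B w := ⟨_, rfl⟩
  have hE0 : 0 ≤ E := by rw [hE]; positivity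
  rw [← hE]
  have e1 : ∑ q ∈ Q, ∑ q' ∈ Q.erase q, ∑ i ∈ Icc 1 H, ∑ j ∈ Icc 1 H,
      |TT A B w ρ L q q' ((i : ℤ) - h) ((j : ℤ) - h)| =
      ∑ i ∈ Icc 1 H, ∑ j ∈ Icc 1 H, ∑ q ∈ Q, ∑ q' ∈ Q.erase q,
        |TT A B w ρ L q q' ((i : ℤ) - h) ((j : ℤ) - h)| := by
    have h1 : ∀ q ∈ Q, ∑ q' ∈ Q.erase q, ∑ i ∈ Icc 1 H, ∑ j ∈ Icc 1 H,
        |TT A B w ρ L q q' ((i : ℤ) - h) ((j : ℤ) - h)| =
        ∑ i ∈ Icc 1 H, ∑ j ∈ Icc 1 H, ∑ q' ∈ Q.erase q,
          |TT A B w ρ L q q' ((i : ℤ) - h) ((j : ℤ) - h)| := by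
      intro q _
      rw [Finset.sum_comm]
      refine Finset.sum_congr rfl fun i _ => ?_
      rw [Finset.sum_comm]
    rw [Finset.sum_congr rfl h1, Finset.sum_comm]
    refine Finset.sum_congr rfl fun i _ => ?_
    rw [Finset.sum_comm]
  rw [e1]
  have hterm : ∀ i ∈ Icc 1 H, ∀ j ∈ Icc 1 H, ∑ q ∈ Q, ∑ q' ∈ Q.erase q,
        |TT A B w ρ L q q' ((i : ℤ) - h) ((j : ℤ) - h)| ≤
        E + (if i = h then (if j = h then Sq Q ^ 2 * theta A B w else 0) else 0) := by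
    intro i hi j hj
    rw [Finset.mem_Icc] at hi hj
    by_cases hih : i = h
    · by_cases hjh : j = h
      · -- the diagonal
        rw [if_pos hih, if_pos hjh]
        have h0 : ∀ q ∈ Q, ∀ q' ∈ Q, |TT A B w ρ L q q' ((i : ℤ) - h) ((j : ℤ) - h)| =
            1 / ((q : ℝ) - 1) * (1 / ((q' : ℝ) - 1)) * theta A B w := by
          intro q hq q' hq'
          have e2 : TT A B w ρ L q q' ((i : ℤ) - h) ((j : ℤ) - h) =
              1 / ((q : ℝ) - 1) * (1 / ((q' : ℝ) - 1)) * theta A B w := by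
            unfold TT theta
            rw [Finset.mul_sum]
            refine Finset.sum_congr rfl fun n hn => ?_
            rw [hih, hjh, sub_self]
            by_cases hp : n.Prime
            · obtain ⟨h3, h4⟩ := prime_vals hP hρ q hq n hn hp
              obtain ⟨h5, -⟩ := prime_vals hP hρ q' hq' n hn hp
              rw [h3, h4, h5]
              ring
            · unfold pl
              rw [if_neg hp]
              ring
          rw [e2]
          refine abs_of_nonneg ?_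
          have h3 := hpos q hq
          have h4 := hpos q' hq'
          positivity
        have h1 : ∑ q ∈ Q, ∑ q' ∈ Q.erase q, |TT A B w ρ L q q' ((i : ℤ) - h) ((j : ℤ) - h)| ≤
            ∑ q ∈ Q, ∑ q' ∈ Q, |TT A B w ρ L q q' ((i : ℤ) - h) ((j : ℤ) - h)| :=
          Finset.sum_le_sum fun q _ => Finset.sum_le_sum_of_subset_of_nonneg (Finset.erase_subset _ _)
            (fun _ _ _ => abs_nonneg _)
        refine h1.trans ?_
        rw [Finset.sum_congr rfl fun q hq => Finset.sum_congr rfl fun q' hq' => h0 q hq q' hq']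
        simp only [← Finset.sum_mul, ← Finset.mul_sum]
        unfold Sq
        rw [sq]
        linarith
      · rw [if_pos hih, if_neg hjh, add_zero, hE]
        have h2 : ∑ q ∈ Q, ∑ q' ∈ Q.erase q, |TT A B w ρ L q q' ((i : ℤ) - h) ((j : ℤ) - h)| =
            ∑ q ∈ Q, ∑ q' ∈ Q.erase q, |TT A B w ρ L q q' ((j : ℤ) - h) ((i : ℤ) - h)| := by
          rw [Finset.sum_comm' (t' := Q) (s' := fun q' => Q.erase q')]
          · refine Finset.sum_congr rfl fun q _ => Finset.sum_congr rfl fun q' _ => ?_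
            rw [offq_TT_comm]
          · intro x y
            simp only [Finset.mem_erase]
            constructor
            · rintro ⟨h3, h4, h5⟩
              exact ⟨⟨fun h => h4 h.symm, h3⟩, h5⟩
            · rintro ⟨⟨h3, h4⟩, h5⟩
              exact ⟨h4, fun h => h3 h.symm, h5⟩
        rw [h2]
        exact offq_one hP hw hρ K hK _ _ (by omega) (by rw [abs_lt]; omega) (by rw [abs_lt]; omega)
    · rw [if_neg hih, add_zero, hE]
      exact offq_one hP hw hρ K hK _ _ (by omega) (by rw [abs_lt]; omega) (by rw [abs_lt]; omega)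
  refine (Finset.sum_le_sum fun i hi => Finset.sum_le_sum fun j hj => hterm i hi j hj).trans ?_
  simp only [Finset.sum_add_distrib, Finset.sum_const, Nat.card_Icc, Nat.add_sub_cancel, nsmul_eq_mul]
  refine add_le_add (le_of_eq (by ring)) ?_
  have e3 : ∑ i ∈ Icc 1 H, ∑ j ∈ Icc 1 H,
      (if i = h then (if j = h then Sq Q ^ 2 * theta A B w else 0) else 0) =
      Sq Q ^ 2 * theta A B w := by
    have h4 : ∀ i ∈ Icc 1 H, ∑ j ∈ Icc 1 H,
        (if i = h then (if j = h then Sq Q ^ 2 * theta A B w else 0) else 0) =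
        if i = h then Sq Q ^ 2 * theta A B w else 0 := by
      intro i _
      by_cases hi : i = h
      · simp only [if_pos hi]
        rw [Finset.sum_ite_eq', if_pos (Finset.mem_Icc.2 hh)]
      · simp only [if_neg hi, Finset.sum_const_zero]
    rw [Finset.sum_congr rfl h4, Finset.sum_ite_eq', if_pos (Finset.mem_Icc.2 hh)]
  rw [e3]

end Pool.Agent.H48.OM
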