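import Pool.Agent.H48.OM.CharOne
import Pool.Agent.H48.OM.PerB
import Pool.Agent.H67.VS.Cov
import Pool.Agent.H67.VS.GsqA

/-!
[H48 OM PAIRC]  Pairs of different primes, one shift prime to `q`.

Proof.  Pointwise `bq q n a = -(q/(q-1)) eq1 q n a - 1/(q-1)^2` (check both cases of
`q ∣ n + a`: `-1 = -(q/(q-1))(q-2)/(q-1) - 1/(q-1)^2`, `1/(q-1) = (q/(q-1)) /(q-1) - 1/(q-1)^2`).
So `TT = -(q/(q-1)) U - 1/(q-1)^2 V`, with
`V = ∑ w pl F(n+a) F(n+b) bq q' n b`, `|F| ≤ L^2` (`cov_FF_le`), `w pl ≥ 0`: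
`|V| ≤ L^4 ∑ w pl |bq q' n b|`;
`U = ∑_{d,e ≤ L} ρ_d ρ_e ∑_n w pl f_{d,e}(n) eq1 q n a`,
`f_{d,e}(n) = [d ∣ n+a] [e ∣ n+b] bq q' n b`, periodic mod `M = lcm(d,e) q'`; `q ∤ M` since `q ≠ q'`
are primes and the prime factors of the lcm are `≤ L < q`.  `per_b` (`q' ∤ lcm`) and `char_one`
with `b = 2`: `|inner sum| ≤ 2/φ(M q) CSq (M q) q`, `φ(M q) = φ(lcm) (q'-1)(q-1) ≥ (q'-1)(q-1)`
(`lcm, q', q` pairwise coprime), `M q ≤ L^2 q' q ≤ R, A`, `lcm(d,e) ≤ d e ≤ L^2`.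
`|ρ_d ρ_e| ≤ L^2`, `q/(q-1) ≤ 2`.
-/

namespace Pool.Agent.H48.OM

open Finset Pool.Agent.H21.MT Pool.Agent.H67.VS

theorem pairc_bq (q n : ℕ) (hq : 2 ≤ q) (a : ℤ) :
    bq q n a = -((q : ℝ) / ((q : ℝ) - 1)) * eq1 q n a - 1 / ((q : ℝ) - 1) ^ 2 := by
  have h1 : ((q : ℝ) - 1) ≠ 0 := by
    have : (2 : ℝ) ≤ q := by exact_mod_cast hq
    linarith
  unfold bq eq1
  by_cases h : (q : ℤ) ∣ (n : ℤ) + a
  · rw [if_pos h, if_pos h]
    field_simp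
    ring
  · rw [if_neg h, if_neg h]
    field_simp
    ring

theorem pairc_bq_per (q n m : ℕ) (b : ℤ) : bq q (n + m * q) b = bq q n b := by
  unfold bq
  have h : ((q : ℤ) ∣ ((n + m * q : ℕ) : ℤ) + b) ↔ ((q : ℤ) ∣ (n : ℤ) + b) := by
    have e : ((n + m * q : ℕ) : ℤ) + b = ((n : ℤ) + b) + (q : ℤ) * m := by
      push_cast
      ring
    rw [e]
    exact dvd_add_left (Dvd.intro _ rfl)
  simp only [h]

theorem pairc_ind_per (d m n : ℕ) (hdm : d ∣ m) (a : ℤ) :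
    (if (d : ℤ) ∣ ((n + m : ℕ) : ℤ) + a then (1 : ℝ) else 0) =
      if (d : ℤ) ∣ (n : ℤ) + a then (1 : ℝ) else 0 := by
  have h : ((d : ℤ) ∣ ((n + m : ℕ) : ℤ) + a) ↔ ((d : ℤ) ∣ (n : ℤ) + a) := by
    have e : ((n + m : ℕ) : ℤ) + a = ((n : ℤ) + a) + (m : ℤ) := by
      push_cast
      ring
    rw [e]
    exact dvd_add_left (Int.natCast_dvd_natCast.2 hdm)
  simp only [h]

/-- the inner sum for fixed `d, e` -/
theorem pairc_inner {A B L H R : ℕ} {w : ℕ → ℝ} {Q : Finset ℕ} {Y : ℝ} (hP : Par A B L H R Q Y)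
    (q q' : ℕ) (hq : q ∈ Q) (hq' : q' ∈ Q) (hne : q ≠ q') (a b : ℤ)
    (ha : ¬ (q : ℤ) ∣ a) (d e : ℕ) (hd : d ∈ Icc 1 L) (he : e ∈ Icc 1 L) :
    |∑ n ∈ Ioc A B, w n * pl n * (((if (d : ℤ) ∣ (n : ℤ) + a then (1 : ℝ) else 0) *
        (if (e : ℤ) ∣ (n : ℤ) + b then (1 : ℝ) else 0) * bq q' n b) * eq1 q n a)| ≤
      2 * (1 / (((q : ℝ) - 1) * ((q' : ℝ) - 1))) * CSq A B w R (Nat.lcm d e * q' * q) q := by
  have hpq := hP.prime q hq
  have hpq' := hP.prime q' hq'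
  have hLq : L < q := by
    have h1 := hP.hLq q hq
    have h2 := hP.hL
    nlinarith
  have hLq' : L < q' := by
    have h1 := hP.hLq q' hq'
    have h2 := hP.hL
    nlinarith
  have hcq : q.Coprime (Nat.lcm d e) := gsqA_coprime hpq hLq hd he
  have hcq' : q'.Coprime (Nat.lcm d e) := gsqA_coprime hpq' hLq' hd he
  have hcqq : q'.Coprime q := (Nat.coprime_primes hpq' hpq).2 (fun h => hne h.symm)
  rw [Finset.mem_Icc] at hd he
  have hD1 : 1 ≤ Nat.lcm d e := Nat.lcm_pos (by omega) (by omega)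
  have hDL : Nat.lcm d e ≤ L ^ 2 := by
    have h1 : Nat.lcm d e ≤ d * e := Nat.lcm_le_mul (by omega) (by omega)
    nlinarith
  have hM1 : 1 ≤ Nat.lcm d e * q' := Nat.mul_pos hD1 hpq'.pos
  have hqM : ¬ q ∣ Nat.lcm d e * q' := by
    have h1 : q.Coprime (Nat.lcm d e * q') := Nat.Coprime.mul_right hcq hcqq.symm
    exact (Nat.Prime.coprime_iff_not_dvd hpq).1 h1
  have hsz : Nat.lcm d e * q' * q ≤ q * q' * L ^ 2 := by
    calc Nat.lcm d e * q' * q ≤ L ^ 2 * q' * q := by gcongr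
      _ = q * q' * L ^ 2 := by ring
  have h := char_one (A := A) (B := B) (w := w) (Nat.lcm d e * q') q R hM1 hpq hqM
    (hsz.trans (hP.hR q hq q' hq')) (hsz.trans (hP.hA q hq q' hq'))
    (fun n => (if (d : ℤ) ∣ (n : ℤ) + a then (1 : ℝ) else 0) *
        (if (e : ℤ) ∣ (n : ℤ) + b then (1 : ℝ) else 0) * bq q' n b) (by
      intro n
      rw [pairc_ind_per d (Nat.lcm d e * q') n ((Nat.dvd_lcm_left d e).trans (Dvd.intro _ rfl)) a,
        pairc_ind_per e (Nat.lcm d e * q') n ((Nat.dvd_lcm_right d e).trans (Dvd.intro _ rfl)) b,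
        pairc_bq_per q' n (Nat.lcm d e) b]) 2
      (per_b q' d e (by omega) (by omega) hpq' ((Nat.Prime.coprime_iff_not_dvd hpq').1 hcq') a b) a ha
  refine h.trans ?_
  have hCS : 0 ≤ CSq A B w R (Nat.lcm d e * q' * q) q := Finset.sum_nonneg fun _ _ => norm_nonneg _
  refine mul_le_mul_of_nonneg_right ?_ hCS
  rw [mul_one_div]
  have hq2 : (2 : ℝ) ≤ q := by exact_mod_cast hpq.two_le
  have hq2' : (2 : ℝ) ≤ q' := by exact_mod_cast hpq'.two_le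
  have hpos : 0 < ((q : ℝ) - 1) * ((q' : ℝ) - 1) := mul_pos (by linarith) (by linarith)
  refine div_le_div_of_nonneg_left (by norm_num) hpos ?_
  have htot : (Nat.lcm d e * q' * q).totient = (Nat.lcm d e).totient * (q' - 1) * (q - 1) := by
    rw [Nat.totient_mul (Nat.Coprime.mul_left hcq.symm hcqq), Nat.totient_mul hcq'.symm,
      Nat.totient_prime hpq, Nat.totient_prime hpq']
  rw [htot]
  have hφ1 : 1 ≤ (Nat.lcm d e).totient := Nat.totient_pos.2 hD1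
  have e1 : (((Nat.lcm d e).totient * (q' - 1) * (q - 1) : ℕ) : ℝ) =
      ((Nat.lcm d e).totient : ℝ) * ((q' : ℝ) - 1) * ((q : ℝ) - 1) := by
    rw [Nat.cast_mul, Nat.cast_mul, Nat.cast_sub hpq.one_lt.le, Nat.cast_sub hpq'.one_lt.le]
    push_cast
    ring
  rw [e1]
  have hφ2 : (1 : ℝ) ≤ ((Nat.lcm d e).totient : ℝ) := by exact_mod_cast hφ1
  calc ((q : ℝ) - 1) * ((q' : ℝ) - 1) = 1 * (((q' : ℝ) - 1) * ((q : ℝ) - 1)) := by ring
    _ ≤ ((Nat.lcm d e).totient : ℝ) * (((q' : ℝ) - 1) * ((q : ℝ) - 1)) :=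
        mul_le_mul_of_nonneg_right hφ2 (mul_nonneg (by linarith) (by linarith))
    _ = _ := by ring

theorem pairc_pl_nonneg (n : ℕ) : 0 ≤ pl n := by
  unfold pl
  split_ifs with h
  · exact Real.log_nonneg (by exact_mod_cast h.one_lt.le)
  · exact le_rfl

theorem pair_char {A B L H R : ℕ} {w ρ : ℕ → ℝ} {Q : Finset ℕ} {Y : ℝ} (hP : Par A B L H R Q Y)
    (hw : Wt A B w) (hρ : SW L ρ) (q q' : ℕ) (hq : q ∈ Q) (hq' : q' ∈ Q) (hne : q ≠ q') (a b : ℤ)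
    (ha : ¬ (q : ℤ) ∣ a) :
    |TT A B w ρ L q q' a b| ≤
      4 * (L : ℝ) ^ 2 * (1 / (((q : ℝ) - 1) * ((q' : ℝ) - 1))) *
        ∑ d ∈ Icc 1 L, ∑ e ∈ Icc 1 L, CSq A B w R (Nat.lcm d e * q' * q) q +
      (L : ℝ) ^ 4 * (1 / ((q : ℝ) - 1) ^ 2) * ∑ n ∈ Ioc A B, w n * pl n * |bq q' n b| := by
  have hpq := hP.prime q hq
  have hq2 : (2 : ℝ) ≤ q := by exact_mod_cast hpq.two_le
  have hq10 : 0 < (q : ℝ) - 1 := by linarith
  obtain ⟨U, hU⟩ : ∃ U : ℝ, U = ∑ d ∈ Icc 1 L, ∑ e ∈ Icc 1 L, ρ d * ρ e *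
      ∑ n ∈ Ioc A B, w n * pl n * (((if (d : ℤ) ∣ (n : ℤ) + a then (1 : ℝ) else 0) *
        (if (e : ℤ) ∣ (n : ℤ) + b then (1 : ℝ) else 0) * bq q' n b) * eq1 q n a) := ⟨_, rfl⟩
  obtain ⟨V, hV⟩ : ∃ V : ℝ, V = ∑ n ∈ Ioc A B, w n * pl n *
      (FF ρ L n a * (FF ρ L n b * bq q' n b)) := ⟨_, rfl⟩
  have hsplit : TT A B w ρ L q q' a b = -((q : ℝ) / ((q : ℝ) - 1)) * U - 1 / ((q : ℝ) - 1) ^ 2 * V := by
    have hU2 : U = ∑ n ∈ Ioc A B, w n * pl n * (FF ρ L n a * (FF ρ L n b * bq q' n b)) * eq1 q n a := by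
      rw [hU]
      simp only [Finset.mul_sum]
      have hs : ∀ d ∈ Icc 1 L, ∑ e ∈ Icc 1 L, ∑ n ∈ Ioc A B, ρ d * ρ e * (w n * pl n *
          (((if (d : ℤ) ∣ (n : ℤ) + a then (1 : ℝ) else 0) *
        (if (e : ℤ) ∣ (n : ℤ) + b then (1 : ℝ) else 0) * bq q' n b) * eq1 q n a)) =
          ∑ n ∈ Ioc A B, ∑ e ∈ Icc 1 L, ρ d * ρ e * (w n * pl n *
          (((if (d : ℤ) ∣ (n : ℤ) + a then (1 : ℝ) else 0) *
        (if (e : ℤ) ∣ (n : ℤ) + b then (1 : ℝ) else 0) * bq q' n b) * eq1 q n a)) :=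
        fun d _ => Finset.sum_comm
      rw [Finset.sum_congr rfl hs, Finset.sum_comm]
      refine Finset.sum_congr rfl fun n _ => ?_
      have hF : FF ρ L n a * FF ρ L n b = ∑ d ∈ Icc 1 L, ∑ e ∈ Icc 1 L,
          ρ d * ρ e * ((if (d : ℤ) ∣ (n : ℤ) + a then (1 : ℝ) else 0) *
            (if (e : ℤ) ∣ (n : ℤ) + b then (1 : ℝ) else 0)) := by
        unfold FF
        rw [Finset.sum_mul_sum]
        refine Finset.sum_congr rfl fun d _ => Finset.sum_congr rfl fun e _ => ?_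
        split_ifs <;> ring
      have e1 : w n * pl n * (FF ρ L n a * (FF ρ L n b * bq q' n b)) * eq1 q n a =
          (FF ρ L n a * FF ρ L n b) * (w n * pl n * (bq q' n b * eq1 q n a)) := by ring
      rw [e1, hF, Finset.sum_mul]
      refine Finset.sum_congr rfl fun d _ => ?_
      rw [Finset.sum_mul]
      refine Finset.sum_congr rfl fun e _ => ?_
      ring
    rw [hU2, hV, Finset.mul_sum, Finset.mul_sum, ← Finset.sum_sub_distrib]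
    unfold TT
    refine Finset.sum_congr rfl fun n _ => ?_
    rw [pairc_bq q n hpq.two_le a]
    ring
  have hUb : |U| ≤ 2 * (L : ℝ) ^ 2 * (1 / (((q : ℝ) - 1) * ((q' : ℝ) - 1))) *
        ∑ d ∈ Icc 1 L, ∑ e ∈ Icc 1 L, CSq A B w R (Nat.lcm d e * q' * q) q := by
    rw [hU]
    refine (Finset.abs_sum_le_sum_abs _ _).trans ?_
    rw [Finset.mul_sum]
    refine Finset.sum_le_sum fun d hd => ?_
    refine (Finset.abs_sum_le_sum_abs _ _).trans ?_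
    rw [Finset.mul_sum]
    refine Finset.sum_le_sum fun e he => ?_
    rw [abs_mul, abs_mul]
    have h1 := pairc_inner (w := w) hP q q' hq hq' hne a b ha d e hd he
    have h2 : |ρ d| * |ρ e| ≤ (L : ℝ) ^ 2 := by
      rw [sq]
      exact mul_le_mul (hρ.bd d) (hρ.bd e) (abs_nonneg _) (Nat.cast_nonneg _)
    calc |ρ d| * |ρ e| * _ ≤ (L : ℝ) ^ 2 * (2 * (1 / (((q : ℝ) - 1) * ((q' : ℝ) - 1))) *
          CSq A B w R (Nat.lcm d e * q' * q) q) := mul_le_mul h2 h1 (abs_nonneg _) (by positivity)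
      _ = _ := by ring
  have hVb : |V| ≤ (L : ℝ) ^ 4 * ∑ n ∈ Ioc A B, w n * pl n * |bq q' n b| := by
    rw [hV]
    refine (Finset.abs_sum_le_sum_abs _ _).trans ?_
    rw [Finset.mul_sum]
    refine Finset.sum_le_sum fun n _ => ?_
    have hw0 : 0 ≤ w n * pl n := mul_nonneg (hw.nonneg n) (pairc_pl_nonneg n)
    rw [abs_mul, abs_of_nonneg hw0, abs_mul, abs_mul]
    have h1 := cov_FF_le hρ n a
    have h2 := cov_FF_le hρ n b
    have h3 : |FF ρ L n a| * |FF ρ L n b| ≤ (L : ℝ) ^ 2 * (L : ℝ) ^ 2 :=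
      mul_le_mul h1 h2 (abs_nonneg _) (by positivity)
    calc w n * pl n * (|FF ρ L n a| * (|FF ρ L n b| * |bq q' n b|))
        = (|FF ρ L n a| * |FF ρ L n b|) * (w n * pl n * |bq q' n b|) := by ring
      _ ≤ ((L : ℝ) ^ 2 * (L : ℝ) ^ 2) * (w n * pl n * |bq q' n b|) :=
          mul_le_mul_of_nonneg_right h3 (mul_nonneg hw0 (abs_nonneg _))
      _ = _ := by ring
  have hr : (q : ℝ) / ((q : ℝ) - 1) ≤ 2 := by
    rw [div_le_iff₀ hq10]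
    linarith
  have hr0 : 0 ≤ (q : ℝ) / ((q : ℝ) - 1) := by positivity
  have hr2 : 0 ≤ 1 / ((q : ℝ) - 1) ^ 2 := by positivity
  rw [hsplit]
  calc |-((q : ℝ) / ((q : ℝ) - 1)) * U - 1 / ((q : ℝ) - 1) ^ 2 * V|
      ≤ |-((q : ℝ) / ((q : ℝ) - 1)) * U| + |1 / ((q : ℝ) - 1) ^ 2 * V| := abs_sub _ _
    _ = (q : ℝ) / ((q : ℝ) - 1) * |U| + 1 / ((q : ℝ) - 1) ^ 2 * |V| := by
        rw [abs_mul, abs_neg, abs_of_nonneg hr0, abs_mul, abs_of_nonneg hr2]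
    _ ≤ 2 * (2 * (L : ℝ) ^ 2 * (1 / (((q : ℝ) - 1) * ((q' : ℝ) - 1))) *
        ∑ d ∈ Icc 1 L, ∑ e ∈ Icc 1 L, CSq A B w R (Nat.lcm d e * q' * q) q) +
        1 / ((q : ℝ) - 1) ^ 2 * ((L : ℝ) ^ 4 * ∑ n ∈ Ioc A B, w n * pl n * |bq q' n b|) :=
        add_le_add (mul_le_mul hr hUb (abs_nonneg _) (by norm_num))
          (mul_le_mul_of_nonneg_left hVb hr2)
    _ = _ := by ring

end Pool.Agent.H48.OM
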