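import Pool.Agent.H48.OM.FactA
import Pool.Agent.H48.OM.FactB
import Pool.Agent.H48.OM.CSch
import Pool.Agent.H67.VS.Sel

/-!
[H48 OM WINO]  Oscillation of `PH H` on a window, on both sides of the mean.

Proof.  `c = sqrt ε/2000`.  Suppose `σ (PH H n - m) < c sqrt(H log X)` for all `n` with
`hat y δ n ≠ 0`, `m = H Θ/M0`; put `a = c sqrt(H log X)`.  `ρ` from `sw_exists` (level `L = Lo ε X`),
`g = gH ρ L Q H`, and apply `c_sch` (`I = Ioc (Ax X) (Bx X)`, `w = hat y δ`) with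
`e1 = M0` (`fact_mean`; `m M0 = H Θ`), `e0 = X^(1/10)` (`fact_g`), `G2 = 7 H Sq M0/log L`
(`fact_sq`), `T = H X^(ε/4) M0` (`fact_third`), `V = H Sq Θ - X^(987/1000)` (`fact_cross`).
`Θ ≥ M0/2`, `Sq ≥ 1/8`: `V ≥ H Sq M0/2 - X^(987/1000)`; `a ≤ H`, `0 ≤ m ≤ 2 H log X`
(`theta_le_mass`), so `(a + |m|) e0 ≤ X^(2/10)`.  As `M0 ≥ X^(989/1000)`:
`V - (a+|m|) e0 ≥ H Sq M0/4 ≥ 0`.  So `H^2 Sq^2 M0^2/16 ≤ (a+1) M0 (7 a H Sq M0/log L + H X^(ε/4) M0)`;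
divide by `H Sq M0^2` (`Sq ≥ 1/8`): `H Sq/16 ≤ (a+1)(7 a/log L + 8 X^(ε/4))`, so
`H/128 ≤ (a+1)(7 a/log L + 8 X^(ε/4))`.
For large `X`: `a ≥ 1` (`H ≥ X^ε`), `log L ≥ (ε/200) log X` (`lo_ge`), so
`(a+1) 7 a/log L ≤ 14 a^2/log L = 14 c^2 H log X/log L ≤ 2800 c^2 H/ε = 2800 H/4000000 < H/1000`, and
`(a+1) 8 X^(ε/4) ≤ 16 c sqrt(H log X) X^(ε/4) ≤ 16 H^(3/4) sqrt(log X) ≤ H/1000` because
`X^(ε/4) ≤ H^(1/4)`, `16000 sqrt(log X) ≤ X^(ε/4) ≤ H^(1/4)` ... precisely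
`a X^(ε/4) ≤ sqrt(H log X) X^(ε/4)` and `sqrt H ≥ X^(ε/2)`, so
`sqrt(H log X) X^(ε/4) = H (sqrt(log X) X^(ε/4)/sqrt H) ≤ H sqrt(log X) X^(-ε/4) ≤ H/16000`.
Contradiction as `1/128 > 2/1000`.
-/

namespace Pool.Agent.H48.OM

open Finset Filter Pool.Agent.H21.MT Pool.Agent.H67.VS

theorem winO_final (h LX a Sq' u lL ε c : ℝ) (hh : 0 < h) (hLX : 1 ≤ LX) (hε : 0 < ε)
    (hSq : 1 / 8 ≤ Sq') (hu : 0 < u) (hu4 : u ^ 4 ≤ h) (hLu : 100 * LX ≤ u ^ 2)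
    (hc : c = Real.sqrt ε / 2000) (ha : a = c * Real.sqrt (h * LX)) (ha1 : 1 ≤ a)
    (hε1 : ε ≤ 1) (hlL : ε / 200 * LX ≤ lL)
    (hmain : h * Sq' ^ 2 / 16 ≤ (a + 1) * (7 * a * Sq' / lL + u)) : False := by
  have hS0 : 0 < Sq' := by linarith
  have hlL0 : 0 < lL := lt_of_lt_of_le (by positivity) hlL
  have hcsq : c ^ 2 = ε / 4000000 := by
    rw [hc, div_pow, Real.sq_sqrt hε.le]; norm_num
  have hasq : a ^ 2 = ε / 4000000 * (h * LX) := by
    rw [ha, mul_pow, hcsq, Real.sq_sqrt (by positivity)]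
  have ha0 : 0 < a := by linarith
  -- first term
  have h1 : a ^ 2 / lL ≤ h / 20000 := by
    rw [div_le_iff₀ hlL0, hasq]
    have h2 : h / 20000 * (ε / 200 * LX) ≤ h / 20000 * lL :=
      mul_le_mul_of_nonneg_left hlL (by positivity)
    have h3 : ε / 4000000 * (h * LX) = h / 20000 * (ε / 200 * LX) := by ring
    rw [h3]; exact h2
  -- second term
  have h4 : a * u ≤ h / 20000 := by
    apply le_of_sq_le_sq _ (by positivity)
    have h5 : (a * u) ^ 2 = ε / 4000000 * (h * (LX * u ^ 2)) := by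
      rw [mul_pow, hasq]; ring
    rw [h5]
    have h6 : LX * u ^ 2 ≤ h / 100 := by
      have h7 : LX * u ^ 2 ≤ u ^ 2 / 100 * u ^ 2 :=
        mul_le_mul_of_nonneg_right (by linarith) (by positivity)
      have h8 : u ^ 2 / 100 * u ^ 2 = u ^ 4 / 100 := by ring
      linarith
    have h9 : h * (LX * u ^ 2) ≤ h * (h / 100) := mul_le_mul_of_nonneg_left h6 hh.le
    have h10 : ε / 4000000 * (h * (LX * u ^ 2)) ≤ 1 / 4000000 * (h * (h / 100)) := by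
      apply mul_le_mul (by linarith) h9 (by positivity) (by norm_num)
    calc _ ≤ _ := h10
      _ = (h / 20000) ^ 2 := by ring
  have h11 : (a + 1) * (7 * a * Sq' / lL + u) ≤ (2 * a) * (7 * a * Sq' / lL + u) := by
    apply mul_le_mul_of_nonneg_right (by linarith)
    positivity
  have h12 : (2 * a) * (7 * a * Sq' / lL + u) = 14 * Sq' * (a ^ 2 / lL) + 2 * (a * u) := by
    ring
  have h13 : 14 * Sq' * (a ^ 2 / lL) ≤ 14 * Sq' * (h / 20000) :=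
    mul_le_mul_of_nonneg_left h1 (by positivity)
  have h14 : h * Sq' ^ 2 / 16 ≤ 14 * Sq' * (h / 20000) + 2 * (h / 20000) := by linarith
  have h15 : h * Sq' * (1 / 8) / 16 ≤ h * Sq' ^ 2 / 16 := by
    have : h * Sq' * (1 / 8) ≤ h * Sq' ^ 2 := by
      rw [pow_two, ← mul_assoc]
      exact mul_le_mul_of_nonneg_left hSq (by positivity)
    linarith
  have h16 : 2 * (h / 20000) ≤ 16 * Sq' * (h / 20000) := by
    have : 0 ≤ (8 * Sq' - 1) * (h / 10000) := mul_nonneg (by linarith) (by positivity)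
    nlinarith
  have h17 : 0 < h * Sq' := by positivity
  nlinarith

theorem winO_n1 : ∀ᶠ X : ℝ in atTop, X ^ (987 / 1000 : ℝ) +
    3 * Real.log X * X ^ (102 / 1000 : ℝ) ≤ X ^ (989 / 1000 : ℝ) / 32 := by
  have h1 : ∀ᶠ X : ℝ in atTop, Real.log X ≤ X ^ (1 / 10 : ℝ) := by
    have := (isLittleO_log_rpow_atTop (show (0 : ℝ) < 1 / 10 by norm_num)).bound
      (show (0 : ℝ) < 1 by norm_num)
    filter_upwards [this, eventually_ge_atTop 1] with X hX hX1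
    rw [Real.norm_eq_abs, Real.norm_eq_abs, abs_of_nonneg (Real.log_nonneg hX1),
      abs_of_nonneg (Real.rpow_nonneg (by linarith) _), one_mul] at hX
    exact hX
  have h2 : ∀ᶠ X : ℝ in atTop, (128 : ℝ) ≤ X ^ (2 / 1000 : ℝ) :=
    (tendsto_rpow_atTop (show (0 : ℝ) < 2 / 1000 by norm_num)).eventually_ge_atTop 128
  filter_upwards [h1, h2, eventually_ge_atTop 1] with X h1 h2 hX
  have hX0 : 0 < X := by linarith
  have h3 : X ^ (989 / 1000 : ℝ) = X ^ (2 / 1000 : ℝ) * X ^ (987 / 1000 : ℝ) := by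
    rw [← Real.rpow_add hX0]; norm_num
  have h4 : Real.log X * X ^ (102 / 1000 : ℝ) ≤ X ^ (987 / 1000 : ℝ) := by
    calc Real.log X * X ^ (102 / 1000 : ℝ) ≤ X ^ (1 / 10 : ℝ) * X ^ (102 / 1000 : ℝ) :=
          mul_le_mul_of_nonneg_right h1 (by positivity)
      _ = X ^ (202 / 1000 : ℝ) := by rw [← Real.rpow_add hX0]; norm_num
      _ ≤ X ^ (987 / 1000 : ℝ) := Real.rpow_le_rpow_of_exponent_le hX (by norm_num)
  have h5 : 0 < X ^ (987 / 1000 : ℝ) := by positivity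
  rw [h3]
  nlinarith

theorem win_osc (ε : ℝ) (hε : 0 < ε) (hε1 : ε ≤ 1 / 1000) : ∃ c : ℝ, 0 < c ∧
    ∀ᶠ X : ℝ in atTop, ∀ y δ : ℝ,
    X ≤ y → y ≤ 2 * X → X ^ (-1 / 100 : ℝ) ≤ δ → δ ≤ 1 / 2 → ∀ H : ℕ, X ^ ε ≤ H →
    (H : ℝ) ≤ X ^ (1 / 500 : ℝ) → ∀ σ : ℝ, σ = 1 ∨ σ = -1 →
    mass (Ax X) (Bx X) (hat y δ) / 2 ≤ theta (Ax X) (Bx X) (hat y δ) →
    ∃ n : ℕ, hat y δ n ≠ 0 ∧ c * Real.sqrt (H * Real.log X) ≤
      σ * (PH H n - H * theta (Ax X) (Bx X) (hat y δ) / mass (Ax X) (Bx X) (hat y δ)) := by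
  obtain ⟨c, hc⟩ : ∃ c : ℝ, c = Real.sqrt ε / 2000 := ⟨_, rfl⟩
  have hc0 : 0 < c := by rw [hc]; positivity
  have hc1 : c ≤ 1 := by
    have : Real.sqrt ε ≤ 1 := by
      rw [Real.sqrt_le_one]; linarith
    rw [hc]; linarith
  refine ⟨c, hc0, ?_⟩
  have hN2 : ∀ᶠ X : ℝ in atTop, (1 / c) ^ 2 ≤ X ^ ε :=
    (tendsto_rpow_atTop hε).eventually_ge_atTop _
  have hN3 : ∀ᶠ X : ℝ in atTop, 100 * Real.log X ≤ X ^ (ε / 2) := by
    have := (isLittleO_log_rpow_atTop (show (0 : ℝ) < ε / 2 by positivity)).bound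
      (show (0 : ℝ) < 1 / 100 by norm_num)
    filter_upwards [this, eventually_ge_atTop 1] with X hX hX1
    rw [Real.norm_eq_abs, Real.norm_eq_abs, abs_of_nonneg (Real.log_nonneg hX1),
      abs_of_nonneg (Real.rpow_nonneg (by linarith) _)] at hX
    linarith
  have hN4 : ∀ᶠ X : ℝ in atTop, 1 ≤ Real.log X := Real.tendsto_log_atTop.eventually_ge_atTop 1
  have hN5 : ∀ᶠ X : ℝ in atTop, (2 : ℝ) ≤ X ^ (ε / 200) :=
    (tendsto_rpow_atTop (by positivity)).eventually_ge_atTop _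
  filter_upwards [fact_mean, fact_g ε hε hε1, fact_cross ε hε hε1, fact_sq ε hε hε1,
    fact_third ε hε hε1, mass_ge, sq_ge, lo_ge ε hε, winO_n1, hN2, hN3, hN4,
    eventually_ge_atTop 4] with X fmean fg fcross fsq fthird fmass fSq flo n1 n2 n3 n4 hX4
  intro y δ hy1 hy2 hδ1 hδ2 H hH1 hH2 σ hσ hth
  have hX0 : 0 < X := by linarith
  have hδ0 : 0 < δ := lt_of_lt_of_le (by positivity) hδ1
  have hwt := hat_wt X y δ (by linarith) hy1 hy2 hδ0 hδ2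
  have hXe1 : 1 ≤ X ^ ε := Real.one_le_rpow (by linarith) hε.le
  have hHr : (1 : ℝ) ≤ H := le_trans hXe1 hH1
  have hH1' : 1 ≤ H := by exact_mod_cast hHr
  obtain ⟨hthe0, hthe1⟩ := theta_le_mass X y δ hX4 hy1 hy2 hδ0 hδ2
  have hL2 : 2 ≤ Lo ε X := by
    by_contra hcon
    have hle : Lo ε X ≤ 1 := by omega
    have h1 : Real.log (Lo ε X) ≤ 0 := by
      apply Real.log_nonpos (Nat.cast_nonneg _)
      exact_mod_cast hle
    have h2 : 0 < ε / 200 * Real.log X := by positivity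
    linarith [flo.1]
  obtain ⟨ρ, hρ⟩ := sw_exists (Lo ε X) hL2
  have gmean := fmean y δ hy1 hy2 hδ1 hδ2 H hH1' hH2
  have gg := fg y δ hy1 hy2 hδ1 hδ2 H hH1' hH2 ρ hρ
  have gcross := fcross y δ hy1 hy2 hδ1 hδ2 H hH1' hH2 ρ hρ
  have gsq := fsq y δ hy1 hy2 hδ1 hδ2 H hH1' hH2 ρ hρ
  have gthird := fthird y δ hy1 hy2 hδ1 hδ2 H hH1' hH2 ρ hρ
  have gmass := fmass y δ hy1 hy2 hδ1 hδ2
  set M0 := mass (Ax X) (Bx X) (hat y δ) with hM0
  set Θ := theta (Ax X) (Bx X) (hat y δ) with hΘ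
  set S := Sq (Qo X) with hS
  set lL := Real.log (Lo ε X) with hlL
  set LX := Real.log X with hLX
  have hM0pos : 0 < M0 := lt_of_lt_of_le (by positivity) gmass
  have hlL0 : 0 < lL := lt_of_lt_of_le (by positivity) flo.1
  have hS0 : 0 < S := by linarith
  have hMsum : ∑ x ∈ Ioc (Ax X) (Bx X), hat y δ x = M0 := rfl
  have flo1 := flo.1
  clear_value M0 Θ S lL LX
  by_contra hcon
  push Not at hcon
  obtain ⟨a, ha⟩ : ∃ a : ℝ, a = c * Real.sqrt (H * LX) := ⟨_, rfl⟩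
  have ha0 : 0 ≤ a := by rw [ha]; positivity
  have hHL : (1 : ℝ) ≤ H * LX := one_le_mul_of_one_le_of_one_le hHr n4
  have hsle : Real.sqrt (H * LX) ≤ H * LX := by
    rw [Real.sqrt_le_left (le_trans zero_le_one hHL), pow_two]
    exact le_mul_of_one_le_left (le_trans zero_le_one hHL) hHL
  have haHL : a ≤ H * LX := by
    rw [ha]
    calc c * Real.sqrt (H * LX) ≤ 1 * Real.sqrt (H * LX) :=
          mul_le_mul_of_nonneg_right hc1 (Real.sqrt_nonneg _)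
      _ ≤ H * LX := by rw [one_mul]; exact hsle
  have ha1 : 1 ≤ a := by
    have h1 : 1 / c ≤ Real.sqrt (H * LX) := by
      apply Real.le_sqrt_of_sq_le
      calc (1 / c) ^ 2 ≤ X ^ ε := n2
        _ ≤ H := hH1
        _ = H * 1 := (mul_one _).symm
        _ ≤ H * LX := mul_le_mul_of_nonneg_left n4 (by linarith)
    rw [div_le_iff₀ hc0] at h1
    rw [ha]; linarith
  obtain ⟨m, hm⟩ : ∃ m : ℝ, m = H * Θ / M0 := ⟨_, rfl⟩
  have hm0 : 0 ≤ m := by rw [hm]; positivity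
  have hm2 : m ≤ 2 * (H * LX) := by
    rw [hm, div_le_iff₀ hM0pos]
    calc (H : ℝ) * Θ ≤ H * (2 * LX * M0) := mul_le_mul_of_nonneg_left hthe1 (by linarith)
      _ = 2 * (H * LX) * M0 := by ring
  have hmM : m * M0 = H * Θ := by
    rw [hm]; field_simp
  have hb : (a + |m|) * X ^ (1 / 10 : ℝ) ≤ 3 * LX * X ^ (102 / 1000 : ℝ) := by
    rw [abs_of_nonneg hm0]
    have h1 : a + m ≤ 3 * (X ^ (1 / 500 : ℝ) * LX) := by
      have : (H : ℝ) * LX ≤ X ^ (1 / 500 : ℝ) * LX :=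
        mul_le_mul_of_nonneg_right hH2 (by linarith)
      linarith
    calc (a + m) * X ^ (1 / 10 : ℝ) ≤ 3 * (X ^ (1 / 500 : ℝ) * LX) * X ^ (1 / 10 : ℝ) :=
          mul_le_mul_of_nonneg_right h1 (by positivity)
      _ = 3 * LX * (X ^ (1 / 500 : ℝ) * X ^ (1 / 10 : ℝ)) := by ring
      _ = 3 * LX * X ^ (102 / 1000 : ℝ) := by
          rw [← Real.rpow_add hX0]; norm_num
  have hbig : H * S * M0 / 4 ≤ (H * S * Θ - X ^ (987 / 1000 : ℝ)) -
      (a + |m|) * X ^ (1 / 10 : ℝ) := by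
    have h1 : H * S * (M0 / 2) ≤ H * S * Θ := mul_le_mul_of_nonneg_left hth (by positivity)
    have h2 : X ^ (989 / 1000 : ℝ) / 32 ≤ H * S * M0 / 4 := by
      have h3 : (1 : ℝ) * (1 / 8) * X ^ (989 / 1000 : ℝ) ≤ H * S * M0 := by
        apply mul_le_mul _ gmass (by positivity) (by positivity)
        exact mul_le_mul hHr fSq (by norm_num) (by linarith)
      linarith
    linarith
  have hnn : 0 ≤ (H * S * Θ - X ^ (987 / 1000 : ℝ)) - (a + |m|) * X ^ (1 / 10 : ℝ) :=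
    le_trans (by positivity) hbig
  have key := c_sch (Ioc (Ax X) (Bx X)) (hat y δ) (fun n => PH H n)
    (gH ρ (Lo ε X) (Qo X) H) σ a m M0 (7 * H * S * M0 / lL) (H * X ^ (ε / 4) * M0)
    (H * S * Θ - X ^ (987 / 1000 : ℝ)) (X ^ (1 / 10 : ℝ)) M0 hσ
    (fun x _ => hwt.nonneg x) ha0 hMsum
    (fun x _ hx => by
      have := hcon x hx
      rw [← hm, ← ha] at this
      exact this.le)
    (by rw [hmM]; exact gmean) gg gsq
    (by
      rw [hm]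
      exact gthird)
    (by
      have := (abs_le.1 gcross).1
      linarith)
    hnn
  have key2 : (H * S * M0 / 4) ^ 2 ≤
      (a * M0 + M0) * (a * (7 * H * S * M0 / lL) + H * X ^ (ε / 4) * M0) :=
    le_trans (pow_le_pow_left₀ (by positivity) hbig 2) key
  have key3 : (H : ℝ) * S ^ 2 / 16 ≤ (a + 1) * (7 * a * S / lL + X ^ (ε / 4)) := by
    have h1 : (H * S * M0 / 4) ^ 2 = (H * M0 ^ 2) * ((H : ℝ) * S ^ 2 / 16) := by ring
    have h2 : (a * M0 + M0) * (a * (7 * H * S * M0 / lL) + H * X ^ (ε / 4) * M0) =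
        (H * M0 ^ 2) * ((a + 1) * (7 * a * S / lL + X ^ (ε / 4))) := by
      field_simp
    rw [h1, h2] at key2
    have h3 : 0 < (H : ℝ) * M0 ^ 2 := mul_pos (by linarith) (pow_pos hM0pos 2)
    exact le_of_mul_le_mul_left key2 h3
  have hu4 : (X ^ (ε / 4)) ^ 4 ≤ (H : ℝ) := by
    rw [← Real.rpow_natCast, ← Real.rpow_mul hX0.le]
    refine le_trans (le_of_eq ?_) hH1
    congr 1
    push_cast
    ring
  have hu2 : 100 * LX ≤ (X ^ (ε / 4)) ^ 2 := by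
    rw [← Real.rpow_natCast, ← Real.rpow_mul hX0.le]
    refine le_trans n3 (le_of_eq ?_)
    congr 1
    push_cast
    ring
  exact winO_final H LX a S (X ^ (ε / 4)) lL ε c (by linarith) n4 hε fSq (by positivity) hu4 hu2
    hc ha ha1 (by linarith) flo1 key3

end Pool.Agent.H48.OM
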