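import Mathlib

/-!
[H48 OM ZNZ]  No zeros of zeta near 1.

`riemannZeta₁ s = (s-1) ζ(s)` (`= 1` at `s = 1`) is entire in Mathlib
(`Mathlib/NumberTheory/Harmonic/ZetaAsymp.lean`).
Proof.  In the file `Pool/Agent/H11/SC7/ZetaB.lean` it is proved (private lemmas `zeta1_eq_mellin`
and the ones before, copy them) that for `Re s > 0`
`(s-1) ζ(s) = s + s (s-1) I(s)`, `I(s) = ∫_1^∞ (⌊t⌋ - t) t^(-s-1) dt`, `‖I(s)‖ ≤ 1/Re s`.
For `‖s - 1‖ ≤ 1/10`: `Re s ≥ 9/10`, `‖s (s-1) I(s)‖ ≤ ‖s‖ (1/10)(10/9) < ‖s‖` (`s ≠ 0`), so the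
left side is not `0`.
-/

namespace Pool.Agent.H48.OM

section ZNZ

open Complex Filter Topology MeasureTheory

/-- `⌊t⌋ - t` for `t ≥ 1` and `0` for `t < 1`. -/
private noncomputable def zbR (t : ℝ) : ℂ := if t < 1 then 0 else ((⌊t⌋₊ : ℂ) - (t : ℂ))

private lemma zbR_of_lt {t : ℝ} (ht : t < 1) : zbR t = 0 := by
  unfold zbR
  rw [if_pos ht]

private lemma zbR_of_ge {t : ℝ} (ht : 1 ≤ t) : zbR t = (⌊t⌋₊ : ℂ) - (t : ℂ) := by
  unfold zbR
  rw [if_neg (not_lt.mpr ht)]

private lemma norm_zbR (t : ℝ) : ‖zbR t‖ ≤ 1 := by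
  rcases lt_or_ge t 1 with h | h
  · rw [zbR_of_lt h, norm_zero]
    exact zero_le_one
  · rw [zbR_of_ge h]
    have e : (⌊t⌋₊ : ℂ) - (t : ℂ) = (((⌊t⌋₊ : ℝ) - t : ℝ) : ℂ) := by push_cast; rfl
    rw [e, Complex.norm_real, Real.norm_eq_abs, abs_le]
    have h1 : (⌊t⌋₊ : ℝ) ≤ t := Nat.floor_le (by linarith)
    have h2 : t < (⌊t⌋₊ : ℝ) + 1 := Nat.lt_floor_add_one t
    constructor <;> linarith

private lemma measurable_zbR : Measurable zbR := by
  unfold zbR
  refine Measurable.ite measurableSet_Iio measurable_const ?_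
  refine Measurable.sub ?_ Complex.measurable_ofReal
  have h1 : Measurable (fun n : ℕ => (n : ℂ)) := measurable_from_top
  exact h1.comp Nat.measurable_floor

private lemma locallyIntegrable_zbR : LocallyIntegrable zbR := by
  have h1 : LocallyIntegrable (fun _ : ℝ => (1 : ℝ)) := locallyIntegrable_const 1
  refine h1.mono measurable_zbR.aestronglyMeasurable (Eventually.of_forall fun t => ?_)
  rw [norm_one]
  exact norm_zbR t

private lemma mellin_zbR (s : ℂ) :
    mellin zbR (-s) = ∫ t in Set.Ioi (1 : ℝ), zbR t * (t : ℂ) ^ (-(s + 1)) := by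
  unfold mellin
  have h1 : ∀ t : ℝ, zbR t * (t : ℂ) ^ (-(s + 1)) = (t : ℂ) ^ (-s - 1) • zbR t := by
    intro t
    rw [smul_eq_mul, mul_comm]
    congr 2
    ring
  simp_rw [h1]
  rw [← integral_Ici_eq_integral_Ioi (x := (1 : ℝ))]
  refine setIntegral_eq_of_subset_of_forall_sdiff_eq_zero measurableSet_Ioi ?_ ?_
  · intro t ht
    exact zero_lt_one.trans_le (show (1 : ℝ) ≤ t from ht)
  · intro t ht
    have : t < 1 := by
      by_contra h
      exact ht.2 (not_lt.mp h)
    rw [zbR_of_lt this, smul_zero]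

private lemma differentiableAt_mellin_zbR {s : ℂ} (hs : 0 < s.re) :
    DifferentiableAt ℂ (fun s => mellin zbR (-s)) s := by
  have h : DifferentiableAt ℂ (mellin zbR) (-s) := by
    refine mellin_differentiableAt_of_isBigO_rpow (a := 0) (b := -s.re - 1)
      (locallyIntegrable_zbR.locallyIntegrableOn _) ?_ (by simpa using hs) ?_
      (by simp)
    · refine Asymptotics.IsBigO.of_bound 1 (Eventually.of_forall fun t => ?_)
      simpa using norm_zbR t
    · refine Asymptotics.IsBigO.of_bound 1 ?_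
      filter_upwards [Ioo_mem_nhdsGT (show (0 : ℝ) < 1 by norm_num)] with t ht
      rw [zbR_of_lt ht.2]
      simp
  exact h.comp s differentiableAt_id.neg

private lemma norm_zbR_mul_le (s : ℂ) {t : ℝ} (ht : 1 < t) :
    ‖zbR t * (t : ℂ) ^ (-(s + 1))‖ ≤ t ^ (-s.re - 1) := by
  have ht0 : 0 < t := zero_lt_one.trans ht
  rw [norm_mul, norm_cpow_eq_rpow_re_of_pos ht0]
  have e : (-(s + 1)).re = -s.re - 1 := by
    simp only [neg_add_rev, add_re, neg_re, one_re]
    ring
  rw [e]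
  calc ‖zbR t‖ * t ^ (-s.re - 1) ≤ 1 * t ^ (-s.re - 1) := by
        refine mul_le_mul_of_nonneg_right (norm_zbR t) (by positivity)
    _ = t ^ (-s.re - 1) := one_mul _

private lemma integrableOn_zbR {s : ℂ} (hs : 0 < s.re) :
    IntegrableOn (fun t : ℝ => zbR t * (t : ℂ) ^ (-(s + 1))) (Set.Ioi 1) := by
  have hint : IntegrableOn (fun t : ℝ => t ^ (-s.re - 1)) (Set.Ioi 1) :=
    integrableOn_Ioi_rpow_of_lt (by linarith) zero_lt_one
  refine Integrable.mono' hint ?_ ((ae_restrict_iff' measurableSet_Ioi).mpr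
    (Eventually.of_forall fun t ht => norm_zbR_mul_le s ht))
  refine (measurable_zbR.aestronglyMeasurable).mul ?_
  refine ContinuousOn.aestronglyMeasurable ?_ measurableSet_Ioi
  intro t ht
  exact (continuousAt_ofReal_cpow_const _ _ (Or.inr (zero_lt_one.trans ht).ne')).continuousWithinAt

private lemma eq_mellin_of_one_lt {s : ℂ} (hs : 1 < s.re) :
    (s - 1) * riemannZeta s = s + s * (s - 1) * mellin zbR (-s) := by
  have hs0 : 0 < s.re := zero_lt_one.trans hs
  have hs1 : s - 1 ≠ 0 := by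
    intro h
    have : (s - 1).re = 0 := by rw [h]; rfl
    rw [sub_re, one_re] at this
    linarith
  have hO : (fun n : ℕ ↦ ∑ k ∈ Finset.Icc 1 n, (1 : ℕ → ℂ) k) =O[atTop] fun n ↦ (n : ℝ) ^ (1 : ℝ) := by
    refine Asymptotics.IsBigO.of_bound 1 (Eventually.of_forall fun n => ?_)
    simp
  have h1 := LSeries_eq_mul_integral (fun n => (1 : ℕ → ℂ) n) zero_le_one hs
    (LSeriesSummable_one_iff.mpr hs) hO
  rw [LSeries_one_eq_riemannZeta hs] at h1
  have h2 : ∀ t ∈ Set.Ioi (1 : ℝ), (∑ k ∈ Finset.Icc 1 ⌊t⌋₊, (1 : ℕ → ℂ) k) * (t : ℂ) ^ (-(s + 1)) =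
      zbR t * (t : ℂ) ^ (-(s + 1)) + (t : ℂ) ^ (-s) := by
    intro t ht
    have ht1 : (1 : ℝ) < t := ht
    have ht0 : (t : ℂ) ≠ 0 := by
      exact_mod_cast (zero_lt_one.trans ht1).ne'
    rw [zbR_of_ge ht1.le]
    have e1 : (∑ k ∈ Finset.Icc 1 ⌊t⌋₊, (1 : ℕ → ℂ) k) = (⌊t⌋₊ : ℂ) := by
      simp
    have e2 : (t : ℂ) ^ (-s) = (t : ℂ) * (t : ℂ) ^ (-(s + 1)) := by
      have : (-s : ℂ) = 1 + (-(s + 1)) := by ring
      rw [this, Complex.cpow_add _ _ ht0, Complex.cpow_one]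
    rw [e1, e2]
    ring
  rw [setIntegral_congr_fun measurableSet_Ioi h2] at h1
  have hi2 : IntegrableOn (fun t : ℝ => (t : ℂ) ^ (-s)) (Set.Ioi 1) := by
    refine integrableOn_Ioi_cpow_of_lt ?_ zero_lt_one
    rw [neg_re]
    linarith
  rw [integral_add (integrableOn_zbR hs0) hi2, ← mellin_zbR,
    integral_Ioi_cpow_of_lt (by rw [neg_re]; linarith) zero_lt_one] at h1
  rw [h1, Complex.ofReal_one, Complex.one_cpow]
  have h3 : -s + 1 ≠ 0 := by
    intro h
    apply hs1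
    linear_combination -h
  field_simp
  ring

private lemma zeta1_of_ne {s : ℂ} (hs : s ≠ 1) :
    DirichletCharacter.LFunctionTrivChar₁ 1 s = (s - 1) * riemannZeta s := by
  unfold DirichletCharacter.LFunctionTrivChar₁ DirichletCharacter.LFunctionTrivChar
  rw [Function.update_of_ne hs, DirichletCharacter.LFunction_modOne_eq]

private lemma zeta1_eq_mellin {s : ℂ} (hs : 0 < s.re) :
    DirichletCharacter.LFunctionTrivChar₁ 1 s = s + s * (s - 1) * mellin zbR (-s) := by
  have hopen : IsOpen {z : ℂ | 0 < z.re} := isOpen_lt continuous_const continuous_re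
  have hpc : IsPreconnected {z : ℂ | 0 < z.re} :=
    (convex_halfSpace_re_gt 0).isPreconnected
  have h1 : AnalyticOnNhd ℂ (DirichletCharacter.LFunctionTrivChar₁ 1) {z : ℂ | 0 < z.re} :=
    DifferentiableOn.analyticOnNhd
      (fun z _ => (DirichletCharacter.differentiable_LFunctionTrivChar₁ 1 z).differentiableWithinAt) hopen
  have h2 : AnalyticOnNhd ℂ (fun s => s + s * (s - 1) * mellin zbR (-s)) {z : ℂ | 0 < z.re} :=
    DifferentiableOn.analyticOnNhd
      (fun z hz => (differentiableAt_id.add ((differentiableAt_id.mul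
        (differentiableAt_id.sub_const 1)).mul
          (differentiableAt_mellin_zbR hz))).differentiableWithinAt)
      hopen
  refine h1.eqOn_of_preconnected_of_eventuallyEq h2 hpc (z₀ := 2) (by simp) ?_ hs
  have hmem : {z : ℂ | 1 < z.re} ∈ 𝓝 (2 : ℂ) :=
    (isOpen_lt continuous_const continuous_re).mem_nhds (by simp)
  filter_upwards [hmem] with z hz
  have hz : 1 < z.re := hz
  have hz1 : z ≠ 1 := by
    intro h
    rw [h, one_re] at hz
    exact lt_irrefl _ hz
  rw [zeta1_of_ne hz1, eq_mellin_of_one_lt hz]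

private lemma norm_mellin_zbR {s : ℂ} (hs : 1 / 2 ≤ s.re) : ‖mellin zbR (-s)‖ ≤ 2 := by
  have hs0 : 0 < s.re := by linarith
  rw [mellin_zbR]
  have hint : IntegrableOn (fun t : ℝ => t ^ (-s.re - 1)) (Set.Ioi 1) :=
    integrableOn_Ioi_rpow_of_lt (by linarith) zero_lt_one
  refine (norm_integral_le_of_norm_le hint
    ((ae_restrict_iff' measurableSet_Ioi).mpr
      (Eventually.of_forall fun t ht => norm_zbR_mul_le s ht))).trans ?_
  rw [integral_Ioi_rpow_of_lt (by linarith) zero_lt_one, Real.one_rpow]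
  have e : -s.re - 1 + 1 = -s.re := by ring
  rw [e, neg_div_neg_eq, div_le_iff₀ hs0]
  linarith

theorem zeta1_ne (s : ℂ) (hs : ‖s - 1‖ ≤ 1 / 10) : riemannZeta₁ s ≠ 0 := by
  have hre : 1 / 2 ≤ s.re := by
    have h := (Complex.abs_re_le_norm (s - 1)).trans hs
    rw [Complex.sub_re, Complex.one_re] at h
    linarith [(abs_le.1 h).1]
  have hs0 : 0 < s.re := by linarith
  have hz : 0 < ‖s‖ := by
    rw [norm_pos_iff]
    intro h
    rw [h, Complex.zero_re] at hs0
    exact lt_irrefl _ hs0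
  rcases eq_or_ne s 1 with h | h
  · rw [h, riemannZeta₁_one]
    exact one_ne_zero
  · have e1 : riemannZeta₁ s = (s - 1) * riemannZeta s := by
      unfold riemannZeta₁ riemannZeta₀
      rw [if_neg h]
      have : s - 1 ≠ 0 := sub_ne_zero.2 h
      field_simp
      ring
    rw [e1, ← zeta1_of_ne h, zeta1_eq_mellin hs0]
    intro h0
    have h2 := norm_mellin_zbR hre
    have e2 : s = -(s * (s - 1) * mellin zbR (-s)) := by linear_combination h0
    have e3 : ‖s‖ = ‖s‖ * ‖s - 1‖ * ‖mellin zbR (-s)‖ := by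
      conv_lhs => rw [e2]
      rw [norm_neg, norm_mul, norm_mul]
    have h3 : ‖s‖ * ‖s - 1‖ * ‖mellin zbR (-s)‖ ≤ ‖s‖ * (1 / 10) * 2 := by
      gcongr
    linarith

end ZNZ

end Pool.Agent.H48.OM
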